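import Pool.Agent.Helper7.CT.Defs

/-!
# CT-A1: the maximum `G` and the maximiser `xp`

`exists_mx`: the closed disc is compact and nonempty (`0 ≤ R`). `le_G`, `G_eq`: `sSup` of a set bounded
above / with a greatest element. `G_lip`: `|dt x p - dt x q| ≤ ‖x‖ ‖p - q‖ ≤ R ‖p - q‖`.
`G_close`: compare at the maximisers. `xp_meas`: `measurable_fderiv_apply_const` for both coordinates.
`ae_isMx`: `G` is Lipschitz, so differentiable almost everywhere (Rademacher,
`LipschitzWith.ae_differentiableAt`). At such a `p` let `x` be any maximiser. `q ↦ G q - dt x q` has a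
minimum at `p` (`le_G`), so its derivative is zero: `fderiv G p v = dt x v` for all `v`, i.e. `x = xp R ψ p`
(`v = 1` gives `x.re`, `v = I` gives `x.im`).
`mx_closed`: if `x_n → x` and `IsMx R ψ p_n x_n` with `p_n` in the (compact) closed disc then a
subsequence of `p_n` converges to some `p` and `IsMx R ψ p x` (all terms are continuous).
-/

set_option autoImplicit false

open MeasureTheory Metric Set Complex

namespace Pool.Agent.Helper7.CT

variable {R : ℝ} {ψ ψ' : ℂ → ℝ}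

theorem A1_dt_cont (p : ℂ) : Continuous fun x : ℂ => dt x p := by
  unfold dt
  fun_prop

theorem A1_obj_cont (hψ : Continuous ψ) (p : ℂ) :
    Continuous fun x : ℂ => dt x p - ‖x‖ ^ 2 / 2 + ψ x :=
  (((A1_dt_cont p).sub ((continuous_norm.pow 2).div_const 2))).add hψ

theorem A1_dt_le (x p : ℂ) : |dt x p| ≤ ‖x‖ * ‖p‖ := by
  have h1 : dt x p = (x * (starRingEnd ℂ) p).re := by
    simp [dt, mul_re]
  rw [h1]
  refine (abs_re_le_norm _).trans ?_
  rw [norm_mul, RCLike.norm_conj]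

theorem A1_dt_sub (x p q : ℂ) : dt x p - dt x q = dt x (p - q) := by
  simp only [dt, sub_re, sub_im]
  ring

theorem exists_mx (hR : 0 ≤ R) (hψ : Continuous ψ) (p : ℂ) : ∃ x, IsMx R ψ p x := by
  obtain ⟨x, hx, hmax⟩ := (isCompact_closedBall (0 : ℂ) R).exists_isMaxOn
    ⟨0, mem_closedBall_self hR⟩ (A1_obj_cont hψ p).continuousOn
  exact ⟨x, hx, fun y hy => hmax hy⟩

theorem A1_greatest {p x : ℂ} (h : IsMx R ψ p x) :
    IsGreatest ((fun x => dt x p - ‖x‖ ^ 2 / 2 + ψ x) '' closedBall (0 : ℂ) R)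
      (dt x p - ‖x‖ ^ 2 / 2 + ψ x) := by
  refine ⟨⟨x, h.1, rfl⟩, ?_⟩
  rintro _ ⟨y, hy, rfl⟩
  exact h.2 y hy

theorem G_eq {p x : ℂ} (h : IsMx R ψ p x) : G R ψ p = dt x p - ‖x‖ ^ 2 / 2 + ψ x :=
  (A1_greatest h).csSup_eq

theorem le_G (hψ : Continuous ψ) {x : ℂ} (hx : x ∈ closedBall (0 : ℂ) R) (p : ℂ) :
    dt x p - ‖x‖ ^ 2 / 2 + ψ x ≤ G R ψ p := by
  refine le_csSup ?_ ⟨x, hx, rfl⟩
  exact ((isCompact_closedBall (0 : ℂ) R).image_of_continuousOn
    (A1_obj_cont hψ p).continuousOn).bddAbove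

theorem A1_lip_aux (hR : 0 ≤ R) (hψ : Continuous ψ) (p q : ℂ) :
    G R ψ p ≤ G R ψ q + R * ‖p - q‖ := by
  obtain ⟨x, hx⟩ := exists_mx hR hψ p
  have h1 := le_G hψ hx.1 q
  have h2 := A1_dt_le x (p - q)
  have h3 : ‖x‖ ≤ R := by simpa using hx.1
  have h4 : ‖x‖ * ‖p - q‖ ≤ R * ‖p - q‖ := mul_le_mul_of_nonneg_right h3 (norm_nonneg _)
  have h5 := A1_dt_sub x p q
  rw [G_eq hx]
  linarith [le_abs_self (dt x (p - q))]

theorem G_lip (hR : 0 ≤ R) (hψ : Continuous ψ) (p q : ℂ) : |G R ψ p - G R ψ q| ≤ R * ‖p - q‖ := by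
  rw [abs_le]
  have h1 := A1_lip_aux hR hψ p q
  have h2 := A1_lip_aux hR hψ q p
  rw [norm_sub_rev q p] at h2
  constructor <;> linarith

theorem A1_lipschitz (hR : 0 ≤ R) (hψ : Continuous ψ) : LipschitzWith ⟨R, hR⟩ (G R ψ) := by
  apply LipschitzWith.of_dist_le_mul
  intro p q
  rw [Real.dist_eq, dist_eq_norm]
  exact G_lip hR hψ p q

theorem G_cont (hR : 0 ≤ R) (hψ : Continuous ψ) : Continuous (G R ψ) :=
  (A1_lipschitz hR hψ).continuous

theorem A1_close_aux (hR : 0 ≤ R) (hψ : Continuous ψ) (hψ' : Continuous ψ') {ε : ℝ}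
    (h : ∀ x ∈ closedBall (0 : ℂ) R, |ψ x - ψ' x| ≤ ε) (p : ℂ) : G R ψ p ≤ G R ψ' p + ε := by
  obtain ⟨x, hx⟩ := exists_mx hR hψ p
  have h1 := le_G hψ' hx.1 p
  have h2 := h x hx.1
  rw [G_eq hx]
  linarith [le_abs_self (ψ x - ψ' x)]

theorem G_close (hR : 0 ≤ R) (hψ : Continuous ψ) (hψ' : Continuous ψ') {ε : ℝ}
    (h : ∀ x ∈ closedBall (0 : ℂ) R, |ψ x - ψ' x| ≤ ε) (p : ℂ) : |G R ψ p - G R ψ' p| ≤ ε := by
  rw [abs_le]
  have h1 := A1_close_aux hR hψ hψ' h p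
  have h2 := A1_close_aux hR hψ' hψ (fun x hx => by rw [abs_sub_comm]; exact h x hx) p
  constructor <;> linarith

theorem xp_meas (R : ℝ) (ψ : ℂ → ℝ) : Measurable (xp R ψ) := by
  have h1 : Measurable fun p : ℂ => fderiv ℝ (G R ψ) p 1 := measurable_fderiv_apply_const ℝ _ 1
  have h2 : Measurable fun p : ℂ => fderiv ℝ (G R ψ) p I := measurable_fderiv_apply_const ℝ _ I
  have h3 : xp R ψ = fun p => ((fderiv ℝ (G R ψ) p 1 : ℝ) : ℂ) +
      ((fderiv ℝ (G R ψ) p I : ℝ) : ℂ) * I := by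
    funext p
    apply Complex.ext <;> simp [xp]
  rw [h3]
  exact (Complex.measurable_ofReal.comp h1).add
    ((Complex.measurable_ofReal.comp h2).mul_const _)

theorem A1_fderiv {p x : ℂ} (hψ : Continuous ψ) (hd : DifferentiableAt ℝ (G R ψ) p)
    (hx : IsMx R ψ p x) (v : ℂ) : fderiv ℝ (G R ψ) p v = dt x v := by
  let L : ℂ →ₗ[ℝ] ℝ :=
    { toFun := fun q => dt x q
      map_add' := fun a b => by simp only [dt, add_re, add_im]; ring
      map_smul' := fun c a => by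
        simp only [dt, real_smul, mul_re, mul_im, ofReal_re, ofReal_im, zero_mul, sub_zero,
          add_zero, smul_eq_mul, RingHom.id_apply]
        ring }
  let L' : ℂ →L[ℝ] ℝ := LinearMap.toContinuousLinearMap L
  have hL : HasFDerivAt (fun q => dt x q) L' p := L'.hasFDerivAt
  have h1 : IsLocalMin (fun q => G R ψ q - dt x q) p := by
    refine Filter.Eventually.of_forall fun q => ?_
    have h2 := le_G hψ hx.1 q
    have h3 := G_eq hx
    change G R ψ p - dt x p ≤ G R ψ q - dt x q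
    linarith
  have h2 := h1.hasFDerivAt_eq_zero (hd.hasFDerivAt.sub hL)
  have h3 := congrArg (fun T : ℂ →L[ℝ] ℝ => T v) h2
  have h4 : fderiv ℝ (G R ψ) p v - dt x v = 0 := h3
  linarith

theorem ae_isMx (hR : 0 ≤ R) (hψ : Continuous ψ) :
    ∀ᵐ p : ℂ, IsMx R ψ p (xp R ψ p) ∧ ∀ x, IsMx R ψ p x → x = xp R ψ p := by
  filter_upwards [(A1_lipschitz hR hψ).ae_differentiableAt (μ := volume)] with p hp
  have h1 : ∀ x, IsMx R ψ p x → x = xp R ψ p := by
    intro x hx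
    have e1 := A1_fderiv hψ hp hx 1
    have e2 := A1_fderiv hψ hp hx I
    simp only [dt, one_re, one_im, I_re, I_im, mul_one, mul_zero, add_zero, zero_add] at e1 e2
    apply Complex.ext
    · exact e1.symm
    · exact e2.symm
  obtain ⟨x, hx⟩ := exists_mx hR hψ p
  exact ⟨h1 x hx ▸ hx, h1⟩

theorem mx_closed (hψ : Continuous ψ) :
    IsClosed {x : ℂ | ∃ p ∈ closedBall (0 : ℂ) R, IsMx R ψ p x} := by
  have hdt : Continuous fun z : ℂ × ℂ => dt z.1 z.2 := by
    unfold dt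
    fun_prop
  have h1 : IsClosed {z : ℂ × ℂ | IsMx R ψ z.2 z.1} := by
    have h2 : {z : ℂ × ℂ | IsMx R ψ z.2 z.1} = {z | z.1 ∈ closedBall (0 : ℂ) R} ∩
        ⋂ y ∈ closedBall (0 : ℂ) R, {z | dt y z.2 - ‖y‖ ^ 2 / 2 + ψ y ≤
          dt z.1 z.2 - ‖z.1‖ ^ 2 / 2 + ψ z.1} := by
      ext z
      simp only [Set.mem_ofPred_eq, IsMx, mem_inter_iff, mem_iInter]
    rw [h2]
    refine (isClosed_closedBall.preimage continuous_fst).inter
      (isClosed_biInter fun y _ => isClosed_le ?_ ?_)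
    · have h3 : Continuous fun z : ℂ × ℂ => dt y z.2 := by
        unfold dt
        fun_prop
      exact (h3.sub continuous_const).add continuous_const
    · exact (hdt.sub (((continuous_norm.comp continuous_fst).pow 2).div_const 2)).add
        (hψ.comp continuous_fst)
  have h2 : {x : ℂ | ∃ p ∈ closedBall (0 : ℂ) R, IsMx R ψ p x} =
      Prod.fst '' ({z : ℂ × ℂ | IsMx R ψ z.2 z.1} ∩
        (closedBall (0 : ℂ) R ×ˢ closedBall (0 : ℂ) R)) := by
    ext x
    constructor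
    · rintro ⟨p, hp, hx⟩
      exact ⟨(x, p), ⟨hx, hx.1, hp⟩, rfl⟩
    · rintro ⟨⟨x', p⟩, ⟨hx, _, hp⟩, rfl⟩
      exact ⟨p, hp, hx⟩
  rw [h2]
  apply IsCompact.isClosed
  exact (((isCompact_closedBall (0 : ℂ) R).prod (isCompact_closedBall (0 : ℂ) R)).inter_left
    h1).image continuous_fst

end Pool.Agent.Helper7.CT
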