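import Pool.Agent.Helper7.CT.A1

/-!
# CT-A2: a minimiser exists

PROOF. Let `X` be the closed disc. (i) Hull: for `ψ` continuous put `ψh x = ‖x‖²/2 + inf_{p ∈ X} (G R ψ p - dt x p)`
for `x ∈ X`. Then `ψ ≤ ψh` on `X` (`le_G`), `dt x p - ‖x‖²/2 + ψh x ≤ G R ψ p` for `x, p ∈ X`, so `G R ψh ≤ G R ψ` on `X`,
and `(φ - ψh)⁺ ≤ (φ - ψ)⁺`: `Fn R φ ψh ≤ Fn R φ ψ`. And `ψh` is `2R`-Lipschitz on `X`
(`|‖x‖²/2 - ‖y‖²/2| ≤ R ‖x - y‖`, `|dt x p - dt y p| ≤ R ‖x - y‖`).
(ii) Bounds: `G R ψ p ≥ ‖p‖²/2 + ψ p` (take `x = p`). So if `b ≤ ψ` on `X`, `Fn R φ ψ ≤ Fn R φ b` and `ψ` is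
`2R`-Lipschitz on `X`, then `∫_X ψ ≤ Fn R φ b`, so `min_X ψ ≤ C` and `|ψ| ≤ M` on `X` with `M` depending only on
`R, φ, b`.
(iii) Let `K` be the set of the functions on `X` which are `2R`-Lipschitz, with `|·| ≤ M` and `≥ b`: compact in the uniform
norm (Arzelà–Ascoli, `BoundedContinuousFunction.arzela_ascoli₁` for the compact space `X`), and `Fn` is continuous on it
(`G_close`; `|(φ-ψ)⁺ - (φ-ψ')⁺| ≤ |ψ-ψ'|`; `X` has finite measure). Take a minimiser on `K` (`K` is not empty: the hull of `b`),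
extend it to a continuous function on `ℂ` (`LipschitzOnWith.extend_real`). `Fn` depends only on the values on `X`.
For an admissible `ψ'` with `Fn R φ ψ' ≤ Fn R φ b` the hull is in `K`; otherwise the hull of `b` is better.
-/

set_option autoImplicit false

open MeasureTheory Metric Set Complex

namespace Pool.Agent.Helper7.CT

/-- the radial retraction to the disc -/
private noncomputable def pj (R : ℝ) (x : ℂ) : ℂ := ((R / max R ‖x‖ : ℝ) : ℂ) * x

private lemma pj_mem {R : ℝ} (hR : 0 < R) (x : ℂ) : pj R x ∈ closedBall (0 : ℂ) R := by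
  have h' : 0 < max R ‖x‖ := lt_max_of_lt_left hR
  rw [mem_closedBall_zero_iff]
  unfold pj
  rw [norm_mul, Complex.norm_real, Real.norm_eq_abs, abs_of_nonneg (by positivity), div_mul_eq_mul_div,
    div_le_iff₀ h']
  exact mul_le_mul_of_nonneg_left (le_max_right R ‖x‖) hR.le

private lemma pj_eq {R : ℝ} (hR : 0 < R) {x : ℂ} (hx : x ∈ closedBall (0 : ℂ) R) : pj R x = x := by
  rw [mem_closedBall_zero_iff] at hx
  unfold pj
  rw [max_eq_left hx, div_self hR.ne']
  simp

private lemma pj_cont {R : ℝ} (hR : 0 < R) : Continuous (pj R) := by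
  unfold pj
  apply Continuous.mul _ continuous_id
  apply Complex.continuous_ofReal.comp
  exact continuous_const.div (continuous_const.max continuous_norm) fun x => (lt_max_of_lt_left hR).ne'

/-- extension of a function on the disc -/
private noncomputable def ex {R : ℝ} (hR : 0 < R) (f : C(closedBall (0 : ℂ) R, ℝ)) : ℂ → ℝ :=
  fun x => f ⟨pj R x, pj_mem hR x⟩

private lemma ex_cont {R : ℝ} (hR : 0 < R) (f : C(closedBall (0 : ℂ) R, ℝ)) : Continuous (ex hR f) :=
  f.continuous.comp ((pj_cont hR).subtype_mk _)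

private lemma ex_eq {R : ℝ} (hR : 0 < R) (f : C(closedBall (0 : ℂ) R, ℝ)) {x : ℂ}
    (hx : x ∈ closedBall (0 : ℂ) R) : ex hR f x = f ⟨x, hx⟩ := by
  unfold ex
  congr 1
  exact Subtype.ext (pj_eq hR hx)

private lemma dt_le (x p : ℂ) : dt x p ≤ ‖x‖ * ‖p‖ := by
  have h1 : dt x p = (x * (starRingEnd ℂ) p).re := by
    unfold dt
    simp [Complex.mul_re]
  rw [h1]
  refine (Complex.re_le_norm _).trans ?_
  rw [norm_mul, Complex.norm_conj]

private lemma dt_sub_le {R : ℝ} {x y p : ℂ} (hp : p ∈ closedBall (0 : ℂ) R) :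
    dt y p - dt x p ≤ R * ‖x - y‖ := by
  have h1 : dt y p - dt x p = dt (y - x) p := by
    unfold dt
    simp only [Complex.sub_re, Complex.sub_im]
    ring
  rw [h1]
  rw [mem_closedBall_zero_iff] at hp
  calc dt (y - x) p ≤ ‖y - x‖ * ‖p‖ := dt_le _ _
    _ ≤ ‖y - x‖ * R := mul_le_mul_of_nonneg_left hp (norm_nonneg _)
    _ = R * ‖x - y‖ := by rw [norm_sub_rev, mul_comm]

private lemma sq_sub_le {R : ℝ} {x y : ℂ} (hx : x ∈ closedBall (0 : ℂ) R) (hy : y ∈ closedBall (0 : ℂ) R) :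
    ‖x‖ ^ 2 / 2 - ‖y‖ ^ 2 / 2 ≤ R * ‖x - y‖ := by
  rw [mem_closedBall_zero_iff] at hx hy
  have h1 : ‖x‖ - ‖y‖ ≤ ‖x - y‖ := norm_sub_norm_le x y
  have h0 := norm_nonneg (x - y)
  have hx0 := norm_nonneg x
  have hy0 := norm_nonneg y
  nlinarith [mul_le_mul_of_nonneg_right h1 (add_nonneg hx0 hy0),
    mul_le_mul_of_nonneg_left (add_le_add hx hy) h0]

/-- the hull -/
private noncomputable def hl (R : ℝ) (ψ : ℂ → ℝ) (x : ℂ) : ℝ :=
  ‖x‖ ^ 2 / 2 + ⨅ p : closedBall (0 : ℂ) R, (G R ψ p - dt x p)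

section

variable {R : ℝ} {ψ : ℂ → ℝ}

private lemma hl_nonempty (hR : 0 < R) : Nonempty (closedBall (0 : ℂ) R) :=
  ⟨⟨0, mem_closedBall_self hR.le⟩⟩

private lemma hl_bdd (hψ : Continuous ψ) {x : ℂ} (hx : x ∈ closedBall (0 : ℂ) R) :
    BddBelow (range fun p : closedBall (0 : ℂ) R => G R ψ p - dt x p) := by
  refine ⟨ψ x - ‖x‖ ^ 2 / 2, ?_⟩
  rintro _ ⟨p, rfl⟩
  have := le_G hψ hx (p : ℂ)
  simp only
  linarith

private lemma hl_ge (hR : 0 < R) (hψ : Continuous ψ) {x : ℂ} (hx : x ∈ closedBall (0 : ℂ) R) :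
    ψ x ≤ hl R ψ x := by
  have := hl_nonempty hR
  unfold hl
  have h : ψ x - ‖x‖ ^ 2 / 2 ≤ ⨅ p : closedBall (0 : ℂ) R, (G R ψ p - dt x p) := by
    apply le_ciInf
    intro p
    have := le_G hψ hx (p : ℂ)
    linarith
  linarith

private lemma hl_le (hψ : Continuous ψ) {x p : ℂ} (hx : x ∈ closedBall (0 : ℂ) R)
    (hp : p ∈ closedBall (0 : ℂ) R) : dt x p - ‖x‖ ^ 2 / 2 + hl R ψ x ≤ G R ψ p := by
  have h := ciInf_le (hl_bdd hψ hx) ⟨p, hp⟩
  unfold hl
  simp only at h
  linarith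

private lemma hl_lip (hR : 0 < R) (hψ : Continuous ψ) {x y : ℂ} (hx : x ∈ closedBall (0 : ℂ) R)
    (hy : y ∈ closedBall (0 : ℂ) R) : hl R ψ x - hl R ψ y ≤ 2 * R * ‖x - y‖ := by
  have := hl_nonempty hR
  have h : hl R ψ x - 2 * R * ‖x - y‖ - ‖y‖ ^ 2 / 2 ≤
      ⨅ p : closedBall (0 : ℂ) R, (G R ψ p - dt y p) := by
    apply le_ciInf
    intro p
    have h1 := hl_le hψ hx p.2
    have h2 := dt_sub_le (x := x) (y := y) p.2
    have h3 := sq_sub_le hx hy
    linarith
  have e : hl R ψ y = ‖y‖ ^ 2 / 2 + ⨅ p : closedBall (0 : ℂ) R, (G R ψ p - dt y p) := rfl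
  rw [e]
  linarith

private lemma hl_lips (hR : 0 < R) (hψ : Continuous ψ) {x y : ℂ} (hx : x ∈ closedBall (0 : ℂ) R)
    (hy : y ∈ closedBall (0 : ℂ) R) : |hl R ψ x - hl R ψ y| ≤ 2 * R * ‖x - y‖ := by
  rw [abs_le]
  have h1 := hl_lip hR hψ hx hy
  have h2 := hl_lip hR hψ hy hx
  rw [norm_sub_rev] at h2
  constructor <;> linarith

/-- the hull as a continuous function on the disc -/
private noncomputable def hc (hR : 0 < R) (hψ : Continuous ψ) : C(closedBall (0 : ℂ) R, ℝ) :=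
  ⟨fun x => hl R ψ x, by
    have : LipschitzWith (Real.toNNReal (2 * R)) (fun x : closedBall (0 : ℂ) R => hl R ψ x) := by
      apply LipschitzWith.of_dist_le_mul
      intro x y
      rw [Real.dist_eq, Real.coe_toNNReal _ (by positivity), Subtype.dist_eq, Complex.dist_eq]
      exact hl_lips hR hψ x.2 y.2
    exact this.continuous⟩

private lemma vol_fin (R : ℝ) : volume (closedBall (0 : ℂ) R) ≠ ⊤ := measure_closedBall_lt_top.ne

private lemma int_on {f : ℂ → ℝ} (hf : Continuous f) (R : ℝ) :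
    IntegrableOn f (closedBall (0 : ℂ) R) :=
  hf.continuousOn.integrableOn_compact (isCompact_closedBall _ _)

private lemma hc_Fn (hR : 0 < R) (hψ : Continuous ψ) {φ : ℂ → ℝ} (hφ : Continuous φ) :
    Fn R φ (ex hR (hc hR hψ)) ≤ Fn R φ ψ := by
  have hxc := ex_cont hR (hc hR hψ)
  have hxe : ∀ x ∈ closedBall (0 : ℂ) R, ex hR (hc hR hψ) x = hl R ψ x := fun x hx => ex_eq hR _ hx
  unfold Fn
  apply add_le_add
  · apply setIntegral_mono_on (int_on (G_cont hR.le hxc) R) (int_on (G_cont hR.le hψ) R)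
      measurableSet_closedBall
    intro p hp
    obtain ⟨x, hx⟩ := exists_mx hR.le hxc p
    rw [G_eq hx, hxe x hx.1]
    exact hl_le hψ hx.1 hp
  · apply mul_le_mul_of_nonneg_left _ (by norm_num)
    have i1 : IntegrableOn (fun x => max (φ x - ex hR (hc hR hψ) x) 0) (closedBall (0 : ℂ) R) :=
      int_on (by fun_prop) R
    have i2 : IntegrableOn (fun x => max (φ x - ψ x) 0) (closedBall (0 : ℂ) R) := int_on (by fun_prop) R
    apply setIntegral_mono_on i1 i2 measurableSet_closedBall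
    intro x hx
    have h1 := hl_ge hR hψ hx
    have h2 := hxe x hx
    apply max_le_max _ le_rfl
    rw [h2]
    linarith

end

/-- the compact set of functions -/
private def Kset (R M : ℝ) (b : ℂ → ℝ) : Set (C(closedBall (0 : ℂ) R, ℝ)) :=
  {f | (∀ x y : closedBall (0 : ℂ) R, |f x - f y| ≤ 2 * R * ‖(x : ℂ) - y‖) ∧
    (∀ x : closedBall (0 : ℂ) R, b x ≤ f x) ∧ ∀ x : closedBall (0 : ℂ) R, f x ≤ M}

private lemma K_compact {R M : ℝ} (hR : 0 < R) (b : ℂ → ℝ) : IsCompact (Kset R M b) := by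
  apply ArzelaAscoli.isCompact_of_equicontinuous
  · have e : ContinuousMap.toFun '' (Kset R M b) =
        {f : closedBall (0 : ℂ) R → ℝ |
          (∀ x y : closedBall (0 : ℂ) R, |f x - f y| ≤ 2 * R * ‖(x : ℂ) - y‖) ∧
          (∀ x : closedBall (0 : ℂ) R, b x ≤ f x) ∧ ∀ x : closedBall (0 : ℂ) R, f x ≤ M} := by
      ext f
      constructor
      · rintro ⟨g, hg, rfl⟩
        exact hg
      · intro hf
        have hL : LipschitzWith (Real.toNNReal (2 * R)) f := by
          apply LipschitzWith.of_dist_le_mul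
          intro x y
          rw [Real.dist_eq, Real.coe_toNNReal _ (by positivity), Subtype.dist_eq, Complex.dist_eq]
          exact hf.1 x y
        exact ⟨⟨f, hL.continuous⟩, hf, rfl⟩
    rw [e]
    have hcl : IsClosed {f : closedBall (0 : ℂ) R → ℝ |
          (∀ x y : closedBall (0 : ℂ) R, |f x - f y| ≤ 2 * R * ‖(x : ℂ) - y‖) ∧
          (∀ x : closedBall (0 : ℂ) R, b x ≤ f x) ∧ ∀ x : closedBall (0 : ℂ) R, f x ≤ M} := by
      apply IsClosed.inter
      · show IsClosed {f : closedBall (0 : ℂ) R → ℝ |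
          ∀ x y : closedBall (0 : ℂ) R, |f x - f y| ≤ 2 * R * ‖(x : ℂ) - y‖}
        simp only [ofPred_forall]
        exact isClosed_iInter fun x => isClosed_iInter fun y =>
          isClosed_le (by fun_prop) continuous_const
      · apply IsClosed.inter
        · show IsClosed {f : closedBall (0 : ℂ) R → ℝ | ∀ x : closedBall (0 : ℂ) R, b x ≤ f x}
          simp only [ofPred_forall]
          exact isClosed_iInter fun x => isClosed_le continuous_const (by fun_prop)
        · show IsClosed {f : closedBall (0 : ℂ) R → ℝ | ∀ x : closedBall (0 : ℂ) R, f x ≤ M}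
          simp only [ofPred_forall]
          exact isClosed_iInter fun x => isClosed_le (by fun_prop) continuous_const
    apply IsCompact.of_isClosed_subset (isCompact_univ_pi fun x : closedBall (0 : ℂ) R =>
      isCompact_Icc (a := b x) (b := M)) hcl
    intro f hf x _
    exact ⟨hf.2.1 x, hf.2.2 x⟩
  · apply UniformEquicontinuous.equicontinuous
    apply LipschitzWith.uniformEquicontinuous _ (Real.toNNReal (2 * R))
    intro f
    apply LipschitzWith.of_dist_le_mul
    intro x y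
    rw [Real.dist_eq, Real.coe_toNNReal _ (by positivity), Subtype.dist_eq, Complex.dist_eq]
    exact f.2.1 x y

private lemma Fn_cont {R : ℝ} (hR : 0 < R) {φ : ℂ → ℝ} (hφ : Continuous φ) :
    Continuous fun f : C(closedBall (0 : ℂ) R, ℝ) => Fn R φ (ex hR f) := by
  set V : ℝ := (volume (closedBall (0 : ℂ) R)).toReal with hV
  have hV0 : 0 ≤ V := ENNReal.toReal_nonneg
  have key : ∀ f g : C(closedBall (0 : ℂ) R, ℝ), Fn R φ (ex hR f) - Fn R φ (ex hR g) ≤ 5 * V * dist f g := by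
    intro f g
    have hfc := ex_cont hR f
    have hgc := ex_cont hR g
    have hd : ∀ x ∈ closedBall (0 : ℂ) R, |ex hR f x - ex hR g x| ≤ dist f g := by
      intro x hx
      rw [← Real.dist_eq, ex_eq hR f hx, ex_eq hR g hx]
      exact ContinuousMap.dist_apply_le_dist _
    have hGg : Continuous (G R (ex hR g)) := G_cont hR.le hgc
    have i1 : IntegrableOn (fun p => G R (ex hR g) p + dist f g) (closedBall (0 : ℂ) R) :=
      int_on (by fun_prop) R
    have i2 : IntegrableOn (fun x => max (φ x - ex hR f x) 0) (closedBall (0 : ℂ) R) := int_on (by fun_prop) R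
    have i3 : IntegrableOn (fun x => max (φ x - ex hR g x) 0) (closedBall (0 : ℂ) R) := int_on (by fun_prop) R
    have i4 : IntegrableOn (fun x => max (φ x - ex hR g x) 0 + dist f g) (closedBall (0 : ℂ) R) :=
      int_on (by fun_prop) R
    have i5 : IntegrableOn (fun _ : ℂ => dist f g) (closedBall (0 : ℂ) R) := int_on (by fun_prop) R
    have h1 : (∫ p in closedBall (0 : ℂ) R, G R (ex hR f) p) ≤
        ∫ p in closedBall (0 : ℂ) R, (G R (ex hR g) p + dist f g) := by
      apply setIntegral_mono_on (int_on (G_cont hR.le hfc) R) i1 measurableSet_closedBall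
      intro p _
      have := (abs_le.1 (G_close hR.le hfc hgc hd p)).2
      linarith
    have h2 : (∫ x in closedBall (0 : ℂ) R, max (φ x - ex hR f x) 0) ≤
        ∫ x in closedBall (0 : ℂ) R, (max (φ x - ex hR g x) 0 + dist f g) := by
      apply setIntegral_mono_on i2 i4 measurableSet_closedBall
      intro x hx
      have h3 := (abs_le.1 (hd x hx)).1
      have h4 := le_max_left (φ x - ex hR g x) 0
      have h5 := le_max_right (φ x - ex hR g x) 0
      have h6 : (0 : ℝ) ≤ dist f g := dist_nonneg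
      apply max_le
      · linarith
      · linarith
    have hcst : ∫ _ in closedBall (0 : ℂ) R, dist f g = V * dist f g := by
      rw [setIntegral_const, smul_eq_mul, measureReal_def]
    rw [integral_add (int_on hGg R) i5, hcst] at h1
    rw [integral_add i3 i5, hcst] at h2
    unfold Fn
    linarith
  have hL : LipschitzWith (Real.toNNReal (5 * V)) fun f : C(closedBall (0 : ℂ) R, ℝ) => Fn R φ (ex hR f) := by
    apply LipschitzWith.of_dist_le_mul
    intro f g
    rw [Real.dist_eq, Real.coe_toNNReal _ (by positivity), abs_le]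
    have h1 := key f g
    have h2 := key g f
    rw [dist_comm] at h2
    constructor <;> linarith
  exact hL.continuous

private lemma upper {R : ℝ} (hR : 0 < R) {φ : ℂ → ℝ} {f : C(closedBall (0 : ℂ) R, ℝ)}
    (hL : ∀ x y : closedBall (0 : ℂ) R, |f x - f y| ≤ 2 * R * ‖(x : ℂ) - y‖) {F₀ : ℝ} (hF : Fn R φ (ex hR f) ≤ F₀)
    (x : closedBall (0 : ℂ) R) :
    f x ≤ F₀ / (volume (closedBall (0 : ℂ) R)).toReal + 4 * R ^ 2 := by
  set V : ℝ := (volume (closedBall (0 : ℂ) R)).toReal with hV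
  have hV0 : 0 < V := ENNReal.toReal_pos (measure_closedBall_pos _ _ hR).ne' (vol_fin R)
  have hfc := ex_cont hR f
  have h1 : ∫ p in closedBall (0 : ℂ) R, (f x - 4 * R ^ 2) ≤ ∫ p in closedBall (0 : ℂ) R, G R (ex hR f) p := by
    apply setIntegral_mono_on (int_on continuous_const R) (int_on (G_cont hR.le hfc) R) measurableSet_closedBall
    intro p hp
    have h2 := le_G hfc hp p
    rw [ex_eq hR f hp] at h2
    have h3 : dt p p = ‖p‖ ^ 2 := by
      unfold dt
      rw [← Complex.normSq_eq_norm_sq, Complex.normSq_apply]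
    rw [h3] at h2
    have h4 := (abs_le.1 (hL x ⟨p, hp⟩)).2
    have h5 : ‖(x : ℂ) - p‖ ≤ 2 * R := by
      have hx := x.2
      rw [mem_closedBall_zero_iff] at hx hp
      have := norm_sub_le (x : ℂ) p
      linarith
    have h6 : 2 * R * ‖(x : ℂ) - p‖ ≤ 2 * R * (2 * R) := mul_le_mul_of_nonneg_left h5 (by positivity)
    have h7 : 0 ≤ ‖p‖ ^ 2 := by positivity
    simp only at h4
    nlinarith
  have hcst : ∫ _ in closedBall (0 : ℂ) R, (f x - 4 * R ^ 2) = V * (f x - 4 * R ^ 2) := by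
    rw [setIntegral_const, smul_eq_mul, measureReal_def]
  rw [hcst] at h1
  have h2 : 0 ≤ ∫ x in closedBall (0 : ℂ) R, max (φ x - ex hR f x) 0 :=
    setIntegral_nonneg measurableSet_closedBall fun x _ => le_max_right _ _
  have h3 : V * (f x - 4 * R ^ 2) ≤ F₀ := by
    unfold Fn at hF
    linarith
  have h4 : f x - 4 * R ^ 2 ≤ F₀ / V := by
    rw [le_div_iff₀ hV0]
    linarith
  linarith

theorem exists_min {R : ℝ} (hR : 0 < R) {φ b : ℂ → ℝ} (hφ : Continuous φ) (hb : Continuous b) :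
    ∃ ψ, IsMin R φ b ψ := by
  set M : ℝ := Fn R φ b / (volume (closedBall (0 : ℂ) R)).toReal + 4 * R ^ 2 with hM
  have hK : ∀ ψ : ℂ → ℝ, ∀ hψ : Continuous ψ, (∀ x ∈ closedBall (0 : ℂ) R, b x ≤ ψ x) →
      Fn R φ ψ ≤ Fn R φ b → hc hR hψ ∈ Kset R M b := by
    intro ψ hψ hbψ hF
    refine ⟨fun x y => hl_lips hR hψ x.2 y.2, fun x => (hbψ x x.2).trans (hl_ge hR hψ x.2), fun x => ?_⟩
    exact upper hR (fun x y => hl_lips hR hψ x.2 y.2) ((hc_Fn hR hψ hφ).trans hF) x
  have hKb := hK b hb (fun x _ => le_rfl) le_rfl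
  obtain ⟨f, hf, hmin⟩ := (K_compact (M := M) hR b).exists_isMinOn ⟨_, hKb⟩ (Fn_cont hR hφ).continuousOn
  refine ⟨ex hR f, ex_cont hR f, fun x hx => ?_, fun ψ' hψ' hbψ' => ?_⟩
  · rw [ex_eq hR f hx]
    exact hf.2.1 ⟨x, hx⟩
  · rcases le_total (Fn R φ ψ') (Fn R φ b) with h | h
    · exact (hmin (hK ψ' hψ' hbψ' h)).trans (hc_Fn hR hψ' hφ)
    · exact ((hmin hKb).trans (hc_Fn hR hb hφ)).trans h

end Pool.Agent.Helper7.CT
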