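import Pool.Agent.Helper7.CT.A1

/-!
# CT-A3: the derivative of `∫ G`

PROOF. Dominated convergence (`|G_{ψ + tη} - G_ψ| ≤ t sup_X |η|` by `G_close`, `X` has finite measure; along any sequence
`t_n → 0+` or with `tendsto_integral_filter_of_dominated_convergence`). Pointwise limit for every `p` as in `ae_isMx`:
`x = xp R ψ p` is the unique maximiser for `ψ`; let `x_t` be a maximiser for `ψ + tη` (`exists_mx`). Then
`t η x ≤ G_{ψ+tη}(p) - G_ψ(p) ≤ t η (x_t)` (test `x` in `G_{ψ+tη}` and `x_t` in `G_ψ`), and `x_t → x`: every limit point of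
`x_t` is a maximiser for `ψ` (compactness, `η` bounded on the disc), so it is `x`. Hence the quotient tends to `η x`.
-/

set_option autoImplicit false

open MeasureTheory Metric Set Complex Filter Topology

namespace Pool.Agent.Helper7.CT

lemma a3_dt_cont (p : ℂ) : Continuous (fun x : ℂ => dt x p) := by
  unfold dt
  exact (Complex.continuous_re.mul continuous_const).add (Complex.continuous_im.mul continuous_const)

/-- maximisers of perturbations converge to a unique maximiser -/
lemma a3_tendsto {R : ℝ} {ψ η : ℂ → ℝ} (hψ : Continuous ψ) {C : ℝ} (hC0 : 0 ≤ C)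
    (hC : ∀ x ∈ closedBall (0 : ℂ) R, |η x| ≤ C) {p x : ℂ} (hx : IsMx R ψ p x)
    (huniq : ∀ y, IsMx R ψ p y → y = x) {xt : ℝ → ℂ}
    (hxt : ∀ t, IsMx R (fun x => ψ x + t * η x) p (xt t)) : Tendsto xt (𝓝[>] 0) (𝓝 x) := by
  rw [Metric.tendsto_nhds]
  intro ε hε
  set h : ℂ → ℝ := fun y => dt y p - ‖y‖ ^ 2 / 2 + ψ y with hh
  have hcont : Continuous h :=
    ((a3_dt_cont p).sub ((continuous_norm.pow 2).div_const 2)).add hψ
  set K : Set ℂ := closedBall (0 : ℂ) R ∩ {y | ε ≤ dist y x} with hK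
  have hKc : IsCompact K :=
    (isCompact_closedBall 0 R).inter_right (isClosed_le continuous_const (continuous_id.dist continuous_const))
  have key : ∃ m : ℝ, 0 < m ∧ ∀ y ∈ K, h y + m ≤ h x := by
    rcases K.eq_empty_or_nonempty with hemp | hne
    · exact ⟨1, one_pos, fun y hy => by rw [hemp] at hy; exact absurd hy (notMem_empty y)⟩
    · obtain ⟨y₀, hy₀, hmax⟩ := hKc.exists_isMaxOn hne hcont.continuousOn
      refine ⟨h x - h y₀, ?_, fun y hy => ?_⟩
      · have h1 : h y₀ ≤ h x := hx.2 y₀ hy₀.1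
        rcases lt_or_eq_of_le h1 with h2 | h2
        · linarith
        · exfalso
          have h3 : IsMx R ψ p y₀ := ⟨hy₀.1, fun z hz => by
            have := hx.2 z hz
            have h4 : h z ≤ h y₀ := by rw [h2]; exact this
            exact h4⟩
          have h5 := huniq y₀ h3
          have h6 : ε ≤ dist y₀ x := hy₀.2
          rw [h5, dist_self] at h6
          linarith
      · have h1 : h y ≤ h y₀ := hmax hy
        linarith
  obtain ⟨m, hm, hmK⟩ := key
  have h1 : ∀ᶠ t : ℝ in 𝓝[>] 0, t ∈ Set.Ioo (0 : ℝ) (m / (2 * C + 1)) :=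
    Ioo_mem_nhdsGT (by positivity)
  filter_upwards [h1] with t ht
  by_contra hcon
  rw [not_lt] at hcon
  have h2 : xt t ∈ K := ⟨(hxt t).1, hcon⟩
  have h3 := hmK _ h2
  have h4 := (hxt t).2 x hx.1
  have h5 := abs_le.1 (hC (xt t) (hxt t).1)
  have h6 := abs_le.1 (hC x hx.1)
  have h7 : t * (2 * C + 1) < m := by
    have := ht.2
    rwa [lt_div_iff₀ (by positivity)] at this
  have h8 : t * η (xt t) ≤ t * C := mul_le_mul_of_nonneg_left h5.2 ht.1.le
  have h9 : t * (-C) ≤ t * η x := mul_le_mul_of_nonneg_left h6.1 ht.1.le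
  have e1 : h x = dt x p - ‖x‖ ^ 2 / 2 + ψ x := rfl
  have e2 : h (xt t) = dt (xt t) p - ‖xt t‖ ^ 2 / 2 + ψ (xt t) := rfl
  rw [e1, e2] at h3
  beta_reduce at h4
  have h10 := ht.1
  nlinarith

theorem G_deriv {R : ℝ} (hR : 0 ≤ R) {ψ η : ℂ → ℝ} (hψ : Continuous ψ) (hη : Continuous η) :
    Tendsto (fun t : ℝ => ((∫ p in closedBall (0 : ℂ) R, G R (fun x => ψ x + t * η x) p) -
      ∫ p in closedBall (0 : ℂ) R, G R ψ p) / t) (𝓝[>] 0)
      (𝓝 (∫ p in closedBall (0 : ℂ) R, η (xp R ψ p))) := by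
  have hct : ∀ t : ℝ, Continuous (fun x => ψ x + t * η x) :=
    fun t => hψ.add (continuous_const.mul hη)
  obtain ⟨C, hC⟩ := (isCompact_closedBall (0 : ℂ) R).exists_bound_of_continuousOn hη.continuousOn
  have hC0 : 0 ≤ C := (norm_nonneg _).trans (hC 0 (mem_closedBall_self hR))
  have hC' : ∀ x ∈ closedBall (0 : ℂ) R, |η x| ≤ C := hC
  have hint : ∀ t : ℝ, IntegrableOn (G R (fun x => ψ x + t * η x)) (closedBall (0 : ℂ) R) :=
    fun t => (G_cont hR (hct t)).continuousOn.integrableOn_compact (isCompact_closedBall 0 R)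
  have hint0 : IntegrableOn (G R ψ) (closedBall (0 : ℂ) R) :=
    (G_cont hR hψ).continuousOn.integrableOn_compact (isCompact_closedBall 0 R)
  have heq : ∀ t : ℝ, ((∫ p in closedBall (0 : ℂ) R, G R (fun x => ψ x + t * η x) p) -
      ∫ p in closedBall (0 : ℂ) R, G R ψ p) / t =
      ∫ p in closedBall (0 : ℂ) R, (G R (fun x => ψ x + t * η x) p - G R ψ p) / t := by
    intro t
    rw [integral_div, integral_sub (hint t) hint0]
  simp only [heq]
  refine tendsto_integral_filter_of_dominated_convergence (fun _ => C) ?_ ?_ ?_ ?_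
  · refine Eventually.of_forall (fun t => ?_)
    exact (((G_cont hR (hct t)).sub (G_cont hR hψ)).div_const t).aestronglyMeasurable
  · filter_upwards [self_mem_nhdsWithin] with t ht
    refine Eventually.of_forall (fun p => ?_)
    have ht' : (0 : ℝ) < t := ht
    have h1 := G_close hR (hct t) hψ (ε := t * C) (fun x hx => by
      rw [add_sub_cancel_left, abs_mul, abs_of_pos ht']
      exact mul_le_mul_of_nonneg_left (hC' x hx) ht'.le) p
    rw [Real.norm_eq_abs, abs_div, abs_of_pos ht', div_le_iff₀ ht']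
    linarith
  · have : IsFiniteMeasure (volume.restrict (closedBall (0 : ℂ) R)) :=
      ⟨by rw [Measure.restrict_apply_univ]; exact measure_closedBall_lt_top⟩
    exact integrable_const C
  · refine ae_restrict_of_ae ?_
    filter_upwards [ae_isMx hR hψ] with p hp
    obtain ⟨hx, huniq⟩ := hp
    set x := xp R ψ p with hxdef
    choose xt hxt using fun t : ℝ => exists_mx hR (hct t) p
    have h1 := a3_tendsto hψ hC0 hC' hx huniq hxt
    have h2 : Tendsto (fun t => η (xt t)) (𝓝[>] 0) (𝓝 (η x)) := (hη.tendsto x).comp h1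
    refine tendsto_of_tendsto_of_tendsto_of_le_of_le' (tendsto_const_nhds (x := η x)) h2 ?_ ?_
    · filter_upwards [self_mem_nhdsWithin] with t ht
      have ht' : (0 : ℝ) < t := ht
      rw [le_div_iff₀ ht', G_eq hx]
      have := le_G (hct t) hx.1 p
      linarith
    · filter_upwards [self_mem_nhdsWithin] with t ht
      have ht' : (0 : ℝ) < t := ht
      rw [div_le_iff₀ ht', G_eq (hxt t)]
      have := le_G hψ (hxt t).1 p
      linarith

end Pool.Agent.Helper7.CT
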