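import Pool.Agent.Helper7.CT.A3

/-!
# CT-A4: the Euler–Lagrange inequalities

PROOF. For `t > 0` small `ψ + tη` is admissible, so `0 ≤ (Fn (ψ + tη) - Fn ψ) / t`. The first part tends to
`∫ η (xp R ψ p)` (`G_deriv`), and
`(1/t) ∫_X ((φ - ψ - tη)⁺ - (φ - ψ)⁺) → ∫_X d` by dominated convergence (`|·| ≤ |η|`), `d x = -η x` if `ψ x < φ x`, `0` if
`φ x < ψ x`, `max (-η x) 0` if `φ x = ψ x`. So `0 ≤ ∫ η (xp) + 4 ∫_X d`.
`el_ge`: `η ≥ 0` (admissible for all `t > 0`), `d = -η` on `{ψ < φ}` and `0` elsewhere.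
`el_le`: `η = -ζ`, admissible for `0 < t ≤ δ`; `d = ζ` on `{ψ ≤ φ}`, `0` elsewhere.
-/

set_option autoImplicit false

open MeasureTheory Metric Set Complex Filter Topology

namespace Pool.Agent.Helper7.CT

variable {R : ℝ} {φ b ψ : ℂ → ℝ}

theorem A4_intOn {f : ℂ → ℝ} (hf : Continuous f) (R : ℝ) : IntegrableOn f (closedBall (0 : ℂ) R) :=
  hf.continuousOn.integrableOn_compact (isCompact_closedBall _ _)

/-- the derivative of the second part of the functional -/
theorem A4_deriv (hφ : Continuous φ) (hψ : Continuous ψ) {η d : ℂ → ℝ} (hη : Continuous η)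
    (h1 : ∀ x, ψ x < φ x → d x = -η x) (h2 : ∀ x, φ x < ψ x → d x = 0)
    (h3 : ∀ x, φ x = ψ x → d x = max (-η x) 0) :
    Tendsto (fun t : ℝ => ((∫ x in closedBall (0 : ℂ) R, max (φ x - (ψ x + t * η x)) 0) -
      ∫ x in closedBall (0 : ℂ) R, max (φ x - ψ x) 0) / t) (𝓝[>] 0)
      (𝓝 (∫ x in closedBall (0 : ℂ) R, d x)) := by
  have hc : ∀ t : ℝ, Continuous fun x => max (φ x - (ψ x + t * η x)) 0 := fun t =>
    (hφ.sub (hψ.add (continuous_const.mul hη))).max continuous_const
  have hc0 : Continuous fun x => max (φ x - ψ x) 0 := (hφ.sub hψ).max continuous_const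
  have key : Tendsto (fun t : ℝ => ∫ x in closedBall (0 : ℂ) R,
      (max (φ x - (ψ x + t * η x)) 0 - max (φ x - ψ x) 0) / t) (𝓝[>] 0)
      (𝓝 (∫ x in closedBall (0 : ℂ) R, d x)) := by
    apply tendsto_integral_filter_of_dominated_convergence (fun x => |η x|)
    · refine Eventually.of_forall fun t => ?_
      exact (((hc t).sub hc0).div_const t).aestronglyMeasurable
    · filter_upwards [self_mem_nhdsWithin] with t ht
      refine Eventually.of_forall fun x => ?_
      have ht' : (0 : ℝ) < t := ht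
      rw [Real.norm_eq_abs, abs_div, abs_of_pos ht', div_le_iff₀ ht']
      have h4 := abs_max_sub_max_le_abs (φ x - (ψ x + t * η x)) (φ x - ψ x) 0
      refine h4.trans (le_of_eq ?_)
      have h5 : φ x - (ψ x + t * η x) - (φ x - ψ x) = -(t * η x) := by ring
      rw [h5, abs_neg, abs_mul, abs_of_pos ht', mul_comm]
    · exact A4_intOn hη.abs R
    · refine Eventually.of_forall fun x => ?_
      apply tendsto_nhds_of_eventually_eq
      have hcont : Continuous fun t : ℝ => φ x - (ψ x + t * η x) := by fun_prop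
      rcases lt_trichotomy (ψ x) (φ x) with h | h | h
      · have h4 : ∀ᶠ t in 𝓝 (0 : ℝ), 0 < φ x - (ψ x + t * η x) := by
          have h5 : Tendsto (fun t : ℝ => φ x - (ψ x + t * η x)) (𝓝 0)
              (𝓝 (φ x - (ψ x + 0 * η x))) := hcont.continuousAt
          exact h5.eventually_const_lt (by rw [zero_mul, add_zero]; linarith)
        filter_upwards [h4.filter_mono nhdsWithin_le_nhds, self_mem_nhdsWithin] with t ht ht0
        have ht' : (0 : ℝ) < t := ht0
        rw [h1 x h, max_eq_left ht.le, max_eq_left (by linarith)]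
        field_simp
        ring
      · filter_upwards [self_mem_nhdsWithin] with t ht0
        have ht' : (0 : ℝ) < t := ht0
        rw [h3 x h.symm, h]
        have h4 : φ x - (φ x + t * η x) = t * (-η x) := by ring
        have h5 : max (t * (-η x)) 0 = t * max (-η x) 0 := by
          rw [mul_max_of_nonneg _ _ ht'.le, mul_zero]
        rw [h4, h5, sub_self, max_self, sub_zero]
        field_simp
      · have h4 : ∀ᶠ t in 𝓝 (0 : ℝ), φ x - (ψ x + t * η x) < 0 := by
          have h5 : Tendsto (fun t : ℝ => φ x - (ψ x + t * η x)) (𝓝 0)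
              (𝓝 (φ x - (ψ x + 0 * η x))) := hcont.continuousAt
          exact h5.eventually_lt_const (by rw [zero_mul, add_zero]; linarith)
        filter_upwards [h4.filter_mono nhdsWithin_le_nhds] with t ht
        rw [h2 x h, max_eq_right ht.le, max_eq_right (by linarith), sub_self, zero_div]
  refine key.congr fun t => ?_
  rw [integral_div, integral_sub (A4_intOn (hc t) R) (A4_intOn hc0 R)]

theorem A4_main (hR : 0 ≤ R) (hφ : Continuous φ) (h : IsMin R φ b ψ) {η d : ℂ → ℝ}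
    (hη : Continuous η) (h1 : ∀ x, ψ x < φ x → d x = -η x) (h2 : ∀ x, φ x < ψ x → d x = 0)
    (h3 : ∀ x, φ x = ψ x → d x = max (-η x) 0)
    (hadm : ∀ᶠ t in 𝓝[>] (0 : ℝ), ∀ x ∈ closedBall (0 : ℂ) R, b x ≤ ψ x + t * η x) :
    0 ≤ (∫ p in closedBall (0 : ℂ) R, η (xp R ψ p)) +
      4 * ∫ x in closedBall (0 : ℂ) R, d x := by
  have h4 := (G_deriv hR h.cont hη).add ((A4_deriv (R := R) hφ h.cont hη h1 h2 h3).const_mul 4)
  refine ge_of_tendsto h4 ?_
  filter_upwards [hadm, self_mem_nhdsWithin] with t ht ht0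
  have ht' : (0 : ℝ) < t := ht0
  have h5 := h.min (fun x => ψ x + t * η x) (h.cont.add (continuous_const.mul hη)) ht
  unfold Fn at h5
  have h6 : 0 ≤ (((∫ p in closedBall (0 : ℂ) R, G R (fun x => ψ x + t * η x) p) -
      ∫ p in closedBall (0 : ℂ) R, G R ψ p) +
      4 * ((∫ x in closedBall (0 : ℂ) R, max (φ x - (ψ x + t * η x)) 0) -
      ∫ x in closedBall (0 : ℂ) R, max (φ x - ψ x) 0)) / t := by
    apply div_nonneg _ ht'.le
    linarith
  refine h6.trans (le_of_eq ?_)
  rw [add_div, mul_div_assoc]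

theorem el_ge (hR : 0 ≤ R) (hφ : Continuous φ) (h : IsMin R φ b ψ) {η : ℂ → ℝ}
    (hη : Continuous η) (h0 : ∀ x, 0 ≤ η x) :
    4 * ∫ x in {x ∈ closedBall (0 : ℂ) R | ψ x < φ x}, η x ≤
      ∫ p in closedBall (0 : ℂ) R, η (xp R ψ p) := by
  have hm : MeasurableSet {x | ψ x < φ x} :=
    (isOpen_lt h.cont hφ).measurableSet
  have h1 := A4_main (d := {x | ψ x < φ x}.indicator fun x => -η x) hR hφ h hη
    (fun x hx => indicator_of_mem (s := {x | ψ x < φ x}) hx _)
    (fun x hx => indicator_of_notMem (s := {x | ψ x < φ x})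
      (fun h' => lt_asymm hx (show ψ x < φ x from h')) _)
    (fun x hx => by
      rw [indicator_of_notMem (s := {x | ψ x < φ x})
        (fun h' => (show ψ x < φ x from h').ne hx.symm), max_eq_right]
      linarith [h0 x])
    (by
      filter_upwards [self_mem_nhdsWithin] with t ht x hx
      have ht' : (0 : ℝ) < t := ht
      have := h.ge x hx
      nlinarith [h0 x, mul_nonneg ht'.le (h0 x)])
  rw [setIntegral_indicator hm, integral_neg] at h1
  have h2 : {x ∈ closedBall (0 : ℂ) R | ψ x < φ x} = closedBall (0 : ℂ) R ∩ {x | ψ x < φ x} := rfl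
  rw [h2]
  linarith

theorem el_le (hR : 0 ≤ R) (hφ : Continuous φ) (h : IsMin R φ b ψ) {ζ : ℂ → ℝ}
    (hζ : Continuous ζ) (h0 : ∀ x, 0 ≤ ζ x) {δ : ℝ} (hδ : 0 < δ)
    (hb : ∀ x ∈ closedBall (0 : ℂ) R, δ * ζ x ≤ ψ x - b x) :
    ∫ p in closedBall (0 : ℂ) R, ζ (xp R ψ p) ≤
      4 * ∫ x in {x ∈ closedBall (0 : ℂ) R | ψ x ≤ φ x}, ζ x := by
  have hm : MeasurableSet {x | ψ x ≤ φ x} :=
    (isClosed_le h.cont hφ).measurableSet
  have h1 := A4_main (d := {x | ψ x ≤ φ x}.indicator fun x => ζ x) hR hφ h hζ.neg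
    (fun x hx => by
      rw [indicator_of_mem (s := {x | ψ x ≤ φ x}) (show ψ x ≤ φ x from hx.le), Pi.neg_apply,
        neg_neg])
    (fun x hx => indicator_of_notMem (s := {x | ψ x ≤ φ x})
      (fun h' => not_lt.mpr (show ψ x ≤ φ x from h') hx) _)
    (fun x hx => by
      rw [indicator_of_mem (s := {x | ψ x ≤ φ x}) (show ψ x ≤ φ x from hx.ge), Pi.neg_apply,
        neg_neg, max_eq_left (h0 x)])
    (by
      have h3 : ∀ᶠ t in 𝓝[>] (0 : ℝ), t < δ :=
        (eventually_lt_nhds hδ).filter_mono nhdsWithin_le_nhds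
      filter_upwards [self_mem_nhdsWithin, h3] with t ht ht3 x hx
      have := hb x hx
      rw [Pi.neg_apply]
      nlinarith [h0 x, mul_nonneg (sub_nonneg.mpr ht3.le) (h0 x)])
  have h2 : {x ∈ closedBall (0 : ℂ) R | ψ x ≤ φ x} = closedBall (0 : ℂ) R ∩ {x | ψ x ≤ φ x} := rfl
  rw [setIntegral_indicator hm] at h1
  have h4 : ∫ p in closedBall (0 : ℂ) R, (-ζ) (xp R ψ p) =
      -∫ p in closedBall (0 : ℂ) R, ζ (xp R ψ p) := by
    rw [← integral_neg]
    rfl
  rw [h4] at h1
  rw [h2]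
  linarith

end Pool.Agent.Helper7.CT
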