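import Pool.Agent.Helper7.CT.A4

/-!
# CT-A5: the law of `xp` (measure form of the Euler–Lagrange inequalities)

`mu_ge`. PROOF. Take continuous functions `0 ≤ η_n ↑ 1_U` (e.g. `η_n x = min 1 (n * infDist x Uᶜ)`, `U ≠ univ` because `U` is bounded); by
`el_ge`, `4 ∫_U η_n ≤ 4 ∫_{ψ<φ} η_n ≤ ∫ η_n (xp p) ≤ vol {p ∈ X : xp p ∈ U}`; let `n → ∞` (monotone or dominated convergence).
`mu_le`. PROOF. First `F` compact, `F ⊆ {x ∈ X : b x < ψ x}`: there is a neighbourhood of `F` in `ℂ` on which `ψ - b > 0`; `ζ_n = (1 - n infDist x F)⁺`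
is continuous, `ζ_n ↓ 1_F`, and for large `n` its support lies in a compact set where `ψ - b` has a positive minimum, so `el_le` applies:
`vol {p ∈ X : xp p ∈ F} ≤ ∫ ζ_n (xp p) ≤ 4 ∫_{ψ ≤ φ} ζ_n → 4 vol (F ∩ {ψ ≤ φ})`. General `E`: the finite measure
`μ A = vol {p ∈ X : xp p ∈ A}` (`Measure.map` of the restriction, `xp_meas`) is inner regular for compact sets:
`μ E = sup μ F ≤ 4 vol (E ∩ {ψ ≤ φ})` (`MeasurableSet.measure_eq_iSup_isCompact`).
-/

set_option autoImplicit false

open MeasureTheory Metric Set Complex Filter Topology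

namespace Pool.Agent.Helper7.CT

variable {R : ℝ} {φ b ψ : ℂ → ℝ}

private lemma urys_61 {K U : Set ℂ} (hK : IsCompact K) (hU : IsOpen U) (h : K ⊆ U) :
    ∃ (η : ℂ → ℝ) (L : Set ℂ), Continuous η ∧ IsCompact L ∧ L ⊆ U ∧ (∀ x, 0 ≤ η x ∧ η x ≤ 1) ∧
      (∀ x ∈ K, η x = 1) ∧ (∀ x, x ∉ L → η x = 0) := by
  obtain ⟨L, hL, hKL, hLU⟩ := exists_compact_between hK hU h
  obtain ⟨f, h1, h2, -, h4⟩ := exists_continuous_one_zero_of_isCompact hK
    (isOpen_interior (s := L)).isClosed_compl (disjoint_compl_right_iff_subset.2 hKL)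
  exact ⟨f, L, f.continuous, hL, hLU, fun x => h4 x, fun x hx => h1 hx,
    fun x hx => h2 (fun hx' => hx (interior_subset hx'))⟩

private lemma fin_61 (R : ℝ) : IsFiniteMeasure ((volume : Measure ℂ).restrict (closedBall (0 : ℂ) R)) :=
  ⟨by rw [Measure.restrict_apply_univ]; exact measure_closedBall_lt_top⟩

private lemma int_xp_61 (R : ℝ) (ψ : ℂ → ℝ) {η : ℂ → ℝ} (hη : Continuous η) (h01 : ∀ x, 0 ≤ η x ∧ η x ≤ 1) :
    IntegrableOn (fun p => η (xp R ψ p)) (closedBall (0 : ℂ) R) := by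
  have := fin_61 R
  refine (integrable_const (1 : ℝ)).mono' (hη.measurable.comp (xp_meas R ψ)).aestronglyMeasurable
    (Filter.Eventually.of_forall fun p => ?_)
  rw [Real.norm_eq_abs, abs_of_nonneg (h01 _).1]
  exact (h01 _).2

private lemma T_meas_61 (R : ℝ) (ψ : ℂ → ℝ) {A : Set ℂ} (hA : MeasurableSet A) :
    MeasurableSet {p ∈ closedBall (0 : ℂ) R | xp R ψ p ∈ A} :=
  measurableSet_closedBall.inter (xp_meas R ψ hA)

private lemma int_ind_61 {X T : Set ℂ} (hT : MeasurableSet T) (hTX : T ⊆ X) :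
    ∫ p in X, T.indicator (fun _ => (1 : ℝ)) p = (volume T).toReal := by
  rw [setIntegral_indicator hT, inter_eq_self_of_subset_right hTX, setIntegral_const, smul_eq_mul, mul_one]
  rfl

theorem mu_ge (hR : 0 ≤ R) (hφ : Continuous φ) (h : IsMin R φ b ψ) {U : Set ℂ} (hU : IsOpen U)
    (hsub : U ⊆ {x ∈ closedBall (0 : ℂ) R | ψ x < φ x}) :
    4 * volume U ≤ volume {p ∈ closedBall (0 : ℂ) R | xp R ψ p ∈ U} := by
  set X : Set ℂ := closedBall (0 : ℂ) R with hX
  set T : Set ℂ := {p ∈ X | xp R ψ p ∈ U} with hT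
  have := fin_61 R
  have hTX : T ⊆ X := fun p hp => hp.1
  have hTm : MeasurableSet T := T_meas_61 R ψ hU.measurableSet
  have hTfin : volume T ≠ ⊤ := ((measure_mono hTX).trans_lt measure_closedBall_lt_top).ne
  rw [hU.measure_eq_iSup_isCompact]
  simp only [ENNReal.mul_iSup]
  refine iSup_le fun K => iSup_le fun hKU => iSup_le fun hK => ?_
  obtain ⟨η, L, hη, hL, hLU, h01, h1, h0⟩ := urys_61 hK hU hKU
  have hel := el_ge hR hφ h hη (fun x => (h01 x).1)
  have hηX : IntegrableOn η X := hη.continuousOn.integrableOn_compact (isCompact_closedBall _ _)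
  have l1 : (volume K).toReal ≤ ∫ x in {x ∈ X | ψ x < φ x}, η x := by
    have e1 : (volume K).toReal = ∫ x in K, η x := by
      rw [setIntegral_congr_fun hK.measurableSet (fun x hx => h1 x hx), setIntegral_const, smul_eq_mul, mul_one]
      rfl
    rw [e1]
    refine setIntegral_mono_set (hηX.mono_set (fun x hx => hx.1)) (Filter.Eventually.of_forall fun x => (h01 x).1)
      (HasSubset.Subset.eventuallyLE (hKU.trans hsub))
  have l2 : ∫ p in X, η (xp R ψ p) ≤ (volume T).toReal := by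
    rw [← int_ind_61 hTm hTX]
    refine setIntegral_mono_on (int_xp_61 R ψ hη h01) ((integrable_const (1 : ℝ)).indicator hTm)
      measurableSet_closedBall fun p hp => ?_
    by_cases hpU : xp R ψ p ∈ U
    · rw [indicator_of_mem (show p ∈ T from ⟨hp, hpU⟩)]
      exact (h01 _).2
    · rw [h0 _ (fun hL' => hpU (hLU hL'))]
      exact indicator_nonneg (fun _ _ => zero_le_one) _
  have h3 : (4 * volume K).toReal ≤ (volume T).toReal := by
    rw [ENNReal.toReal_mul, ENNReal.toReal_ofNat]; linarith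
  exact (ENNReal.toReal_le_toReal (ENNReal.mul_ne_top (by norm_num) hK.measure_lt_top.ne) hTfin).1 h3

theorem mu_le (hR : 0 ≤ R) (hφ : Continuous φ) (hb : Continuous b) (h : IsMin R φ b ψ) {E : Set ℂ}
    (hE : MeasurableSet E) (hsub : E ⊆ {x ∈ closedBall (0 : ℂ) R | b x < ψ x}) :
    volume {p ∈ closedBall (0 : ℂ) R | xp R ψ p ∈ E} ≤ 4 * volume (E ∩ {x | ψ x ≤ φ x}) := by
  set X : Set ℂ := closedBall (0 : ℂ) R with hX
  have hfin := fin_61 R
  set μ : Measure ℂ := (volume.restrict X).map (xp R ψ) with hμ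
  have hμA : ∀ A : Set ℂ, MeasurableSet A → μ A = volume {p ∈ X | xp R ψ p ∈ A} := by
    intro A hA
    rw [hμ, Measure.map_apply (xp_meas R ψ) hA, Measure.restrict_apply (xp_meas R ψ hA), inter_comm]
    rfl
  rw [← hμA E hE, hE.measure_eq_iSup_isCompact_of_ne_top (measure_ne_top μ E)]
  refine iSup_le fun K => iSup_le fun hKE => iSup_le fun hK => ?_
  rw [hμA K hK.measurableSet]
  set S : Set ℂ := {x ∈ X | ψ x ≤ φ x} with hS
  have hSm : MeasurableSet S := measurableSet_closedBall.inter (isClosed_le h.cont hφ).measurableSet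
  set ν : Measure ℂ := volume.restrict S with hν
  have hνf : IsFiniteMeasure ν := ⟨by
    rw [hν, Measure.restrict_apply_univ]
    exact (measure_mono (fun x hx => hx.1)).trans_lt (measure_closedBall_lt_top (x := (0 : ℂ)) (r := R))⟩
  have hνK : ν K ≤ volume (E ∩ {x | ψ x ≤ φ x}) := by
    rw [hν, Measure.restrict_apply hK.measurableSet]
    exact measure_mono (inter_subset_inter hKE (fun x hx => hx.2))
  refine le_trans ?_ (mul_le_mul_of_nonneg_left hνK zero_le)
  refine ENNReal.le_of_forall_pos_le_add fun ε hε _ => ?_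
  have hε4 : ((ε / 4 : NNReal) : ENNReal) ≠ 0 := by
    rw [ne_eq, ENNReal.coe_eq_zero]; positivity
  obtain ⟨V, hKV, hVo, hV⟩ := K.exists_isOpen_lt_add (μ := ν) (measure_ne_top ν K) hε4
  have hV'o : IsOpen (V ∩ {x | b x < ψ x}) := hVo.inter (isOpen_lt hb h.cont)
  obtain ⟨ζ, L, hζ, hL, hLV, h01, h1, h0⟩ := urys_61 hK hV'o (fun x hx => ⟨hKV hx, (hsub (hKE hx)).2⟩)
  obtain ⟨δ, hδ, hδL⟩ : ∃ δ : ℝ, 0 < δ ∧ ∀ x ∈ L, δ ≤ ψ x - b x := by
    rcases L.eq_empty_or_nonempty with h2 | h2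
    · exact ⟨1, one_pos, fun x hx => absurd hx (by rw [h2]; exact notMem_empty x)⟩
    · obtain ⟨x0, hx0, hmin⟩ := hL.exists_isMinOn h2 (h.cont.sub hb).continuousOn
      refine ⟨ψ x0 - b x0, ?_, fun x hx => hmin hx⟩
      have := (hLV hx0).2
      simp only [mem_ofPred_eq] at this
      linarith
  have hel := el_le hR hφ h hζ (fun x => (h01 x).1) hδ (by
    intro x hx
    by_cases hxL : x ∈ L
    · have h2 := hδL x hxL
      have h3 := (h01 x).2
      nlinarith
    · rw [h0 x hxL, mul_zero]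
      have := h.ge x hx
      linarith)
  set T : Set ℂ := {p ∈ X | xp R ψ p ∈ K} with hT
  have hTX : T ⊆ X := fun p hp => hp.1
  have hTm : MeasurableSet T := T_meas_61 R ψ hK.measurableSet
  have hTfin : volume T ≠ ⊤ := ((measure_mono hTX).trans_lt measure_closedBall_lt_top).ne
  have l1 : (volume T).toReal ≤ ∫ p in X, ζ (xp R ψ p) := by
    rw [← int_ind_61 hTm hTX]
    refine setIntegral_mono_on ((integrable_const (1 : ℝ)).indicator hTm) (int_xp_61 R ψ hζ h01)
      measurableSet_closedBall fun p hp => ?_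
    by_cases hpU : xp R ψ p ∈ K
    · rw [indicator_of_mem (show p ∈ T from ⟨hp, hpU⟩), h1 _ hpU]
    · rw [indicator_of_notMem (show p ∉ T from fun hp' => hpU hp'.2)]
      exact (h01 _).1
  have hζX : IntegrableOn ζ X := hζ.continuousOn.integrableOn_compact (isCompact_closedBall _ _)
  have l2 : ∫ x in S, ζ x ≤ (ν V).toReal := by
    have e1 : (ν V).toReal = ∫ x in S, V.indicator (fun _ => (1 : ℝ)) x := by
      rw [setIntegral_indicator hVo.measurableSet, setIntegral_const, smul_eq_mul, mul_one, hν,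
        Measure.restrict_apply hVo.measurableSet, inter_comm]
      rfl
    rw [e1]
    refine setIntegral_mono_on (hζX.mono_set (fun x hx => hx.1))
      ((integrable_const (μ := ν) (1 : ℝ)).indicator hVo.measurableSet) hSm fun p hp => ?_
    by_cases hpV : p ∈ V
    · rw [indicator_of_mem hpV]
      exact (h01 _).2
    · rw [h0 _ (fun hL' => hpV (hLV hL').1)]
      exact indicator_nonneg (fun _ _ => zero_le_one) _
  have h3 : (volume T).toReal ≤ (4 * ν V).toReal := by
    rw [ENNReal.toReal_mul, ENNReal.toReal_ofNat]; linarith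
  have h4 := (ENNReal.toReal_le_toReal hTfin (ENNReal.mul_ne_top (by norm_num) (measure_ne_top ν V))).1 h3
  refine h4.trans ((mul_le_mul_of_nonneg_left hV.le zero_le).trans (le_of_eq ?_))
  rw [mul_add]
  congr 1
  rw [show (4 : ENNReal) = ((4 : NNReal) : ENNReal) by norm_num, ← ENNReal.coe_mul]
  congr 1
  rw [mul_div_cancel₀]
  norm_num

end Pool.Agent.Helper7.CT
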