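import Pool.Agent.Helper7.CT.Defs

/-!
# CT-ALG: the two algebraic inequalities

For a symmetric matrix `M` with eigenvalues `s + r ≥ s - r` (`s = ∂f` real, `r = |∂̄f|`) the function is
`LSr |s| r = s² - r²` if `|s| + r ≤ 1` and `2|s| - 1` otherwise.

`alg1`. PROOF. If `|s| + r ≤ 1` then `s² - r² - 2|s| + 1 = (1-|s|)² - r² ≥ 0`; otherwise equality.
`alg2`. PROOF. `|s| + r ≤ 1`: `LSr + 1 - 2s = (1-s)² - r²`. Otherwise `s + r ≤ 1` and `|s| + r > 1` force `s < 0`
and `r > 1 + s`, and `LSr + 1 - 2s = -4s`. If `s ≤ -1` then `-4s ≥ 4`. If `s > -1` then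
`-4s - ((1-s)² - r²) = r² - (1+s)² ≥ 0`.
-/

set_option autoImplicit false

namespace Pool.Agent.Helper7.CT

open Pool.Agent.Helper7.BU

theorem alg1 (s r : ℝ) (hr : 0 ≤ r) : 2 * |s| - 1 ≤ LSr |s| r := by
  unfold LSr
  split_ifs with h
  · have h1 : r ^ 2 ≤ (1 - |s|) ^ 2 := pow_le_pow_left₀ hr (by linarith) 2
    nlinarith
  · linarith

theorem alg2 (s r : ℝ) (hr : 0 ≤ r) (h : s + r ≤ 1) :
    min 4 ((1 - s) ^ 2 - r ^ 2) ≤ LSr |s| r + 1 - 2 * s := by
  unfold LSr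
  split_ifs with h1
  · refine (min_le_right _ _).trans (le_of_eq ?_)
    rw [sq_abs]
    ring
  · have hs : s < 0 := by
      by_contra hcon
      rw [abs_of_nonneg (by linarith)] at h1
      exact h1 h
    rw [abs_of_neg hs] at h1 ⊢
    by_cases h2 : s ≤ -1
    · refine (min_le_left _ _).trans ?_
      linarith
    · refine (min_le_right _ _).trans ?_
      have h3 : (1 + s) ^ 2 ≤ r ^ 2 := pow_le_pow_left₀ (by linarith) (by linarith) 2
      nlinarith

end Pool.Agent.Helper7.CT
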