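import Pool.Agent.Helper7.CT.Defs

/-!
# CT-B1: the barrier

PROOF. Take a smooth bump `χ` (`ContDiffBump (0 : ℂ)` with radii `1 < 2`): `χ = 1` on the closed disc of radius `1`, `χ = 0` for `‖z‖ ≥ 2`,
`0 ≤ χ ≤ 1`. `k z` := the gradient of `χ` (`⟨fderiv ℝ χ z 1, fderiv ℝ χ z I⟩`), `C¹` with compact support, so
`‖fderiv ℝ k z‖ ≤ K` for some `K > 0`. For `ρ' ≥ r₀`, `ρ' ≥ 1`, `A K ≤ ρ'²` put `b z = -A χ (z / ρ')`, `g z = -(A / ρ') k (z / ρ')`, `ρ = 2 ρ'`.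
Then `fderiv g z = -(A / ρ'²) fderiv k (z/ρ')`.
(If `z` has norm exactly `ρ` then `χ` and `k` vanish there too: `χ = 0` on `‖z‖ ≥ 2`, `k` vanishes there because `χ ≥ 0` has a minimum.)
-/

set_option autoImplicit false

open MeasureTheory Metric Set Complex

namespace Pool.Agent.Helper7.CT

/-- the vector representing a functional -/
private noncomputable def lam_h52 (φ : ℂ →L[ℝ] ℝ) : ℂ := (φ 1) • (1 : ℂ) + (φ I) • I

private theorem lam_zero_h52 : lam_h52 0 = 0 := by simp [lam_h52]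

private theorem inner_lam_h52 (φ : ℂ →L[ℝ] ℝ) (c : ℝ) : innerSL ℝ (c • lam_h52 φ) = c • φ := by
  refine ContinuousLinearMap.ext fun v => ?_
  have hv : φ v = v.re * φ 1 + v.im * φ I := by
    have h1 : v = v.re • (1 : ℂ) + v.im • I := by
      apply Complex.ext <;> simp
    conv_lhs => rw [h1]
    rw [map_add, map_smul, map_smul, smul_eq_mul, smul_eq_mul]
  rw [innerSL_apply_apply, smul_apply, hv, Complex.inner]
  unfold lam_h52
  simp
  ring

private theorem lam_contDiff_h52 {χ : ℂ → ℝ} (h : ContDiff ℝ 2 χ) : ContDiff ℝ 1 (fun z => lam_h52 (fderiv ℝ χ z)) := by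
  have h1 : ContDiff ℝ 1 (fderiv ℝ χ) := h.fderiv_right (by norm_num)
  unfold lam_h52
  exact ((h1.clm_apply contDiff_const).smul contDiff_const).add ((h1.clm_apply contDiff_const).smul contDiff_const)

theorem exists_bar {A r₀ : ℝ} (hA : 0 < A) (hr : 0 < r₀) :
    ∃ (ρ : ℝ) (b : ℂ → ℝ) (g : ℂ → ℂ), 0 < ρ ∧ IsBar A r₀ ρ b g := by
  let χ : ContDiffBump (0 : ℂ) := ⟨1, 2, one_pos, one_lt_two⟩
  have hχ : ContDiff ℝ 2 (χ : ℂ → ℝ) := χ.contDiff
  set k : ℂ → ℂ := fun z => lam_h52 (fderiv ℝ (χ : ℂ → ℝ) z) with hk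
  have hk1 : ContDiff ℝ 1 k := lam_contDiff_h52 hχ
  have hkc : HasCompactSupport k := (χ.hasCompactSupport.fderiv ℝ).comp_left lam_zero_h52
  obtain ⟨K, hK⟩ := (hkc.fderiv ℝ).exists_bound_of_continuous (hk1.continuous_fderiv (by norm_num))
  have hK0 : 0 ≤ K := (norm_nonneg _).trans (hK 0)
  set s : ℝ := r₀ + 1 + A * K with hs
  have hAK : 0 ≤ A * K := mul_nonneg hA.le hK0
  have hs0 : 0 < s := by rw [hs]; linarith
  have hs1 : 1 ≤ s := by rw [hs]; linarith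
  -- the scaling
  have hsc : ∀ z : ℂ, HasFDerivAt (fun z : ℂ => s⁻¹ • z) (s⁻¹ • ContinuousLinearMap.id ℝ ℂ) z := fun z =>
    (hasFDerivAt_id z).const_smul s⁻¹
  refine ⟨2 * s, fun z => -A * χ (s⁻¹ • z), fun z => (-A * s⁻¹) • k (s⁻¹ • z), by linarith, ?_⟩
  refine ⟨?_, ?_, ?_, ?_, ?_, ?_⟩
  · intro z
    have h1 : HasFDerivAt (χ : ℂ → ℝ) (fderiv ℝ (χ : ℂ → ℝ) (s⁻¹ • z)) (s⁻¹ • z) :=
      (hχ.differentiable (by norm_num) _).hasFDerivAt
    have h2 := (h1.comp z (hsc z)).const_mul (-A)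
    refine h2.congr_fderiv ?_
    rw [hk, inner_lam_h52]
    refine ContinuousLinearMap.ext fun v => ?_
    simp
    ring
  · exact (hk1.comp (contDiff_id.const_smul s⁻¹)).const_smul (-A * s⁻¹)
  · intro z
    have h1 := χ.nonneg (x := s⁻¹ • z)
    show -A * χ (s⁻¹ • z) ≤ 0
    nlinarith
  · intro z hz
    have h1 : χ (s⁻¹ • z) = 1 := by
      apply χ.one_of_mem_closedBall
      rw [mem_closedBall_zero_iff, norm_smul, Real.norm_eq_abs, abs_of_pos (inv_pos.2 hs0)]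
      rw [inv_mul_le_iff₀ hs0]
      show ‖z‖ ≤ s * 1
      linarith
    show -A * χ (s⁻¹ • z) ≤ -A
    rw [h1, mul_one]
  · intro z hz
    have h0 : 2 ≤ ‖s⁻¹ • z‖ := by
      rw [norm_smul, Real.norm_eq_abs, abs_of_pos (inv_pos.2 hs0), le_inv_mul_iff₀ hs0]
      linarith
    have h1 : χ (s⁻¹ • z) = 0 := χ.zero_of_le_dist (by rw [dist_zero_right]; exact h0)
    have h2 : fderiv ℝ (χ : ℂ → ℝ) (s⁻¹ • z) = 0 := by
      apply IsLocalMin.fderiv_eq_zero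
      refine Filter.Eventually.of_forall fun w => ?_
      show χ (s⁻¹ • z) ≤ χ w
      rw [h1]
      exact χ.nonneg
    refine ⟨?_, ?_⟩
    · show -A * χ (s⁻¹ • z) = 0
      rw [h1, mul_zero]
    · show (-A * s⁻¹) • k (s⁻¹ • z) = 0
      rw [hk]
      simp only [h2, lam_zero_h52, smul_zero]
  · intro z
    have h1 : HasFDerivAt k (fderiv ℝ k (s⁻¹ • z)) (s⁻¹ • z) :=
      (hk1.differentiable (by norm_num) _).hasFDerivAt
    have h2 := (h1.comp z (hsc z)).const_smul (-A * s⁻¹)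
    have h3 : fderiv ℝ (fun z => (-A * s⁻¹) • k (s⁻¹ • z)) z =
        (-A * s⁻¹) • (fderiv ℝ k (s⁻¹ • z)).comp (s⁻¹ • ContinuousLinearMap.id ℝ ℂ) := h2.fderiv
    rw [h3]
    have h4 : (-A * s⁻¹) • (fderiv ℝ k (s⁻¹ • z)).comp (s⁻¹ • ContinuousLinearMap.id ℝ ℂ) =
        (-A * s⁻¹ * s⁻¹) • fderiv ℝ k (s⁻¹ • z) := by
      refine ContinuousLinearMap.ext fun v => ?_
      simp [smul_smul]
    rw [h4, norm_smul, Real.norm_eq_abs]
    have h5 : |(-A * s⁻¹ * s⁻¹)| = A / s ^ 2 := by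
      rw [abs_mul, abs_mul, abs_neg, abs_of_pos hA, abs_of_pos (inv_pos.2 hs0)]
      field_simp
    rw [h5]
    have h6 : A / s ^ 2 * ‖fderiv ℝ k (s⁻¹ • z)‖ ≤ A / s ^ 2 * K := mul_le_mul_of_nonneg_left (hK _) (by positivity)
    refine h6.trans ?_
    rw [div_mul_eq_mul_div, div_le_one (by positivity)]
    nlinarith

end Pool.Agent.Helper7.CT
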