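import Pool.Agent.Helper7.CT.A1

/-!
# CT-B2: the mass on the contact set with the barrier

PROOF. For almost every `p` in the disc `X` `x = xp R ψ p` is a maximiser for `ψ` (`ae_isMx`). If `x ∈ E` then `ψ x = b x` and `b ≤ ψ` on `X`, so `x` maximises
`Γ y = dt y p - ‖y‖²/2 + b y` on `X`. If `‖x‖ < R` the derivative vanishes: `p - x + g x = 0`, so `p = x - g x`.
If `‖x‖ = R > ρ` then `b = 0` near `x` and `g x = 0`; `y ↦ dt y p - ‖y‖²/2 = ‖p‖²/2 - ‖y - p‖²/2` has a maximum at `x` among the `y ∈ X` near `x`; with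
`y = x + t (p - x) ∈ X`, `t → 0+`, (`p ∈ X`) `(1-t) ‖p - x‖ ≥ ‖p - x‖`, so `p = x`. In all cases `p = x - g x`. So the set is contained (up to a null set) in the image of `E` under
`id - g`, whose derivative has determinant of absolute value `≤ ‖1 - fderiv g‖² ≤ 4` (area formula `MeasureTheory.addHaar_image_le_lintegral_abs_det_fderiv`).
(For the determinant: `det (1 - A) = (1-a)(1-d) - bc` and `‖(1-A) 1‖, ‖(1-A) I‖ ≤ 2`, the determinant of two vectors is at most the product of the norms.)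
-/

set_option autoImplicit false

open MeasureTheory Metric Set Complex

namespace Pool.Agent.Helper7.CT

private lemma det_c_54 (B : ℂ →L[ℝ] ℂ) : B.det = (B 1).re * (B I).im - (B 1).im * (B I).re := by
  rw [ContinuousLinearMap.det, ← LinearMap.det_toMatrix Complex.basisOneI, Matrix.det_fin_two]
  simp [LinearMap.toMatrix_apply]
  ring

private lemma abs_det_le_54 (B : ℂ →L[ℝ] ℂ) (h1 : ‖B 1‖ ≤ 2) (h2 : ‖B I‖ ≤ 2) : |B.det| ≤ 4 := by
  rw [det_c_54]
  have e1 : ‖B 1‖ ^ 2 = (B 1).re ^ 2 + (B 1).im ^ 2 := by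
    rw [← normSq_eq_norm_sq, normSq_apply]; ring
  have e2 : ‖B I‖ ^ 2 = (B I).re ^ 2 + (B I).im ^ 2 := by
    rw [← normSq_eq_norm_sq, normSq_apply]; ring
  have e3 : ‖B 1‖ ^ 2 ≤ 4 := by nlinarith [norm_nonneg (B 1)]
  have e4 : ‖B I‖ ^ 2 ≤ 4 := by nlinarith [norm_nonneg (B I)]
  have e5 : ((B 1).re * (B I).im - (B 1).im * (B I).re) ^ 2 ≤ ‖B 1‖ ^ 2 * ‖B I‖ ^ 2 := by
    rw [e1, e2]
    nlinarith [sq_nonneg ((B 1).re * (B I).re + (B 1).im * (B I).im)]
  have e6 : ‖B 1‖ ^ 2 * ‖B I‖ ^ 2 ≤ 4 * 4 :=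
    mul_le_mul e3 e4 (sq_nonneg _) (by norm_num)
  refine abs_le_of_sq_le_sq ?_ (by norm_num)
  nlinarith

private lemma dt_eq_54 (x p : ℂ) : dt x p = inner ℝ p x := by
  unfold dt
  simp only [Complex.inner, mul_re, conj_re, conj_im]
  ring

/-- the maximisers on the contact set -/
private lemma key_54 {R A r₀ ρ : ℝ} {b ψ : ℂ → ℝ} {g : ℂ → ℂ} (hρ : 0 < ρ) (hR : ρ < R)
    (hbar : IsBar A r₀ ρ b g) (hge : ∀ x ∈ closedBall (0 : ℂ) R, b x ≤ ψ x) {p x : ℂ}
    (hp : p ∈ closedBall (0 : ℂ) R) (hx : IsMx R ψ p x) (hψ : ψ x = b x) : x - g x = p := by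
  have hmax : ∀ y ∈ closedBall (0 : ℂ) R,
      dt y p - ‖y‖ ^ 2 / 2 + b y ≤ dt x p - ‖x‖ ^ 2 / 2 + b x := by
    intro y hy
    have h1 := hx.2 y hy
    have h2 := hge y hy
    rw [hψ] at h1
    linarith
  have hxR := hx.1
  rw [mem_closedBall_zero_iff] at hxR hp
  rcases lt_or_eq_of_le hxR with hlt | heq
  · -- interior point
    have hloc : IsLocalMax (fun y => dt y p - ‖y‖ ^ 2 / 2 + b y) x := by
      have : closedBall (0 : ℂ) R ∈ nhds x :=
        Filter.mem_of_superset (isOpen_ball.mem_nhds (mem_ball_zero_iff.2 hlt)) ball_subset_closedBall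
      filter_upwards [this] with y hy
      exact hmax y hy
    have hd : HasFDerivAt (fun y => dt y p - ‖y‖ ^ 2 / 2 + b y)
        (innerSL ℝ p - (2 : ℝ)⁻¹ • (2 • innerSL ℝ x) + innerSL ℝ (g x)) x := by
      refine (HasFDerivAt.sub ?_ ?_).add (hbar.pot x)
      · have h1 : (fun y => dt y p) = fun y => innerSL ℝ p y := by
          funext y
          rw [dt_eq_54]
          rfl
        rw [h1]
        exact (innerSL ℝ p).hasFDerivAt
      · have h1 := ((hasStrictFDerivAt_norm_sq x).hasFDerivAt).const_mul (2 : ℝ)⁻¹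
        refine h1.congr_of_eventuallyEq (Filter.Eventually.of_forall fun y => ?_)
        simp only
        ring
    have h0 := hloc.hasFDerivAt_eq_zero hd
    have h1 : innerSL ℝ (p - x + g x) = (0 : ℂ →L[ℝ] ℝ) := by
      rw [← h0, map_add, map_sub]
      congr 2
      rw [two_smul, smul_add, ← add_smul]
      norm_num
    have h2 : inner ℝ (p - x + g x) (p - x + g x) = (0 : ℝ) := by
      have := congrArg (fun L : ℂ →L[ℝ] ℝ => L (p - x + g x)) h1
      exact this
    have h3 : p - x + g x = 0 := inner_self_eq_zero.1 h2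
    linear_combination -h3
  · -- boundary point
    have hR0 : 0 < R := hρ.trans hR
    obtain ⟨hbx, hgx⟩ := hbar.far x (by rw [heq]; exact hR.le)
    rw [hgx, sub_zero]
    set t := (R - ρ) / (2 * R) with ht
    have ht0 : 0 < t := div_pos (by linarith) (by linarith)
    have ht1 : t ≤ 1 / 2 := by
      rw [ht, div_le_iff₀ (by linarith)]
      linarith
    set y := x + t • (p - x) with hy
    have hyR : y ∈ closedBall (0 : ℂ) R := by
      have hc := (convex_closedBall (0 : ℂ) R)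
      have := hc (mem_closedBall_zero_iff.2 hxR) (mem_closedBall_zero_iff.2 hp)
        (by linarith : (0 : ℝ) ≤ 1 - t) ht0.le (by ring)
      have e : (1 - t) • x + t • p = y := by
        rw [hy, sub_smul, one_smul, smul_sub]
        ring
      rwa [e] at this
    have hd : ‖p - x‖ ≤ 2 * R := by
      refine (norm_sub_le _ _).trans ?_
      linarith
    have hyρ : ρ ≤ ‖y‖ := by
      have h1 : ‖x‖ ≤ ‖y‖ + ‖t • (p - x)‖ := by
        have : x = y - t • (p - x) := by rw [hy]; ring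
        conv_lhs => rw [this]
        exact norm_sub_le _ _
      have h2 : ‖t • (p - x)‖ ≤ R - ρ := by
        rw [norm_smul, Real.norm_eq_abs, abs_of_pos ht0]
        calc t * ‖p - x‖ ≤ t * (2 * R) := mul_le_mul_of_nonneg_left hd ht0.le
          _ = R - ρ := by rw [ht]; field_simp
      linarith
    have hby := (hbar.far y hyρ).1
    have h1 := hmax y hyR
    rw [hby, hbx] at h1
    have e1 : ∀ z : ℂ, dt z p - ‖z‖ ^ 2 / 2 = ‖p‖ ^ 2 / 2 - ‖z - p‖ ^ 2 / 2 := by
      intro z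
      unfold dt
      rw [← normSq_eq_norm_sq, ← normSq_eq_norm_sq, ← normSq_eq_norm_sq, normSq_apply, normSq_apply,
        normSq_apply]
      simp only [sub_re, sub_im]
      ring
    rw [e1, e1] at h1
    have e2 : y - p = (1 - t) • (x - p) := by
      rw [hy, sub_smul, one_smul, smul_sub, smul_sub]
      ring
    rw [e2, norm_smul, Real.norm_eq_abs, abs_of_pos (by linarith : 0 < 1 - t)] at h1
    have h2 : ‖x - p‖ ^ 2 ≤ ((1 - t) * ‖x - p‖) ^ 2 := by linarith
    have h3 : ‖x - p‖ = 0 := by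
      by_contra hne
      have hpos : 0 < ‖x - p‖ := lt_of_le_of_ne (norm_nonneg _) (Ne.symm hne)
      have h4 : (1 - t) * ‖x - p‖ < ‖x - p‖ := by nlinarith
      have h5 : 0 ≤ (1 - t) * ‖x - p‖ := mul_nonneg (by linarith) hpos.le
      nlinarith
    rw [norm_eq_zero, sub_eq_zero] at h3
    exact h3

theorem mu_bar {R A r₀ ρ : ℝ} {b ψ : ℂ → ℝ} {g : ℂ → ℂ} (hρ : 0 < ρ) (hR : ρ < R) (hψ : Continuous ψ)
    (hbar : IsBar A r₀ ρ b g) (hge : ∀ x ∈ closedBall (0 : ℂ) R, b x ≤ ψ x) {E : Set ℂ}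
    (hE : MeasurableSet E) (hsub : E ⊆ {x ∈ closedBall (0 : ℂ) R | ψ x = b x}) :
    volume {p ∈ closedBall (0 : ℂ) R | xp R ψ p ∈ E} ≤ 4 * volume E := by
  have hR0 : 0 ≤ R := (hρ.trans hR).le
  have hgd : Differentiable ℝ g := hbar.smooth.differentiable one_ne_zero
  -- the set is contained in the image of `E`
  have h1 : volume {p ∈ closedBall (0 : ℂ) R | xp R ψ p ∈ E} ≤
      volume ((fun x => x - g x) '' E) := by
    refine measure_mono_ae ?_
    filter_upwards [ae_isMx hR0 hψ] with p hp hpE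
    obtain ⟨hp1, hp2⟩ := hpE
    exact ⟨xp R ψ p, hp2, key_54 hρ hR hbar hge hp1 hp.1 (hsub hp2).2⟩
  refine h1.trans ?_
  have h2 : ∀ x ∈ E, HasFDerivWithinAt (fun x => x - g x)
      (ContinuousLinearMap.id ℝ ℂ - fderiv ℝ g x) E x := fun x _ =>
    ((hasFDerivAt_id x).sub (hgd x).hasFDerivAt).hasFDerivWithinAt
  refine (addHaar_image_le_lintegral_abs_det_fderiv volume hE h2).trans ?_
  calc ∫⁻ x in E, ENNReal.ofReal |(ContinuousLinearMap.id ℝ ℂ - fderiv ℝ g x).det|
      ≤ ∫⁻ _ in E, 4 := by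
        refine lintegral_mono fun x => ?_
        have hb : ∀ v : ℂ, ‖v‖ = 1 →
            ‖(ContinuousLinearMap.id ℝ ℂ - fderiv ℝ g x) v‖ ≤ 2 := by
          intro v hv
          show ‖v - fderiv ℝ g x v‖ ≤ 2
          have e1 := (fderiv ℝ g x).le_opNorm v
          have e2 := hbar.hess x
          rw [hv, mul_one] at e1
          have e3 := norm_sub_le v (fderiv ℝ g x v)
          rw [hv] at e3
          linarith
        have h3 := abs_det_le_54 _ (hb 1 norm_one) (hb I norm_I)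
        calc ENNReal.ofReal |(ContinuousLinearMap.id ℝ ℂ - fderiv ℝ g x).det|
            ≤ ENNReal.ofReal 4 := ENNReal.ofReal_le_ofReal h3
          _ = 4 := by norm_num
    _ = 4 * volume E := by rw [lintegral_const, Measure.restrict_apply_univ]

end Pool.Agent.Helper7.CT
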