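import Pool.Agent.Helper7.CT.A5
import Pool.Agent.Helper7.CT.B2

/-!
# CT-B3: the upper bound for the mass, and the maximisers

`mu_all`. PROOF. Split `E` into `E ∩ {b < ψ}` (`mu_le`) and `E ∩ {ψ = b}` (`mu_bar`; there `ψ = b ≤ φ`), use `measure_union` for the
right sides (disjoint) and subadditivity on the left.
`mx_all`. PROOF. Suppose that `x` is not a maximiser. The set `S` of the maximisers (`mx_closed`) is closed, so some ball `U` about `x` lies in the complement of `S` and in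
`{ψ < φ} ∩ ball 0 R`. By `mu_ge`, `4 vol U ≤ vol {p ∈ X : xp p ∈ U}`, but for almost every `p ∈ X` `xp R ψ p ∈ S` (`ae_isMx`), so the right side is zero.
-/

set_option autoImplicit false

open MeasureTheory Metric Set Complex

namespace Pool.Agent.Helper7.CT

variable {R A r₀ ρ : ℝ} {φ b ψ : ℂ → ℝ} {g : ℂ → ℂ}

theorem mu_all (hρ : 0 < ρ) (hR : ρ < R) (hφ : Continuous φ) (hbar : IsBar A r₀ ρ b g)
    (hbφ : ∀ x, b x ≤ φ x) (h : IsMin R φ b ψ) {E : Set ℂ} (hE : MeasurableSet E)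
    (hsub : E ⊆ closedBall (0 : ℂ) R) :
    volume {p ∈ closedBall (0 : ℂ) R | xp R ψ p ∈ E} ≤ 4 * volume (E ∩ {x | ψ x ≤ φ x}) := by
  have hR0 : 0 ≤ R := by linarith
  have hb : Continuous b := continuous_iff_continuousAt.2 fun z => (hbar.pot z).continuousAt
  have hlt : MeasurableSet {x : ℂ | b x < ψ x} := (isOpen_lt hb h.cont).measurableSet
  have heq : MeasurableSet {x : ℂ | ψ x = b x} := (isClosed_eq h.cont hb).measurableSet
  have hle : MeasurableSet {x : ℂ | ψ x ≤ φ x} := (isClosed_le h.cont hφ).measurableSet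
  set E1 : Set ℂ := E ∩ {x | b x < ψ x} with hE1
  set E2 : Set ℂ := E ∩ {x | ψ x = b x} with hE2
  have h1 : volume {p ∈ closedBall (0 : ℂ) R | xp R ψ p ∈ E1} ≤ 4 * volume (E1 ∩ {x | ψ x ≤ φ x}) :=
    mu_le hR0 hφ hb h (hE.inter hlt) fun x hx => ⟨hsub hx.1, hx.2⟩
  have h2 : volume {p ∈ closedBall (0 : ℂ) R | xp R ψ p ∈ E2} ≤ 4 * volume E2 :=
    mu_bar hρ hR h.cont hbar h.ge (hE.inter heq) fun x hx => ⟨hsub hx.1, hx.2⟩
  have h3 : {p ∈ closedBall (0 : ℂ) R | xp R ψ p ∈ E} ⊆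
      {p ∈ closedBall (0 : ℂ) R | xp R ψ p ∈ E1} ∪ {p ∈ closedBall (0 : ℂ) R | xp R ψ p ∈ E2} := by
    rintro p ⟨hp, hpE⟩
    rcases (h.ge _ (hsub hpE)).lt_or_eq with h4 | h4
    · exact Or.inl ⟨hp, hpE, h4⟩
    · exact Or.inr ⟨hp, hpE, h4.symm⟩
  have h4 : E ∩ {x | ψ x ≤ φ x} = (E1 ∩ {x | ψ x ≤ φ x}) ∪ E2 := by
    ext x
    constructor
    · rintro ⟨hx, hx2⟩
      rcases (h.ge _ (hsub hx)).lt_or_eq with h5 | h5
      · exact Or.inl ⟨⟨hx, h5⟩, hx2⟩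
      · exact Or.inr ⟨hx, h5.symm⟩
    · rintro (⟨⟨hx, _⟩, hx2⟩ | ⟨hx, hx2⟩)
      · exact ⟨hx, hx2⟩
      · refine ⟨hx, ?_⟩
        have h5 : ψ x = b x := hx2
        show ψ x ≤ φ x
        rw [h5]
        exact hbφ x
  have h5 : Disjoint (E1 ∩ {x | ψ x ≤ φ x}) E2 := by
    rw [Set.disjoint_left]
    rintro x ⟨⟨_, hx⟩, _⟩ ⟨_, hx2⟩
    have h6 : b x < ψ x := hx
    have h7 : ψ x = b x := hx2
    linarith
  rw [h4, measure_union h5 (hE.inter heq), mul_add]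
  exact (measure_mono h3).trans ((measure_union_le _ _).trans (add_le_add h1 h2))

theorem mx_all (hR : 0 ≤ R) (hφ : Continuous φ) (h : IsMin R φ b ψ) {x : ℂ} (hx : ‖x‖ < R)
    (hlt : ψ x < φ x) : ∃ p ∈ closedBall (0 : ℂ) R, IsMx R ψ p x := by
  by_contra hcon
  set S : Set ℂ := {x : ℂ | ∃ p ∈ closedBall (0 : ℂ) R, IsMx R ψ p x} with hS
  have hSc : IsClosed S := mx_closed h.cont
  set U : Set ℂ := Sᶜ ∩ (ball (0 : ℂ) R ∩ {y | ψ y < φ y}) with hU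
  have hUo : IsOpen U := hSc.isOpen_compl.inter (isOpen_ball.inter (isOpen_lt h.cont hφ))
  have hxU : x ∈ U := ⟨hcon, by rw [mem_ball_zero_iff]; exact hx, hlt⟩
  have h1 : 4 * volume U ≤ volume {p ∈ closedBall (0 : ℂ) R | xp R ψ p ∈ U} :=
    mu_ge hR hφ h hUo fun y hy => ⟨ball_subset_closedBall hy.2.1, hy.2.2⟩
  have h2 : volume {p ∈ closedBall (0 : ℂ) R | xp R ψ p ∈ U} = 0 := by
    have h3 := ae_isMx hR h.cont
    rw [← nonpos_iff_eq_zero]
    refine (measure_mono ?_).trans (le_of_eq (ae_iff.1 h3))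
    rintro p ⟨hp, hpU⟩ hmx
    exact hpU.1 ⟨p, hp, hmx.1⟩
  rw [h2] at h1
  have h3 : 0 < volume U := hUo.measure_pos volume ⟨x, hxU⟩
  have h4 : volume U = 0 := by
    have h5 : 4 * volume U = 0 := le_antisymm h1 zero_le
    rcases mul_eq_zero.1 h5 with h6 | h6
    · norm_num at h6
    · exact h6
  exact h3.ne' h4

end Pool.Agent.Helper7.CT
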