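import Pool.Agent.Helper7.CT.Defs

/-!
# CT-C1: minimum at a density point

PROOF. `MeasureTheory.Measure.eventually_nonempty_inter_smul_of_density_one`: for every measurable `t` of positive measure the set
`S ∩ ({x} + r • t)` is nonempty for all small `r > 0`. First order: let `e ∈ ℂ`, `ε > 0`, `t = ball e ε`: there are `v_r ∈ ball e ε` with
`x + r v_r ∈ S`, so `0 ≤ Γ (x + r v_r) - Γ x = r dt (g x) v_r + o(r)`, hence `0 ≤ dt (g x) e + ‖g x‖ ε`; `ε → 0`, so `dt (g x) e ≥ 0` for all `e`, `g x = 0`.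
Second order: now `Γ (x + r v) - Γ x = r ∫_0^1 dt (g (x + s r v)) v ds` and `g (x + s r v) = s r A v + o(r)` uniformly for `‖v‖ ≤ ‖e‖ + 1`, `0 ≤ s ≤ 1`,
`A = fderiv g x`, so `0 ≤ r² dt (A v) v / 2 + o(r²)` (alternative: mean value theorem for `r ↦ Γ (x + r v)`). Hence
`0 ≤ dt (A v_r) v_r + o(1)`, and with `v_r ∈ ball e ε`, `ε → 0`, `0 ≤ dt (A e) e`.
-/

set_option autoImplicit false

open MeasureTheory Metric Set Complex Filter Topology

namespace Pool.Agent.Helper7.CT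

private lemma dt24 (x p : ℂ) : dt x p = inner ℝ x p := by
  unfold dt
  rw [Complex.inner, Complex.mul_re, Complex.conj_re, Complex.conj_im]
  ring

/-- no descent directions near a density point -/
private lemma key24 {S : Set ℂ} {x : ℂ}
    (hd : Tendsto (fun r : ℝ => volume (S ∩ closedBall x r) / volume (closedBall x r)) (𝓝[>] 0) (𝓝 1))
    {Γ : ℂ → ℝ} {g : ℂ → ℂ} (hΓ : IsPot Γ g) (hmin : ∀ y ∈ S, Γ x ≤ Γ y) {e : ℂ} {ε δ : ℝ}
    (hε : 0 < ε) (hδ : 0 < δ)
    (h : ∀ w ∈ ball e ε, ∀ ξ ∈ Ioo 0 δ, inner ℝ (g (x + ξ • w)) w < 0) : False := by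
  have h1 := MeasureTheory.Measure.eventually_nonempty_inter_smul_of_density_one volume S x hd
    (ball e ε) measurableSet_ball (measure_ball_pos volume e hε).ne'
  have h2 : ∀ᶠ r : ℝ in 𝓝[>] 0, r ∈ Ioo 0 δ := Ioo_mem_nhdsGT hδ
  obtain ⟨r, ⟨y, hyS, hy⟩, hr⟩ := (h1.and h2).exists
  rw [Set.singleton_add, Set.mem_image] at hy
  obtain ⟨z, hz, hzy⟩ := hy
  obtain ⟨w, hw, hwz⟩ := Set.mem_smul_set.1 hz
  have hyw : y = x + r • w := by rw [← hzy, ← hwz]
  have hder : ∀ s : ℝ, HasDerivAt (fun s : ℝ => Γ (x + s • w)) (inner ℝ (g (x + s • w)) w) s := by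
    intro s
    have h3 : HasDerivAt (fun s : ℝ => x + s • w) w s := by
      have h4 := ((hasDerivAt_id s).smul_const w).const_add x
      rw [one_smul] at h4
      exact h4
    have h5 := (hΓ (x + s • w)).comp_hasDerivAt s h3
    rw [innerSL_apply_apply] at h5
    exact h5
  obtain ⟨ξ, hξ, hslope⟩ := exists_hasDerivAt_eq_slope (fun s : ℝ => Γ (x + s • w))
    (fun s => inner ℝ (g (x + s • w)) w) hr.1
    (fun s _ => (hder s).continuousAt.continuousWithinAt) (fun s _ => hder s)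
  have h6 := h w hw ξ ⟨hξ.1, hξ.2.trans hr.2⟩
  have hr0 : 0 < r := hr.1
  simp only [zero_smul, add_zero, sub_zero] at hslope
  rw [hslope, ← hyw] at h6
  have h7 := hmin y hyS
  have h8 : 0 ≤ (Γ y - Γ x) / r := div_nonneg (by linarith) hr0.le
  linarith

theorem crit_of_density {S : Set ℂ} {x : ℂ}
    (hd : Tendsto (fun r : ℝ => volume (S ∩ closedBall x r) / volume (closedBall x r)) (𝓝[>] 0) (𝓝 1))
    {Γ : ℂ → ℝ} {g : ℂ → ℂ} (hΓ : IsPot Γ g) (hg : ContDiff ℝ 1 g) (hmin : ∀ y ∈ S, Γ x ≤ Γ y) :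
    g x = 0 ∧ ∀ v : ℂ, 0 ≤ dt v (fderiv ℝ g x v) := by
  have hgc : Continuous g := hg.continuous
  have hg0 : g x = 0 := by
    by_contra hne
    have hneg : inner ℝ (g x) (-g x) < 0 := by
      rw [inner_neg_right, real_inner_self_eq_norm_sq]
      have : 0 < ‖g x‖ := norm_pos_iff.2 hne
      have : 0 < ‖g x‖ ^ 2 := by positivity
      linarith
    have hcont : Continuous (fun q : ℂ × ℝ => (inner ℝ (g (x + q.2 • q.1)) q.1 : ℝ)) := by
      fun_prop
    have hev : ∀ᶠ q : ℂ × ℝ in 𝓝 (-g x, 0), (inner ℝ (g (x + q.2 • q.1)) q.1 : ℝ) < 0 := by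
      refine hcont.continuousAt.eventually_lt_const ?_
      simpa using hneg
    obtain ⟨ε, hε, hball⟩ := Metric.eventually_nhds_iff.1 hev
    refine key24 hd hΓ hmin (e := -g x) hε hε ?_
    intro w hw ξ hξ
    refine hball (y := (w, ξ)) ?_
    rw [Prod.dist_eq, max_lt_iff]
    refine ⟨hw, ?_⟩
    rw [Real.dist_eq, sub_zero, abs_of_pos hξ.1]
    exact hξ.2
  refine ⟨hg0, ?_⟩
  intro v
  rw [dt24]
  by_contra hcon
  rw [not_le] at hcon
  set A := fderiv ℝ g x with hA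
  have hdiff : HasFDerivAt g A x := (hg.differentiable (by norm_num) x).hasFDerivAt
  have hAc : Continuous (fun w : ℂ => (inner ℝ w (A w) : ℝ)) := by
    have := A.continuous
    fun_prop
  have hev : ∀ᶠ w : ℂ in 𝓝 v, (inner ℝ w (A w) : ℝ) < inner ℝ v (A v) / 2 :=
    hAc.continuousAt.eventually_lt_const (by linarith)
  obtain ⟨ε, hε, hball⟩ := Metric.eventually_nhds_iff.1 hev
  set m := -(inner ℝ v (A v) : ℝ) / 2 with hm
  have hm0 : 0 < m := by
    rw [hm]
    linarith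
  set ρ := min ε 1 with hρ
  have hρ0 : 0 < ρ := lt_min hε one_pos
  set L := ‖v‖ + 1 with hL
  have hL0 : 0 < L := by positivity
  have hlin := hasFDerivAt_iff_isLittleO_nhds_zero.1 hdiff
  have hc : 0 < m / (2 * L ^ 2) := by positivity
  have hbound := hlin.bound hc
  obtain ⟨δ, hδ, hδb⟩ := Metric.eventually_nhds_iff.1 hbound
  refine key24 hd hΓ hmin (e := v) hρ0 (δ := δ / L) (by positivity) ?_
  intro w hw ξ hξ
  have hwε : (inner ℝ w (A w) : ℝ) < -m := by
    have h1 := hball (y := w) (lt_of_lt_of_le hw (min_le_left _ _))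
    rw [hm]
    linarith
  have hwL : ‖w‖ ≤ L := by
    have h1 : ‖w - v‖ < 1 := by
      rw [← dist_eq_norm]
      exact lt_of_lt_of_le hw (min_le_right _ _)
    have h2 : ‖w‖ ≤ ‖w - v‖ + ‖v‖ := by
      have := norm_add_le (w - v) v
      rwa [sub_add_cancel] at this
    rw [hL]
    linarith
  have hξ0 : 0 < ξ := hξ.1
  have hnorm : ‖ξ • w‖ ≤ ξ * L := by
    rw [norm_smul, Real.norm_eq_abs, abs_of_pos hξ0]
    exact mul_le_mul_of_nonneg_left hwL hξ0.le
  have hlt : ‖ξ • w‖ < δ := by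
    have h1 : ξ * L < δ := by
      have := hξ.2
      rwa [lt_div_iff₀ hL0] at this
    linarith
  have h3 := hδb (y := ξ • w) (by rwa [dist_zero_right])
  rw [hg0, sub_zero, map_smul] at h3
  have h4 : inner ℝ (g (x + ξ • w)) w = ξ * inner ℝ w (A w) +
      inner ℝ (g (x + ξ • w) - ξ • A w) w := by
    rw [inner_sub_left, real_inner_smul_left, real_inner_comm (A w) w]
    ring
  have h5 : inner ℝ (g (x + ξ • w) - ξ • A w) w ≤ m / (2 * L ^ 2) * (ξ * L) * L := by
    refine (real_inner_le_norm _ _).trans ?_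
    have h6 : ‖g (x + ξ • w) - ξ • A w‖ ≤ m / (2 * L ^ 2) * (ξ * L) :=
      h3.trans (mul_le_mul_of_nonneg_left hnorm hc.le)
    exact mul_le_mul h6 hwL (norm_nonneg _) (by positivity)
  have h7 : m / (2 * L ^ 2) * (ξ * L) * L = ξ * (m / 2) := by
    field_simp
  rw [h7] at h5
  have h8 : ξ * inner ℝ w (A w) < ξ * -m := mul_lt_mul_of_pos_left hwε hξ0
  rw [h4]
  have h9 : 0 < ξ * m := mul_pos hξ0 hm0
  nlinarith

end Pool.Agent.Helper7.CT
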