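import Pool.Agent.Helper7.CT.A1
import Pool.Agent.Helper7.CT.C1
import Pool.Agent.Helper7.CT.Alg
import Pool.Agent.Helper7.BU.Det

/-!
# CT-C2: the mass on the contact set

PROOF. `Oc = {y ∈ X | φ y ≤ ψ y}` (closed), `X` the closed disc. Almost every point of `Oc` is a density point of `Oc` (`Besicovitch.ae_tendsto_measure_inter_div`), the circle
`‖x‖ = R` is a null set; so by `hac` the set of the `p ∈ X` with `xp R ψ p` in `E` but not a density point of `Oc`, or on the circle, is a null set. Let `x = xp R ψ p ∈ E` be a density point, `‖x‖ < R`,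
`x` the maximiser for `p` (`ae_isMx`). For `y ∈ Oc`: `‖y-p‖²/2 - φ y ≥ ‖y-p‖²/2 - ψ y ≥ ‖x-p‖²/2 - ψ x = ‖x-p‖²/2 - φ x`. So `crit_of_density` with `S = Oc`,
`Γ y = ‖y-p‖²/2 - φ y`, gradient `y - p - f y`, gives `p = x - f x` and `0 ≤ ‖v‖² - dt v (A v)`, `A = fderiv f x`. With `A v = dz v + db v̄`
(`BU.fderiv_eq`), `dz = s` real, `dt v (A v) = s ‖v‖² + Re (db v̄²)`; choosing `v` with `db v̄² = |db|`, `‖v‖ = 1`: `s + ‖db‖ ≤ 1`.
Let `E₁ = {x ∈ E | s + ‖db‖ ≤ 1, (1-s)² - ‖db‖² ≤ 4}`, `E₂ = {x ∈ E | s + ‖db‖ ≤ 1, (1-s)² - ‖db‖² > 4}` (measurable, `s = (dz f x).re`).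
The `p` with `xp p ∈ E₁` (good points) lie in the image of `E₁` under `x ↦ x - f x`: measure `≤ ∫_{E₁} |det (1 - A)| = ∫_{E₁} ((1-s)² - ‖db‖²)` (`addHaar_image_le_lintegral_abs_det_fderiv`,
determinant as in `BU.det_eq`); those with `xp p ∈ E₂`: `≤ 4 vol E₂` by `hac`. Then `alg2`.
-/

set_option autoImplicit false

open MeasureTheory Metric Set Complex Filter Topology

namespace Pool.Agent.Helper7.CT

open Pool.Agent.Helper7.BU

private lemma det_c_61 (B : ℂ →L[ℝ] ℂ) : B.det = (B 1).re * (B I).im - (B 1).im * (B I).re := by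
  rw [ContinuousLinearMap.det, ← LinearMap.det_toMatrix Complex.basisOneI, Matrix.det_fin_two]
  simp [LinearMap.toMatrix_apply]
  ring

private lemma fd_sub_61 {f : ℂ → ℂ} (hf : ContDiff ℝ 1 f) (z : ℂ) :
    HasFDerivAt (fun x => x - f x) (ContinuousLinearMap.id ℝ ℂ - fderiv ℝ f z) z :=
  (hasFDerivAt_id z).sub (hf.differentiable one_ne_zero z).hasFDerivAt

private lemma det_sub_61 {f : ℂ → ℂ} (hf : ContDiff ℝ 1 f) (hsym : ∀ z, (dz f z).im = 0) (z : ℂ) :
    (ContinuousLinearMap.id ℝ ℂ - fderiv ℝ f z).det = (1 - (dz f z).re) ^ 2 - ‖db f z‖ ^ 2 := by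
  have h1 := det_eq (fun x => x - f x) z
  have h2 : fderiv ℝ (fun x => x - f x) z = ContinuousLinearMap.id ℝ ℂ - fderiv ℝ f z := (fd_sub_61 hf z).fderiv
  have h3 : dz (fun x => x - f x) z = 1 - dz f z := by
    unfold dz
    rw [h2]
    simp only [_root_.sub_apply, ContinuousLinearMap.id_apply]
    linear_combination (-1 / 2 : ℂ) * I_mul_I
  have h4 : db (fun x => x - f x) z = - db f z := by
    unfold db
    rw [h2]
    simp only [_root_.sub_apply, ContinuousLinearMap.id_apply]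
    linear_combination (1 / 2 : ℂ) * I_mul_I
  rw [h2, h3, h4, norm_neg] at h1
  rw [det_c_61, ← h1]
  congr 1
  rw [← normSq_eq_norm_sq, normSq_apply]
  simp only [sub_re, sub_im, one_re, one_im, hsym z]
  ring

private lemma dt_expand_61 (y p : ℂ) : ‖y - p‖ ^ 2 / 2 = ‖y‖ ^ 2 / 2 - dt y p + ‖p‖ ^ 2 / 2 := by
  unfold dt
  rw [← normSq_eq_norm_sq, ← normSq_eq_norm_sq, ← normSq_eq_norm_sq, normSq_apply, normSq_apply, normSq_apply]
  simp only [sub_re, sub_im]
  ring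

private lemma pot_61 {φ : ℂ → ℝ} {f : ℂ → ℂ} (hpot : IsPot φ f) (p : ℂ) :
    IsPot (fun y => ‖y - p‖ ^ 2 / 2 - φ y) (fun y => y - p - f y) := by
  intro z
  have h1 : HasFDerivAt (fun y : ℂ => ‖y - p‖ ^ 2) (2 • (innerSL ℝ (z - p)).comp (ContinuousLinearMap.id ℝ ℂ)) z := by
    exact ((hasFDerivAt_id z).sub_const p).norm_sq
  have h2 := (h1.mul_const (1 / 2 : ℝ)).sub (hpot z)
  have h3 : (fun y => ‖y - p‖ ^ 2 / 2 - φ y) = fun y => ‖y - p‖ ^ 2 * (1 / 2 : ℝ) - φ y := by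
    funext y; ring
  rw [h3]
  refine h2.congr_fderiv ?_
  rw [map_sub (innerSL ℝ) (z - p) (f z)]
  congr 1
  ext v
  simp

/-- the matrix inequality -/
private lemma eig_61 {f : ℂ → ℂ} (hf : ContDiff ℝ 1 f) (hsym : ∀ z, (dz f z).im = 0) (x p : ℂ)
    (h : ∀ v : ℂ, 0 ≤ dt v (fderiv ℝ (fun y => y - p - f y) x v)) :
    (dz f x).re + ‖db f x‖ ≤ 1 := by
  have h1 : HasFDerivAt (fun y => y - p - f y) (ContinuousLinearMap.id ℝ ℂ - fderiv ℝ f x) x :=
    ((hasFDerivAt_id x).sub_const p).sub (hf.differentiable one_ne_zero x).hasFDerivAt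
  rw [h1.fderiv] at h
  set θ : ℝ := arg (db f x) with hθ
  set v : ℂ := exp ((θ / 2 : ℝ) * I) with hv
  have hv1 : ‖v‖ = 1 := norm_exp_ofReal_mul_I _
  have hs : dz f x = (((dz f x).re : ℝ) : ℂ) := by
    apply Complex.ext
    · simp
    · simp [hsym x]
  have h3 : db f x * (starRingEnd ℂ) v = ((‖db f x‖ : ℝ) : ℂ) * v := by
    have h4 : (starRingEnd ℂ) v = exp (-((θ / 2 : ℝ) * I)) := by
      rw [hv, ← Complex.exp_conj]
      congr 1
      rw [map_mul, conj_ofReal, conj_I]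
      ring
    have h5 := Complex.norm_mul_exp_arg_mul_I (db f x)
    conv_lhs => rw [← h5]
    rw [h4, hv, mul_assoc, ← Complex.exp_add]
    congr 2
    rw [← hθ]
    push_cast
    ring
  have h2 := h v
  simp only [_root_.sub_apply, ContinuousLinearMap.id_apply, fderiv_eq] at h2
  rw [h3, hs] at h2
  have h6 : v - ((((dz f x).re : ℝ) : ℂ) * v + ((‖db f x‖ : ℝ) : ℂ) * v) =
      (((1 - (dz f x).re - ‖db f x‖ : ℝ)) : ℂ) * v := by
    push_cast; ring
  rw [h6] at h2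
  unfold dt at h2
  rw [re_ofReal_mul, im_ofReal_mul] at h2
  have h7 : v.re * v.re + v.im * v.im = 1 := by
    rw [← normSq_apply, normSq_eq_norm_sq, hv1]; norm_num
  nlinarith

theorem contact {R : ℝ} (hR : 0 < R) {φ ψ : ℂ → ℝ} {f : ℂ → ℂ} (hpot : IsPot φ f)
    (hf : ContDiff ℝ 1 f) (hsym : ∀ z, (dz f z).im = 0) (hψ : Continuous ψ)
    (hac : ∀ E : Set ℂ, MeasurableSet E → E ⊆ closedBall (0 : ℂ) R →
      volume {p ∈ closedBall (0 : ℂ) R | xp R ψ p ∈ E} ≤ 4 * volume E)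
    {E : Set ℂ} (hE : MeasurableSet E) (hsub : E ⊆ {x ∈ closedBall (0 : ℂ) R | φ x = ψ x}) :
    volume {p ∈ closedBall (0 : ℂ) R | xp R ψ p ∈ E} ≤
      ∫⁻ x in E, ENNReal.ofReal (LSr |(dz f x).re| ‖db f x‖ + 1 - 2 * (dz f x).re) := by
  have hφ : Continuous φ := continuous_iff_continuousAt.2 fun z => (hpot z).continuousAt
  set X : Set ℂ := closedBall (0 : ℂ) R with hX
  set Oc : Set ℂ := {y ∈ X | φ y ≤ ψ y} with hOc
  have hOcc : IsClosed Oc := isClosed_closedBall.inter (isClosed_le hφ hψ)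
  set Dn : Set ℂ := {x | Tendsto (fun r : ℝ => volume (Oc ∩ closedBall x r) / volume (closedBall x r))
    (𝓝[>] 0) (𝓝 1)} with hDn
  have hDn0 : volume (Oc \ Dn) = 0 := by
    have h1 := Besicovitch.ae_tendsto_measure_inter_div (volume : Measure ℂ) Oc
    rw [ae_restrict_iff' hOcc.measurableSet, ae_iff] at h1
    refine measure_mono_null ?_ h1
    intro x hx
    rw [mem_ofPred_eq]
    intro h2
    exact hx.2 (h2 hx.1)
  set N : Set ℂ := toMeasurable volume (Oc \ Dn) with hN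
  have hNm : MeasurableSet N := measurableSet_toMeasurable _ _
  have hN0 : volume N = 0 := by rw [hN, measure_toMeasurable, hDn0]
  have hcs : Continuous fun x => (dz f x).re := continuous_re.comp (dz_continuous hf)
  have hcb : Continuous fun x => ‖db f x‖ := (db_continuous hf).norm
  set E1 : Set ℂ := {x ∈ E | (dz f x).re + ‖db f x‖ ≤ 1 ∧ (1 - (dz f x).re) ^ 2 - ‖db f x‖ ^ 2 ≤ 4} with hE1
  set E2 : Set ℂ := {x ∈ E | (dz f x).re + ‖db f x‖ ≤ 1 ∧ 4 < (1 - (dz f x).re) ^ 2 - ‖db f x‖ ^ 2} with hE2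
  have hE1m : MeasurableSet E1 := by
    refine hE.inter (MeasurableSet.inter ?_ ?_)
    · exact (isClosed_le (hcs.add hcb) continuous_const).measurableSet
    · exact (isClosed_le (((continuous_const.sub hcs).pow 2).sub (hcb.pow 2)) continuous_const).measurableSet
  have hE2m : MeasurableSet E2 := by
    refine hE.inter (MeasurableSet.inter ?_ ?_)
    · exact (isClosed_le (hcs.add hcb) continuous_const).measurableSet
    · exact (isOpen_lt continuous_const (((continuous_const.sub hcs).pow 2).sub (hcb.pow 2))).measurableSet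
  have hE1s : E1 ⊆ E := fun x hx => hx.1
  have hE2s : E2 ⊆ E := fun x hx => hx.1
  have hEX : E ⊆ X := fun x hx => (hsub hx).1
  have hdisj : Disjoint E1 E2 := by
    rw [Set.disjoint_left]
    intro x h1 h2
    exact absurd h1.2.2 (not_le.2 h2.2.2)
  -- the covering
  set Bd : Set ℂ := {p : ℂ | ¬ (IsMx R ψ p (xp R ψ p) ∧ ∀ x, IsMx R ψ p x → x = xp R ψ p)} with hBd
  have hBd0 : volume Bd = 0 := ae_iff.1 (ae_isMx hR.le hψ)
  have hcov : {p ∈ X | xp R ψ p ∈ E} ⊆
      ({p ∈ X | xp R ψ p ∈ E ∩ N} ∪ Bd) ∪ ((fun x => x - f x) '' E1 ∪ {p ∈ X | xp R ψ p ∈ E2}) := by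
    rintro p ⟨hpX, hpE⟩
    by_cases hpB : p ∈ Bd
    · left; right; exact hpB
    by_cases hpN : xp R ψ p ∈ N
    · left; left; exact ⟨hpX, hpE, hpN⟩
    right
    rw [hBd, mem_ofPred_eq, not_not] at hpB
    set x : ℂ := xp R ψ p with hx
    have hxE := hsub hpE
    have hxOc : x ∈ Oc := ⟨hxE.1, hxE.2.le⟩
    have hxD : x ∈ Dn := by
      by_contra hcon
      exact hpN (subset_toMeasurable _ _ ⟨hxOc, hcon⟩)
    have hcrit := crit_of_density (S := Oc) (x := x) hxD (pot_61 hpot p)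
      (((contDiff_id.sub contDiff_const).sub hf)) (by
        intro y hy
        have h1 := hpB.1.2 y hy.1
        have h2 := hy.2
        have h3 := hxE.2
        rw [dt_expand_61, dt_expand_61]
        linarith)
    have hp : x - f x = p := by
      have := hcrit.1
      linear_combination this
    have hle := eig_61 hf hsym x p hcrit.2
    by_cases h4 : (1 - (dz f x).re) ^ 2 - ‖db f x‖ ^ 2 ≤ 4
    · left; exact ⟨x, ⟨hpE, hle, h4⟩, hp⟩
    · right; exact ⟨hpX, hpE, hle, not_le.1 h4⟩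
  have m1 : volume {p ∈ X | xp R ψ p ∈ E ∩ N} = 0 := by
    have h1 := hac (E ∩ N) (hE.inter hNm) (inter_subset_left.trans hEX)
    rw [measure_mono_null inter_subset_right hN0, mul_zero] at h1
    exact le_antisymm h1 zero_le
  have m2 : volume ((fun x => x - f x) '' E1) ≤
      ∫⁻ x in E1, ENNReal.ofReal (LSr |(dz f x).re| ‖db f x‖ + 1 - 2 * (dz f x).re) := by
    refine (addHaar_image_le_lintegral_abs_det_fderiv volume hE1m
      (fun x _ => (fd_sub_61 hf x).hasFDerivWithinAt)).trans ?_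
    refine setLIntegral_mono' hE1m fun x hx => ENNReal.ofReal_le_ofReal ?_
    rw [det_sub_61 hf hsym]
    have h1 := alg2 (dz f x).re ‖db f x‖ (norm_nonneg _) hx.2.1
    rw [min_eq_right hx.2.2] at h1
    have h2 := norm_nonneg (db f x)
    have h3 : 0 ≤ (1 - (dz f x).re) ^ 2 - ‖db f x‖ ^ 2 := by nlinarith [hx.2.1]
    rw [abs_of_nonneg h3]
    exact h1
  have m3 : volume {p ∈ X | xp R ψ p ∈ E2} ≤
      ∫⁻ x in E2, ENNReal.ofReal (LSr |(dz f x).re| ‖db f x‖ + 1 - 2 * (dz f x).re) := by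
    refine (hac E2 hE2m (hE2s.trans hEX)).trans ?_
    rw [← setLIntegral_const]
    refine setLIntegral_mono' hE2m fun x hx => ?_
    have h1 := alg2 (dz f x).re ‖db f x‖ (norm_nonneg _) hx.2.1
    rw [min_eq_left hx.2.2.le] at h1
    have h2 := ENNReal.ofReal_le_ofReal h1
    rwa [ENNReal.ofReal_ofNat] at h2
  calc volume {p ∈ X | xp R ψ p ∈ E}
      ≤ volume (({p ∈ X | xp R ψ p ∈ E ∩ N} ∪ Bd) ∪ ((fun x => x - f x) '' E1 ∪ {p ∈ X | xp R ψ p ∈ E2})) :=
        measure_mono hcov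
    _ ≤ (volume {p ∈ X | xp R ψ p ∈ E ∩ N} + volume Bd) +
        (volume ((fun x => x - f x) '' E1) + volume {p ∈ X | xp R ψ p ∈ E2}) :=
        (measure_union_le _ _).trans (add_le_add (measure_union_le _ _) (measure_union_le _ _))
    _ ≤ (∫⁻ x in E1, ENNReal.ofReal (LSr |(dz f x).re| ‖db f x‖ + 1 - 2 * (dz f x).re)) +
        ∫⁻ x in E2, ENNReal.ofReal (LSr |(dz f x).re| ‖db f x‖ + 1 - 2 * (dz f x).re) := by
        rw [m1, hBd0, add_zero, zero_add]
        exact add_le_add m2 m3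
    _ = ∫⁻ x in E1 ∪ E2, ENNReal.ofReal (LSr |(dz f x).re| ‖db f x‖ + 1 - 2 * (dz f x).re) :=
        (lintegral_union hE2m hdisj).symm
    _ ≤ _ := lintegral_mono_set (union_subset hE1s hE2s)

end Pool.Agent.Helper7.CT
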