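import Pool.Agent.Helper7.CT.Defs

/-!
# CT-Cut: cutting off a gradient map

For a potential `φ` of `f` and a potential (cut-off function) `χ` of `g` the function `χ φ` is a potential
of `h = χ f + φ g`, `‖Dh - Df‖ ≤ |χ - 1| ‖Df‖ + 2 ‖f‖ ‖g‖ + |φ| ‖Dg‖`, and the derivative of `h` is symmetric.
-/

set_option autoImplicit false

open MeasureTheory Metric Set Complex

namespace Pool.Agent.Helper7.CT

open Pool.Agent.Helper7.BU

theorem innerSL_eq (w : ℂ) : innerSL ℝ w = w.re • reCLM + w.im • imCLM := by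
  ext v
  simp [innerSL_apply_apply]
  ring

theorem IsPot.contDiff {φ : ℂ → ℝ} {f : ℂ → ℂ} (h : IsPot φ f) (hf : Continuous f) :
    ContDiff ℝ 1 φ := by
  rw [contDiff_one_iff_fderiv]
  refine ⟨fun z => (h z).differentiableAt, ?_⟩
  have h1 : fderiv ℝ φ = fun z => innerSL ℝ (f z) := funext fun z => (h z).fderiv
  rw [h1]
  exact (innerSL ℝ).continuous.comp hf

theorem IsPot.symm {φ : ℂ → ℝ} {f : ℂ → ℂ} (h : IsPot φ f) (hf : ContDiff ℝ 1 f) (z : ℂ) :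
    (dz f z).im = 0 := by
  have h0 : HasFDerivAt f (fderiv ℝ f z) z := (hf.differentiable one_ne_zero z).hasFDerivAt
  have h1 : HasFDerivAt (fun z => innerSL ℝ (f z))
      ((reCLM.comp (fderiv ℝ f z)).smulRight reCLM +
        (imCLM.comp (fderiv ℝ f z)).smulRight imCLM) z := by
    have e1 : (fun z => innerSL ℝ (f z)) = fun z => (f z).re • reCLM + (f z).im • imCLM :=
      funext fun z => innerSL_eq (f z)
    rw [e1]
    exact ((reCLM.hasFDerivAt.comp z h0).smul_const reCLM).add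
      ((imCLM.hasFDerivAt.comp z h0).smul_const imCLM)
  have h2 := second_derivative_symmetric h h1 1 I
  simp at h2
  unfold dz
  simp
  linarith

theorem norm_dz_le (f : ℂ → ℂ) (z : ℂ) : ‖dz f z‖ ≤ ‖fderiv ℝ f z‖ := by
  have h1 := (fderiv ℝ f z).le_opNorm 1
  have h2 := (fderiv ℝ f z).le_opNorm I
  rw [norm_one, mul_one] at h1
  rw [norm_I, mul_one] at h2
  unfold dz
  rw [norm_div, Complex.norm_two, div_le_iff₀ (by norm_num)]
  calc ‖fderiv ℝ f z 1 - I * fderiv ℝ f z I‖ ≤ ‖fderiv ℝ f z 1‖ + ‖I * fderiv ℝ f z I‖ :=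
        norm_sub_le _ _
    _ = ‖fderiv ℝ f z 1‖ + ‖fderiv ℝ f z I‖ := by rw [norm_mul, norm_I, one_mul]
    _ ≤ ‖fderiv ℝ f z‖ * 2 := by linarith

/-- the cut-off of a gradient map -/
noncomputable def cut (χ φ : ℂ → ℝ) (g f : ℂ → ℂ) (z : ℂ) : ℂ := χ z • f z + φ z • g z

theorem cut_pot {φ χ : ℂ → ℝ} {f g : ℂ → ℂ} (hφ : IsPot φ f) (hχ : IsPot χ g) :
    IsPot (fun z => χ z * φ z) (cut χ φ g f) := by
  intro z
  have h1 : HasFDerivAt (fun z => χ z * φ z)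
    (χ z • (innerSL ℝ) (f z) + φ z • (innerSL ℝ) (g z)) z := (hχ z).mul (hφ z)
  have e1 : innerSL ℝ (cut χ φ g f z) = χ z • innerSL ℝ (f z) + φ z • innerSL ℝ (g z) := by
    ext v
    simp [cut, innerSL_apply_apply]
    ring
  rw [e1]
  exact h1

theorem cut_contDiff {φ χ : ℂ → ℝ} {f g : ℂ → ℂ} (hφ : IsPot φ f) (hχ : IsPot χ g)
    (hf : ContDiff ℝ 1 f) (hg : ContDiff ℝ 1 g) : ContDiff ℝ 1 (cut χ φ g f) :=
  ((hχ.contDiff hg.continuous).smul hf).add ((hφ.contDiff hf.continuous).smul hg)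

theorem cut_symm {φ χ : ℂ → ℝ} {f g : ℂ → ℂ} (hφ : IsPot φ f) (hχ : IsPot χ g)
    (hf : ContDiff ℝ 1 f) (hg : ContDiff ℝ 1 g) (z : ℂ) : (dz (cut χ φ g f) z).im = 0 :=
  (cut_pot hφ hχ).symm (cut_contDiff hφ hχ hf hg) z

theorem cut_fderiv {φ χ : ℂ → ℝ} {f g : ℂ → ℂ} (hφ : IsPot φ f) (hχ : IsPot χ g)
    (hf : ContDiff ℝ 1 f) (hg : ContDiff ℝ 1 g) (z : ℂ) :
    ‖fderiv ℝ (cut χ φ g f) z - fderiv ℝ f z‖ ≤
      |χ z - 1| * ‖fderiv ℝ f z‖ + 2 * (‖f z‖ * ‖g z‖) + |φ z| * ‖fderiv ℝ g z‖ := by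
  have h0 : HasFDerivAt f (fderiv ℝ f z) z := (hf.differentiable one_ne_zero z).hasFDerivAt
  have h1 : HasFDerivAt g (fderiv ℝ g z) z := (hg.differentiable one_ne_zero z).hasFDerivAt
  have h2 : HasFDerivAt (cut χ φ g f) (χ z • fderiv ℝ f z + (innerSL ℝ (g z)).smulRight (f z) +
      (φ z • fderiv ℝ g z + (innerSL ℝ (f z)).smulRight (g z))) z :=
    ((hχ z).smul h0).add ((hφ z).smul h1)
  rw [h2.fderiv]
  have e1 : χ z • fderiv ℝ f z + (innerSL ℝ (g z)).smulRight (f z) +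
      (φ z • fderiv ℝ g z + (innerSL ℝ (f z)).smulRight (g z)) - fderiv ℝ f z =
      (χ z - 1) • fderiv ℝ f z + ((innerSL ℝ (g z)).smulRight (f z) +
        (innerSL ℝ (f z)).smulRight (g z)) + φ z • fderiv ℝ g z := by
    rw [sub_smul, one_smul]
    abel
  rw [e1]
  have e2 : ‖(innerSL ℝ (g z)).smulRight (f z)‖ = ‖g z‖ * ‖f z‖ := by
    rw [ContinuousLinearMap.norm_smulRight_apply, innerSL_apply_norm]
  have e3 : ‖(innerSL ℝ (f z)).smulRight (g z)‖ = ‖f z‖ * ‖g z‖ := by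
    rw [ContinuousLinearMap.norm_smulRight_apply, innerSL_apply_norm]
  calc _ ≤ ‖(χ z - 1) • fderiv ℝ f z‖ + (‖(innerSL ℝ (g z)).smulRight (f z)‖ +
        ‖(innerSL ℝ (f z)).smulRight (g z)‖) + ‖φ z • fderiv ℝ g z‖ := by
        refine (norm_add_le _ _).trans (add_le_add_left ((norm_add_le _ _).trans
          (add_le_add_right (norm_add_le _ _) _)) _)
    _ = _ := by
        rw [e2, e3, norm_smul, norm_smul, Real.norm_eq_abs, Real.norm_eq_abs]
        ring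

/-- every smooth real function has a `C¹` gradient -/
theorem exists_grad {χ : ℂ → ℝ} (hχ : ContDiff ℝ 2 χ) : ∃ g : ℂ → ℂ, IsPot χ g ∧ ContDiff ℝ 1 g := by
  refine ⟨fun z => ⟨fderiv ℝ χ z 1, fderiv ℝ χ z I⟩, fun z => ?_, ?_⟩
  · have h1 : HasFDerivAt χ (fderiv ℝ χ z) z :=
      (hχ.differentiable (by norm_num) z).hasFDerivAt
    have e1 : innerSL ℝ (⟨fderiv ℝ χ z 1, fderiv ℝ χ z I⟩ : ℂ) = fderiv ℝ χ z := by
      ext v
      have e2 : v = v.re • (1 : ℂ) + v.im • I := by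
        apply Complex.ext <;> simp
      conv_rhs => rw [e2, map_add, map_smul, map_smul]
      simp [innerSL_apply_apply]
    rw [e1]
    exact h1
  · have h2 : ContDiff ℝ 1 (fderiv ℝ χ) := hχ.fderiv_right (by norm_num)
    have h3 : ContDiff ℝ 1 fun z => fderiv ℝ χ z 1 := h2.clm_apply contDiff_const
    have h4 : ContDiff ℝ 1 fun z => fderiv ℝ χ z I := h2.clm_apply contDiff_const
    have e1 : (fun z => (⟨fderiv ℝ χ z 1, fderiv ℝ χ z I⟩ : ℂ)) =
        fun z => ((fderiv ℝ χ z 1 : ℝ) : ℂ) + ((fderiv ℝ χ z I : ℝ) : ℂ) * I := by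
      funext z
      apply Complex.ext <;> simp
    rw [e1]
    exact (ofRealCLM.contDiff.comp h3).add ((ofRealCLM.contDiff.comp h4).mul contDiff_const)

/-- the scaled potential -/
theorem IsPot.scale {χ : ℂ → ℝ} {g : ℂ → ℂ} (h : IsPot χ g) (s : ℝ) :
    IsPot (fun z => χ (s • z)) (fun z => s • g (s • z)) := by
  intro z
  have h1 : HasFDerivAt (fun z : ℂ => s • z) (s • ContinuousLinearMap.id ℝ ℂ) z :=
    (hasFDerivAt_id z).const_smul s
  have h2 : HasFDerivAt (fun z => χ (s • z)) ((innerSL ℝ (g (s • z))).comp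
    (s • ContinuousLinearMap.id ℝ ℂ)) z := HasFDerivAt.comp z (h (s • z)) h1
  have e1 : innerSL ℝ (s • g (s • z)) = (innerSL ℝ (g (s • z))).comp
      (s • ContinuousLinearMap.id ℝ ℂ) := by
    ext v
    simp [innerSL_apply_apply]
    ring
  rw [e1]
  exact h2

theorem scale_contDiff {g : ℂ → ℂ} (hg : ContDiff ℝ 1 g) (s : ℝ) :
    ContDiff ℝ 1 (fun z => s • g (s • z)) := by
  have h1 : ContDiff ℝ 1 fun z : ℂ => s • z := contDiff_id.const_smul s
  have h2 : ContDiff ℝ 1 fun z : ℂ => g (s • z) := hg.comp h1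
  exact h2.const_smul s

theorem scale_fderiv {g : ℂ → ℂ} (hg : ContDiff ℝ 1 g) (s : ℝ) (z : ℂ) :
    ‖fderiv ℝ (fun z => s • g (s • z)) z‖ ≤ s ^ 2 * ‖fderiv ℝ g (s • z)‖ := by
  have h1 : HasFDerivAt (fun z : ℂ => s • z) (s • ContinuousLinearMap.id ℝ ℂ) z :=
    (hasFDerivAt_id z).const_smul s
  have h0 : HasFDerivAt g (fderiv ℝ g (s • z)) (s • z) :=
    (hg.differentiable one_ne_zero (s • z)).hasFDerivAt
  have h2 : HasFDerivAt (fun z => s • g (s • z)) (s • (fderiv ℝ g (s • z)).comp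
    (s • ContinuousLinearMap.id ℝ ℂ)) z := (HasFDerivAt.comp z h0 h1).const_smul s
  rw [h2.fderiv, norm_smul]
  have h3 : (fderiv ℝ g (s • z)).comp (s • ContinuousLinearMap.id ℝ ℂ) =
      s • fderiv ℝ g (s • z) := by
    ext v
    simp
  rw [h3, norm_smul, Real.norm_eq_abs, ← mul_assoc, ← sq, sq_abs]

/-- the gradient of a locally constant potential is zero -/
theorem IsPot.zero_of_eventually {χ : ℂ → ℝ} {g : ℂ → ℂ} (h : IsPot χ g) {z : ℂ} {c : ℝ}
    (hc : χ =ᶠ[nhds z] fun _ => c) : g z = 0 := by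
  have h1 : fderiv ℝ χ z = 0 := by
    rw [hc.fderiv_eq]
    simp
  rw [(h z).fderiv] at h1
  have h2 : ‖innerSL ℝ (g z)‖ = 0 := by rw [h1, norm_zero]
  rwa [innerSL_apply_norm, norm_eq_zero] at h2

end Pool.Agent.Helper7.CT
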