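import Pool.Agent.Helper7.CT.Defs

/-!
# CT-D0: harmonic polynomials

PROOF. The function `θ ↦ g (x₀ + r e^{iθ})` is a continuous function on the circle (`AddCircle (2π)`), so there is a trigonometric polynomial
`∑_{|k| ≤ n} c_k e^{ikθ}` within `ε` of it (`span_fourier_closure_eq_top`). Taking real parts,
`Re ∑ c_k e^{ikθ} = Re (c_0 + ∑_{k ≥ 1} (c_k + conj c_{-k}) e^{ikθ})`, so `P = c_0 + ∑_{k=1}^n (c_k + conj c_{-k}) r^{-k} X^k`.
The second claim: `Re P(0)` is the circle average of `Re P(z - x₀)` (`∫ e^{ikθ} = 0` for `k ≠ 0`), which is within `ε` of the average of `g`.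
-/

set_option autoImplicit false

open MeasureTheory Metric Set Complex

namespace Pool.Agent.Helper7.CT

open scoped ComplexConjugate Real in
lemma d0_span {r : ℝ} (hr : 0 < r) (q : C(AddCircle (2 * π), ℂ))
    (hq : q ∈ Submodule.span ℂ (Set.range (fourier (T := 2 * π)))) :
    ∃ P₁ P₂ : Polynomial ℂ, ∀ θ : ℝ, q (θ : AddCircle (2 * π)) =
      P₁.eval (r * exp (θ * I)) + conj (P₂.eval (r * exp (θ * I))) := by
  have hr0 : (r : ℂ) ≠ 0 := by exact_mod_cast hr.ne'
  have hpos : ∀ n : ℕ, ∀ θ : ℝ, (Polynomial.C ((r : ℂ) ^ n)⁻¹ * Polynomial.X ^ n).eval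
      (r * exp (θ * I)) = fourier (n : ℤ) (θ : AddCircle (2 * π)) := by
    intro n θ
    rw [fourier_coe_apply, Polynomial.eval_mul, Polynomial.eval_C, Polynomial.eval_pow,
      Polynomial.eval_X, mul_pow, ← mul_assoc, inv_mul_cancel₀ (pow_ne_zero _ hr0), one_mul,
      ← Complex.exp_nat_mul]
    congr 1
    push_cast
    have h2 : (π : ℂ) ≠ 0 := by exact_mod_cast Real.pi_ne_zero
    field_simp
  induction hq using Submodule.span_induction with
  | mem x hx =>
    obtain ⟨n, rfl⟩ := hx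
    rcases Int.eq_nat_or_neg n with ⟨m, rfl | rfl⟩
    · exact ⟨_, 0, fun θ => by rw [hpos m θ]; simp⟩
    · refine ⟨0, Polynomial.C ((r : ℂ) ^ m)⁻¹ * Polynomial.X ^ m, fun θ => ?_⟩
      rw [hpos m θ, Polynomial.eval_zero, zero_add, fourier_neg]
  | zero => exact ⟨0, 0, fun θ => by simp⟩
  | add x y _ _ hx hy =>
    obtain ⟨P₁, P₂, h⟩ := hx
    obtain ⟨Q₁, Q₂, h'⟩ := hy
    refine ⟨P₁ + Q₁, P₂ + Q₂, fun θ => ?_⟩
    rw [ContinuousMap.add_apply, h, h', Polynomial.eval_add, Polynomial.eval_add, map_add]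
    ring
  | smul c x _ hx =>
    obtain ⟨P₁, P₂, h⟩ := hx
    refine ⟨Polynomial.C c * P₁, Polynomial.C (conj c) * P₂, fun θ => ?_⟩
    rw [ContinuousMap.smul_apply, h, Polynomial.eval_mul, Polynomial.eval_C, Polynomial.eval_mul,
      Polynomial.eval_C, map_mul, Complex.conj_conj, smul_eq_mul]
    ring

open scoped Real in
theorem exists_poly {g : ℂ → ℝ} (hg : Continuous g) (x₀ : ℂ) {r : ℝ} (hr : 0 < r) {ε : ℝ} (hε : 0 < ε) :
    ∃ P : Polynomial ℂ, (∀ z, ‖z - x₀‖ = r → |(P.eval (z - x₀)).re - g z| ≤ ε) ∧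
      |(P.eval 0).re - Real.circleAverage g x₀ r| ≤ ε := by
  have : Fact (0 < 2 * π) := ⟨Real.two_pi_pos⟩
  have hper : Function.Periodic (fun θ : ℝ => ((g (circleMap x₀ r θ) : ℝ) : ℂ)) (2 * π) := by
    intro θ
    show ((g (circleMap x₀ r (θ + 2 * π)) : ℝ) : ℂ) = _
    rw [periodic_circleMap x₀ r θ]
  have hcont : Continuous (fun θ : ℝ => ((g (circleMap x₀ r θ) : ℝ) : ℂ)) :=
    Complex.continuous_ofReal.comp (hg.comp (continuous_circleMap x₀ r))
  let F : C(AddCircle (2 * π), ℂ) := ⟨hper.lift, Continuous.quotient_liftOn' hcont _⟩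
  have hF : ∀ θ : ℝ, F (θ : AddCircle (2 * π)) = ((g (circleMap x₀ r θ) : ℝ) : ℂ) :=
    fun θ => rfl
  have hmem : F ∈ closure (Submodule.span ℂ (Set.range (fourier (T := 2 * π))) :
      Set C(AddCircle (2 * π), ℂ)) := by
    have h1 := span_fourier_closure_eq_top (T := 2 * π)
    have h2 : F ∈ (Submodule.span ℂ (Set.range (fourier (T := 2 * π)))).topologicalClosure := by
      rw [h1]
      exact Submodule.mem_top
    exact h2
  obtain ⟨q, hq, hd⟩ := Metric.mem_closure_iff.1 hmem ε hε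
  obtain ⟨P₁, P₂, hP⟩ := d0_span hr q hq
  have h1 : ∀ z, ‖z - x₀‖ = r → |((P₁ + P₂).eval (z - x₀)).re - g z| ≤ ε := by
    intro z hz
    set θ := (z - x₀).arg with hθ
    have e1 : (r : ℂ) * exp (θ * I) = z - x₀ := by
      rw [← hz]
      exact Complex.norm_mul_exp_arg_mul_I (z - x₀)
    have e2 : circleMap x₀ r θ = z := by
      rw [circleMap, e1]
      ring
    have e3 : (((P₁ + P₂).eval (z - x₀)).re - g z : ℝ) =
        (q (θ : AddCircle (2 * π)) - F (θ : AddCircle (2 * π))).re := by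
      rw [hF, hP, e1, e2, Polynomial.eval_add]
      simp
    rw [e3]
    refine (Complex.abs_re_le_norm _).trans ?_
    rw [← dist_eq_norm, dist_comm]
    exact (ContinuousMap.dist_apply_le_dist _).trans hd.le
  refine ⟨P₁ + P₂, h1, ?_⟩
  set P := P₁ + P₂ with hPdef
  have hPc : Continuous (fun z : ℂ => P.eval (z - x₀)) :=
    P.continuous.comp (continuous_id.sub continuous_const)
  have h2 : Real.circleAverage (fun z : ℂ => P.eval (z - x₀)) x₀ r = P.eval 0 := by
    have h3 : DiffContOnCl ℂ (fun z : ℂ => P.eval (z - x₀)) (ball x₀ |r|) := by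
      refine Differentiable.diffContOnCl ?_
      exact P.differentiable.comp (differentiable_id.sub_const x₀)
    rw [h3.circleAverage, sub_self]
  have hint1 : CircleIntegrable (fun z : ℂ => P.eval (z - x₀)) x₀ r :=
    hPc.continuousOn.circleIntegrable' 
  have h4 : Real.circleAverage (fun z : ℂ => (P.eval (z - x₀)).re) x₀ r = (P.eval 0).re := by
    have h5 := Complex.reCLM.circleAverage_comp_comm hint1
    rw [h2] at h5
    exact h5
  have hrec : Continuous (fun z : ℂ => (P.eval (z - x₀)).re) := Complex.continuous_re.comp hPc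
  have hint2 : CircleIntegrable (fun z : ℂ => (P.eval (z - x₀)).re) x₀ r :=
    hrec.continuousOn.circleIntegrable'
  have hint3 : CircleIntegrable g x₀ r := hg.continuousOn.circleIntegrable'
  have h6 := Real.circleAverage_fun_sub hint2 hint3
  rw [← h4, ← h6]
  refine Real.abs_circleAverage_le_circleAverage_abs.trans ?_
  refine Real.circleAverage_mono_on_of_le_circle ?_ (fun z hz => ?_)
  · exact (hrec.sub hg).abs.continuousOn.circleIntegrable'
  · rw [abs_of_pos hr, mem_sphere, dist_eq_norm] at hz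
    exact h1 z hz

end Pool.Agent.Helper7.CT
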