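import Pool.Agent.Helper7.CT.D0

/-!
# CT-D1: the mean value inequality `A_r u ≥ r²` where the Monge–Ampère mass is at least `4`

PROOF. Suppose `u x₀ + r² > circleAverage u x₀ r`. Let `3δ` be the difference. By `exists_poly` (for `g = u`, `ε = δ`) there is a polynomial `P`
with `|Re P(z - x₀) - u z| ≤ δ` on the circle and `|Re P(0) - circleAverage u x₀ r| ≤ δ`. For `a < 1` close to `1` and a suitable constant `k` the
function `Q z = Re P(z - x₀) + a ‖z - x₀‖² + k` satisfies `Q > u` on the circle and `Q x₀ < u x₀`. `W = {z ∈ ball x₀ r | Q z < u z}` is open and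
contains `x₀`. Let `p` be such that for some `y₀ ∈ W` `l y = u y₀ + dt p (y - y₀) ≤ u y` on the closed ball. The minimum of `Q - l` over the closed ball
is negative and attained at some `y₁`; `Q y₁ < l y₁ ≤ u y₁`, so `y₁ ∈ W`, and `p = q y₁`, where `q = ∇ Q = conj (P' (z - x₀)) + 2a(z - x₀)`; the
second derivative is `≥ 0`: `|P''| ≤ 2a`; `det D q = 4a² - |P''|²`.
So the set of these `p` is contained in the image under `q` of `{y ∈ W | |P''(y-x₀)| ≤ 2a}`, of measure `≤ 4a² vol W < 4 vol W`.
-/

set_option autoImplicit false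

open MeasureTheory Metric Set Complex

namespace Pool.Agent.Helper7.CT

private lemma second_order {f f' : ℝ → ℝ} {c : ℝ} (hf : ∀ t, HasDerivAt f (f' t) t)
    (hf' : HasDerivAt f' c 0) (hm : IsLocalMin f 0) : f' 0 = 0 ∧ 0 ≤ c := by
  have h0 : f' 0 = 0 := hm.hasDerivAt_eq_zero (hf 0)
  refine ⟨h0, ?_⟩
  by_contra hc
  rw [not_le] at hc
  have hd : deriv f = f' := funext fun t => (hf t).deriv
  have hd2 : deriv (fun t => - f t) = fun t => - f' t := funext fun t => (hf t).neg.deriv
  have h1 : IsLocalMin (fun t => - f t) 0 := by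
    apply isLocalMin_of_deriv_deriv_pos
    · have h7 : deriv (fun t => - f' t) 0 = - c := (hf'.neg).deriv
      rw [hd2, h7]
      linarith
    · rw [hd2]
      simp [h0]
    · exact (hf 0).neg.continuousAt
  have h2 : f =ᶠ[nhds 0] fun _ => f 0 := by
    filter_upwards [hm, h1] with t ht1 ht2
    linarith
  have h3 := h2.deriv
  rw [hd] at h3
  have h4 : f' =ᶠ[nhds 0] fun _ => (0 : ℝ) := by simpa using h3
  have h5 := h4.deriv_eq
  rw [hf'.deriv] at h5
  simp at h5
  linarith

private lemma det_conj (c : ℂ) (a : ℝ) (L : ℂ →L[ℝ] ℂ)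
    (hL : ∀ v, L v = (starRingEnd ℂ) (c * v) + (a : ℂ) * v) : L.det = a ^ 2 - ‖c‖ ^ 2 := by
  rw [ContinuousLinearMap.det, ← LinearMap.det_toMatrix basisOneI, Matrix.det_fin_two,
    Complex.sq_norm, Complex.normSq_apply]
  simp only [LinearMap.toMatrix_apply, ContinuousLinearMap.coe_coe, coe_basisOneI,
    coe_basisOneI_repr, hL]
  simp
  ring

private lemma hasDerivAt_lin (A B t : ℝ) : HasDerivAt (fun t : ℝ => A + t * B) B t := by
  simpa using ((hasDerivAt_id t).mul_const B).const_add A

private lemma hasDerivAt_re (P : Polynomial ℂ) (w v : ℂ) (t : ℝ) :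
    HasDerivAt (fun t : ℝ => (P.eval (w + t * v)).re) ((P.derivative.eval (w + t * v) * v).re) t := by
  have h1 : HasDerivAt (fun t : ℝ => w + (t : ℂ) * v) v t := by
    simpa using (((hasDerivAt_id t).ofReal_comp).mul_const v).const_add w
  have h2 := HasDerivAt.scomp t (P.hasDerivAt (w + t * v)) h1
  have h3 := (Complex.reCLM.hasFDerivAt (x := P.eval (w + t * v))).comp_hasDerivAt t h2
  have h4 : HasDerivAt (fun t : ℝ => (P.eval (w + t * v)).re)
      (Complex.reCLM (v • P.derivative.eval (w + t * v))) t := h3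
  have h5 : Complex.reCLM (v • P.derivative.eval (w + t * v)) =
      (P.derivative.eval (w + t * v) * v).re := by
    rw [smul_eq_mul, mul_comm]
    rfl
  rwa [h5] at h4

theorem disc_ineq {u : ℂ → ℝ} (hu : Continuous u) {x₀ : ℂ} {r : ℝ} (hr : 0 < r)
    (h : ∀ W : Set ℂ, IsOpen W → W ⊆ ball x₀ r → 4 * volume W ≤
      volume {p : ℂ | ∃ y₀ ∈ W, ∀ y ∈ closedBall x₀ r, u y₀ + dt p (y - y₀) ≤ u y}) :
    u x₀ + r ^ 2 ≤ Real.circleAverage u x₀ r := by
  by_contra hcon
  rw [not_le] at hcon
  obtain ⟨δ, hδ⟩ : ∃ δ : ℝ, 3 * δ = u x₀ + r ^ 2 - Real.circleAverage u x₀ r :=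
    ⟨(u x₀ + r ^ 2 - Real.circleAverage u x₀ r) / 3, by ring⟩
  have hδ0 : 0 < δ := by linarith
  obtain ⟨P, hP1, hP2⟩ := exists_poly hu x₀ hr hδ0
  have hr2 : 0 < r ^ 2 := by positivity
  obtain ⟨a, ha0, ha1, har⟩ : ∃ a : ℝ, 0 < a ∧ a < 1 ∧ r ^ 2 * (1 - a) < δ := by
    have hm : 0 < min (1 / 2) (δ / (2 * r ^ 2)) := by positivity
    refine ⟨1 - min (1 / 2) (δ / (2 * r ^ 2)), ?_, ?_, ?_⟩
    · linarith [min_le_left (1 / 2) (δ / (2 * r ^ 2))]
    · linarith
    · have h1 : r ^ 2 * (1 - (1 - min (1 / 2) (δ / (2 * r ^ 2)))) ≤ r ^ 2 * (δ / (2 * r ^ 2)) := by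
        apply mul_le_mul_of_nonneg_left _ hr2.le
        linarith [min_le_right (1 / 2) (δ / (2 * r ^ 2))]
      have h2 : r ^ 2 * (δ / (2 * r ^ 2)) = δ / 2 := by field_simp
      linarith
  obtain ⟨k, hk1, hk2⟩ : ∃ k : ℝ, δ - a * r ^ 2 < k ∧ k < 2 * δ - r ^ 2 :=
    exists_between (by nlinarith)
  set Q : ℂ → ℝ := fun z => (P.eval (z - x₀)).re + a * ‖z - x₀‖ ^ 2 + k with hQ
  have hQc : Continuous Q := by
    have h1 : Continuous fun z : ℂ => P.eval (z - x₀) :=
      P.continuous.comp (continuous_id.sub continuous_const)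
    have h2 : Continuous fun z : ℂ => (P.eval (z - x₀)).re := Complex.continuous_re.comp h1
    fun_prop
  have hQs : ∀ z, ‖z - x₀‖ = r → u z < Q z := by
    intro z hz
    have h1 := abs_le.1 (hP1 z hz)
    simp only [hQ, hz]
    linarith [h1.1]
  have hQ0 : Q x₀ < u x₀ := by
    have h1 := abs_le.1 hP2
    simp only [hQ, sub_self, norm_zero]
    linarith [h1.2]
  set W : Set ℂ := ball x₀ r ∩ {z | Q z < u z} with hW
  have hWo : IsOpen W := isOpen_ball.inter (isOpen_lt hQc hu)
  have hWb : W ⊆ ball x₀ r := inter_subset_left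
  have hW0 : 0 < volume W := hWo.measure_pos volume ⟨x₀, mem_ball_self hr, hQ0⟩
  have hW1 : volume W < ⊤ := (measure_mono hWb).trans_lt measure_ball_lt_top
  set q : ℂ → ℂ := fun y => (starRingEnd ℂ) (P.derivative.eval (y - x₀)) +
    ((2 * a : ℝ) : ℂ) * (y - x₀) with hq
  set D : Set ℂ := W ∩ {y | ‖P.derivative.derivative.eval (y - x₀)‖ ≤ 2 * a} with hD
  have hsub : {p : ℂ | ∃ y₀ ∈ W, ∀ y ∈ closedBall x₀ r, u y₀ + dt p (y - y₀) ≤ u y} ⊆ q '' D := by
    rintro p ⟨y₀, hy₀, hp⟩
    have hFc : Continuous fun y => Q y - (u y₀ + dt p (y - y₀)) := by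
      unfold dt
      fun_prop
    obtain ⟨y₁, hy₁, hmin⟩ := (isCompact_closedBall x₀ r).exists_isMinOn
      ⟨x₀, mem_closedBall_self hr.le⟩ hFc.continuousOn
    have h1 : Q y₁ - (u y₀ + dt p (y₁ - y₀)) < 0 := by
      have h1 := hmin (ball_subset_closedBall hy₀.1)
      have h2 : Q y₀ < u y₀ := hy₀.2
      simp only [mem_ofPred_eq, sub_self, dt, Complex.zero_re, Complex.zero_im, mul_zero,
        add_zero] at h1
      simp only [dt]
      linarith
    have h2 : Q y₁ < u y₁ := by linarith [hp y₁ hy₁]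
    have h3 : y₁ ∈ ball x₀ r := by
      rcases (mem_closedBall.1 hy₁).lt_or_eq with h' | h'
      · exact h'
      · rw [dist_eq_norm] at h'
        exact absurd (hQs y₁ h') (not_lt.2 h2.le)
    have hloc : IsLocalMin (fun y => Q y - (u y₀ + dt p (y - y₀))) y₁ :=
      hmin.isLocalMin (closedBall_mem_nhds_of_mem h3)
    have key : ∀ v : ℂ, (P.derivative.eval (y₁ - x₀) * v).re + 2 * a * dt (y₁ - x₀) v - dt p v = 0 ∧
        0 ≤ (P.derivative.derivative.eval (y₁ - x₀) * v * v).re + 2 * a * dt v v := by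
      intro v
      obtain ⟨w, hw⟩ : ∃ w, w = y₁ - x₀ := ⟨_, rfl⟩
      rw [← hw]
      have hf : ∀ t : ℝ, HasDerivAt (fun t : ℝ => (P.eval (w + t * v)).re +
          (a * ((w.re + t * v.re) ^ 2 + (w.im + t * v.im) ^ 2) +
            ((k - u y₀ - dt p (y₁ - y₀)) + t * (- dt p v))))
          ((P.derivative.eval (w + t * v) * v).re +
            (a * (2 * (w.re + t * v.re) * v.re + 2 * (w.im + t * v.im) * v.im) + (- dt p v))) t := by
        intro t
        have h1 := hasDerivAt_re P w v t
        have h2 := (hasDerivAt_lin w.re v.re t).pow 2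
        have h3 := (hasDerivAt_lin w.im v.im t).pow 2
        have h4 := hasDerivAt_lin (k - u y₀ - dt p (y₁ - y₀)) (- dt p v) t
        have h5 := h1.add (((h2.add h3).const_mul a).add h4)
        exact h5.congr_deriv (by norm_num)
      have hf' : HasDerivAt (fun t : ℝ => (P.derivative.eval (w + t * v) * v).re +
            (a * (2 * (w.re + t * v.re) * v.re + 2 * (w.im + t * v.im) * v.im) + (- dt p v)))
          ((P.derivative.derivative.eval w * v * v).re + 2 * a * dt v v) 0 := by
        have h1 := hasDerivAt_re (P.derivative * Polynomial.C v) w v 0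
        have h2 := (((hasDerivAt_lin w.re v.re 0).const_mul 2).mul_const v.re).add
          (((hasDerivAt_lin w.im v.im 0).const_mul 2).mul_const v.im)
        have h5 := h1.add ((h2.const_mul a).add_const (- dt p v))
        have e1 : (fun t : ℝ => (P.derivative.eval (w + t * v) * v).re +
            (a * (2 * (w.re + t * v.re) * v.re + 2 * (w.im + t * v.im) * v.im) + (- dt p v))) =
            ((fun t : ℝ => ((P.derivative * Polynomial.C v).eval (w + t * v)).re) +
             fun x => a * ((fun y => 2 * (w.re + y * v.re) * v.re) +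
              fun y => 2 * (w.im + y * v.im) * v.im) x + -dt p v) := by
          funext t
          simp
        rw [e1]
        refine h5.congr_deriv ?_
        simp only [dt, Polynomial.derivative_mul, Polynomial.derivative_C, Polynomial.eval_mul,
          Polynomial.eval_C, mul_zero, add_zero, ofReal_zero, zero_mul]
        ring
      have hm : IsLocalMin (fun t : ℝ => (P.eval (w + t * v)).re +
          (a * ((w.re + t * v.re) ^ 2 + (w.im + t * v.im) ^ 2) +
            ((k - u y₀ - dt p (y₁ - y₀)) + t * (- dt p v)))) 0 := by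
        have e1 : (fun t : ℝ => (P.eval (w + t * v)).re +
          (a * ((w.re + t * v.re) ^ 2 + (w.im + t * v.im) ^ 2) +
            ((k - u y₀ - dt p (y₁ - y₀)) + t * (- dt p v)))) =
            (fun y => Q y - (u y₀ + dt p (y - y₀))) ∘ (fun t : ℝ => y₁ + (t : ℂ) * v) := by
          funext t
          simp only [Function.comp, hQ]
          have e2 : y₁ + (t : ℂ) * v - x₀ = w + t * v := by rw [hw]; ring
          rw [e2, Complex.sq_norm, Complex.normSq_apply]
          simp [dt]
          ring
        rw [e1]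
        have hc : ContinuousAt (fun t : ℝ => y₁ + (t : ℂ) * v) 0 := by fun_prop
        have hloc' : IsLocalMin (fun y => Q y - (u y₀ + dt p (y - y₀)))
            ((fun t : ℝ => y₁ + (t : ℂ) * v) 0) := by simpa using hloc
        exact IsLocalMin.comp_continuous (g := fun t : ℝ => y₁ + (t : ℂ) * v) hloc' hc
      have h6 := second_order hf hf' hm
      refine ⟨?_, h6.2⟩
      have h7 := h6.1
      simp only [ofReal_zero, zero_mul, add_zero] at h7
      simp only [dt] at h7 ⊢
      linarith
    refine ⟨y₁, ⟨⟨h3, h2⟩, ?_⟩, ?_⟩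
    · simp only [mem_ofPred_eq]
      set c := P.derivative.derivative.eval (y₁ - x₀) with hc
      rcases eq_or_ne c 0 with hc0 | hc0
      · rw [hc0, norm_zero]
        positivity
      · obtain ⟨v, hv⟩ := IsAlgClosed.exists_pow_nat_eq (-(starRingEnd ℂ) c) (n := 2) (by norm_num)
        have h8 := (key v).2
        have h9 : c * v * v = -((‖c‖ ^ 2 : ℝ) : ℂ) := by
          rw [mul_assoc, ← sq, hv, mul_neg, Complex.mul_conj, Complex.normSq_eq_norm_sq]
        have h10 : dt v v = ‖c‖ := by
          have e1 : dt v v = ‖v‖ ^ 2 := by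
            rw [Complex.sq_norm, Complex.normSq_apply]
            rfl
          rw [e1, ← norm_pow, hv, norm_neg, RCLike.norm_conj]
        rw [h9, h10] at h8
        simp only [neg_re, ofReal_re] at h8
        have h11 : 0 < ‖c‖ := norm_pos_iff.2 hc0
        nlinarith
    · have h8 := (key 1).1
      have h9 := (key I).1
      simp only [hq]
      simp [dt] at h8 h9
      apply Complex.ext
      · simp
        linarith
      · simp
        linarith
  have hDm : MeasurableSet D := by
    apply hWo.measurableSet.inter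
    have hc : Continuous fun y : ℂ => ‖P.derivative.derivative.eval (y - x₀)‖ :=
      (P.derivative.derivative.continuous.comp (continuous_id.sub continuous_const)).norm
    exact (isClosed_le hc continuous_const).measurableSet
  have hder : ∀ y, HasFDerivAt q ((Complex.conjCLE : ℂ →L[ℝ] ℂ).comp
      ((ContinuousLinearMap.smulRight (1 : ℂ →L[ℂ] ℂ)
        (P.derivative.derivative.eval (y - x₀))).restrictScalars ℝ) +
      (2 * a) • (ContinuousLinearMap.id ℝ ℂ)) y := by
    intro y
    have h1 : HasFDerivAt (fun y => P.derivative.eval (y - x₀))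
        ((ContinuousLinearMap.smulRight (1 : ℂ →L[ℂ] ℂ)
        (P.derivative.derivative.eval (y - x₀))).restrictScalars ℝ) y := by
      have h2 : HasDerivAt (fun y => P.derivative.eval (y - x₀))
          (P.derivative.derivative.eval (y - x₀)) y := by
        have h3 := HasDerivAt.comp y (P.derivative.hasDerivAt (y - x₀)) ((hasDerivAt_id y).sub_const x₀)
        rw [mul_one] at h3
        exact h3
      exact h2.hasFDerivAt.restrictScalars ℝ
    have h2 := ((Complex.conjCLE : ℂ →L[ℝ] ℂ).hasFDerivAt (x := P.derivative.eval (y - x₀))).comp y h1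
    have h3 : HasFDerivAt (fun y : ℂ => ((2 * a : ℝ) : ℂ) * (y - x₀))
        ((2 * a) • (ContinuousLinearMap.id ℝ ℂ)) y := by
      have h4 := ((hasFDerivAt_id (𝕜 := ℝ) y).sub_const x₀).const_smul (2 * a)
      have e1 : (fun y : ℂ => ((2 * a : ℝ) : ℂ) * (y - x₀)) = fun y : ℂ => (2 * a) • (id y - x₀) := by
        funext y
        rw [Complex.real_smul]
        rfl
      rw [e1]
      exact h4
    exact h2.add h3
  have hdet : ∀ y, ((Complex.conjCLE : ℂ →L[ℝ] ℂ).comp
      ((ContinuousLinearMap.smulRight (1 : ℂ →L[ℂ] ℂ)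
        (P.derivative.derivative.eval (y - x₀))).restrictScalars ℝ) +
      (2 * a) • (ContinuousLinearMap.id ℝ ℂ)).det =
      (2 * a) ^ 2 - ‖P.derivative.derivative.eval (y - x₀)‖ ^ 2 := by
    intro y
    apply det_conj
    intro v
    simp [mul_comm]
  have hlt : volume (q '' D) < 4 * volume W := by
    calc volume (q '' D) ≤ ∫⁻ y in D, ENNReal.ofReal |((Complex.conjCLE : ℂ →L[ℝ] ℂ).comp
      ((ContinuousLinearMap.smulRight (1 : ℂ →L[ℂ] ℂ)
        (P.derivative.derivative.eval (y - x₀))).restrictScalars ℝ) +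
      (2 * a) • (ContinuousLinearMap.id ℝ ℂ)).det| :=
          addHaar_image_le_lintegral_abs_det_fderiv volume hDm
            (fun y _ => (hder y).hasFDerivWithinAt)
      _ ≤ ∫⁻ y in D, ENNReal.ofReal ((2 * a) ^ 2) := by
          apply setLIntegral_mono' hDm
          intro y hy
          apply ENNReal.ofReal_le_ofReal
          rw [hdet y, abs_le]
          have h1 : ‖P.derivative.derivative.eval (y - x₀)‖ ≤ 2 * a := hy.2
          have h2 := norm_nonneg (P.derivative.derivative.eval (y - x₀))
          constructor <;> nlinarith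
      _ = ENNReal.ofReal ((2 * a) ^ 2) * volume D := by
          rw [setLIntegral_const]
      _ ≤ ENNReal.ofReal ((2 * a) ^ 2) * volume W := by
          gcongr
          exact inter_subset_left
      _ < 4 * volume W := by
          rw [ENNReal.mul_lt_mul_iff_left hW0.ne' hW1.ne]
          rw [show (4 : ENNReal) = ENNReal.ofReal 4 by norm_num]
          apply (ENNReal.ofReal_lt_ofReal_iff (by norm_num)).2
          nlinarith
  exact absurd ((h W hWo hWb).trans (measure_mono hsub)) (not_le.2 hlt)

end Pool.Agent.Helper7.CT
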