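import Pool.Agent.Helper7.CT.Defs

/-!
# CT-D2: the flux inequality

PROOF. `O = {x ∈ ball 0 ρ | 0 < w x}`, `1_O` its indicator. For a fixed `h`, `‖h‖ = r`:
`∫ 1_O(x) (w(x+h) - w x) dx + ∫ 1_O(x) (w(x-h) - w x) dx`; substitute `x → x + h` in the second integral: the sum is
`∫ (1_O(x) - 1_O(x+h)) (w(x+h) - w x) dx ≤ 0`: if `x ∈ O`, `x + h ∉ O` then `‖x + h‖ < ρ + r`, so `w (x+h) ≤ 0` (by definition of `O` if `‖x+h‖ < ρ`, by `hout` otherwise) and
`w x > 0`; if `x ∉ O`, `x + h ∈ O` symmetrically. (All integrands have compact support and are bounded.)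
With `h = r e^{iθ}` integrate over `θ ∈ [0, 2π]` (Fubini; `θ → θ + π` turns `h` into `-h`): `2 ∫_O (circleAverage w x r - w x) dx ≤ 0`.
-/

set_option autoImplicit false

open MeasureTheory Metric Set Complex

namespace Pool.Agent.Helper7.CT

private lemma O_meas {w : ℂ → ℝ} (hw : Continuous w) (ρ : ℝ) :
    MeasurableSet {x ∈ ball (0 : ℂ) ρ | 0 < w x} := by
  have : IsOpen (ball (0 : ℂ) ρ ∩ {x | 0 < w x}) := isOpen_ball.inter (isOpen_lt continuous_const hw)
  exact this.measurableSet

private lemma O_int {w g : ℂ → ℝ} (hg : Continuous g) (ρ : ℝ) :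
    IntegrableOn g {x ∈ ball (0 : ℂ) ρ | 0 < w x} := by
  have h1 : IntegrableOn g (closedBall (0 : ℂ) ρ) :=
    hg.continuousOn.integrableOn_compact (isCompact_closedBall _ _)
  exact h1.mono_set fun x hx => ball_subset_closedBall hx.1

private lemma flux_pt {w : ℂ → ℝ} (hw : Continuous w) {ρ r : ℝ}
    (hout : ∀ x, ρ ≤ ‖x‖ → ‖x‖ ≤ ρ + r → w x ≤ 0) {h : ℂ} (hh : ‖h‖ = r) :
    (∫ x in {x ∈ ball (0 : ℂ) ρ | 0 < w x}, (w (x + h) - w x)) +
      ∫ x in {x ∈ ball (0 : ℂ) ρ | 0 < w x}, (w (x - h) - w x) ≤ 0 := by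
  set O : Set ℂ := {x ∈ ball (0 : ℂ) ρ | 0 < w x} with hO
  have hOm : MeasurableSet O := O_meas hw ρ
  have hi1 : IntegrableOn (fun x => w (x + h) - w x) O := O_int (by fun_prop) ρ
  have hi2 : IntegrableOn (fun x => w (x - h) - w x) O := O_int (by fun_prop) ρ
  have hmem : ∀ x : ℂ, x ∈ O ↔ ‖x‖ < ρ ∧ 0 < w x := by
    intro x
    rw [hO]
    simp only [mem_ofPred_eq, mem_ball_zero_iff]
  have hneg : ∀ x : ℂ, x ∉ O → ‖x‖ ≤ ρ + r → w x ≤ 0 := by
    intro x hx hx2
    rw [hmem] at hx
    by_cases h1 : ‖x‖ < ρ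
    · by_contra h2
      exact hx ⟨h1, not_le.1 h2⟩
    · exact hout x (not_lt.1 h1) hx2
  rw [← integral_indicator hOm, ← integral_indicator hOm]
  have e2 : ∫ x, O.indicator (fun x => w (x - h) - w x) x =
      ∫ x, O.indicator (fun x => w (x - h) - w x) (x + h) :=
    (integral_add_right_eq_self (fun x => O.indicator (fun x => w (x - h) - w x) x) h).symm
  rw [e2, ← integral_add ((integrable_indicator_iff hOm).2 hi1)
    (((integrable_indicator_iff hOm).2 hi2).comp_add_right h)]
  apply integral_nonpos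
  intro x
  simp only [Pi.zero_apply]
  by_cases h1 : x ∈ O <;> by_cases h2 : x + h ∈ O
  · rw [indicator_of_mem h1, indicator_of_mem h2]
    have : x + h - h = x := by ring
    rw [this]
    linarith
  · rw [indicator_of_mem h1, indicator_of_notMem h2]
    have h3 := ((hmem x).1 h1)
    have h4 := hneg (x + h) h2 (by
      have := norm_add_le x h
      linarith)
    linarith
  · rw [indicator_of_notMem h1, indicator_of_mem h2]
    have h3 := ((hmem (x + h)).1 h2)
    have h4 := hneg x h1 (by
      have h5 : x = (x + h) - h := by ring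
      have h6 := norm_sub_le (x + h) h
      rw [← h5] at h6
      linarith)
    have : x + h - h = x := by ring
    rw [this]
    linarith
  · rw [indicator_of_notMem h1, indicator_of_notMem h2]
    simp

theorem flux {w : ℂ → ℝ} (hw : Continuous w) {ρ r : ℝ} (hρ : 0 < ρ) (hr : 0 < r)
    (hout : ∀ x, ρ ≤ ‖x‖ → ‖x‖ ≤ ρ + r → w x ≤ 0) :
    ∫ x in {x ∈ ball (0 : ℂ) ρ | 0 < w x}, (Real.circleAverage w x r - w x) ≤ 0 := by
  set O : Set ℂ := {x ∈ ball (0 : ℂ) ρ | 0 < w x} with hO
  have hπ := Real.pi_pos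
  have hOm : MeasurableSet O := O_meas hw ρ
  set I : ℝ → ℝ := fun θ => ∫ x in O, (w (circleMap x r θ) - w x) with hI
  have hcm : Continuous fun p : ℂ × ℝ => w (circleMap p.1 r p.2) - w p.1 := by
    unfold circleMap
    fun_prop
  have hprod : Integrable (fun p : ℂ × ℝ => w (circleMap p.1 r p.2) - w p.1)
      ((volume.restrict O).prod (volume.restrict (Ioc 0 (2 * Real.pi)))) := by
    rw [Measure.prod_restrict]
    have h1 : IntegrableOn (fun p : ℂ × ℝ => w (circleMap p.1 r p.2) - w p.1)
        (closedBall (0 : ℂ) ρ ×ˢ Icc 0 (2 * Real.pi)) (volume.prod volume) :=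
      hcm.continuousOn.integrableOn_compact ((isCompact_closedBall _ _).prod isCompact_Icc)
    exact h1.mono_set (prod_mono (fun x hx => ball_subset_closedBall hx.1) Ioc_subset_Icc_self)
  have e1 : ∫ x in O, (Real.circleAverage w x r - w x) = (2 * Real.pi)⁻¹ * ∫ θ in (0 : ℝ)..2 * Real.pi, I θ := by
    have h1 : ∀ x, Real.circleAverage w x r - w x =
        (2 * Real.pi)⁻¹ * ∫ θ in Ioc 0 (2 * Real.pi), (w (circleMap x r θ) - w x) := by
      intro x
      rw [Real.circleAverage_def, smul_eq_mul, ← intervalIntegral.integral_of_le (by positivity),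
        intervalIntegral.integral_sub (Continuous.intervalIntegrable (by fun_prop) _ _)
          intervalIntegrable_const, intervalIntegral.integral_const, smul_eq_mul, mul_sub]
      field_simp
      ring
    simp_rw [h1]
    rw [integral_const_mul, integral_integral_swap hprod, intervalIntegral.integral_of_le (by positivity)]
  have hIc : IntervalIntegrable I volume 0 (2 * Real.pi) := by
    rw [intervalIntegrable_iff_integrableOn_Ioc_of_le (by positivity)]
    exact hprod.integral_prod_right
  have hIper : Function.Periodic I (2 * Real.pi) := by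
    intro θ
    simp only [hI]
    congr 1
    ext x
    rw [periodic_circleMap x r θ]
  have hIle : ∀ θ, I (θ + Real.pi) + I θ ≤ 0 := by
    intro θ
    obtain ⟨k, hk⟩ : ∃ k, k = circleMap 0 r θ := ⟨_, rfl⟩
    have h1 := flux_pt hw hout (h := k) (by rw [hk, norm_circleMap_zero, abs_of_pos hr])
    have h2 : ∀ x, circleMap x r (θ + Real.pi) = x - k := by
      intro x
      rw [hk]
      simp only [circleMap]
      push_cast
      rw [add_mul, Complex.exp_add, Complex.exp_pi_mul_I]
      ring
    have h3 : ∀ x, circleMap x r θ = x + k := by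
      intro x
      rw [hk]
      simp only [circleMap]
      ring
    simp only [hI, h2, h3]
    linarith
  have hshift : ∫ θ in (0 : ℝ)..2 * Real.pi, I (θ + Real.pi) = ∫ θ in (0 : ℝ)..2 * Real.pi, I θ := by
    rw [intervalIntegral.integral_comp_add_right (fun θ => I θ) Real.pi]
    have := hIper.intervalIntegral_add_eq Real.pi 0
    rw [zero_add] at this ⊢
    rw [← this]
    congr 1
    ring
  have hIc2 : IntervalIntegrable (fun θ => I (θ + Real.pi)) volume 0 (2 * Real.pi) := by
    have h1 : IntervalIntegrable I volume (0 + Real.pi) (2 * Real.pi + Real.pi) :=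
      hIper.intervalIntegrable (by positivity) (t := 0) (by simpa using hIc) _ _
    simpa using h1.comp_add_right Real.pi
  have hsum : (∫ θ in (0 : ℝ)..2 * Real.pi, I (θ + Real.pi)) + ∫ θ in (0 : ℝ)..2 * Real.pi, I θ ≤ 0 := by
    rw [← intervalIntegral.integral_add hIc2 hIc]
    have h := intervalIntegral.integral_nonneg_of_forall (μ := volume) (a := 0) (b := 2 * Real.pi)
      (f := fun θ => -(I (θ + Real.pi) + I θ)) (by positivity) (fun θ => by have := hIle θ; linarith)
    rw [intervalIntegral.integral_neg] at h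
    linarith
  rw [hshift] at hsum
  rw [e1]
  apply mul_nonpos_of_nonneg_of_nonpos (by positivity)
  linarith

end Pool.Agent.Helper7.CT
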