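import Pool.Agent.Helper7.CT.Defs

/-!
# CT-D3: the circle average of a `C²` function, uniformly

`circle_exp`. PROOF. `φ (x + h) - φ x = ∫_0^1 dt (f (x + s h)) h ds` and `f (x + s h) - f x - s A h = o(|h|)` uniformly in `x` (`A = fderiv f x` is uniformly continuous,
compact support): `|φ (x+h) - φ x - dt (f x) h - dt (A h) h / 2| ≤ ε ‖h‖²` for `‖h‖ < r₀`. Average over `h = r e^{iθ}`: the average of `dt (f x) h` is `0`, and
`A h = dz h + db h̄` (`BU.fderiv_eq`), `dt (A h) h = Re (dz) r² + Re (db h̄²)`, the average of `h̄²` is `0`.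
`circle_sq`. PROOF. `‖x + h‖² = ‖x‖² + 2 dt x h + r²`.
-/

set_option autoImplicit false

open MeasureTheory Metric Set Complex

namespace Pool.Agent.Helper7.CT

open Pool.Agent.Helper7.BU

/-- second order Taylor expansion, uniformly -/
private lemma taylor_h68 {φ : ℂ → ℝ} {f : ℂ → ℂ} (hpot : IsPot φ f) (hf : ContDiff ℝ 1 f)
    {ε δ : ℝ} {x h : ℂ} (hδ : ∀ y, ‖y - x‖ < δ → ‖fderiv ℝ f y - fderiv ℝ f x‖ ≤ ε) (hε : 0 ≤ ε)
    (hh : ‖h‖ < δ) :
    |φ (x + h) - φ x - inner ℝ (f x) h - inner ℝ (fderiv ℝ f x h) h / 2| ≤ ε * ‖h‖ ^ 2 := by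
  have hfd : Differentiable ℝ f := hf.differentiable one_ne_zero
  set A := fderiv ℝ f x with hA
  set u : ℝ → ℝ := fun s => φ (x + s • h) - s * inner ℝ (f x) h - s ^ 2 / 2 * inner ℝ (A h) h with hu
  have hmv : ∀ s : ℝ, 0 ≤ s → s ≤ 1 → ‖f (x + s • h) - f x - s • A h‖ ≤ ε * (s * ‖h‖) := by
    intro s hs0 hs1
    have hsn : ‖s • h‖ = s * ‖h‖ := by rw [norm_smul, Real.norm_eq_abs, abs_of_nonneg hs0]
    have hlt : ‖s • h‖ < δ := by
      rw [hsn]
      exact lt_of_le_of_lt (mul_le_of_le_one_left (norm_nonneg h) hs1) hh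
    have h1 := (convex_ball x δ).norm_image_sub_le_of_norm_fderiv_le' (𝕜 := ℝ) (f := f) (φ := A) (C := ε)
      (x := x) (y := x + s • h) (fun y _ => hfd y)
      (fun y hy => hδ y (by rwa [mem_ball, dist_eq_norm] at hy))
      (mem_ball_self (lt_of_le_of_lt (norm_nonneg _) hlt))
      (by rw [mem_ball, dist_eq_norm, add_sub_cancel_left]; exact hlt)
    rw [add_sub_cancel_left, map_smul, hsn] at h1
    exact h1
  have hder : ∀ s : ℝ, HasDerivAt u (inner ℝ (f (x + s • h)) h - inner ℝ (f x) h - s * inner ℝ (A h) h) s := by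
    intro s
    have h1 : HasDerivAt (fun s : ℝ => x + s • h) h s := by
      simpa using ((hasDerivAt_id s).smul_const h).const_add x
    have h2 : HasDerivAt (fun s : ℝ => φ (x + s • h)) (inner ℝ (f (x + s • h)) h) s := by
      have h3 := (hpot (x + s • h)).comp_hasDerivAt s h1
      exact h3
    have h4 : HasDerivAt (fun s : ℝ => s * inner ℝ (f x) h) (inner ℝ (f x) h) s := by
      simpa using (hasDerivAt_id s).mul_const (inner ℝ (f x) h)
    have h5 : HasDerivAt (fun s : ℝ => s ^ 2 / 2 * inner ℝ (A h) h) (s * inner ℝ (A h) h) s := by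
      have h6 : HasDerivAt (fun s : ℝ => s ^ 2 / 2) s s := by
        have h7 := (hasDerivAt_pow 2 s).div_const 2
        refine h7.congr_deriv ?_
        norm_num
      exact h6.mul_const _
    exact (h2.sub h4).sub h5
  have hbd : ∀ s ∈ Ico (0 : ℝ) 1, ‖inner ℝ (f (x + s • h)) h - inner ℝ (f x) h - s * inner ℝ (A h) h‖ ≤
      ε * ‖h‖ ^ 2 := by
    intro s hs
    have e : inner ℝ (f (x + s • h)) h - inner ℝ (f x) h - s * inner ℝ (A h) h =
        inner ℝ (f (x + s • h) - f x - s • A h) h := by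
      rw [inner_sub_left, inner_sub_left, real_inner_smul_left]
    rw [e]
    refine (norm_inner_le_norm _ _).trans ?_
    have h1 := hmv s hs.1 hs.2.le
    have hn := norm_nonneg h
    have h2 : ε * (s * ‖h‖) ≤ ε * ‖h‖ :=
      mul_le_mul_of_nonneg_left (mul_le_of_le_one_left hn hs.2.le) hε
    calc ‖f (x + s • h) - f x - s • A h‖ * ‖h‖ ≤ (ε * ‖h‖) * ‖h‖ :=
          mul_le_mul_of_nonneg_right (h1.trans h2) hn
      _ = ε * ‖h‖ ^ 2 := by ring
  have hfin := norm_image_sub_le_of_norm_deriv_le_segment_01' (f := u)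
    (fun s _ => (hder s).hasDerivWithinAt) hbd
  have e1 : u 1 - u 0 = φ (x + h) - φ x - inner ℝ (f x) h - inner ℝ (A h) h / 2 := by
    rw [hu]
    simp only [one_smul, zero_smul, add_zero]
    ring
  rw [e1, Real.norm_eq_abs] at hfin
  exact hfin

private lemma circ_h68 (r θ : ℝ) : circleMap 0 r θ = (r * Real.cos θ) • (1 : ℂ) + (r * Real.sin θ) • I := by
  rw [circleMap_zero, Complex.exp_mul_I]
  simp only [real_smul, mul_one]
  push_cast
  ring

/-- the average of the linear part -/
private lemma avg_lin_h68 (c : ℂ) (r : ℝ) : ∫ θ in (0 : ℝ)..2 * Real.pi, inner ℝ c (circleMap 0 r θ) = 0 := by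
  have e : (fun θ : ℝ => inner ℝ c (circleMap 0 r θ)) =
      fun θ => (r * inner ℝ c (1 : ℂ)) * Real.cos θ + (r * inner ℝ c I) * Real.sin θ := by
    funext θ
    rw [circ_h68, inner_add_right, real_inner_smul_right, real_inner_smul_right]
    ring
  rw [e, intervalIntegral.integral_add (by apply Continuous.intervalIntegrable; fun_prop)
    (by apply Continuous.intervalIntegrable; fun_prop),
    intervalIntegral.integral_const_mul, intervalIntegral.integral_const_mul, integral_cos, integral_sin]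
  simp

/-- the average of the quadratic part -/
private lemma avg_quad_h68 (A : ℂ →L[ℝ] ℂ) (r : ℝ) :
    ∫ θ in (0 : ℝ)..2 * Real.pi, inner ℝ (A (circleMap 0 r θ)) (circleMap 0 r θ) =
      Real.pi * r ^ 2 * (inner ℝ (A 1) (1 : ℂ) + inner ℝ (A I) I) := by
  have e : (fun θ : ℝ => inner ℝ (A (circleMap 0 r θ)) (circleMap 0 r θ)) =
      fun θ => (r ^ 2 * inner ℝ (A 1) (1 : ℂ)) * Real.cos θ ^ 2 +
        ((r ^ 2 * (inner ℝ (A 1) I + inner ℝ (A I) (1 : ℂ))) * (Real.sin θ * Real.cos θ) +
          (r ^ 2 * inner ℝ (A I) I) * Real.sin θ ^ 2) := by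
    funext θ
    rw [circ_h68, map_add, map_smul, map_smul, inner_add_left, inner_add_right, inner_add_right,
      real_inner_smul_left, real_inner_smul_right, real_inner_smul_left, real_inner_smul_right,
      real_inner_smul_left, real_inner_smul_right, real_inner_smul_left, real_inner_smul_right]
    ring
  rw [e, intervalIntegral.integral_add (by apply Continuous.intervalIntegrable; fun_prop)
    (by apply Continuous.intervalIntegrable; fun_prop),
    intervalIntegral.integral_add (by apply Continuous.intervalIntegrable; fun_prop)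
    (by apply Continuous.intervalIntegrable; fun_prop),
    intervalIntegral.integral_const_mul, intervalIntegral.integral_const_mul,
    intervalIntegral.integral_const_mul, integral_cos_sq, integral_sin_sq, integral_sin_mul_cos₁]
  simp
  ring

theorem circle_exp {φ : ℂ → ℝ} {f : ℂ → ℂ} (hpot : IsPot φ f) (hf : ContDiff ℝ 1 f)
    (hs : HasCompactSupport f) {ε : ℝ} (hε : 0 < ε) :
    ∃ r₀ : ℝ, 0 < r₀ ∧ ∀ r : ℝ, 0 < r → r < r₀ → ∀ x : ℂ,
      |Real.circleAverage φ x r - φ x - r ^ 2 / 2 * (dz f x).re| ≤ ε * r ^ 2 := by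
  have hcont : Continuous (fderiv ℝ f) := hf.continuous_fderiv one_ne_zero
  have hsup : HasCompactSupport (fderiv ℝ f) := hs.fderiv (𝕜 := ℝ)
  have huc : UniformContinuous (fderiv ℝ f) := hsup.uniformContinuous_of_continuous hcont
  obtain ⟨δ, hδ, hδ'⟩ := Metric.uniformContinuous_iff.1 huc ε hε
  have hφ : Continuous φ := continuous_iff_continuousAt.2 fun z => (hpot z).continuousAt
  refine ⟨δ, hδ, fun r hr hr' x => ?_⟩
  have htay : ∀ θ : ℝ, |φ (x + circleMap 0 r θ) - φ x - inner ℝ (f x) (circleMap 0 r θ) -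
      inner ℝ (fderiv ℝ f x (circleMap 0 r θ)) (circleMap 0 r θ) / 2| ≤ ε * r ^ 2 := by
    intro θ
    have hn : ‖circleMap 0 r θ‖ = r := by
      rw [norm_circleMap_zero, abs_of_pos hr]
    have h1 := taylor_h68 hpot hf (x := x) (h := circleMap 0 r θ) (ε := ε) (δ := δ) (fun y hy => by
      have h2 := hδ' (a := y) (b := x) (by rw [dist_eq_norm]; exact hy)
      rw [dist_eq_norm] at h2
      exact h2.le) hε.le (by rw [hn]; exact hr')
    rw [hn] at h1
    exact h1
  have hpi : 0 < 2 * Real.pi := by positivity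
  have hA1 : inner ℝ (fderiv ℝ f x 1) (1 : ℂ) + inner ℝ (fderiv ℝ f x I) I = 2 * (dz f x).re := by
    unfold dz
    simp only [Complex.inner]
    simp
    ring
  have hcirc : Continuous (fun θ : ℝ => circleMap 0 r θ) := continuous_circleMap 0 r
  have hI1 : Continuous (fun θ : ℝ => φ (x + circleMap 0 r θ)) := hφ.comp (continuous_const.add hcirc)
  have hI2 : Continuous (fun θ : ℝ => inner ℝ (f x) (circleMap 0 r θ)) := continuous_const.inner hcirc
  have hI3 : Continuous (fun θ : ℝ => inner ℝ (fderiv ℝ f x (circleMap 0 r θ)) (circleMap 0 r θ) / 2) :=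
    (((fderiv ℝ f x).continuous.comp hcirc).inner hcirc).div_const 2
  have hint : ∫ θ in (0 : ℝ)..2 * Real.pi, (φ (x + circleMap 0 r θ) - φ x - inner ℝ (f x) (circleMap 0 r θ) -
      inner ℝ (fderiv ℝ f x (circleMap 0 r θ)) (circleMap 0 r θ) / 2) =
      (∫ θ in (0 : ℝ)..2 * Real.pi, φ (x + circleMap 0 r θ)) - 2 * Real.pi * φ x -
        Real.pi * r ^ 2 * (dz f x).re := by
    have J1 : Continuous (fun θ : ℝ => φ (x + circleMap 0 r θ) - φ x) := hI1.sub continuous_const
    have J2 : Continuous (fun θ : ℝ => φ (x + circleMap 0 r θ) - φ x - inner ℝ (f x) (circleMap 0 r θ)) :=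
      J1.sub hI2
    rw [intervalIntegral.integral_sub (J2.intervalIntegrable _ _) (hI3.intervalIntegrable _ _),
      intervalIntegral.integral_sub (J1.intervalIntegrable _ _) (hI2.intervalIntegrable _ _),
      intervalIntegral.integral_sub (hI1.intervalIntegrable _ _) (continuous_const.intervalIntegrable _ _),
      intervalIntegral.integral_const, avg_lin_h68, intervalIntegral.integral_div, avg_quad_h68, hA1,
      smul_eq_mul]
    ring
  have hbound : ‖∫ θ in (0 : ℝ)..2 * Real.pi, (φ (x + circleMap 0 r θ) - φ x - inner ℝ (f x) (circleMap 0 r θ) -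
      inner ℝ (fderiv ℝ f x (circleMap 0 r θ)) (circleMap 0 r θ) / 2)‖ ≤
      ε * r ^ 2 * |2 * Real.pi - 0| :=
    intervalIntegral.norm_integral_le_of_norm_le_const fun θ _ => by
      rw [Real.norm_eq_abs]
      exact htay θ
  rw [hint, sub_zero, abs_of_pos hpi, Real.norm_eq_abs] at hbound
  have hav : Real.circleAverage φ x r = (2 * Real.pi)⁻¹ * ∫ θ in (0 : ℝ)..2 * Real.pi, φ (x + circleMap 0 r θ) := by
    rw [Real.circleAverage_def, smul_eq_mul]
    congr 1
    refine intervalIntegral.integral_congr fun θ _ => ?_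
    show φ (circleMap x r θ) = φ (x + circleMap 0 r θ)
    congr 1
    unfold circleMap
    ring
  have he : Real.circleAverage φ x r - φ x - r ^ 2 / 2 * (dz f x).re =
      (2 * Real.pi)⁻¹ * ((∫ θ in (0 : ℝ)..2 * Real.pi, φ (x + circleMap 0 r θ)) - 2 * Real.pi * φ x -
        Real.pi * r ^ 2 * (dz f x).re) := by
    rw [hav]
    field_simp
  rw [he, abs_mul, abs_of_pos (inv_pos.2 hpi), inv_mul_le_iff₀ hpi]
  linarith

theorem circle_sq (x : ℂ) (r : ℝ) :
    Real.circleAverage (fun y => ‖y‖ ^ 2 / 2) x r = ‖x‖ ^ 2 / 2 + r ^ 2 / 2 := by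
  rw [Real.circleAverage_def, smul_eq_mul]
  have e : (fun θ : ℝ => ‖circleMap x r θ‖ ^ 2 / 2) =
      fun θ => (‖x‖ ^ 2 / 2 + r ^ 2 / 2) + inner ℝ x (circleMap 0 r θ) := by
    funext θ
    have h1 : circleMap x r θ = x + circleMap 0 r θ := by
      unfold circleMap
      ring
    have h2 : ‖circleMap 0 r θ‖ ^ 2 = r ^ 2 := by
      rw [norm_circleMap_zero, sq_abs]
    rw [h1, norm_add_sq_real, h2]
    ring
  have hI : Continuous (fun θ : ℝ => inner ℝ x (circleMap 0 r θ)) :=
    continuous_const.inner (continuous_circleMap 0 r)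
  have hpi : 0 < 2 * Real.pi := by positivity
  rw [e, intervalIntegral.integral_add (continuous_const.intervalIntegrable _ _) (hI.intervalIntegrable _ _),
    avg_lin_h68, intervalIntegral.integral_const, smul_eq_mul, sub_zero, add_zero, ← mul_assoc,
    inv_mul_cancel₀ hpi.ne', one_mul]

end Pool.Agent.Helper7.CT
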