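import Pool.Agent.Helper7.CT.A1
import Pool.Agent.Helper7.CT.D1
import Pool.Agent.Helper7.CT.D2
import Pool.Agent.Helper7.CT.D3

/-!
# CT-D4: `∫_O (Δφ + 2) ≤ 0` (`Δφ = 2 Re dz f`)

PROOF. `w = φ - ψ`, `O = {x ∈ ball 0 ρ | ψ x < φ x}` (open, bounded), `u y = ‖y‖²/2 - ψ y`, `0 < r < 1`. `flux` (with `hout`):
`∫_O (circleAverage w x r - w x) ≤ 0`, i.e. `∫_O (A_r φ - A_r ψ) ≤ 0`, `A_r v x = circleAverage v x r - v x` (`circleAverage` is linear on continuous functions), and
`A_r ψ = r²/2 - A_r u` (`circle_sq`).
(a) `A_r u ≥ 0` on `O`: by `hmx` `u y ≥ u x + dt p (y - x)` for all `y` in the disc of radius `R ≥ ρ + 1`, average over the circle.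
(b) `A_r u x ≥ r²` if `closedBall x r ⊆ O`: `disc_ineq`; its hypothesis: for `W ⊆ ball x r ⊆ O` open, `hmu` and `ae_isMx`: for almost every `p` with `y₀ = xp R ψ p ∈ W`
`y₀` is a maximiser, i.e. `u y₀ + dt p (y - y₀) ≤ u y` on `closedBall 0 R ⊇ closedBall x r`.
So with `O_r = {x ∈ O | closedBall x r ⊆ O}`: `∫_O A_r φ ≤ ∫_O A_r ψ ≤ (r²/2) vol (O \ O_r) - (r²/2) vol O_r`. By `circle_exp`
`∫_O A_r φ ≥ (r²/2) ∫_O Re dz f - ε r² vol O`. Divide by `r²/2`, `r → 0` (`vol O_r → vol O`, because `O` is open with finite measure), `ε → 0`: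
`∫_O Re dz f ≤ - vol O`.
-/

set_option autoImplicit false

open MeasureTheory Metric Set Complex

namespace Pool.Agent.Helper7.CT

open Pool.Agent.Helper7.BU

private lemma ca_cont {g : ℂ → ℝ} (hg : Continuous g) (r : ℝ) :
    Continuous fun x => Real.circleAverage g x r := by
  have h : Continuous (Function.uncurry fun (x : ℂ) (θ : ℝ) => g (circleMap x r θ)) := by
    unfold Function.uncurry circleMap
    fun_prop
  have h2 : Continuous fun x => ∫ θ in (0 : ℝ)..2 * Real.pi, g (circleMap x r θ) :=
    intervalIntegral.continuous_parametric_intervalIntegral_of_continuous' (μ := volume) h _ _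
  unfold Real.circleAverage
  fun_prop

private lemma ca_dt (c p : ℂ) (r a : ℝ) : Real.circleAverage (fun y => a + dt (y - c) p) c r = a := by
  rw [Real.circleAverage_def]
  have h : ∀ θ : ℝ, a + dt (circleMap c r θ - c) p = a + (r * p.re * Real.cos θ + r * p.im * Real.sin θ) := by
    intro θ
    have h1 : circleMap c r θ - c = (r : ℂ) * (Real.cos θ + Real.sin θ * I) := by
      simp only [circleMap, Complex.exp_mul_I, Complex.ofReal_cos, Complex.ofReal_sin]
      ring
    rw [h1]
    unfold dt
    simp only [Complex.add_re, Complex.add_im, Complex.mul_re, Complex.mul_im, Complex.ofReal_re,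
      Complex.ofReal_im, Complex.I_re, Complex.I_im]
    ring
  simp only [h]
  rw [intervalIntegral.integral_add intervalIntegrable_const (Continuous.intervalIntegrable (by fun_prop) _ _),
    intervalIntegral.integral_add (Continuous.intervalIntegrable (by fun_prop) _ _)
      (Continuous.intervalIntegrable (by fun_prop) _ _), intervalIntegral.integral_const_mul,
    intervalIntegral.integral_const_mul, integral_cos, integral_sin, intervalIntegral.integral_const]
  have hπ := Real.pi_pos
  simp only [Real.sin_two_pi, Real.sin_zero, Real.cos_zero, Real.cos_two_pi, smul_eq_mul]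
  field_simp
  ring

private lemma ci {g : ℂ → ℝ} (hg : Continuous g) (x : ℂ) (r : ℝ) : CircleIntegrable g x r := by
  unfold CircleIntegrable
  apply Continuous.intervalIntegrable
  fun_prop

theorem lap_O {R ρ : ℝ} (hρ : 0 < ρ) (hR : ρ + 1 ≤ R) {φ ψ : ℂ → ℝ} {f : ℂ → ℂ} (hpot : IsPot φ f)
    (hf : ContDiff ℝ 1 f) (hs : HasCompactSupport f) (hψ : Continuous ψ)
    (hout : ∀ x, ρ ≤ ‖x‖ → ‖x‖ ≤ R → φ x ≤ ψ x)
    (hmx : ∀ x ∈ ball (0 : ℂ) ρ, ψ x < φ x → ∃ p, IsMx R ψ p x)
    (hmu : ∀ W : Set ℂ, IsOpen W → W ⊆ {x ∈ ball (0 : ℂ) ρ | ψ x < φ x} →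
      4 * volume W ≤ volume {p ∈ closedBall (0 : ℂ) R | xp R ψ p ∈ W}) :
    ∫ x in {x ∈ ball (0 : ℂ) ρ | ψ x < φ x}, ((dz f x).re + 1) ≤ 0 := by
  have hR0 : 0 ≤ R := by linarith
  have hφ : Continuous φ := continuous_iff_continuousAt.2 fun z => (hpot z).continuousAt
  set O : Set ℂ := {x ∈ ball (0 : ℂ) ρ | ψ x < φ x} with hO
  have hOo : IsOpen O := isOpen_ball.inter (isOpen_lt hψ hφ)
  have hOm : MeasurableSet O := hOo.measurableSet
  have hOb : O ⊆ closedBall (0 : ℂ) ρ := fun x hx => ball_subset_closedBall hx.1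
  have hOfin : volume O ≠ ⊤ := ((measure_mono hOb).trans_lt measure_closedBall_lt_top).ne
  have hint : ∀ {g : ℂ → ℝ}, Continuous g → IntegrableOn g O := fun {g} hg =>
    (hg.continuousOn.integrableOn_compact (isCompact_closedBall _ _)).mono_set hOb
  have hdz : Continuous fun x => (dz f x).re := by
    have h1 : Continuous (fderiv ℝ f) := hf.continuous_fderiv one_ne_zero
    unfold dz
    fun_prop
  set u : ℂ → ℝ := fun y => ‖y‖ ^ 2 / 2 - ψ y with hu
  have huc : Continuous u := by fun_prop
  have hOmem : ∀ x, x ∈ O ↔ ‖x‖ < ρ ∧ ψ x < φ x := by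
    intro x
    rw [hO]
    simp only [mem_ofPred_eq, mem_ball_zero_iff]
  -- the sets S_r
  set S : ℝ → Set ℂ := fun r => {x | r < infDist x Oᶜ} with hS
  have hOne : (Oᶜ : Set ℂ).Nonempty := by
    refine ⟨(ρ : ℂ), fun h => ?_⟩
    have := ((hOmem _).1 h).1
    rw [Complex.norm_real, Real.norm_eq_abs, abs_of_pos hρ] at this
    exact lt_irrefl _ this
  have hSo : ∀ r, IsOpen (S r) := fun r => isOpen_lt continuous_const (continuous_infDist_pt _)
  have hSsub : ∀ r, 0 ≤ r → ∀ x ∈ S r, closedBall x r ⊆ O := by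
    intro r _ x hx y hy
    by_contra h
    have h1 : infDist x Oᶜ ≤ dist x y := infDist_le_dist_of_mem h
    rw [mem_closedBall, dist_comm] at hy
    have h2 : r < infDist x Oᶜ := hx
    linarith
  have hSO : ∀ r, 0 ≤ r → S r ⊆ O := fun r hr x hx => hSsub r hr x hx (mem_closedBall_self hr)
  -- the inequality for fixed r
  have key : ∀ r ε : ℝ, 0 < r → r < 1 → 0 < ε → (∀ x : ℂ,
      |Real.circleAverage φ x r - φ x - r ^ 2 / 2 * (dz f x).re| ≤ ε * r ^ 2) →
      ∫ x in O, (dz f x).re ≤ (volume O).toReal - 2 * (volume (S r)).toReal + 2 * ε * (volume O).toReal := by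
    intro r ε hr hr1 hε hexp
    have hsub : ∀ x ∈ O, closedBall x r ⊆ closedBall (0 : ℂ) R := by
      intro x hx y hy
      rw [mem_closedBall] at hy
      rw [mem_closedBall_zero_iff]
      have h1 := ((hOmem x).1 hx).1
      have h2 := norm_le_norm_add_norm_sub' y x
      rw [dist_eq_norm] at hy
      linarith
    have hψA : ∀ x, Real.circleAverage ψ x r - ψ x = r ^ 2 / 2 - (Real.circleAverage u x r - u x) := by
      intro x
      have h1 : Real.circleAverage u x r = Real.circleAverage (fun y => ‖y‖ ^ 2 / 2) x r - Real.circleAverage ψ x r :=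
        Real.circleAverage_fun_sub (ci (by fun_prop) x r) (ci hψ x r)
      rw [h1, circle_sq]
      simp only [hu]
      ring
    have ha : ∀ x ∈ O, 0 ≤ Real.circleAverage u x r - u x := by
      intro x hx
      obtain ⟨p, hp⟩ := hmx x hx.1 hx.2
      have h1 : Real.circleAverage (fun y => u x + dt (y - x) p) x r ≤ Real.circleAverage u x r := by
        apply Real.circleAverage_mono (ci (by unfold dt; fun_prop) x r) (ci huc x r)
        intro y hy
        rw [abs_of_pos hr] at hy
        have h2 := hp.2 y (hsub x hx (sphere_subset_closedBall hy))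
        simp only [hu]
        unfold dt at h2 ⊢
        simp only [Complex.sub_re, Complex.sub_im]
        linarith
      rw [ca_dt] at h1
      linarith
    have hb : ∀ x ∈ S r, r ^ 2 ≤ Real.circleAverage u x r - u x := by
      intro x hx
      have hxO := hSO r hr.le hx
      have h1 : u x + r ^ 2 ≤ Real.circleAverage u x r := by
        apply disc_ineq huc hr
        intro W hW hWs
        refine (hmu W hW (hWs.trans (ball_subset_closedBall.trans (hSsub r hr.le x hx)))).trans ?_
        apply measure_mono_ae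
        filter_upwards [ae_isMx hR0 hψ] with p hp hpW
        refine ⟨xp R ψ p, hpW.2, fun y hy => ?_⟩
        have h2 := hp.1.2 y (hsub x hxO hy)
        simp only [hu]
        unfold dt at h2 ⊢
        simp only [Complex.sub_re, Complex.sub_im]
        linarith
      linarith
    have hflux := flux (w := fun x => φ x - ψ x) (by fun_prop) hρ hr (fun x h1 h2 => by
      have := hout x h1 (by linarith)
      linarith)
    have hOe : {x ∈ ball (0 : ℂ) ρ | 0 < φ x - ψ x} = O := by
      ext x
      rw [hO]
      simp only [mem_ofPred_eq, sub_pos]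
    rw [hOe] at hflux
    have hw : ∀ x, Real.circleAverage (fun x => φ x - ψ x) x r - (φ x - ψ x) =
        (Real.circleAverage φ x r - φ x) - (r ^ 2 / 2 - (Real.circleAverage u x r - u x)) := by
      intro x
      rw [← hψA x, Real.circleAverage_fun_sub (ci hφ x r) (ci hψ x r)]
      ring
    simp only [hw] at hflux
    have hcφ := ca_cont hφ r
    have hcu := ca_cont huc r
    have i1 : IntegrableOn (fun x => Real.circleAverage φ x r - φ x) O := hint (by fun_prop)
    have i2 : IntegrableOn (fun x => r ^ 2 / 2 - (Real.circleAverage u x r - u x)) O := hint (by fun_prop)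
    have h1 : ∫ x in O, (r ^ 2 / 2 * (dz f x).re - ε * r ^ 2) ≤ ∫ x in O, (Real.circleAverage φ x r - φ x) := by
      apply setIntegral_mono_on (hint (by fun_prop)) i1 hOm
      intro x _
      have := (abs_le.1 (hexp x)).1
      linarith
    have h2 : ∫ x in O, (r ^ 2 / 2 - (Real.circleAverage u x r - u x)) ≤
        ∫ x in O, (r ^ 2 / 2 - (S r).indicator (fun _ => r ^ 2) x) := by
      apply setIntegral_mono_on i2 _ hOm
      · intro x hx
        by_cases hxS : x ∈ S r
        · rw [indicator_of_mem hxS]
          have := hb x hxS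
          linarith
        · rw [indicator_of_notMem hxS]
          have := ha x hx
          linarith
      · apply Integrable.sub (hint continuous_const)
        exact (hint continuous_const).indicator (hSo r).measurableSet
    have h3 : ∫ x in O, (r ^ 2 / 2 - (S r).indicator (fun _ => r ^ 2) x) =
        r ^ 2 / 2 * (volume O).toReal - r ^ 2 * (volume (S r)).toReal := by
      rw [integral_sub (hint continuous_const) ((hint continuous_const).indicator (hSo r).measurableSet),
        setIntegral_const, smul_eq_mul, measureReal_def, setIntegral_indicator (hSo r).measurableSet,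
        inter_eq_self_of_subset_right (hSO r hr.le), setIntegral_const, smul_eq_mul, measureReal_def]
      ring
    have h4 : ∫ x in O, (r ^ 2 / 2 * (dz f x).re - ε * r ^ 2) =
        r ^ 2 / 2 * (∫ x in O, (dz f x).re) - ε * r ^ 2 * (volume O).toReal := by
      rw [integral_sub (hint (by fun_prop)) (hint continuous_const), integral_const_mul,
        setIntegral_const, smul_eq_mul, measureReal_def]
      ring
    rw [integral_sub i1 i2] at hflux
    have h5 : r ^ 2 / 2 * (∫ x in O, (dz f x).re) - ε * r ^ 2 * (volume O).toReal ≤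
        r ^ 2 / 2 * (volume O).toReal - r ^ 2 * (volume (S r)).toReal := by
      rw [← h4, ← h3]
      linarith
    have hr2 : 0 < r ^ 2 / 2 := by positivity
    have h6 : r ^ 2 / 2 * (∫ x in O, (dz f x).re) ≤ r ^ 2 / 2 *
        ((volume O).toReal - 2 * (volume (S r)).toReal + 2 * ε * (volume O).toReal) := by
      linarith
    exact le_of_mul_le_mul_left h6 hr2
  -- the limit
  have hlim : Filter.Tendsto (fun n : ℕ => (volume (S (1 / ((n : ℝ) + 1)))).toReal) Filter.atTop
      (nhds (volume O).toReal) := by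
    have hmono : Monotone fun n : ℕ => S (1 / ((n : ℝ) + 1)) := by
      intro m n hmn x hx
      have h1 : 1 / ((n : ℝ) + 1) ≤ 1 / ((m : ℝ) + 1) :=
        one_div_le_one_div_of_le (by positivity) (by exact_mod_cast Nat.succ_le_succ hmn)
      exact lt_of_le_of_lt h1 hx
    have hU : ⋃ n : ℕ, S (1 / ((n : ℝ) + 1)) = O := by
      apply Subset.antisymm
      · exact iUnion_subset fun n => hSO _ (by positivity)
      · intro x hx
        have h1 : 0 < infDist x Oᶜ := by
          rw [← hOo.isClosed_compl.notMem_iff_infDist_pos hOne]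
          exact fun h => h hx
        obtain ⟨n, hn⟩ := exists_nat_one_div_lt h1
        exact mem_iUnion.2 ⟨n, hn⟩
    have h := tendsto_measure_iUnion_atTop (μ := (volume : Measure ℂ)) hmono
    rw [hU] at h
    exact (ENNReal.tendsto_toReal hOfin).comp h
  set V : ℝ := (volume O).toReal with hV
  have hV0 : 0 ≤ V := ENNReal.toReal_nonneg
  have hgoal : ∫ x in O, (dz f x).re ≤ -V := by
    apply le_of_forall_pos_le_add
    intro δ hδ
    set ε : ℝ := δ / (4 * (V + 1)) with hε
    have hε0 : 0 < ε := by positivity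
    have hεV : 2 * ε * V ≤ δ / 2 := by
      have h1 : 2 * ε * V = δ / 2 * (V / (V + 1)) := by
        rw [hε]
        field_simp
        ring
      rw [h1]
      have h2 : V / (V + 1) ≤ 1 := by
        rw [div_le_one (by positivity)]
        linarith
      nlinarith
    obtain ⟨r₀, hr₀, hexp⟩ := circle_exp hpot hf hs hε0
    have hev : ∀ᶠ n : ℕ in Filter.atTop, V - δ / 4 < (volume (S (1 / ((n : ℝ) + 1)))).toReal :=
      hlim.eventually (lt_mem_nhds (by linarith))
    have hev2 : ∀ᶠ n : ℕ in Filter.atTop, 1 / ((n : ℝ) + 1) < min r₀ 1 :=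
      tendsto_one_div_add_atTop_nhds_zero_nat.eventually (gt_mem_nhds (lt_min hr₀ one_pos))
    obtain ⟨n, hn1, hn2⟩ := (hev.and hev2).exists
    have hrn : 0 < 1 / ((n : ℝ) + 1) := by positivity
    have h := key (1 / ((n : ℝ) + 1)) ε hrn (lt_of_lt_of_le hn2 (min_le_right _ _)) hε0
      (hexp _ hrn (lt_of_lt_of_le hn2 (min_le_left _ _)))
    linarith
  rw [integral_add (hint hdz) (hint continuous_const), setIntegral_const, smul_eq_mul, measureReal_def, mul_one]
  linarith

end Pool.Agent.Helper7.CT
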