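import Pool.Agent.Helper7.BU.Burk

/-!
# Project CT (capacity constrained transport): definitions

Main theorem: `∫ L(∂f, ∂̄f) ≥ 0` for all gradient maps `f` (`∂f` real) of the plane, where `L` is the
Burkholder–Šverák function. Proof: see the file team-store `h7_BQ_proof.md` and the block headers.

`X` is the closed disc of radius `R`.  `G R ψ p = max_{x ∈ X} (⟨x,p⟩ - |x|²/2 + ψ x)`; for almost
every `p` the maximiser is unique and equal to `xp R ψ p = ∇ G (p)`.  The functional is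
`Fn R φ ψ = ∫_X G R ψ p dp + 4 ∫_X (φ - ψ)⁺ dx`, minimised over the continuous `ψ ≥ b`.
-/

set_option autoImplicit false

open MeasureTheory Metric Set Complex

namespace Pool.Agent.Helper7.CT

/-- the inner product of `ℝ² = ℂ` -/
def dt (x p : ℂ) : ℝ := x.re * p.re + x.im * p.im

/-- `x` maximises `⟨y, p⟩ - |y|²/2 + ψ y` on the closed disc of radius `R` -/
def IsMx (R : ℝ) (ψ : ℂ → ℝ) (p x : ℂ) : Prop :=
  x ∈ closedBall (0 : ℂ) R ∧ ∀ y ∈ closedBall (0 : ℂ) R,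
    dt y p - ‖y‖ ^ 2 / 2 + ψ y ≤ dt x p - ‖x‖ ^ 2 / 2 + ψ x

/-- the maximum -/
noncomputable def G (R : ℝ) (ψ : ℂ → ℝ) (p : ℂ) : ℝ :=
  sSup ((fun x => dt x p - ‖x‖ ^ 2 / 2 + ψ x) '' closedBall (0 : ℂ) R)

/-- the gradient of `G`, which is the maximiser for almost every `p` -/
noncomputable def xp (R : ℝ) (ψ : ℂ → ℝ) (p : ℂ) : ℂ :=
  ⟨fderiv ℝ (G R ψ) p 1, fderiv ℝ (G R ψ) p I⟩

/-- the functional -/
noncomputable def Fn (R : ℝ) (φ ψ : ℂ → ℝ) : ℝ :=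
  (∫ p in closedBall (0 : ℂ) R, G R ψ p) + 4 * ∫ x in closedBall (0 : ℂ) R, max (φ x - ψ x) 0

/-- `ψ` minimises the functional among the continuous functions `≥ b` on the disc -/
structure IsMin (R : ℝ) (φ b ψ : ℂ → ℝ) : Prop where
  cont : Continuous ψ
  ge : ∀ x ∈ closedBall (0 : ℂ) R, b x ≤ ψ x
  min : ∀ ψ' : ℂ → ℝ, Continuous ψ' → (∀ x ∈ closedBall (0 : ℂ) R, b x ≤ ψ' x) →
    Fn R φ ψ ≤ Fn R φ ψ'

/-- `f` is the gradient of `φ` -/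
def IsPot (φ : ℂ → ℝ) (f : ℂ → ℂ) : Prop := ∀ z, HasFDerivAt φ (innerSL ℝ (f z)) z

/-- the barrier: `b ≤ 0`, `b ≤ -A` on the disc of radius `r₀`, `b = 0` for `|z| ≥ ρ`, and the
Hessian of `b` has norm at most `1` (`g = ∇ b`) -/
structure IsBar (A r₀ ρ : ℝ) (b : ℂ → ℝ) (g : ℂ → ℂ) : Prop where
  pot : IsPot b g
  smooth : ContDiff ℝ 1 g
  nonpos : ∀ z, b z ≤ 0
  low : ∀ z, ‖z‖ ≤ r₀ → b z ≤ -A
  far : ∀ z, ρ ≤ ‖z‖ → b z = 0 ∧ g z = 0
  hess : ∀ z, ‖fderiv ℝ g z‖ ≤ 1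

end Pool.Agent.Helper7.CT
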