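import Pool.Agent.Helper7.CT.Defs

/-!
# CT-F1: potentials

PROOF. `f = f₁ + i f₂`, `hsym` says `∂_x f₂ = ∂_y f₁` (`dz f = ((f₁)_x + (f₂)_y)/2 + i ((f₂)_x - (f₁)_y)/2`). Let `f = 0` for `‖z‖ ≥ M`.
`φ (x + i y) = ∫_{-M}^x f₁ (s + i y) ds`. `φ_x = f₁`; `φ_y = ∫_{-M}^x ∂_y f₁ ds = ∫_{-M}^x ∂_x f₂ ds = f₂` (differentiation under the integral,
`hasFDerivAt_integral_of_dominated_of_fderiv_le` or `intervalIntegral.hasDerivAt_integral_of_dominated_loc_of_deriv_le`). Both partial derivatives are continuous, so `φ` is differentiable with gradient `f`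
(alternative: define `φ z = ∫_0^1 dt (f (t z)) z dt` and compute its derivative, which gives `HasFDerivAt` directly).
Compact support: outside the disc of radius `M` the gradient vanishes and `{‖z‖ > M}` is connected, so `φ` is constant there; subtract the constant. With the formula above: `φ = 0` for `|y| > M` or `x < -M`, and for `x > M` it is
`∫_{-M}^M f₁ (s + iy) ds`, whose derivative in `y` is `f₂ (x + iy) = 0`, so it is zero.
-/

set_option autoImplicit false

open MeasureTheory Metric Set Complex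

namespace Pool.Agent.Helper7.CT

open Pool.Agent.Helper7.BU

/-- a function whose derivative vanishes on an open convex set is constant there -/
private theorem const_on54 {φ : ℂ → ℝ} {f : ℂ → ℂ} (h : IsPot φ f) {s : Set ℂ} (ho : IsOpen s)
    (hc : Convex ℝ s) (h0 : ∀ z ∈ s, f z = 0) {z w : ℂ} (hz : z ∈ s) (hw : w ∈ s) : φ z = φ w := by
  refine ho.is_const_of_fderiv_eq_zero (𝕜 := ℝ) hc.isPreconnected
    (fun y _ => (h y).differentiableAt.differentiableWithinAt) ?_ hz hw
  intro y hy
  rw [(h y).fderiv, h0 y hy, map_zero]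
  rfl

theorem exists_pot {f : ℂ → ℂ} (hf : ContDiff ℝ 1 f) (hs : HasCompactSupport f)
    (hsym : ∀ z, (dz f z).im = 0) : ∃ φ : ℂ → ℝ, HasCompactSupport φ ∧ IsPot φ f := by
  -- a primitive
  have hd : Differentiable ℝ f := hf.differentiable one_ne_zero
  have hω : ∀ a, HasFDerivAt (fun z => innerSL ℝ (f z)) ((innerSL ℝ).comp (fderiv ℝ f a)) a :=
    fun a => ((innerSL ℝ : ℂ →L[ℝ] ℂ →L[ℝ] ℝ).hasFDerivAt).comp a (hd a).hasFDerivAt
  obtain ⟨φ₀, hφ₀⟩ := convex_univ.exists_forall_hasFDerivAt_of_fderiv_symmetric isOpen_univ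
    (ω := fun z => (innerSL ℝ (f z) : ℂ →L[ℝ] ℝ))
    (fun a _ => (hω a).differentiableAt.differentiableWithinAt) (by
      intro a _ x y
      rw [(hω a).fderiv]
      show inner ℝ (fderiv ℝ f a x) y = inner ℝ (fderiv ℝ f a y) x
      set A := fderiv ℝ f a with hA
      have h1 : ∀ z : ℂ, A z = z.re • A 1 + z.im • A I := by
        intro z
        have h2 : z = z.re • (1 : ℂ) + z.im • I := by
          apply Complex.ext <;> simp
        conv_lhs => rw [h2]
        rw [map_add, map_smul, map_smul]
      have h3 : (A 1).im = (A I).re := by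
        have := hsym a
        unfold dz at this
        rw [← hA] at this
        simp only [div_ofNat_im, sub_im, mul_im, I_re, I_im] at this
        linarith
      rw [h1 x, h1 y]
      simp only [Complex.inner, add_re, mul_re, mul_im, conj_re, conj_im, add_im,
        map_add, real_smul, ofReal_re, ofReal_im]
      rw [h3]
      ring)
  have hpot : IsPot φ₀ f := fun z => hφ₀ z (mem_univ z)
  -- the support
  obtain ⟨M, hM⟩ := hs.isCompact.isBounded.subset_closedBall 0
  have hf0 : ∀ z : ℂ, M < ‖z‖ → f z = 0 := by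
    intro z hz
    by_contra hne
    have h1 := hM (subset_tsupport f hne)
    rw [mem_closedBall_zero_iff] at h1
    linarith
  have hre : ∀ z : ℂ, M < z.re → f z = 0 := fun z hz =>
    hf0 z (hz.trans_le ((le_abs_self _).trans (abs_re_le_norm z)))
  have hre' : ∀ z : ℂ, z.re < -M → f z = 0 := fun z hz =>
    hf0 z ((by linarith : M < -z.re).trans_le ((neg_le_abs _).trans (abs_re_le_norm z)))
  have him : ∀ z : ℂ, M < z.im → f z = 0 := fun z hz =>
    hf0 z (hz.trans_le ((le_abs_self _).trans (abs_im_le_norm z)))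
  have him' : ∀ z : ℂ, z.im < -M → f z = 0 := fun z hz =>
    hf0 z ((by linarith : M < -z.im).trans_le ((neg_le_abs _).trans (abs_im_le_norm z)))
  set N := |M| + 1 with hN
  have hN1 : M < N := by have := le_abs_self M; linarith
  have hN2 : -N < -M := by linarith
  have hN3 : 0 < N := by positivity
  set c := φ₀ ⟨N, N⟩ with hc
  have c1 : ∀ z : ℂ, M < z.re → φ₀ z = c := fun z hz =>
    const_on54 hpot (s := {z | M < z.re}) (isOpen_lt continuous_const continuous_re)
      (convex_halfSpace_re_gt M) hre hz hN1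
  have c2 : ∀ z : ℂ, M < z.im → φ₀ z = c := fun z hz =>
    const_on54 hpot (s := {z | M < z.im}) (isOpen_lt continuous_const continuous_im)
      (convex_halfSpace_im_gt M) him hz hN1
  have c3 : ∀ z : ℂ, z.re < -M → φ₀ z = c := fun z hz =>
    (const_on54 hpot (s := {z | z.re < -M}) (isOpen_lt continuous_re continuous_const)
      (convex_halfSpace_re_lt (-M)) hre' (w := ⟨-N, N⟩) hz hN2).trans (c2 _ hN1)
  have c4 : ∀ z : ℂ, z.im < -M → φ₀ z = c := fun z hz =>
    (const_on54 hpot (s := {z | z.im < -M}) (isOpen_lt continuous_im continuous_const)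
      (convex_halfSpace_im_lt (-M)) him' (w := ⟨N, -N⟩) hz hN2).trans (c1 _ hN1)
  refine ⟨fun z => φ₀ z - c, ?_, fun z => (hpot z).sub_const c⟩
  refine HasCompactSupport.intro (isCompact_closedBall (0 : ℂ) (2 * N)) fun z hz => ?_
  rw [mem_closedBall_zero_iff, not_le] at hz
  have h1 := Complex.norm_le_abs_re_add_abs_im z
  have h2 : N < |z.re| ∨ N < |z.im| := by
    by_contra hcon
    push Not at hcon
    linarith [hcon.1, hcon.2]
  show φ₀ z - c = 0
  rw [sub_eq_zero]
  rcases h2 with h2 | h2
  · rcases lt_abs.1 h2 with h3 | h3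
    · exact c1 z (by linarith)
    · exact c3 z (by linarith)
  · rcases lt_abs.1 h2 with h3 | h3
    · exact c2 z (by linarith)
    · exact c4 z (by linarith)

end Pool.Agent.Helper7.CT
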