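import Pool.Agent.Helper7.CT.A2
import Pool.Agent.Helper7.CT.B1
import Pool.Agent.Helper7.CT.B3
import Pool.Agent.Helper7.CT.C2
import Pool.Agent.Helper7.CT.D4
import Pool.Agent.Helper7.CT.F1

/-!
# CT-E1: the main theorem (assembly)

PROOF of `main_pot`. `|φ| < A`, `φ = 0`, `f = 0` for `‖z‖ ≥ r₀`; `exists_bar` gives `ρ, b, g`; `b ≤ φ` everywhere (`b ≤ -A` for `‖z‖ ≤ r₀`, `b ≤ 0 = φ` beyond); enlarge `ρ` so that `ρ ≥ r₀` (`IsBar` is
monotone in `ρ`), `R = ρ + 1`. `exists_min` gives `ψ`. `X` the closed disc, `O = {ψ < φ}`, `C = {φ = ψ}`, `N = {φ < ψ}` in `X`. For `ρ ≤ ‖x‖ ≤ R`: `ψ ≥ b = 0 = φ`, so `O ⊆ ball 0 ρ`.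
Write `s = Re dz f`, `L = LSr |s| ‖db f‖`. `mu_all`: the mass of `O` is `≤ 4 vol O`, of `N` zero; `contact`: the mass of `C` is `≤ ∫_C (L + 1 - 2s)`. The total mass is `vol X`:
`vol X ≤ 4 vol O + ∫_C (L + 1 - 2s)`. `alg1`: `L ≥ -2s - 1` on `O`, `L ≥ 2s - 1` on `N`. `∫_X s = 0` (integral of a divergence with compact support, see `integral_dz`). So
`∫_X L ≥ ∫_O (-2s-1) + vol X - 4 vol O - ∫_C (1 - 2s) + ∫_N (2s - 1) = -4 ∫_O s - 4 vol O = -4 ∫_O (s + 1) ≥ 0` by `lap_O` (`hmx` from `mx_all`, `hmu` from `mu_ge`).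
Outside of `X` everything is zero.
-/

set_option autoImplicit false

open MeasureTheory Metric Set Complex

namespace Pool.Agent.Helper7.CT

open Pool.Agent.Helper7.BU

private lemma int_fderiv_zero {f : ℂ → ℂ} (hf : ContDiff ℝ 1 f) (hs : HasCompactSupport f) (v : ℂ) :
    ∫ z, fderiv ℝ f z v = 0 := by
  have h1 : Continuous fun z => fderiv ℝ f z v := (hf.continuous_fderiv one_ne_zero).clm_apply continuous_const
  have i1 : Integrable fun z => fderiv ℝ f z v := h1.integrable_of_hasCompactSupport (hs.fderiv_apply ℝ v)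
  have h := integral_mul_fderiv_eq_neg_fderiv_mul_of_integrable (μ := (volume : Measure ℂ))
    (f := fun _ : ℂ => (1 : ℂ)) (g := f) (v := v) (by simp) (by simpa using i1)
    (by simpa using hf.continuous.integrable_of_hasCompactSupport hs)
    (fun z _ => differentiableAt_const _) (fun z _ => hf.differentiable one_ne_zero z)
  simpa using h

theorem integral_dz {f : ℂ → ℂ} (hf : ContDiff ℝ 1 f) (hs : HasCompactSupport f) :
    ∫ z, dz f z = 0 := by
  have h1 : ∀ v : ℂ, Integrable fun z => fderiv ℝ f z v := fun v =>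
    ((hf.continuous_fderiv one_ne_zero).clm_apply continuous_const).integrable_of_hasCompactSupport
      (hs.fderiv_apply ℝ v)
  unfold dz
  rw [integral_div, integral_sub (h1 1) ((h1 I).const_mul I), integral_const_mul, int_fderiv_zero hf hs,
    int_fderiv_zero hf hs]
  simp

private lemma split3 {X O C N : Set ℂ} (hC : MeasurableSet C) (hN : MeasurableSet N)
    (hX : X = O ∪ (C ∪ N)) (h1 : Disjoint O (C ∪ N)) (h2 : Disjoint C N) {g : ℂ → ℝ} (hg : IntegrableOn g X) :
    ∫ x in X, g x = (∫ x in O, g x) + ((∫ x in C, g x) + ∫ x in N, g x) := by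
  subst hX
  have hCN : IntegrableOn g (C ∪ N) := hg.mono_set subset_union_right
  rw [setIntegral_union h1 (hC.union hN) (hg.mono_set subset_union_left) hCN,
    setIntegral_union h2 hN (hCN.mono_set subset_union_left) (hCN.mono_set subset_union_right)]

theorem main_pot {φ : ℂ → ℝ} {f : ℂ → ℂ} (hpot : IsPot φ f) (hf : ContDiff ℝ 1 f)
    (hφs : HasCompactSupport φ) (hs : HasCompactSupport f) (hsym : ∀ z, (dz f z).im = 0) :
    0 ≤ ∫ z, LSr |(dz f z).re| ‖db f z‖ := by
  have hφ : Continuous φ := continuous_iff_continuousAt.2 fun z => (hpot z).continuousAt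
  obtain ⟨M₁, hM₁0, hM₁⟩ := exists_radius hs
  obtain ⟨M₂, hM₂⟩ := hφs.isBounded.subset_closedBall (0 : ℂ)
  obtain ⟨A₀, hA₀⟩ := hφs.exists_bound_of_continuous hφ
  set r₀ : ℝ := max M₁ (M₂ + 1) with hr₀
  have hr₀0 : 0 < r₀ := lt_of_lt_of_le hM₁0 (le_max_left _ _)
  set A : ℝ := |A₀| + 1 with hA
  have hA0 : 0 < A := by positivity
  have hφA : ∀ x, -A ≤ φ x := by
    intro x
    have h1 := hA₀ x
    rw [Real.norm_eq_abs] at h1
    have h2 := (abs_le.1 h1).1
    have h3 := le_abs_self A₀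
    linarith
  have hφ0 : ∀ x, r₀ ≤ ‖x‖ → φ x = 0 := by
    intro x hx
    by_contra h
    have h1 : x ∈ tsupport φ := subset_tsupport _ h
    have h2 := hM₂ h1
    rw [mem_closedBall_zero_iff] at h2
    have h3 := (le_max_right M₁ (M₂ + 1)).trans hx
    linarith
  have hf0 : ∀ x, r₀ ≤ ‖x‖ → fderiv ℝ f x = 0 := fun x hx => (hM₁ x ((le_max_left _ _).trans hx)).2
  obtain ⟨ρ', b, g, hρ', hbar'⟩ := exists_bar hA0 hr₀0
  set ρ : ℝ := max ρ' r₀ with hρdef
  have hρ0 : 0 < ρ := lt_of_lt_of_le hρ' (le_max_left _ _)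
  have hbar : IsBar A r₀ ρ b g :=
    ⟨hbar'.pot, hbar'.smooth, hbar'.nonpos, hbar'.low, fun z hz => hbar'.far z ((le_max_left _ _).trans hz),
      hbar'.hess⟩
  have hb : Continuous b := continuous_iff_continuousAt.2 fun z => (hbar.pot z).continuousAt
  set R : ℝ := ρ + 1 with hRdef
  have hR0 : 0 < R := by linarith
  have hρR : ρ < R := by linarith
  obtain ⟨ψ, h⟩ := exists_min hR0 hφ hb
  have hψ := h.cont
  have hbφ : ∀ x, b x ≤ φ x := by
    intro x
    rcases le_total ‖x‖ r₀ with hx | hx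
    · exact (hbar.low x hx).trans (hφA x)
    · rw [hφ0 x hx]
      exact hbar.nonpos x
  have hout : ∀ x, ρ ≤ ‖x‖ → ‖x‖ ≤ R → φ x ≤ ψ x := by
    intro x hx1 hx2
    rw [hφ0 x ((le_max_right _ _).trans hx1), ← (hbar.far x hx1).1]
    exact h.ge x (by rwa [mem_closedBall_zero_iff])
  set X : Set ℂ := closedBall (0 : ℂ) R with hX
  set O : Set ℂ := {x ∈ closedBall (0 : ℂ) R | ψ x < φ x} with hO
  set C : Set ℂ := {x ∈ closedBall (0 : ℂ) R | φ x = ψ x} with hC
  set N : Set ℂ := {x ∈ closedBall (0 : ℂ) R | φ x < ψ x} with hN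
  have hXm : MeasurableSet X := measurableSet_closedBall
  have hOm : MeasurableSet O := hXm.inter (isOpen_lt hψ hφ).measurableSet
  have hCm : MeasurableSet C := hXm.inter (isClosed_eq hφ hψ).measurableSet
  have hNm : MeasurableSet N := hXm.inter (isOpen_lt hφ hψ).measurableSet
  have hXfin : volume X ≠ ⊤ := measure_closedBall_lt_top.ne
  have hOX : O ⊆ X := fun x hx => hx.1
  have hCX : C ⊆ X := fun x hx => hx.1
  have hNX : N ⊆ X := fun x hx => hx.1
  have hXu : X = O ∪ (C ∪ N) := by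
    apply Subset.antisymm
    · intro x hx
      rcases lt_trichotomy (φ x) (ψ x) with h1 | h1 | h1
      · exact Or.inr (Or.inr ⟨hx, h1⟩)
      · exact Or.inr (Or.inl ⟨hx, h1⟩)
      · exact Or.inl ⟨hx, h1⟩
    · exact union_subset hOX (union_subset hCX hNX)
  have hd1 : Disjoint O (C ∪ N) := by
    rw [Set.disjoint_left]
    rintro x ⟨-, h1⟩ (⟨-, h2⟩ | ⟨-, h2⟩)
    · exact absurd h2 h1.ne'
    · exact absurd h2 (not_lt.2 h1.le)
  have hd2 : Disjoint C N := by
    rw [Set.disjoint_left]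
    rintro x ⟨-, h1⟩ ⟨-, h2⟩
    exact absurd h1 h2.ne
  have hOe : O = {x ∈ ball (0 : ℂ) ρ | ψ x < φ x} := by
    ext x
    constructor
    · rintro ⟨h1, h2⟩
      refine ⟨?_, h2⟩
      rw [mem_ball_zero_iff]
      rw [mem_closedBall_zero_iff] at h1
      by_contra h3
      exact absurd h2 (not_lt.2 (hout x (not_lt.1 h3) h1))
    · rintro ⟨h1, h2⟩
      exact ⟨ball_subset_closedBall (ball_subset_ball hρR.le h1), h2⟩
  -- masses
  have hmuX : ∀ E : Set ℂ, MeasurableSet E → E ⊆ closedBall (0 : ℂ) R →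
      volume {p ∈ closedBall (0 : ℂ) R | xp R ψ p ∈ E} ≤ 4 * volume (E ∩ {x | ψ x ≤ φ x}) :=
    fun E hE hsub => mu_all hρ0 hρR hφ hbar hbφ h hE hsub
  have hac : ∀ E : Set ℂ, MeasurableSet E → E ⊆ closedBall (0 : ℂ) R →
      volume {p ∈ closedBall (0 : ℂ) R | xp R ψ p ∈ E} ≤ 4 * volume E := by
    intro E hE hsub
    exact (hmuX E hE hsub).trans (mul_le_mul_right (measure_mono inter_subset_left) 4)
  have hmO : volume {p ∈ closedBall (0 : ℂ) R | xp R ψ p ∈ O} ≤ 4 * volume O := hac O hOm hOX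
  have hmN : volume {p ∈ closedBall (0 : ℂ) R | xp R ψ p ∈ N} ≤ 0 := by
    have h1 := hmuX N hNm hNX
    have h2 : N ∩ {x | ψ x ≤ φ x} = ∅ := by
      ext x
      simp only [mem_inter_iff, mem_empty_iff_false, iff_false, not_and]
      rintro ⟨-, h3⟩ h4
      exact absurd h4 (not_le.2 h3)
    rw [h2, measure_empty, mul_zero] at h1
    exact h1
  have hmC := contact hR0 hpot hf hsym hψ hac hCm (Subset.refl C)
  set s : ℂ → ℝ := fun x => (dz f x).re with hsdef
  set L : ℂ → ℝ := fun x => LSr |(dz f x).re| ‖db f x‖ with hLdef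
  have hsc : Continuous s := Complex.continuous_re.comp (dz_continuous hf)
  have hLc : Continuous L := by
    have h1 : L = fun x => LS ((s x : ℝ) : ℂ) (db f x) := by
      funext x
      rw [LS_eq, Complex.norm_real, Real.norm_eq_abs]
    rw [h1]
    exact LS_continuous.comp ((Complex.continuous_ofReal.comp hsc).prodMk (db_continuous hf))
  have hint : ∀ {g : ℂ → ℝ}, Continuous g → IntegrableOn g X := fun {g} hg =>
    hg.continuousOn.integrableOn_compact (isCompact_closedBall _ _)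
  have hL0 : ∀ x, 0 ≤ L x + 1 - 2 * s x := by
    intro x
    have h1 := alg1 (s x) ‖db f x‖ (norm_nonneg _)
    have h2 := le_abs_self (s x)
    simp only [hLdef, hsdef] at h1 h2 ⊢
    linarith
  have htot : volume X ≤ 4 * volume O + ∫⁻ x in C, ENNReal.ofReal (L x + 1 - 2 * s x) := by
    have h1 : volume X ≤ volume ({p ∈ closedBall (0 : ℂ) R | xp R ψ p ∈ O} ∪
        ({p ∈ closedBall (0 : ℂ) R | xp R ψ p ∈ C} ∪ {p ∈ closedBall (0 : ℂ) R | xp R ψ p ∈ N})) := by
      apply measure_mono_ae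
      filter_upwards [ae_isMx hR0.le hψ] with p hp hpX
      have h2 : xp R ψ p ∈ O ∪ (C ∪ N) := by
        rw [← hXu]
        exact hp.1.1
      rcases h2 with h2 | h2 | h2
      · exact Or.inl ⟨hpX, h2⟩
      · exact Or.inr (Or.inl ⟨hpX, h2⟩)
      · exact Or.inr (Or.inr ⟨hpX, h2⟩)
    refine h1.trans ((measure_union_le _ _).trans ?_)
    apply add_le_add hmO
    refine (measure_union_le _ _).trans ?_
    calc _ ≤ (∫⁻ x in C, ENNReal.ofReal (L x + 1 - 2 * s x)) + 0 := add_le_add hmC hmN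
      _ = _ := add_zero _
  have hrealtot : (volume X).toReal ≤ 4 * (volume O).toReal + ∫ x in C, (L x + 1 - 2 * s x) := by
    have hi : IntegrableOn (fun x => L x + 1 - 2 * s x) C := (hint (by fun_prop)).mono_set hCX
    rw [← ofReal_integral_eq_lintegral_ofReal hi (ae_of_all _ fun x => hL0 x)] at htot
    have hOfin : volume O ≠ ⊤ := ((measure_mono hOX).trans_lt measure_closedBall_lt_top).ne
    have h3 : (volume X).toReal ≤ (4 * volume O + ENNReal.ofReal (∫ x in C, (L x + 1 - 2 * s x))).toReal :=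
      ENNReal.toReal_mono (ENNReal.add_ne_top.2 ⟨ENNReal.mul_ne_top (by norm_num) hOfin, ENNReal.ofReal_ne_top⟩) htot
    rw [ENNReal.toReal_add (ENNReal.mul_ne_top (by norm_num) hOfin) ENNReal.ofReal_ne_top, ENNReal.toReal_mul,
      ENNReal.toReal_ofReal (integral_nonneg fun x => hL0 x)] at h3
    simpa using h3
  have hlap : ∫ x in O, (s x + 1) ≤ 0 := by
    rw [hOe]
    apply lap_O hρ0 (le_refl R) hpot hf hs hψ hout
    · intro x hx hlt
      obtain ⟨p, -, hp⟩ := mx_all hR0.le hφ h (x := x) (by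
        rw [mem_ball_zero_iff] at hx
        linarith) hlt
      exact ⟨p, hp⟩
    · intro W hW hWs
      apply mu_ge hR0.le hφ h hW
      rw [← hOe] at hWs
      exact hWs
  have hone : ∀ E : Set ℂ, ∫ _ in E, (1 : ℝ) = (volume E).toReal := by
    intro E
    rw [setIntegral_const, smul_eq_mul, mul_one, measureReal_def]
  have hsX : ∫ x in X, s x = 0 := by
    have h1 : ∫ x in X, s x = ∫ x, s x := by
      apply setIntegral_eq_integral_of_forall_compl_eq_zero
      intro x hx
      have h2 : r₀ ≤ ‖x‖ := by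
        rw [hX, mem_closedBall_zero_iff, not_le] at hx
        have := le_max_right ρ' r₀
        linarith
      simp only [hsdef, dz, hf0 x h2]
      simp
    rw [h1]
    have h2 : Integrable (dz f) := by
      apply (dz_continuous hf).integrable_of_hasCompactSupport
      apply HasCompactSupport.intro (isCompact_closedBall (0 : ℂ) r₀)
      intro x hx
      rw [mem_closedBall_zero_iff, not_le] at hx
      simp only [dz, hf0 x hx.le]
      simp
    have h3 := integral_re h2
    have h4 : (∫ x, s x) = (∫ x, dz f x).re := h3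
    rw [h4, integral_dz hf hs]
    simp
  have hLX : ∫ z, L z = ∫ x in X, L x := by
    symm
    apply setIntegral_eq_integral_of_forall_compl_eq_zero
    intro x hx
    have h2 : r₀ ≤ ‖x‖ := by
      rw [hX, mem_closedBall_zero_iff, not_le] at hx
      have := le_max_right ρ' r₀
      linarith
    simp only [hLdef, dz, db, hf0 x h2, LSr]
    simp
  show 0 ≤ ∫ z, L z
  rw [hLX]
  have e1 := split3 hCm hNm hXu hd1 hd2 (hint hLc)
  have e2 := split3 hCm hNm hXu hd1 hd2 (hint hsc)
  have e3 := split3 hCm hNm hXu hd1 hd2 (hint (g := fun _ => (1 : ℝ)) continuous_const)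
  rw [hone, hone, hone, hone] at e3
  rw [hsX] at e2
  have iO : ∀ {g : ℂ → ℝ}, Continuous g → IntegrableOn g O := fun {g} hg => (hint hg).mono_set hOX
  have iC : ∀ {g : ℂ → ℝ}, Continuous g → IntegrableOn g C := fun {g} hg => (hint hg).mono_set hCX
  have iN : ∀ {g : ℂ → ℝ}, Continuous g → IntegrableOn g N := fun {g} hg => (hint hg).mono_set hNX
  have hLO : ∫ x in O, (-2 * s x - 1) ≤ ∫ x in O, L x := by
    apply setIntegral_mono_on (iO (by fun_prop)) (iO hLc) hOm
    intro x _
    have h1 := alg1 (s x) ‖db f x‖ (norm_nonneg _)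
    have h2 := neg_abs_le (s x)
    simp only [hLdef, hsdef] at h1 h2 ⊢
    linarith
  have hLN : ∫ x in N, (2 * s x - 1) ≤ ∫ x in N, L x := by
    apply setIntegral_mono_on (iN (by fun_prop)) (iN hLc) hNm
    intro x _
    have := hL0 x
    linarith
  have hLO' : ∫ x in O, (-2 * s x - 1) = -2 * (∫ x in O, s x) - (volume O).toReal := by
    rw [integral_sub (iO (by fun_prop)) (iO continuous_const), integral_const_mul, hone]
  have hLN' : ∫ x in N, (2 * s x - 1) = 2 * (∫ x in N, s x) - (volume N).toReal := by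
    rw [integral_sub (iN (by fun_prop)) (iN continuous_const), integral_const_mul, hone]
  have hLC : ∫ x in C, (L x + 1 - 2 * s x) = (∫ x in C, L x) + (volume C).toReal - 2 * ∫ x in C, s x := by
    rw [integral_sub (iC (by fun_prop)) (iC (by fun_prop)), integral_add (iC hLc) (iC continuous_const),
      integral_const_mul, hone]
  have hlap' : (∫ x in O, s x) + (volume O).toReal ≤ 0 := by
    rw [integral_add (iO hsc) (iO continuous_const), hone] at hlap
    exact hlap
  rw [e1]
  linarith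

/-- **The Burkholder–Šverák inequality for gradient maps** -/
theorem main {f : ℂ → ℂ} (hf : ContDiff ℝ 1 f) (hs : HasCompactSupport f)
    (hsym : ∀ z, (dz f z).im = 0) : Sv f := by
  obtain ⟨φ, hφs, hpot⟩ := exists_pot hf hs hsym
  have h := main_pot hpot hf hφs hs hsym
  have e : ∀ z, ‖dz f z‖ = |(dz f z).re| := fun z => by
    have h1 : dz f z = (((dz f z).re : ℝ) : ℂ) := Complex.ext (by simp) (by simp [hsym z])
    rw [h1, Complex.norm_real, Real.norm_eq_abs]
    simp
  unfold Sv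
  simp only [LS_eq, e]
  exact h

end Pool.Agent.Helper7.CT
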