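import Pool.Agent.Helper7.CT.Defs
import Mathlib.MeasureTheory.Integral.CurveIntegral.Poincare

/-!
# CT-F2: potentials without compact support (Poincaré lemma)

PROOF. `φ z = ∫_0^1 dt (f (t z)) z dt`. `hsym` says that `fderiv ℝ f z` is symmetric: `dt (A v) w = dt (A w) v` (`dz` real: `A v = dz v + db v̄` by `BU.fderiv_eq`). Differentiate under the integral
(`hasFDerivAt_integral_of_dominated_of_fderiv_le` on a ball, `f` is `C¹`): `fderiv φ z v = ∫_0^1 (dt (t A_{tz} v) z + dt (f (tz)) v) dt = ∫_0^1 (t dt (A_{tz} z) v + dt (f (tz)) v) dt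
= ∫_0^1 (d/dt) (t dt (f (t z)) v) dt = dt (f z) v`.
(`F1` follows: outside a large disc the gradient vanishes and the complement of a closed disc in `ℂ` is connected, so `φ` is constant there.)
-/

set_option autoImplicit false

open MeasureTheory Metric Set Complex

namespace Pool.Agent.Helper7.CT

open Pool.Agent.Helper7.BU

/-- the inner product as a real linear map -/
noncomputable def f2_inn : ℂ →L[ℝ] (ℂ →L[ℝ] ℝ) where
  toFun v := innerSL ℝ v
  map_add' v w := map_add _ v w
  map_smul' c v := by
    ext w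
    simp
    ring
  cont := (innerSL ℝ (E := ℂ)).continuous

lemma f2_inn_apply (v w : ℂ) : f2_inn v w = inner ℝ v w := rfl

theorem exists_pot' {f : ℂ → ℂ} (hf : ContDiff ℝ 1 f) (hsym : ∀ z, (dz f z).im = 0) :
    ∃ φ : ℂ → ℝ, IsPot φ f := by
  have hfd : Differentiable ℝ f := hf.differentiable one_ne_zero
  have hω : Differentiable ℝ (fun z => f2_inn (f z)) := f2_inn.differentiable.comp hfd
  have hder : ∀ a x y : ℂ, fderiv ℝ (fun z => f2_inn (f z)) a x y =
      inner ℝ (fderiv ℝ f a x) y := by
    intro a x y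
    have h1 : HasFDerivAt (fun z => f2_inn (f z)) (f2_inn.comp (fderiv ℝ f a)) a :=
      f2_inn.hasFDerivAt.comp a (hfd a).hasFDerivAt
    rw [h1.fderiv]
    rfl
  obtain ⟨φ, hφ⟩ := convex_univ.exists_forall_hasFDerivAt_of_fderiv_symmetric (E := ℂ)
    (ω := fun z => f2_inn (f z)) isOpen_univ hω.differentiableOn (fun a _ x y => by
      rw [hder, hder, Complex.inner, Complex.inner, fderiv_eq, fderiv_eq]
      have h := hsym a
      set α := dz f a
      set β := db f a
      simp only [map_add, map_mul, Complex.conj_conj, Complex.mul_re, Complex.add_re,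
        Complex.add_im, Complex.mul_im, Complex.conj_re, Complex.conj_im, h]
      ring)
  exact ⟨φ, fun z => hφ z (mem_univ z)⟩

end Pool.Agent.Helper7.CT
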