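import Pool.Agent.Helper7.CT.E1

/-!
# CT-P1: the Burkholder functional, compactly supported `C¹` maps

From `main` for `f / t` and the layer cake formula (`BU.burk_lt`, `BU.burk_gt`, `BU.burk_two`).
-/

set_option autoImplicit false

open MeasureTheory Metric Set Complex

namespace Pool.Agent.Helper7.CT

open Pool.Agent.Helper7.BU

theorem plane_le_two {p : ℝ} (hp : 1 < p) (hp2 : p ≤ 2) {f : ℂ → ℂ} (hf : ContDiff ℝ 1 f)
    (hs : HasCompactSupport f) (hsym : ∀ z, (dz f z).im = 0) : 0 ≤ ∫ z, BF p (dz f z) (db f z) := by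
  rcases hp2.lt_or_eq with h | h
  · refine burk_lt hf hs hp h fun t ht => sv_scale hf ht ?_
    refine main (cd_scale hf _) (cs_scale hs _) fun z => ?_
    rw [dz_scale hf, im_ofReal_mul, hsym, mul_zero]
  · subst h
    exact (burk_two hf hs).ge

theorem plane_ge_two {p : ℝ} (hp : 2 ≤ p) {f : ℂ → ℂ} (hf : ContDiff ℝ 1 f)
    (hs : HasCompactSupport f) (hsym : ∀ z, (db f z).im = 0) : 0 ≤ ∫ z, BF p (dz f z) (db f z) := by
  rcases hp.lt_or_eq with h | h
  · refine burk_gt hf hs h fun t ht => sv_cj hf ht ?_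
    refine main (cd_scale (cd_cj hf) _) (cs_scale (cs_cj hs) _) fun z => ?_
    rw [dz_scale (cd_cj hf), dz_cj hf, im_ofReal_mul, conj_im, hsym, neg_zero, mul_zero]
  · subst h
    exact (burk_two hf hs).ge

end Pool.Agent.Helper7.CT
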