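import Pool.Agent.Helper7.CT.E1
import Pool.Agent.Helper7.CT.F2
import Pool.Agent.Helper7.CT.Cut

/-!
# CT-T1: the torus, `C¹` maps

PROOF. `φ` a potential of `f` (`exists_pot'`), `|φ z - φ 0| ≤ M ‖z‖`, `‖f‖, ‖fderiv f‖ ≤ M` (periodic). Let `0 < δ < 1`, `χ` a smooth function on `ℂ`, `χ = 1` near the unit square, `χ = 0` outside
`[-δ, 1+δ]²`, `0 ≤ χ ≤ 1` (products of `Real.smoothTransition`), `χ_N z = χ (z/N)`, `f_N = ∇ (χ_N (φ - φ 0))` (`cut`): `C¹`, compact support, `dz f_N` real, so `main` gives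
`0 ≤ ∫ LS (dz f_N) (db f_N)`. On the square `[0,N]²` the derivatives of `f_N` and `f` coincide. Elsewhere `‖fderiv f_N‖ ≤ 2 M + 1` for large `N`, and `LS z w ≤ 1 + 2 ‖z‖`, so with `c = 4M + 3`
`0 ≤ N² ∫_Q (LS (dz f) (db f) - c) + c (1 + 2δ)² N²` (periodicity: the integral over `[0,N]²` is `N²` times the one over the unit square); divide by `N²`, `δ → 0`.
-/

set_option autoImplicit false

open MeasureTheory Metric Set Complex

namespace Pool.Agent.Helper7.CT

open Pool.Agent.Helper7.BU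

/-- the unit square -/
def Qs : Set ℂ := {z | z.re ∈ Icc (0 : ℝ) 1 ∧ z.im ∈ Icc (0 : ℝ) 1}

/-- a square -/
private def Sq (a b : ℝ) : Set ℂ := {z | z.re ∈ Icc a b ∧ z.im ∈ Icc a b}

private lemma Sq_closed (a b : ℝ) : IsClosed (Sq a b) := by
  have h1 : IsClosed {z : ℂ | z.re ∈ Icc a b} := isClosed_Icc.preimage Complex.continuous_re
  have h2 : IsClosed {z : ℂ | z.im ∈ Icc a b} := isClosed_Icc.preimage Complex.continuous_im
  exact h1.inter h2

private lemma Sq_norm {a b c : ℝ} (ha : -c ≤ a) (hb : b ≤ c) {z : ℂ} (hz : z ∈ Sq a b) :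
    ‖z‖ ≤ 2 * c := by
  obtain ⟨⟨h1, h2⟩, h3, h4⟩ := hz
  have h5 : |z.re| ≤ c := abs_le.2 ⟨by linarith, by linarith⟩
  have h6 : |z.im| ≤ c := abs_le.2 ⟨by linarith, by linarith⟩
  linarith [Complex.norm_le_abs_re_add_abs_im z]

private lemma Sq_compact (a b : ℝ) : IsCompact (Sq a b) := by
  apply Metric.isCompact_of_isClosed_isBounded (Sq_closed a b)
  refine (isBounded_closedBall (x := (0 : ℂ)) (r := 2 * max (-a) b)).subset fun z hz => ?_
  rw [mem_closedBall, dist_zero_right]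
  exact Sq_norm (by linarith [le_max_left (-a) b]) (le_max_right (-a) b) hz

private lemma sq_int {F : ℂ → ℝ} (hF : Continuous F) {a b : ℝ} (hab : a ≤ b) :
    ∫ z in Sq a b, F z = ∫ x in a..b, ∫ y in a..b, F (x + y * I) := by
  have h1 := Complex.volume_preserving_equiv_real_prod.setIntegral_preimage_emb
    Complex.measurableEquivRealProd.measurableEmbedding
    (fun p : ℝ × ℝ => F (p.1 + p.2 * I)) (Icc a b ×ˢ Icc a b)
  have e1 : (Complex.measurableEquivRealProd ⁻¹' (Icc a b ×ˢ Icc a b)) = Sq a b := by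
    ext z
    simp only [Sq, Complex.measurableEquivRealProd_apply, mem_preimage, mem_prod]
    rfl
  have e2 : ∀ z : ℂ, F ((Complex.measurableEquivRealProd z).1 +
      (Complex.measurableEquivRealProd z).2 * I) = F z := by
    intro z
    rw [Complex.measurableEquivRealProd_apply, Complex.re_add_im]
  rw [e1] at h1
  simp only [e2] at h1
  rw [h1, Measure.volume_eq_prod, setIntegral_prod]
  · rw [intervalIntegral.integral_of_le hab, integral_Icc_eq_integral_Ioc]
    apply setIntegral_congr_fun measurableSet_Ioc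
    intro x _
    simp only
    rw [intervalIntegral.integral_of_le hab, integral_Icc_eq_integral_Ioc]
  · have hc : Continuous fun p : ℝ × ℝ => F (p.1 + p.2 * I) := hF.comp (by fun_prop)
    exact hc.continuousOn.integrableOn_compact (isCompact_Icc.prod isCompact_Icc)

private lemma per_int {g : ℝ → ℝ} (hg : Continuous g) (h1 : ∀ x, g (x + 1) = g x) (n : ℕ) :
    ∫ x in (0 : ℝ)..n, g x = n * ∫ x in (0 : ℝ)..1, g x := by
  have h2 := Function.Periodic.intervalIntegral_add_zsmul_eq (f := g) (T := 1) h1 (n : ℤ) 0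
    (fun a b => hg.intervalIntegrable a b)
  simpa using h2

private lemma per_sq {F : ℂ → ℝ} (hF : Continuous F) (h1 : ∀ z, F (z + 1) = F z)
    (h2 : ∀ z, F (z + I) = F z) (n : ℕ) :
    ∫ z in Sq 0 n, F z = (n : ℝ) ^ 2 * ∫ z in Sq 0 1, F z := by
  rw [sq_int hF (Nat.cast_nonneg n), sq_int hF zero_le_one]
  have h3 : ∀ x : ℝ, ∫ y in (0 : ℝ)..n, F (x + y * I) = n * ∫ y in (0 : ℝ)..1, F (x + y * I) := by
    intro x
    apply per_int (g := fun y : ℝ => F (x + y * I)) (hF.comp (by fun_prop))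
    intro y
    have e : (x : ℂ) + ((y + 1 : ℝ) : ℂ) * I = x + y * I + I := by push_cast; ring
    rw [e, h2]
  simp only [h3]
  rw [intervalIntegral.integral_const_mul]
  have h4 : ∫ x in (0 : ℝ)..n, ∫ y in (0 : ℝ)..1, F (x + y * I) =
      n * ∫ x in (0 : ℝ)..1, ∫ y in (0 : ℝ)..1, F (x + y * I) := by
    apply per_int (g := fun x : ℝ => ∫ y in (0 : ℝ)..1, F (x + y * I))
    · apply intervalIntegral.continuous_parametric_intervalIntegral_of_continuous'
      exact hF.comp (by fun_prop)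
    · intro x
      congr 1
      ext y
      have e : ((x + 1 : ℝ) : ℂ) + (y : ℂ) * I = x + y * I + 1 := by push_cast; ring
      rw [e, h1]
  rw [h4]
  ring

private lemma bdd_of_periodic {E : Type*} [NormedAddCommGroup E] {F : ℂ → E} (hF : Continuous F)
    (h1 : ∀ z, F (z + 1) = F z) (h2 : ∀ z, F (z + I) = F z) : ∃ M, 0 ≤ M ∧ ∀ z, ‖F z‖ ≤ M := by
  obtain ⟨M, hM⟩ := (isCompact_closedBall (0 : ℂ) 2).exists_bound_of_continuousOn hF.continuousOn
  refine ⟨M, (norm_nonneg _).trans (hM 0 (by simp)), fun z => ?_⟩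
  have h3 : Function.Periodic F 1 := h1
  have h4 : Function.Periodic F I := h2
  have e : F z = F (z - (⌊z.re⌋ : ℤ) • (1 : ℂ) - (⌊z.im⌋ : ℤ) • I) := by
    rw [(h4.zsmul ⌊z.im⌋).sub_eq, (h3.zsmul ⌊z.re⌋).sub_eq]
  rw [e]
  apply hM
  rw [mem_closedBall, dist_zero_right]
  have h5 := Complex.norm_le_abs_re_add_abs_im (z - (⌊z.re⌋ : ℤ) • (1 : ℂ) - (⌊z.im⌋ : ℤ) • I)
  have e1 : (z - (⌊z.re⌋ : ℤ) • (1 : ℂ) - (⌊z.im⌋ : ℤ) • I).re = Int.fract z.re := by
    simp [Int.self_sub_floor]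
  have e2 : (z - (⌊z.re⌋ : ℤ) • (1 : ℂ) - (⌊z.im⌋ : ℤ) • I).im = Int.fract z.im := by
    simp [Int.self_sub_floor]
  rw [e1, e2, abs_of_nonneg (Int.fract_nonneg _), abs_of_nonneg (Int.fract_nonneg _)] at h5
  linarith [Int.fract_lt_one z.re, Int.fract_lt_one z.im]

/-- the one dimensional cut-off -/
private noncomputable def th (δ x : ℝ) : ℝ :=
  Real.smoothTransition (2 * (x + δ) / δ) * Real.smoothTransition (2 * (1 + δ - x) / δ)

private lemma th_nonneg (δ x : ℝ) : 0 ≤ th δ x :=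
  mul_nonneg (Real.smoothTransition.nonneg _) (Real.smoothTransition.nonneg _)

private lemma th_le_one (δ x : ℝ) : th δ x ≤ 1 :=
  mul_le_one₀ (Real.smoothTransition.le_one _) (Real.smoothTransition.nonneg _)
    (Real.smoothTransition.le_one _)

private lemma th_one {δ : ℝ} (hδ : 0 < δ) {x : ℝ} (h1 : -(δ / 2) ≤ x) (h2 : x ≤ 1 + δ / 2) :
    th δ x = 1 := by
  unfold th
  rw [Real.smoothTransition.one_of_one_le, Real.smoothTransition.one_of_one_le, one_mul]
  · rw [le_div_iff₀ hδ]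
    linarith
  · rw [le_div_iff₀ hδ]
    linarith

private lemma th_zero {δ : ℝ} (hδ : 0 < δ) {x : ℝ} (h : x ≤ -δ ∨ 1 + δ ≤ x) : th δ x = 0 := by
  unfold th
  rcases h with h | h
  · rw [Real.smoothTransition.zero_of_nonpos, zero_mul]
    apply div_nonpos_of_nonpos_of_nonneg _ hδ.le
    linarith
  · rw [mul_comm, Real.smoothTransition.zero_of_nonpos, zero_mul]
    apply div_nonpos_of_nonpos_of_nonneg _ hδ.le
    linarith

private lemma th_contDiff (δ : ℝ) : ContDiff ℝ 2 (th δ) := by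
  unfold th
  have h1 : ContDiff ℝ 2 Real.smoothTransition := Real.smoothTransition.contDiff (n := 2)
  have h2 : ContDiff ℝ 2 fun x : ℝ => 2 * (x + δ) / δ := by fun_prop
  have h3 : ContDiff ℝ 2 fun x : ℝ => 2 * (1 + δ - x) / δ := by fun_prop
  exact (h1.comp h2).mul (h1.comp h3)

private lemma exists_chi {δ : ℝ} (hδ : 0 < δ) (hδ1 : δ < 1) : ∃ (χ : ℂ → ℝ) (g : ℂ → ℂ) (C : ℝ),
    IsPot χ g ∧ ContDiff ℝ 1 g ∧ 0 ≤ C ∧ (∀ z, |χ z - 1| ≤ 1) ∧
    (∀ z ∈ Sq (-(δ / 2)) (1 + δ / 2), χ z = 1) ∧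
    (∀ z, z ∉ Sq (-δ) (1 + δ) → χ z = 0) ∧ (∀ z, ‖g z‖ ≤ C) ∧ ∀ z, ‖fderiv ℝ g z‖ ≤ C := by
  have h1 : ContDiff ℝ 2 fun z : ℂ => th δ z.re * th δ z.im :=
    ((th_contDiff δ).comp (reCLM.contDiff)).mul ((th_contDiff δ).comp (imCLM.contDiff))
  obtain ⟨g, hg, hg1⟩ := exists_grad h1
  have hz : ∀ z, z ∉ Sq (-δ) (1 + δ) → th δ z.re * th δ z.im = 0 := by
    intro z hz
    by_cases h : z.re ∈ Icc (-δ) (1 + δ)
    · have h' : z.im ∉ Icc (-δ) (1 + δ) := fun h' => hz ⟨h, h'⟩
      rw [mem_Icc, not_and_or, not_le, not_le] at h'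
      rw [th_zero hδ (h'.imp le_of_lt le_of_lt), mul_zero]
    · rw [mem_Icc, not_and_or, not_le, not_le] at h
      rw [th_zero hδ (h.imp le_of_lt le_of_lt), zero_mul]
  have hgz : ∀ z, z ∉ Sq (-δ) (1 + δ) → g z = 0 := by
    intro z hz'
    apply hg.zero_of_eventually (c := 0)
    filter_upwards [(Sq_closed (-δ) (1 + δ)).isOpen_compl.mem_nhds hz'] with w hw
    exact hz w hw
  have hgs : HasCompactSupport g := HasCompactSupport.intro (Sq_compact (-δ) (1 + δ)) hgz
  obtain ⟨C1, hC1⟩ := hgs.exists_bound_of_continuous hg1.continuous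
  obtain ⟨C2, hC2⟩ := (hgs.fderiv (𝕜 := ℝ)).exists_bound_of_continuous
    (hg1.continuous_fderiv one_ne_zero)
  refine ⟨_, g, max C1 C2, hg, hg1, ?_, ?_, ?_, hz, ?_, ?_⟩
  · exact (norm_nonneg (g 0)).trans ((hC1 0).trans (le_max_left _ _))
  · intro z
    have h2 := th_nonneg δ z.re
    have h3 := th_nonneg δ z.im
    have h4 := th_le_one δ z.re
    have h5 := th_le_one δ z.im
    rw [abs_le]
    constructor
    · have := mul_nonneg h2 h3
      linarith
    · have := mul_le_one₀ h4 h3 h5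
      linarith
  · rintro z ⟨⟨h2, h3⟩, h4, h5⟩
    rw [th_one hδ h2 h3, th_one hδ h4 h5, one_mul]
  · exact fun z => (hC1 z).trans (le_max_left _ _)
  · exact fun z => (hC2 z).trans (le_max_right _ _)

private lemma LS_le (z w : ℂ) : LS z w ≤ 1 + 2 * ‖z‖ := by
  unfold LS
  have h1 := norm_nonneg z
  have h2 := norm_nonneg w
  split_ifs with h
  · nlinarith
  · linarith

private lemma mvt_pot {φ : ℂ → ℝ} {f : ℂ → ℂ} (h : IsPot φ f) {M : ℝ} (hM : ∀ z, ‖f z‖ ≤ M)
    (z : ℂ) : |φ z - φ 0| ≤ M * ‖z‖ := by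
  have h1 := Convex.norm_image_sub_le_of_norm_hasFDerivWithin_le (f := φ)
    (f' := fun z => innerSL ℝ (f z)) (s := univ) (C := M) (x := 0) (y := z)
    (fun x _ => (h x).hasFDerivWithinAt)
    (fun x _ => by rw [innerSL_apply_norm]; exact hM x) convex_univ (mem_univ _) (mem_univ _)
  rwa [sub_zero, Real.norm_eq_abs] at h1

theorem torus_C1 {f : ℂ → ℂ} (hf : ContDiff ℝ 1 f) (h1 : ∀ z, f (z + 1) = f z)
    (h2 : ∀ z, f (z + I) = f z) (hsym : ∀ z, (dz f z).im = 0) :
    0 ≤ ∫ z in Qs, LS (dz f z) (db f z) := by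
  obtain ⟨φ₀, hφ₀⟩ := exists_pot' hf hsym
  obtain ⟨φ, hφdef⟩ : ∃ φ : ℂ → ℝ, φ = fun z => φ₀ z - φ₀ 0 := ⟨_, rfl⟩
  have hφ : IsPot φ f := by
    intro z
    rw [hφdef]
    exact (hφ₀ z).sub_const (φ₀ 0)
  have hfc : Continuous (fderiv ℝ f) := hf.continuous_fderiv one_ne_zero
  have p1 : ∀ z, fderiv ℝ f (z + 1) = fderiv ℝ f z := by
    intro z
    rw [← fderiv_comp_add_right]
    congr 1
    funext w
    exact h1 w
  have p2 : ∀ z, fderiv ℝ f (z + I) = fderiv ℝ f z := by
    intro z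
    rw [← fderiv_comp_add_right]
    congr 1
    funext w
    exact h2 w
  obtain ⟨M1, hM1, hM1'⟩ := bdd_of_periodic hf.continuous h1 h2
  obtain ⟨M2, hM2, hM2'⟩ := bdd_of_periodic hfc p1 p2
  obtain ⟨M, hM, hM0⟩ : ∃ M, M = max M1 M2 ∧ 0 ≤ M := ⟨_, rfl, hM1.trans (le_max_left _ _)⟩
  have hfM : ∀ z, ‖f z‖ ≤ M := fun z => by rw [hM]; exact (hM1' z).trans (le_max_left _ _)
  have hdM : ∀ z, ‖fderiv ℝ f z‖ ≤ M := fun z => by rw [hM]; exact (hM2' z).trans (le_max_right _ _)
  have hφM : ∀ z, |φ z| ≤ M * ‖z‖ := by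
    intro z
    rw [hφdef]
    exact mvt_pot hφ₀ hfM z
  have hFc : Continuous fun z => LS (dz f z) (db f z) :=
    LS_continuous.comp ((dz_continuous hf).prodMk (db_continuous hf))
  have hF1 : ∀ z, LS (dz f (z + 1)) (db f (z + 1)) = LS (dz f z) (db f z) := by
    intro z
    unfold dz db
    rw [p1]
  have hF2 : ∀ z, LS (dz f (z + I)) (db f (z + I)) = LS (dz f z) (db f z) := by
    intro z
    unfold dz db
    rw [p2]
  have hQ : Qs = Sq 0 1 := rfl
  rw [hQ]
  set I₀ := ∫ z in Sq 0 1, LS (dz f z) (db f z) with hI₀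
  obtain ⟨c, hc⟩ : ∃ c, c = 4 * M + 3 := ⟨_, rfl⟩
  have hc0 : 0 < c := by rw [hc]; linarith
  have key : ∀ δ : ℝ, 0 < δ → δ < 1 → 0 ≤ I₀ + 8 * c * δ := by
    intro δ hδ hδ1
    obtain ⟨χ, g, C, hχ, hg, hC0, hχ1, hχ2, hχ3, hgC, hdC⟩ := exists_chi hδ hδ1
    obtain ⟨n, hn⟩ := exists_nat_gt (6 * M * C + 1)
    have hn0 : (0 : ℝ) < n := by
      have := mul_nonneg hM0 hC0
      linarith
    obtain ⟨s, hs⟩ : ∃ s : ℝ, s = (n : ℝ)⁻¹ := ⟨_, rfl⟩
    have hs0 : 0 < s := by rw [hs]; positivity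
    have hsn : s * n = 1 := by rw [hs]; exact inv_mul_cancel₀ hn0.ne'
    have hpotχ := hχ.scale s
    have hgs := scale_contDiff hg s
    set h := cut (fun z => χ (s • z)) φ (fun z => s • g (s • z)) f with hh
    have hh1 : ContDiff ℝ 1 h := cut_contDiff hφ hpotχ hf hgs
    have hh2 : ∀ z, (dz h z).im = 0 := cut_symm hφ hpotχ hf hgs
    -- outside the large square
    have hout : ∀ z, z ∉ Sq (-(δ * n)) ((1 + δ) * n) → h z = 0 := by
      intro z hz
      have hz1 : s • z ∉ Sq (-δ) (1 + δ) := by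
        intro hz1
        apply hz
        obtain ⟨⟨a1, a2⟩, a3, a4⟩ := hz1
        simp only [Complex.smul_re, Complex.smul_im, smul_eq_mul] at a1 a2 a3 a4
        have e1 : z.re = s * z.re * n := by
          rw [mul_right_comm, hsn, one_mul]
        have e2 : z.im = s * z.im * n := by
          rw [mul_right_comm, hsn, one_mul]
        refine ⟨⟨?_, ?_⟩, ?_, ?_⟩
        · rw [e1, ← neg_mul]
          exact mul_le_mul_of_nonneg_right a1 hn0.le
        · rw [e1]
          exact mul_le_mul_of_nonneg_right a2 hn0.le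
        · rw [e2, ← neg_mul]
          exact mul_le_mul_of_nonneg_right a3 hn0.le
        · rw [e2]
          exact mul_le_mul_of_nonneg_right a4 hn0.le
      have hz2 : g (s • z) = 0 := by
        apply hχ.zero_of_eventually (c := 0)
        filter_upwards [(Sq_closed (-δ) (1 + δ)).isOpen_compl.mem_nhds hz1] with w hw
        exact hχ3 w hw
      rw [hh]
      unfold cut
      simp only
      rw [hχ3 _ hz1, hz2]
      simp
    have hhs : HasCompactSupport h :=
      HasCompactSupport.intro (Sq_compact (-(δ * n)) ((1 + δ) * n)) hout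
    have hmain := main hh1 hhs hh2
    unfold Sv at hmain
    have hLc : Continuous fun z => LS (dz h z) (db h z) :=
      LS_continuous.comp ((dz_continuous hh1).prodMk (db_continuous hh1))
    have hL0 : ∀ z, z ∉ Sq (-(δ * n)) ((1 + δ) * n) → LS (dz h z) (db h z) = 0 := by
      intro z hz
      have e1 : h =ᶠ[nhds z] 0 := by
        filter_upwards [(Sq_closed (-(δ * n)) ((1 + δ) * n)).isOpen_compl.mem_nhds hz] with w hw
        exact hout w hw
      have e2 : fderiv ℝ h z = 0 := by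
        rw [e1.fderiv_eq]
        simp
      obtain ⟨e3, e4⟩ := dz_zero_of e2
      rw [e3, e4, LS_zero]
    -- inside the square
    have hin : ∀ z ∈ Sq 0 n, LS (dz h z) (db h z) = LS (dz f z) (db f z) := by
      intro z hz
      have hopen : IsOpen {w : ℂ | (s • w).re ∈ Ioo (-(δ / 2)) (1 + δ / 2) ∧
          (s • w).im ∈ Ioo (-(δ / 2)) (1 + δ / 2)} := by
        have c1 : Continuous fun w : ℂ => (s • w).re :=
          Complex.continuous_re.comp (continuous_const_smul s)
        have c2 : Continuous fun w : ℂ => (s • w).im :=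
          Complex.continuous_im.comp (continuous_const_smul s)
        exact (isOpen_Ioo.preimage c1).inter (isOpen_Ioo.preimage c2)
      have hmem : z ∈ {w : ℂ | (s • w).re ∈ Ioo (-(δ / 2)) (1 + δ / 2) ∧
          (s • w).im ∈ Ioo (-(δ / 2)) (1 + δ / 2)} := by
        obtain ⟨⟨a1, a2⟩, a3, a4⟩ := hz
        have b2 : s * z.re ≤ 1 := by
          calc s * z.re ≤ s * n := mul_le_mul_of_nonneg_left a2 hs0.le
            _ = 1 := hsn
        have b4 : s * z.im ≤ 1 := by
          calc s * z.im ≤ s * n := mul_le_mul_of_nonneg_left a4 hs0.le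
            _ = 1 := hsn
        have b1 : 0 ≤ s * z.re := mul_nonneg hs0.le a1
        have b3 : 0 ≤ s * z.im := mul_nonneg hs0.le a3
        refine ⟨⟨?_, ?_⟩, ?_, ?_⟩ <;>
          simp only [Complex.smul_re, Complex.smul_im, smul_eq_mul] <;> linarith
      have hev : (fun z => χ (s • z)) =ᶠ[nhds z] fun _ => (1 : ℝ) := by
        filter_upwards [hopen.mem_nhds hmem] with w hw
        exact hχ2 _ ⟨Ioo_subset_Icc_self hw.1, Ioo_subset_Icc_self hw.2⟩
      have hev2 : h =ᶠ[nhds z] f := by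
        filter_upwards [hev.eventuallyEq_nhds] with w hw
        have e1 : s • g (s • w) = 0 := hpotχ.zero_of_eventually hw
        have e2 : χ (s • w) = 1 := hw.self_of_nhds
        rw [hh]
        unfold cut
        simp only
        rw [e1, e2]
        simp
      unfold dz db
      rw [hev2.fderiv_eq]
    -- the bound
    have hbd : ∀ z ∈ Sq (-(δ * n)) ((1 + δ) * n), LS (dz h z) (db h z) ≤ c := by
      intro z hz
      have hz1 : ‖z‖ ≤ 2 * (2 * n) := by
        apply Sq_norm _ _ hz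
        · nlinarith
        · nlinarith
      have a1 := cut_fderiv hφ hpotχ hf hgs z
      rw [← hh] at a1
      have a2 := scale_fderiv hg s z
      have a3 : ‖s • g (s • z)‖ ≤ s * C := by
        rw [norm_smul, Real.norm_eq_abs, abs_of_pos hs0]
        exact mul_le_mul_of_nonneg_left (hgC _) hs0.le
      have a4 : ‖fderiv ℝ (fun z => s • g (s • z)) z‖ ≤ s ^ 2 * C :=
        a2.trans (mul_le_mul_of_nonneg_left (hdC _) (by positivity))
      have a5 : |χ (s • z) - 1| * ‖fderiv ℝ f z‖ ≤ 1 * M :=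
        mul_le_mul (hχ1 _) (hdM z) (norm_nonneg _) zero_le_one
      have a6 : ‖f z‖ * ‖s • g (s • z)‖ ≤ M * (s * C) :=
        mul_le_mul (hfM z) a3 (norm_nonneg _) hM0
      have a7 : |φ z| * ‖fderiv ℝ (fun z => s • g (s • z)) z‖ ≤ (M * (2 * (2 * n))) * (s ^ 2 * C) :=
        mul_le_mul ((hφM z).trans (mul_le_mul_of_nonneg_left hz1 hM0)) a4 (norm_nonneg _)
          (by positivity)
      have a8 : (M * (2 * (2 * n))) * (s ^ 2 * C) = 4 * M * C * s * (s * n) := by ring
      rw [a8, hsn, mul_one] at a7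
      have a9 : 6 * M * C * s ≤ 1 := by
        rw [← hsn, mul_comm s (n : ℝ)]
        exact mul_le_mul_of_nonneg_right (by linarith) hs0.le
      have a10 : ‖fderiv ℝ h z‖ ≤ 2 * M + 1 := by
        have b1 : ‖fderiv ℝ h z‖ ≤ ‖fderiv ℝ f z‖ + ‖fderiv ℝ h z - fderiv ℝ f z‖ := by
          have := norm_add_le (fderiv ℝ f z) (fderiv ℝ h z - fderiv ℝ f z)
          rwa [add_sub_cancel] at this
        have b2 := hdM z
        nlinarith
      have a11 := norm_dz_le h z
      have a12 := LS_le (dz h z) (db h z)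
      rw [hc]
      linarith
    -- integrals
    have hsub : Sq 0 n ⊆ Sq (-(δ * n)) ((1 + δ) * n) := by
      rintro z ⟨⟨a1, a2⟩, a3, a4⟩
      have b1 : 0 < δ * n := mul_pos hδ hn0
      refine ⟨⟨?_, ?_⟩, ?_, ?_⟩ <;> nlinarith
    have i1 : ∫ z, LS (dz h z) (db h z) =
        ∫ z in Sq (-(δ * n)) ((1 + δ) * n), LS (dz h z) (db h z) :=
      (setIntegral_eq_integral_of_forall_compl_eq_zero hL0).symm
    have hint : ∀ {G : ℂ → ℝ}, Continuous G → ∀ a b, IntegrableOn G (Sq a b) :=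
      fun hG a b => hG.continuousOn.integrableOn_compact (Sq_compact a b)
    have hmS : MeasurableSet (Sq 0 n) := (Sq_closed 0 n).measurableSet
    have hmS' : MeasurableSet (Sq (-(δ * n)) ((1 + δ) * n)) := (Sq_closed _ _).measurableSet
    have i2 : ∫ z in Sq (-(δ * n)) ((1 + δ) * n), LS (dz h z) (db h z) ≤
        ∫ z in Sq (-(δ * n)) ((1 + δ) * n), (c + (Sq 0 n).indicator
          (fun z => LS (dz f z) (db f z) - c) z) := by
      apply setIntegral_mono_on (hint hLc _ _) _ hmS'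
      · intro z hz
        by_cases hz0 : z ∈ Sq 0 n
        · rw [indicator_of_mem hz0, hin z hz0]
          linarith
        · rw [indicator_of_notMem hz0, add_zero]
          exact hbd z hz
      · apply Integrable.add (hint continuous_const _ _)
        exact ((hint (hFc.sub continuous_const) _ _).integrable).indicator hmS
    have i3 : ∫ z in Sq (-(δ * n)) ((1 + δ) * n), (c + (Sq 0 n).indicator
          (fun z => LS (dz f z) (db f z) - c) z) =
        c * ((1 + 2 * δ) * n) ^ 2 + n ^ 2 * (I₀ - c) := by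
      have k1 : Integrable ((Sq 0 n).indicator (fun z => LS (dz f z) (db f z) - c))
          (volume.restrict (Sq (-(δ * n)) ((1 + δ) * n))) :=
        ((hint (hFc.sub continuous_const) _ _).integrable).indicator hmS
      rw [integral_add (hint continuous_const _ _) k1]
      congr 1
      · rw [sq_int continuous_const (by nlinarith)]
        simp
        ring
      · rw [setIntegral_indicator hmS, inter_eq_right.2 hsub,
          integral_sub (hint hFc _ _) (hint continuous_const _ _),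
          per_sq hFc hF1 hF2, sq_int continuous_const hn0.le]
        simp
        ring
    rw [i1] at hmain
    have h5 := hmain.trans i2
    rw [i3] at h5
    have h6 : c * ((1 + 2 * δ) * n) ^ 2 + n ^ 2 * (I₀ - c) =
        n ^ 2 * (I₀ + c * (4 * δ + 4 * δ ^ 2)) := by ring
    rw [h6] at h5
    have h7 : 0 ≤ I₀ + c * (4 * δ + 4 * δ ^ 2) := by
      by_contra hcon
      rw [not_le] at hcon
      have : (n : ℝ) ^ 2 * (I₀ + c * (4 * δ + 4 * δ ^ 2)) < 0 :=
        mul_neg_of_pos_of_neg (by positivity) hcon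
      linarith
    have h8 : δ ^ 2 ≤ δ := by nlinarith
    nlinarith
  by_contra hcon
  rw [not_le] at hcon
  have h3 := key (min (1 / 2) (-I₀ / (16 * c))) (by
    apply lt_min (by norm_num)
    apply div_pos (by linarith) (by positivity)) (lt_of_le_of_lt (min_le_left _ _) (by norm_num))
  have h4 : 8 * c * min (1 / 2) (-I₀ / (16 * c)) ≤ 8 * c * (-I₀ / (16 * c)) :=
    mul_le_mul_of_nonneg_left (min_le_right _ _) (by positivity)
  have h5 : 8 * c * (-I₀ / (16 * c)) = -I₀ / 2 := by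
    field_simp
    ring
  linarith

end Pool.Agent.Helper7.CT
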