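import Pool.Agent.Helper7.CT.Defs

/-!
# CT-W0: weak derivatives and mollification

`IsWD f g v`: `g` is the distributional derivative of `f` in the direction `v`.

`moll_exists`. PROOF. `ρ n` = the normed `ContDiffBump (0 : ℂ)` with radii `1/(2(n+1))`, `1/(n+1)` (`ContDiffBump.normed`). `F n z = ∫ ρ n (t) f (z - t) dt = ∫ ρ n (z - s) f s ds` is smooth
(`HasCompactSupport.contDiff_convolution_left`), with derivative `fderiv (F n) z v = ∫ (fderiv (ρ n) (z - s) v) f s ds` (`HasCompactSupport.hasFDerivAt_convolution_left`), and with the test function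
`η s = ρ n (z - s)`, `fderiv η s v = - fderiv (ρ n) (z - s) v`, `IsWD` gives `= ∫ ρ n (z - s) g s ds`.

`moll_Lp`. PROOF. Jensen's inequality for the probability measure `ρ n (t) dt`, Fubini and continuity of the translations in `L^p`
(`Lp.compMeasurePreserving_continuous`).

`moll_L1`. PROOF. `moll_Lp` with `p = 1` for the restriction of `g` to the closed `1`-neighbourhood of `K`.
-/

set_option autoImplicit false

open MeasureTheory Metric Set Complex Filter Topology
open scoped ENNReal Convolution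

namespace Pool.Agent.Helper7.CT

/-- `g` is the distributional derivative of `f` in the direction `v` -/
def IsWD (f g : ℂ → ℂ) (v : ℂ) : Prop :=
  ∀ η : ℂ → ℝ, ContDiff ℝ (⊤ : ℕ∞) η → HasCompactSupport η →
    ∫ z, ((fderiv ℝ η z v : ℝ) : ℂ) * f z = -∫ z, ((η z : ℝ) : ℂ) * g z

/-- a sequence of mollifiers -/
structure IsMoll (ρ : ℕ → ℂ → ℝ) : Prop where
  smooth : ∀ n, ContDiff ℝ (⊤ : ℕ∞) (ρ n)
  nonneg : ∀ n z, 0 ≤ ρ n z
  supp : ∀ (n : ℕ) (z : ℂ), 1 / ((n : ℝ) + 1) ≤ ‖z‖ → ρ n z = 0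
  mass : ∀ n, ∫ z, ρ n z = 1

theorem exists_moll : ∃ ρ : ℕ → ℂ → ℝ, IsMoll ρ := by
  have hb : ∀ n : ℕ, ∃ f : ContDiffBump (0 : ℂ), f.rOut = 1 / ((n : ℝ) + 1) := fun n =>
    ⟨⟨1 / (2 * ((n : ℝ) + 1)), 1 / ((n : ℝ) + 1), by positivity, by
      apply one_div_lt_one_div_of_lt (by positivity)
      have : (0 : ℝ) < (n : ℝ) + 1 := by positivity
      linarith⟩, rfl⟩
  choose f hf using hb
  refine ⟨fun n => (f n).normed volume, ⟨fun n => (f n).contDiff_normed,
    fun n z => (f n).nonneg_normed z, fun n z hz => ?_, fun n => (f n).integral_normed⟩⟩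
  rw [ContDiffBump.normed_def, (f n).zero_of_le_dist (by rw [hf, dist_zero_right]; exact hz), zero_div]

theorem IsMoll.cs {ρ : ℕ → ℂ → ℝ} (hρ : IsMoll ρ) (n : ℕ) : HasCompactSupport (ρ n) := by
  refine HasCompactSupport.intro (isCompact_closedBall (0 : ℂ) (1 / ((n : ℝ) + 1))) fun z hz => ?_
  refine hρ.supp n z ?_
  rw [mem_closedBall, dist_zero_right, not_le] at hz
  exact hz.le

theorem IsMoll.cont {ρ : ℕ → ℂ → ℝ} (hρ : IsMoll ρ) (n : ℕ) : Continuous (ρ n) :=
  (hρ.smooth n).continuous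

theorem IsMoll.integrable {ρ : ℕ → ℂ → ℝ} (hρ : IsMoll ρ) (n : ℕ) : Integrable (ρ n) :=
  (hρ.cont n).integrable_of_hasCompactSupport (hρ.cs n)

/-- the mollified function -/
noncomputable def mo (r : ℂ → ℝ) (f : ℂ → ℂ) (z : ℂ) : ℂ := ∫ t, ((r t : ℝ) : ℂ) * f (z - t)

theorem mo_eq_conv (r : ℂ → ℝ) (f : ℂ → ℂ) :
    mo r f = (r ⋆[ContinuousLinearMap.lsmul ℝ ℝ, volume] f) := by
  funext z
  unfold mo convolution
  refine integral_congr_ae (Eventually.of_forall fun t => ?_)
  simp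

theorem mo_deriv_dir {ρ : ℕ → ℂ → ℝ} (hρ : IsMoll ρ) {f g : ℂ → ℂ} (hf : LocallyIntegrable f)
    {v : ℂ} (h : IsWD f g v) (n : ℕ) (z : ℂ) :
    fderiv ℝ (mo (ρ n) f) z v = mo (ρ n) g z := by
  have h1 : ContDiff ℝ 1 (ρ n) := (hρ.smooth n).of_le (by exact_mod_cast le_top)
  have hD := (hρ.cs n).hasFDerivAt_convolution_left (ContinuousLinearMap.lsmul ℝ ℝ) (μ := volume) h1
    hf z
  rw [← mo_eq_conv] at hD
  rw [hD.fderiv]
  have hex : ConvolutionExistsAt (fderiv ℝ (ρ n)) f z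
      (ContinuousLinearMap.precompL ℂ (ContinuousLinearMap.lsmul ℝ ℝ)) volume :=
    HasCompactSupport.convolutionExists_left _ ((hρ.cs n).fderiv ℝ) (h1.continuous_fderiv one_ne_zero) hf z
  unfold convolution
  rw [ContinuousLinearMap.integral_apply hex]
  have e1 : ∀ t, (((ContinuousLinearMap.precompL ℂ (ContinuousLinearMap.lsmul ℝ ℝ))
      (fderiv ℝ (ρ n) t)) (f (z - t))) v = ((fderiv ℝ (ρ n) t v : ℝ) : ℂ) * f (z - t) := by
    intro t
    rw [ContinuousLinearMap.precompL_apply]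
    simp
  have e2 : (∫ t, (((ContinuousLinearMap.precompL ℂ (ContinuousLinearMap.lsmul ℝ ℝ))
      (fderiv ℝ (ρ n) t)) (f (z - t))) v) = ∫ t, ((fderiv ℝ (ρ n) t v : ℝ) : ℂ) * f (z - t) :=
    integral_congr_ae (Eventually.of_forall e1)
  rw [e2]
  have e3 : (∫ t, ((fderiv ℝ (ρ n) t v : ℝ) : ℂ) * f (z - t)) =
      ∫ s, ((fderiv ℝ (ρ n) (z - s) v : ℝ) : ℂ) * f s := by
    rw [← integral_sub_left_eq_self (fun t => ((fderiv ℝ (ρ n) t v : ℝ) : ℂ) * f (z - t)) volume z]
    refine integral_congr_ae (Eventually.of_forall fun s => ?_)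
    simp
  have e4 : mo (ρ n) g z = ∫ s, ((ρ n (z - s) : ℝ) : ℂ) * g s := by
    unfold mo
    rw [← integral_sub_left_eq_self (fun t => ((ρ n t : ℝ) : ℂ) * g (z - t)) volume z]
    refine integral_congr_ae (Eventually.of_forall fun s => ?_)
    simp
  rw [e3, e4]
  have hη : ContDiff ℝ (⊤ : ℕ∞) (fun s => ρ n (z - s)) :=
    (hρ.smooth n).comp (contDiff_const.sub contDiff_id)
  have hηc : HasCompactSupport (fun s => ρ n (z - s)) := by
    refine HasCompactSupport.intro (isCompact_closedBall z (1 / ((n : ℝ) + 1))) fun s hs => ?_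
    refine hρ.supp n _ ?_
    rw [mem_closedBall, not_le, dist_eq_norm, norm_sub_rev] at hs
    exact hs.le
  have h2 := h (fun s => ρ n (z - s)) hη hηc
  have e5 : ∀ s, fderiv ℝ (fun s => ρ n (z - s)) s v = -(fderiv ℝ (ρ n) (z - s) v) := by
    intro s
    have h3 : HasFDerivAt (ρ n) (fderiv ℝ (ρ n) (z - s)) (z - s) :=
      (h1.differentiable (by norm_num)).differentiableAt.hasFDerivAt
    have h4 : HasFDerivAt (fun s : ℂ => z - s) (-ContinuousLinearMap.id ℝ ℂ) s :=
      (hasFDerivAt_id (𝕜 := ℝ) s).const_sub z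
    have h5 := h3.comp s h4
    have h6 : fderiv ℝ (fun s => ρ n (z - s)) s =
      (fderiv ℝ (ρ n) (z - s)).comp (-ContinuousLinearMap.id ℝ ℂ) := h5.fderiv
    rw [h6]
    simp
  simp only [e5] at h2
  have e6 : (∫ s, ((-(fderiv ℝ (ρ n) (z - s) v) : ℝ) : ℂ) * f s) =
      -∫ s, ((fderiv ℝ (ρ n) (z - s) v : ℝ) : ℂ) * f s := by
    rw [← integral_neg]
    refine integral_congr_ae (Eventually.of_forall fun s => ?_)
    simp
  rw [e6] at h2
  exact neg_injective h2

theorem moll_deriv {ρ : ℕ → ℂ → ℝ} (hρ : IsMoll ρ) {f fx fy : ℂ → ℂ} (hf : LocallyIntegrable f)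
    (hfx : LocallyIntegrable fx) (hfy : LocallyIntegrable fy) (h1 : IsWD f fx 1)
    (h2 : IsWD f fy I) (n : ℕ) :
    ContDiff ℝ 1 (fun z => ∫ t, ((ρ n t : ℝ) : ℂ) * f (z - t)) ∧
    (∀ z, fderiv ℝ (fun z => ∫ t, ((ρ n t : ℝ) : ℂ) * f (z - t)) z 1 =
      ∫ t, ((ρ n t : ℝ) : ℂ) * fx (z - t)) ∧
    ∀ z, fderiv ℝ (fun z => ∫ t, ((ρ n t : ℝ) : ℂ) * f (z - t)) z I =
      ∫ t, ((ρ n t : ℝ) : ℂ) * fy (z - t) := by
  refine ⟨?_, fun z => mo_deriv_dir hρ hf h1 n z, fun z => mo_deriv_dir hρ hf h2 n z⟩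
  have h3 : ContDiff ℝ ((1 : ℕ∞) : WithTop ℕ∞)
      ((ρ n) ⋆[ContinuousLinearMap.lsmul ℝ ℝ, volume] f) :=
    (hρ.cs n).contDiff_convolution_left (ContinuousLinearMap.lsmul ℝ ℝ)
      ((hρ.smooth n).of_le (by exact_mod_cast le_top)) hf
  rw [← mo_eq_conv] at h3
  exact_mod_cast h3

/-- continuity of the translations in `L^p` -/
theorem trans_Lp {g : ℂ → ℂ} {P : ℝ≥0∞} (hP : 1 ≤ P) (hP' : P ≠ ⊤) (hg : MemLp g P) :
    Tendsto (fun t : ℂ => eLpNorm (fun z => g (z - t) - g z) P volume) (𝓝 0) (𝓝 0) := by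
  have : Fact (1 ≤ P) := ⟨hP⟩
  let F := hg.toLp g
  let c : ℂ → C(ℂ, ℂ) := fun t => ⟨fun z => z - t, by fun_prop⟩
  have hc : Continuous c :=
    ContinuousMap.continuous_of_continuous_uncurry _ (by
      change Continuous fun q : ℂ × ℂ => q.2 - q.1
      fun_prop)
  have hm : ∀ t, MeasurePreserving (c t) volume volume := fun t =>
    measurePreserving_sub_right volume t
  have h1 := Filter.Tendsto.compMeasurePreservingLp (f := fun _ : ℂ => F) (f₀ := F)
    tendsto_const_nhds (hc.tendsto 0) hm (hm 0) hP'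
  have h2 := tendsto_iff_edist_tendsto_0.1 h1
  refine h2.congr fun t => ?_
  rw [Lp.edist_def]
  refine eLpNorm_congr_ae ?_
  have h3 := Lp.coeFn_compMeasurePreserving F (hm t)
  have h4 := Lp.coeFn_compMeasurePreserving F (hm 0)
  have h5 : (F : ℂ → ℂ) =ᵐ[volume] g := hg.coeFn_toLp
  have h6 := (hm t).quasiMeasurePreserving.ae_eq_comp h5
  have h7 := (hm 0).quasiMeasurePreserving.ae_eq_comp h5
  filter_upwards [h3, h4, h6, h7] with z a b d e
  rw [Pi.sub_apply, a, b, d, e]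
  change g (z - t) - g (z - 0) = _
  rw [sub_zero]

theorem mo_sub_Lp {r : ℂ → ℝ} (hc : Continuous r) (hcs : HasCompactSupport r)
    (h0 : ∀ z, 0 ≤ r z) (hm : ∫ z, r z = 1) {δ : ℝ} (hδ : ∀ z, δ ≤ ‖z‖ → r z = 0)
    {g : ℂ → ℂ} (hgm : StronglyMeasurable g) (hg : LocallyIntegrable g) {p : ℝ} (hp : 1 ≤ p)
    {ε : ℝ≥0∞}
    (hε : ∀ t, ‖t‖ < δ → eLpNorm (fun z => g (z - t) - g z) (ENNReal.ofReal p) volume ≤ ε) :
    eLpNorm (fun z => mo r g z - g z) (ENNReal.ofReal p) volume ≤ ε := by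
  have hp0 : 0 < p := by linarith
  have hpe : (ENNReal.ofReal p).toReal = p := ENNReal.toReal_ofReal hp0.le
  have hP0 : ENNReal.ofReal p ≠ 0 := by
    rw [Ne, ENNReal.ofReal_eq_zero, not_le]; exact hp0
  have hri : Integrable r := hc.integrable_of_hasCompactSupport hcs
  have hrm : Measurable fun t => ENNReal.ofReal (r t) := hc.measurable.ennreal_ofReal
  set ν : Measure ℂ := volume.withDensity (fun t => ENNReal.ofReal (r t)) with hν
  have : IsProbabilityMeasure ν := ⟨by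
    rw [hν, withDensity_apply _ MeasurableSet.univ, Measure.restrict_univ,
      ← ofReal_integral_eq_lintegral_ofReal hri (Eventually.of_forall h0), hm, ENNReal.ofReal_one]⟩
  have hjm : Measurable fun q : ℂ × ℂ => g (q.1 - q.2) - g q.1 := by
    have h1 : Measurable fun q : ℂ × ℂ => g (q.1 - q.2) :=
      hgm.measurable.comp (measurable_fst.sub measurable_snd)
    exact h1.sub (hgm.measurable.comp measurable_fst)
  have hpt : ∀ z, ‖mo r g z - g z‖ₑ ≤ ∫⁻ t, ‖g (z - t) - g z‖ₑ ∂ν := by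
    intro z
    have hex : ConvolutionExistsAt r g z (ContinuousLinearMap.lsmul ℝ ℝ) volume :=
      HasCompactSupport.convolutionExists_left _ hcs hc hg z
    have hi1 : Integrable fun t => ((r t : ℝ) : ℂ) * g (z - t) := by
      refine hex.congr (Eventually.of_forall fun t => ?_)
      simp
    have hi2 : Integrable fun t => ((r t : ℝ) : ℂ) * g z := hri.ofReal.mul_const _
    have e1 : mo r g z - g z = ∫ t, ((r t : ℝ) : ℂ) * (g (z - t) - g z) := by
      have e2 : (∫ t, ((r t : ℝ) : ℂ) * g z) = g z := by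
        rw [integral_mul_const, integral_complex_ofReal, hm]
        simp
      unfold mo
      conv_lhs => rw [← e2]
      rw [← integral_sub hi1 hi2]
      refine integral_congr_ae (Eventually.of_forall fun t => ?_)
      simp only
      ring
    rw [e1]
    refine (enorm_integral_le_lintegral_enorm _).trans (le_of_eq ?_)
    rw [hν, lintegral_withDensity_eq_lintegral_mul _ hrm]
    · refine lintegral_congr fun t => ?_
      rw [enorm_mul, Pi.mul_apply]
      congr 1
      rw [← ofReal_norm_eq_enorm, Complex.norm_real, Real.norm_of_nonneg (h0 t)]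
    · have h1 : Measurable fun t => g (z - t) - g z :=
        (hgm.measurable.comp (measurable_const.sub measurable_id)).sub measurable_const
      exact h1.enorm
  have hJ : ∀ z, ‖mo r g z - g z‖ₑ ^ p ≤ ∫⁻ t, ‖g (z - t) - g z‖ₑ ^ p ∂ν := by
    intro z
    have hfm : AEStronglyMeasurable (fun t => g (z - t) - g z) ν := by
      have : Measurable fun t => g (z - t) - g z :=
        (hgm.measurable.comp (measurable_const.sub measurable_id)).sub measurable_const
      exact this.aestronglyMeasurable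
    have h1 := eLpNorm'_le_eLpNorm'_of_exponent_le one_pos hp ν hfm
    unfold eLpNorm' at h1
    simp only [ENNReal.rpow_one, div_one] at h1
    have h2 := ENNReal.rpow_le_rpow ((hpt z).trans h1) hp0.le
    rwa [← ENNReal.rpow_mul, one_div, inv_mul_cancel₀ hp0.ne', ENNReal.rpow_one] at h2
  have hI : ∫⁻ z, ‖mo r g z - g z‖ₑ ^ p ≤ ε ^ p := by
    calc ∫⁻ z, ‖mo r g z - g z‖ₑ ^ p ≤ ∫⁻ z, ∫⁻ t, ‖g (z - t) - g z‖ₑ ^ p ∂ν :=
          lintegral_mono hJ
      _ = ∫⁻ t, (∫⁻ z, ‖g (z - t) - g z‖ₑ ^ p) ∂ν := by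
          refine lintegral_lintegral_swap (f := fun z t => ‖g (z - t) - g z‖ₑ ^ p) ?_
          exact (hjm.enorm.pow_const p).aemeasurable
      _ ≤ ∫⁻ t, ε ^ p ∂ν := by
          refine lintegral_mono_ae ?_
          rw [hν, ae_withDensity_iff hrm]
          refine Eventually.of_forall fun t ht => ?_
          have ht' : ‖t‖ < δ := by
            by_contra hh
            apply ht
            rw [hδ t (not_lt.1 hh), ENNReal.ofReal_zero]
          have h3 := hε t ht'
          rw [eLpNorm_eq_eLpNorm' hP0 ENNReal.ofReal_ne_top, hpe] at h3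
          unfold eLpNorm' at h3
          have h4 := ENNReal.rpow_le_rpow h3 hp0.le
          rwa [← ENNReal.rpow_mul, one_div, inv_mul_cancel₀ hp0.ne', ENNReal.rpow_one] at h4
      _ = ε ^ p := by rw [lintegral_const, measure_univ, mul_one]
  rw [eLpNorm_eq_eLpNorm' hP0 ENNReal.ofReal_ne_top, hpe]
  unfold eLpNorm'
  have h5 := ENNReal.rpow_le_rpow hI (show 0 ≤ 1 / p by positivity)
  rwa [← ENNReal.rpow_mul, mul_one_div, div_self hp0.ne', ENNReal.rpow_one] at h5

theorem moll_Lp {ρ : ℕ → ℂ → ℝ} (hρ : IsMoll ρ) {g : ℂ → ℂ} {p : ℝ} (hp : 1 ≤ p)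
    (hg : MemLp g (ENNReal.ofReal p)) :
    (∀ n, MemLp (fun z => ∫ t, ((ρ n t : ℝ) : ℂ) * g (z - t)) (ENNReal.ofReal p)) ∧
    Tendsto (fun n => eLpNorm (fun z => (∫ t, ((ρ n t : ℝ) : ℂ) * g (z - t)) - g z)
      (ENNReal.ofReal p)) atTop (𝓝 0) := by
  have hP1 : 1 ≤ ENNReal.ofReal p := by
    rw [← ENNReal.ofReal_one]; exact ENNReal.ofReal_le_ofReal hp
  set g' := hg.1.mk g with hg'
  have hgg : g =ᵐ[volume] g' := hg.1.ae_eq_mk
  have hgm : StronglyMeasurable g' := hg.1.stronglyMeasurable_mk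
  have hgL : MemLp g' (ENNReal.ofReal p) := (memLp_congr_ae hgg).1 hg
  have hloc : LocallyIntegrable g' := hgL.locallyIntegrable hP1
  have hmo : ∀ n z, (∫ t, ((ρ n t : ℝ) : ℂ) * g (z - t)) = mo (ρ n) g' z := by
    intro n z
    unfold mo
    refine integral_congr_ae ?_
    have h1 : (fun t => g (z - t)) =ᵐ[volume] fun t => g' (z - t) :=
      (Measure.measurePreserving_sub_left volume z).quasiMeasurePreserving.ae_eq_comp hgg
    filter_upwards [h1] with t ht
    simp only [ht]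
  have hne : ∀ n, eLpNorm (fun z => (∫ t, ((ρ n t : ℝ) : ℂ) * g (z - t)) - g z)
      (ENNReal.ofReal p) volume = eLpNorm (fun z => mo (ρ n) g' z - g' z) (ENNReal.ofReal p) volume := by
    intro n
    refine eLpNorm_congr_ae ?_
    filter_upwards [hgg] with z hz
    rw [hmo, hz]
  have hkey : ∀ (n : ℕ) (ε : ℝ≥0∞), (∀ t : ℂ, ‖t‖ < 1 / ((n : ℝ) + 1) →
      eLpNorm (fun z => g' (z - t) - g' z) (ENNReal.ofReal p) volume ≤ ε) →
      eLpNorm (fun z => mo (ρ n) g' z - g' z) (ENNReal.ofReal p) volume ≤ ε := fun n ε h =>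
    mo_sub_Lp (hρ.cont n) (hρ.cs n) (hρ.nonneg n) (hρ.mass n) (hρ.supp n) hgm hloc hp h
  constructor
  · intro n
    have h1 : eLpNorm (fun z => mo (ρ n) g' z - g' z) (ENNReal.ofReal p) volume ≤
        eLpNorm g' (ENNReal.ofReal p) volume + eLpNorm g' (ENNReal.ofReal p) volume := by
      refine hkey n _ fun t _ => ?_
      have hmp := measurePreserving_sub_right (volume : Measure ℂ) t
      have h2 : eLpNorm (fun z => g' (z - t)) (ENNReal.ofReal p) volume =
          eLpNorm g' (ENNReal.ofReal p) volume :=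
        eLpNorm_comp_measurePreserving hgm.aestronglyMeasurable hmp
      have h3 := eLpNorm_sub_le (μ := volume) (p := ENNReal.ofReal p) (f := fun z => g' (z - t))
        (g := g') (hgm.aestronglyMeasurable.comp_measurePreserving hmp) hgm.aestronglyMeasurable hP1
      rw [h2] at h3
      exact h3
    have hcont : Continuous (mo (ρ n) g') := by
      rw [mo_eq_conv]
      exact (hρ.cs n).continuous_convolution_left _ (hρ.cont n) hloc
    have h4 : MemLp (fun z => mo (ρ n) g' z - g' z) (ENNReal.ofReal p) :=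
      ⟨hcont.aestronglyMeasurable.sub hgm.aestronglyMeasurable,
        h1.trans_lt (ENNReal.add_lt_top.2 ⟨hgL.2, hgL.2⟩)⟩
    have h5 := h4.add hgL
    refine (memLp_congr_ae (Eventually.of_forall fun z => ?_)).1 h5
    rw [hmo]
    simp
  · simp only [hne]
    rw [ENNReal.tendsto_nhds_zero]
    intro ε hε
    have h1 := (ENNReal.tendsto_nhds_zero.1 (trans_Lp hP1 ENNReal.ofReal_ne_top hgL)) ε hε
    rw [Metric.eventually_nhds_iff] at h1
    obtain ⟨δ, hδ, h2⟩ := h1
    obtain ⟨N, hN⟩ := exists_nat_one_div_lt hδ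
    filter_upwards [eventually_ge_atTop N] with n hn
    refine hkey n ε fun t ht => h2 ?_
    rw [dist_zero_right]
    refine ht.trans (lt_of_le_of_lt ?_ hN)
    apply one_div_le_one_div_of_le (by positivity)
    have : (N : ℝ) ≤ n := by exact_mod_cast hn
    linarith

theorem moll_L1 {ρ : ℕ → ℂ → ℝ} (hρ : IsMoll ρ) {g : ℂ → ℂ} (hg : LocallyIntegrable g) {K : Set ℂ}
    (hK : IsCompact K) :
    Tendsto (fun n => ∫ z in K, ‖(∫ t, ((ρ n t : ℝ) : ℂ) * g (z - t)) - g z‖) atTop (𝓝 0) := by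
  set K' := Metric.cthickening 1 K with hK'
  have hKc : IsCompact K' := hK.cthickening
  have hKm : MeasurableSet K' := hKc.isClosed.measurableSet
  set g' : ℂ → ℂ := K'.indicator g with hg'
  have hgi : Integrable g' := (integrable_indicator_iff hKm).2 (hg.integrableOn_isCompact hKc)
  have hgL : MemLp g' (ENNReal.ofReal 1) := by
    rw [ENNReal.ofReal_one]; exact memLp_one_iff_integrable.2 hgi
  obtain ⟨hM, hT⟩ := moll_Lp hρ le_rfl hgL
  have hsub : K ⊆ K' := Metric.self_subset_cthickening _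
  have hgz : ∀ z ∈ K, g' z = g z := fun z hz => indicator_of_mem (hsub hz) g
  have hmo : ∀ n, ∀ z ∈ K, (∫ t, ((ρ n t : ℝ) : ℂ) * g (z - t)) =
      ∫ t, ((ρ n t : ℝ) : ℂ) * g' (z - t) := by
    intro n z hz
    refine integral_congr_ae (Eventually.of_forall fun t => ?_)
    by_cases h : 1 / ((n : ℝ) + 1) ≤ ‖t‖
    · simp [hρ.supp n t h]
    · have h1 : z - t ∈ K' := by
        refine Metric.mem_cthickening_of_dist_le _ z _ _ hz ?_
        rw [dist_eq_norm, sub_sub_cancel_left, norm_neg]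
        refine (not_le.1 h).le.trans ?_
        rw [div_le_one (by positivity)]
        have : (0 : ℝ) ≤ n := Nat.cast_nonneg n
        linarith
      simp only [hg', indicator_of_mem h1]
  have hT' : Tendsto (fun n => (eLpNorm (fun z => (∫ t, ((ρ n t : ℝ) : ℂ) * g' (z - t)) - g' z)
      (ENNReal.ofReal 1)).toReal) atTop (𝓝 0) := by
    have h1 := (ENNReal.tendsto_toReal ENNReal.zero_ne_top).comp hT
    rwa [ENNReal.toReal_zero] at h1
  refine squeeze_zero (fun n => integral_nonneg fun z => norm_nonneg _) (fun n => ?_) hT'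
  have hi : Integrable fun z => (∫ t, ((ρ n t : ℝ) : ℂ) * g' (z - t)) - g' z := by
    have := (hM n).sub hgL
    rw [ENNReal.ofReal_one] at this
    exact memLp_one_iff_integrable.1 this
  have e1 : (∫ z in K, ‖(∫ t, ((ρ n t : ℝ) : ℂ) * g (z - t)) - g z‖) =
      ∫ z in K, ‖(∫ t, ((ρ n t : ℝ) : ℂ) * g' (z - t)) - g' z‖ :=
    setIntegral_congr_fun hK.isClosed.measurableSet fun z hz => by
      simp only [hmo n z hz, hgz z hz]
  rw [e1, ENNReal.ofReal_one, eLpNorm_one_eq_lintegral_enorm, ← integral_norm_eq_lintegral_enorm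
    hi.aestronglyMeasurable]
  exact setIntegral_le_integral hi.norm (Eventually.of_forall fun z => norm_nonneg _)

end Pool.Agent.Helper7.CT
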