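import Pool.Agent.Helper7.CT.T1
import Pool.Agent.Helper7.CT.W0

/-!
# CT-W1: the torus, `W^{1,2}` maps (the class of the problem)

PROOF. `F n z = ∫ ρ n (t) f (z - t) dt` (`exists_moll`, `moll_deriv`) is `C¹` and periodic, `dz (F n) z = ∫ ρ n (t) Z (z - t) dt`, `Z = (fx - I fy)/2`, real because `Z` is real almost everywhere. By `torus_C1`
`0 ≤ ∫_Q LS (dz (F n)) (db (F n))`. `LS` is Lipschitz: `|LS z w - LS z' w'| ≤ 4 (‖z - z'‖ + ‖w - w'‖)` (`‖z‖² - ‖w‖²` on `‖z‖ + ‖w‖ ≤ 1`, `2‖z‖ - 1` beyond, continuous; compare along the segment, or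
`LS = 2‖z‖ - 1 + max 0 ...`: on `‖z‖+‖w‖ ≤ 1`, `LS = 2‖z‖ - 1 + (1-‖z‖)² - ‖w‖²`, and `(1-‖z‖)² - ‖w‖² = (1-‖z‖-‖w‖)(1-‖z‖+‖w‖)`, so `LS z w = 2‖z‖ - 1 + (1-‖z‖-‖w‖)⁺ (1 - min ‖z‖ 1 + min ‖w‖ 1)`).
With `moll_L1` on `Q` for `fx`, `fy` the integrals converge (`LS (Z) (W)` is integrable on `Q`: `|LS z w| ≤ 1 + 2‖z‖`).
-/

set_option autoImplicit false

open MeasureTheory Metric Set Complex Filter Topology

namespace Pool.Agent.Helper7.CT

open Pool.Agent.Helper7.BU

private lemma LSr_rep50 {x y : ℝ} (hx : 0 ≤ x) (hy : 0 ≤ y) :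
    LSr x y = 2 * x - 1 + max (1 - x - y) 0 * (1 - min x 1 + min y 1) := by
  unfold LSr
  split_ifs with h
  · rw [max_eq_left (by linarith), min_eq_left (by linarith), min_eq_left (by linarith)]
    ring
  · rw [max_eq_right (by linarith)]
    ring

private lemma LSr_lip50 {x y x' y' : ℝ} (hx : 0 ≤ x) (hy : 0 ≤ y) (hx' : 0 ≤ x') (hy' : 0 ≤ y') :
    |LSr x y - LSr x' y'| ≤ 5 * (|x - x'| + |y - y'|) := by
  rw [LSr_rep50 hx hy, LSr_rep50 hx' hy']
  have h1 : |max (1 - x - y) 0 - max (1 - x' - y') 0| ≤ |x - x'| + |y - y'| := by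
    refine (abs_max_sub_max_le_abs _ _ _).trans ?_
    have e : 1 - x - y - (1 - x' - y') = -((x - x') + (y - y')) := by ring
    rw [e, abs_neg]
    exact abs_add_le _ _
  have hm : ∀ a b : ℝ, |min a 1 - min b 1| ≤ |a - b| := by
    intro a b
    refine (abs_min_sub_min_le_max a 1 b 1).trans ?_
    simp
  have h2 : |(1 - min x 1 + min y 1) - (1 - min x' 1 + min y' 1)| ≤ |x - x'| + |y - y'| := by
    have e : (1 - min x 1 + min y 1) - (1 - min x' 1 + min y' 1) =
        -(min x 1 - min x' 1) + (min y 1 - min y' 1) := by ring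
    rw [e]
    refine (abs_add_le _ _).trans ?_
    rw [abs_neg]
    exact add_le_add (hm _ _) (hm _ _)
  have h3 : 0 ≤ 1 - min x 1 + min y 1 := by
    have := min_le_right x 1
    have := le_min hy zero_le_one
    linarith
  have h4 : 1 - min x 1 + min y 1 ≤ 2 := by
    have := min_le_right y 1
    have := le_min hx zero_le_one
    linarith
  have h5 : 0 ≤ max (1 - x' - y') 0 := le_max_right _ _
  have h6 : max (1 - x' - y') 0 ≤ 1 := max_le (by linarith) zero_le_one
  have e : 2 * x - 1 + max (1 - x - y) 0 * (1 - min x 1 + min y 1) -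
      (2 * x' - 1 + max (1 - x' - y') 0 * (1 - min x' 1 + min y' 1)) =
      2 * (x - x') + ((max (1 - x - y) 0 - max (1 - x' - y') 0) * (1 - min x 1 + min y 1) +
      max (1 - x' - y') 0 * ((1 - min x 1 + min y 1) - (1 - min x' 1 + min y' 1))) := by ring
  rw [e]
  refine (abs_add_le _ _).trans ?_
  have h7 := abs_add_le ((max (1 - x - y) 0 - max (1 - x' - y') 0) * (1 - min x 1 + min y 1))
    (max (1 - x' - y') 0 * ((1 - min x 1 + min y 1) - (1 - min x' 1 + min y' 1)))
  rw [abs_mul, abs_mul, abs_of_nonneg h3, abs_of_nonneg h5] at h7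
  have h8 : |max (1 - x - y) 0 - max (1 - x' - y') 0| * (1 - min x 1 + min y 1) ≤
      (|x - x'| + |y - y'|) * 2 := by
    apply mul_le_mul h1 h4 h3
    positivity
  have h9 : max (1 - x' - y') 0 * |(1 - min x 1 + min y 1) - (1 - min x' 1 + min y' 1)| ≤
      1 * (|x - x'| + |y - y'|) := by
    apply mul_le_mul h6 h2 (abs_nonneg _) zero_le_one
  have h10 : |2 * (x - x')| = 2 * |x - x'| := by rw [abs_mul, abs_two]
  rw [h10]
  have := abs_nonneg (y - y')
  linarith

private lemma LS_lip50 (z w z' w' : ℂ) : |LS z w - LS z' w'| ≤ 5 * (‖z - z'‖ + ‖w - w'‖) := by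
  rw [LS_eq, LS_eq]
  refine (LSr_lip50 (norm_nonneg z) (norm_nonneg w) (norm_nonneg z') (norm_nonneg w')).trans ?_
  have h1 := abs_norm_sub_norm_le z z'
  have h2 := abs_norm_sub_norm_le w w'
  linarith

private lemma LS_abs50 (z w : ℂ) : |LS z w| ≤ 1 + 2 * ‖z‖ := by
  unfold LS
  have h1 := norm_nonneg z
  have h2 := norm_nonneg w
  split_ifs with h
  · rw [abs_le]
    constructor <;> nlinarith
  · rw [abs_le]
    constructor <;> linarith

private lemma Qs_compact50 : IsCompact Qs := by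
  have h1 : IsClosed Qs :=
    (isClosed_Icc.preimage Complex.continuous_re).inter (isClosed_Icc.preimage Complex.continuous_im)
  apply Metric.isCompact_of_isClosed_isBounded h1
  refine (isBounded_closedBall (x := (0 : ℂ)) (r := 2)).subset fun z hz => ?_
  obtain ⟨⟨a1, a2⟩, a3, a4⟩ := hz
  rw [mem_closedBall, dist_zero_right]
  have h2 := Complex.norm_le_abs_re_add_abs_im z
  rw [abs_of_nonneg a1, abs_of_nonneg a3] at h2
  linarith

private lemma mo_int50 {ρ : ℕ → ℂ → ℝ} (hρ : IsMoll ρ) {g : ℂ → ℂ} (hg : LocallyIntegrable g)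
    (n : ℕ) (z : ℂ) : Integrable fun t => ((ρ n t : ℝ) : ℂ) * g (z - t) := by
  have hex : ConvolutionExistsAt (ρ n) g z (ContinuousLinearMap.lsmul ℝ ℝ) volume :=
    HasCompactSupport.convolutionExists_left _ (hρ.cs n) (hρ.cont n) hg z
  refine hex.congr (Eventually.of_forall fun t => ?_)
  simp

theorem torus_W {f fx fy : ℂ → ℂ} (hf : LocallyIntegrable f) (hfx : LocallyIntegrable fx)
    (hfy : LocallyIntegrable fy) (p1 : ∀ z, f (z + 1) = f z) (p2 : ∀ z, f (z + I) = f z)
    (h1 : IsWD f fx 1) (h2 : IsWD f fy I) (hsym : ∀ᵐ z, ((fx z - I * fy z) / 2).im = 0) :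
    0 ≤ ∫ z in Qs, LS ((fx z - I * fy z) / 2) ((fx z + I * fy z) / 2) := by
  obtain ⟨ρ, hρ⟩ := exists_moll
  have hQ := Qs_compact50
  have hQm : MeasurableSet Qs := hQ.isClosed.measurableSet
  -- the mollified maps
  have key : ∀ n, 0 ≤ ∫ z in Qs, LS ((mo (ρ n) fx z - I * mo (ρ n) fy z) / 2)
      ((mo (ρ n) fx z + I * mo (ρ n) fy z) / 2) := by
    intro n
    obtain ⟨a1, a2, a3⟩ := moll_deriv hρ hf hfx hfy h1 h2 n
    have b1 : ∀ z, dz (mo (ρ n) f) z = (mo (ρ n) fx z - I * mo (ρ n) fy z) / 2 := by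
      intro z
      unfold dz
      rw [show fderiv ℝ (mo (ρ n) f) z 1 = mo (ρ n) fx z from a2 z,
        show fderiv ℝ (mo (ρ n) f) z I = mo (ρ n) fy z from a3 z]
    have b2 : ∀ z, db (mo (ρ n) f) z = (mo (ρ n) fx z + I * mo (ρ n) fy z) / 2 := by
      intro z
      unfold db
      rw [show fderiv ℝ (mo (ρ n) f) z 1 = mo (ρ n) fx z from a2 z,
        show fderiv ℝ (mo (ρ n) f) z I = mo (ρ n) fy z from a3 z]
    have c1 : ∀ z, mo (ρ n) f (z + 1) = mo (ρ n) f z := by
      intro z
      unfold mo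
      refine integral_congr_ae (Eventually.of_forall fun t => ?_)
      simp only
      rw [add_sub_right_comm, p1]
    have c2 : ∀ z, mo (ρ n) f (z + I) = mo (ρ n) f z := by
      intro z
      unfold mo
      refine integral_congr_ae (Eventually.of_forall fun t => ?_)
      simp only
      rw [add_sub_right_comm, p2]
    have c3 : ∀ z, (dz (mo (ρ n) f) z).im = 0 := by
      intro z
      rw [b1]
      have i1 := mo_int50 hρ hfx n z
      have i2 := mo_int50 hρ hfy n z
      have e1 : (mo (ρ n) fx z - I * mo (ρ n) fy z) / 2 =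
          ∫ t, (((ρ n t : ℝ) : ℂ) * fx (z - t) - I * (((ρ n t : ℝ) : ℂ) * fy (z - t))) / 2 := by
        rw [integral_div, integral_sub i1 (i2.const_mul I), integral_const_mul]
        rfl
      have i3 : Integrable fun t =>
          (((ρ n t : ℝ) : ℂ) * fx (z - t) - I * (((ρ n t : ℝ) : ℂ) * fy (z - t))) / 2 :=
        (i1.sub (i2.const_mul I)).div_const 2
      have e2 := integral_im i3
      have e3 : ∀ᵐ t, (RCLike.im ((((ρ n t : ℝ) : ℂ) * fx (z - t) -
          I * (((ρ n t : ℝ) : ℂ) * fy (z - t))) / 2) : ℝ) = 0 := by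
        have h3 := (Measure.measurePreserving_sub_left volume z).quasiMeasurePreserving.ae hsym
        filter_upwards [h3] with t ht
        have e4 : (((ρ n t : ℝ) : ℂ) * fx (z - t) - I * (((ρ n t : ℝ) : ℂ) * fy (z - t))) / 2 =
            ((ρ n t : ℝ) : ℂ) * ((fx (z - t) - I * fy (z - t)) / 2) := by ring
        rw [e4]
        change (((ρ n t : ℝ) : ℂ) * ((fx (z - t) - I * fy (z - t)) / 2)).im = 0
        rw [Complex.im_ofReal_mul, ht, mul_zero]
      rw [integral_congr_ae e3, integral_zero] at e2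
      rw [e1]
      exact e2.symm
    have h3 := torus_C1 (f := mo (ρ n) f) a1 c1 c2 c3
    simpa only [b1, b2] using h3
  -- convergence
  have hlim : Tendsto (fun n => ∫ z in Qs, LS ((mo (ρ n) fx z - I * mo (ρ n) fy z) / 2)
      ((mo (ρ n) fx z + I * mo (ρ n) fy z) / 2)) atTop
      (𝓝 (∫ z in Qs, LS ((fx z - I * fy z) / 2) ((fx z + I * fy z) / 2))) := by
    have l1 := moll_L1 hρ hfx hQ
    have l2 := moll_L1 hρ hfy hQ
    have l3 : Tendsto (fun n => 5 * ((∫ z in Qs, ‖mo (ρ n) fx z - fx z‖) +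
        ∫ z in Qs, ‖mo (ρ n) fy z - fy z‖)) atTop (𝓝 0) := by
      have l4 := (l1.add l2).const_mul 5
      rw [add_zero, mul_zero] at l4
      exact l4
    rw [tendsto_iff_norm_sub_tendsto_zero]
    refine squeeze_zero (fun n => norm_nonneg _) (fun n => ?_) l3
    have cx : Continuous (mo (ρ n) fx) := by
      rw [mo_eq_conv]
      exact (hρ.cs n).continuous_convolution_left _ (hρ.cont n) hfx
    have cy : Continuous (mo (ρ n) fy) := by
      rw [mo_eq_conv]
      exact (hρ.cs n).continuous_convolution_left _ (hρ.cont n) hfy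
    have ix : IntegrableOn fx Qs := hfx.integrableOn_isCompact hQ
    have iy : IntegrableOn fy Qs := hfy.integrableOn_isCompact hQ
    have i1 : IntegrableOn (fun z => LS ((mo (ρ n) fx z - I * mo (ρ n) fy z) / 2)
        ((mo (ρ n) fx z + I * mo (ρ n) fy z) / 2)) Qs := by
      have cc : Continuous (fun z => LS ((mo (ρ n) fx z - I * mo (ρ n) fy z) / 2)
          ((mo (ρ n) fx z + I * mo (ρ n) fy z) / 2)) :=
        LS_continuous.comp (Continuous.prodMk (by fun_prop) (by fun_prop))
      exact cc.continuousOn.integrableOn_compact hQ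
    have i2 : IntegrableOn (fun z => LS ((fx z - I * fy z) / 2) ((fx z + I * fy z) / 2)) Qs := by
      have m1 : AEStronglyMeasurable (fun z => (fx z - I * fy z) / 2) (volume.restrict Qs) :=
        ((ix.sub (iy.const_mul I)).div_const 2).aestronglyMeasurable
      have m2 : AEStronglyMeasurable (fun z => (fx z + I * fy z) / 2) (volume.restrict Qs) :=
        ((ix.add (iy.const_mul I)).div_const 2).aestronglyMeasurable
      have m3 := LS_continuous.comp_aestronglyMeasurable (m1.prodMk m2)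
      have g1 : IntegrableOn (fun z => 1 + 2 * ‖(fx z - I * fy z) / 2‖) Qs := by
        have hfin : IntegrableOn (fun _ : ℂ => (1 : ℝ)) Qs :=
          continuousOn_const.integrableOn_compact hQ
        exact hfin.add (((ix.sub (iy.const_mul I)).div_const 2).norm.const_mul 2)
      refine Integrable.mono' g1 m3 (Eventually.of_forall fun z => ?_)
      rw [Real.norm_eq_abs]
      exact LS_abs50 _ _
    have jx : IntegrableOn (fun z => ‖mo (ρ n) fx z - fx z‖) Qs :=
      ((cx.continuousOn.integrableOn_compact hQ).sub ix).norm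
    have jy : IntegrableOn (fun z => ‖mo (ρ n) fy z - fy z‖) Qs :=
      ((cy.continuousOn.integrableOn_compact hQ).sub iy).norm
    rw [← integral_sub i1 i2]
    refine (norm_integral_le_integral_norm _).trans ?_
    rw [← integral_add jx jy, ← integral_const_mul]
    apply integral_mono (i1.sub i2).norm ((jx.add jy).const_mul 5)
    intro z
    simp only [Real.norm_eq_abs]
    change _ ≤ 5 * (‖mo (ρ n) fx z - fx z‖ + ‖mo (ρ n) fy z - fy z‖)
    refine (LS_lip50 _ _ _ _).trans ?_
    have e1 : (mo (ρ n) fx z - I * mo (ρ n) fy z) / 2 - (fx z - I * fy z) / 2 =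
        ((mo (ρ n) fx z - fx z) - I * (mo (ρ n) fy z - fy z)) / 2 := by ring
    have e2 : (mo (ρ n) fx z + I * mo (ρ n) fy z) / 2 - (fx z + I * fy z) / 2 =
        ((mo (ρ n) fx z - fx z) + I * (mo (ρ n) fy z - fy z)) / 2 := by ring
    rw [e1, e2, norm_div, norm_div]
    have e3 := norm_sub_le (mo (ρ n) fx z - fx z) (I * (mo (ρ n) fy z - fy z))
    have e4 := norm_add_le (mo (ρ n) fx z - fx z) (I * (mo (ρ n) fy z - fy z))
    rw [norm_mul, Complex.norm_I, one_mul] at e3 e4
    have e5 : ‖(2 : ℂ)‖ = 2 := by simp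
    rw [e5]
    linarith
  exact ge_of_tendsto' hlim key

end Pool.Agent.Helper7.CT
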