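import Pool.Agent.Helper7.CT.Defs

/-!
# CT-W2: the Poincaré inequality on annuli

PROOF. `A_R = {z | R < ‖z‖ < 2R}`. By scaling `z = R z'` it is enough to take `R = 1`. Polar coordinates `z = s e^{iθ}`, `1 < s < 2`. Let `M z = ‖fderiv ℝ f z‖`. For `1 < s, t < 2` and all `θ, τ`:
`‖f (s e^{iθ}) - f (t e^{iτ})‖ ≤ ∫_1^2 M (σ e^{iθ}) dσ + 2 ∫_0^{2π} M (t e^{iα}) dα` (radially from `s` to `t`, then along the circle of radius `t ≤ 2`), so by Hölder its `p`-th power is
`≤ C (∫_1^2 M^p (σ e^{iθ}) dσ + ∫_0^{2π} M^p (t e^{iα}) dα)`. Integrate over `s, t, θ, τ` with the weights `s, t ∈ [1,2]`: `∫_A ∫_A ‖f x - f y‖^p ≤ C' ∫_A M^p`. Hence for some `y ∈ A`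
`∫_A ‖f x - f y‖^p dx ≤ (C'/|A|) ∫_A M^p`; take `c = f y`. (`f` is `C¹` on `ℂ`, so all integrals are finite. Helper7/BU/Plane.lean has polar coordinates: `plane_eq`, `polar_integrable`.)
-/

set_option autoImplicit false

open MeasureTheory Metric Set Complex

namespace Pool.Agent.Helper7.CT

open Pool.Agent.Helper7.BU

private theorem ann_polar_h52 {R : ℝ} (hR : 0 < R) {g : ℂ → ℝ} (hg : Continuous g) :
    ∫ z in {z : ℂ | R < ‖z‖ ∧ ‖z‖ < 2 * R}, g z =
      ∫ r in R..(2 * R), r * ∫ θ in (-Real.pi)..Real.pi, g (cz r θ) := by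
  have hpi := Real.pi_pos
  have hA : MeasurableSet {z : ℂ | R < ‖z‖ ∧ ‖z‖ < 2 * R} :=
    ((isOpen_lt continuous_const continuous_norm).inter (isOpen_lt continuous_norm continuous_const)).measurableSet
  rw [← integral_indicator hA, ← Complex.integral_comp_polarCoord_symm]
  have h1 : ∀ p ∈ polarCoord.target, p.1 • indicator {z : ℂ | R < ‖z‖ ∧ ‖z‖ < 2 * R} g (Complex.polarCoord.symm p) =
      indicator (Ioo R (2 * R) ×ˢ (univ : Set ℝ)) (fun p : ℝ × ℝ => p.1 * g (cz p.1 p.2)) p := by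
    intro p hp
    rw [polarCoord_target] at hp
    have hp1 : 0 < p.1 := hp.1
    rw [polar_symm_eq, smul_eq_mul]
    by_cases h : R < p.1 ∧ p.1 < 2 * R
    · rw [indicator_of_mem, indicator_of_mem]
      · exact ⟨h, mem_univ _⟩
      · show R < ‖cz p.1 p.2‖ ∧ ‖cz p.1 p.2‖ < 2 * R
        rw [norm_cz, abs_of_pos hp1]
        exact h
    · rw [indicator_of_notMem, indicator_of_notMem, mul_zero]
      · intro h2
        exact h h2.1
      · intro h2
        have h3 : R < ‖cz p.1 p.2‖ ∧ ‖cz p.1 p.2‖ < 2 * R := h2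
        rw [norm_cz, abs_of_pos hp1] at h3
        exact h h3
  have htm : MeasurableSet (polarCoord.target : Set (ℝ × ℝ)) := by
    rw [polarCoord_target]
    exact measurableSet_Ioi.prod measurableSet_Ioo
  rw [setIntegral_congr_fun htm h1, setIntegral_indicator (measurableSet_Ioo.prod MeasurableSet.univ)]
  have h2 : polarCoord.target ∩ (Ioo R (2 * R) ×ˢ (univ : Set ℝ)) = Ioo R (2 * R) ×ˢ Ioo (-Real.pi) Real.pi := by
    rw [polarCoord_target]
    ext p
    simp only [mem_inter_iff, mem_prod, mem_Ioi, mem_Ioo, mem_univ, and_true]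
    constructor
    · rintro ⟨⟨_, h3⟩, h4⟩
      exact ⟨h4, h3⟩
    · rintro ⟨h3, h4⟩
      exact ⟨⟨hR.trans h3.1, h4⟩, h3⟩
  rw [h2]
  have hc : Continuous (fun p : ℝ × ℝ => p.1 * g (cz p.1 p.2)) :=
    continuous_fst.mul (hg.comp cz_continuous)
  have hint : IntegrableOn (fun p : ℝ × ℝ => p.1 * g (cz p.1 p.2)) (Ioo R (2 * R) ×ˢ Ioo (-Real.pi) Real.pi) (volume.prod volume) :=
    (hc.continuousOn.integrableOn_compact (isCompact_Icc.prod isCompact_Icc)).mono_set
      (prod_mono Ioo_subset_Icc_self Ioo_subset_Icc_self)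
  rw [Measure.volume_eq_prod, setIntegral_prod _ hint]
  rw [intervalIntegral.integral_of_le (by linarith), integral_Ioc_eq_integral_Ioo]
  refine setIntegral_congr_fun measurableSet_Ioo fun r _ => ?_
  simp only
  rw [integral_const_mul, intervalIntegral.integral_of_le (by linarith), integral_Ioc_eq_integral_Ioo]

private theorem path_h52 {h h' : ℝ → ℂ} (hd : ∀ x, HasDerivAt h (h' x) x) {m : ℝ → ℝ} (hc : Continuous h') (hm : Continuous m)
    (hle : ∀ x, ‖h' x‖ ≤ m x) {a b x y : ℝ} (hx : x ∈ Icc a b) (hy : y ∈ Icc a b) :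
    ‖h x - h y‖ ≤ ∫ t in a..b, m t := by
  have hm0 : ∀ t, 0 ≤ m t := fun t => (norm_nonneg _).trans (hle t)
  have key : ∀ x y : ℝ, x ∈ Icc a b → y ∈ Icc a b → y ≤ x → ‖h x - h y‖ ≤ ∫ t in a..b, m t := by
    intro x y hx hy hyx
    rw [← intervalIntegral.integral_eq_sub_of_hasDerivAt (fun t _ => hd t) (hc.intervalIntegrable y x)]
    calc ‖∫ t in y..x, h' t‖ ≤ ∫ t in y..x, ‖h' t‖ := intervalIntegral.norm_integral_le_integral_norm hyx
      _ ≤ ∫ t in y..x, m t := intervalIntegral.integral_mono_on hyx (hc.norm.intervalIntegrable _ _)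
          (hm.intervalIntegrable _ _) fun t _ => hle t
      _ ≤ ∫ t in a..b, m t := intervalIntegral.integral_mono_interval hy.1 hyx hx.2
          (Filter.Eventually.of_forall hm0) (hm.intervalIntegrable _ _)
  rcases le_total y x with h1 | h1
  · exact key x y hx hy h1
  · rw [norm_sub_rev]
    exact key y x hy hx h1

private theorem jensen_h52 {p : ℝ} (hp : 1 ≤ p) {a b : ℝ} (hab : a < b) {g : ℝ → ℝ} (hg : Continuous g) (hg0 : ∀ x, 0 ≤ g x) :
    (∫ x in a..b, g x) ^ p ≤ (b - a) ^ (p - 1) * ∫ x in a..b, g x ^ p := by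
  have hp0 : 0 ≤ p := by linarith
  have hba : 0 < b - a := by linarith
  have hgp : Continuous (fun x => g x ^ p) := hg.rpow_const fun x => Or.inr hp0
  have h1 := (convexOn_rpow hp).map_set_average_le (μ := volume) (t := Ioc a b) (f := g)
    (continuousOn_id.rpow_const fun x _ => Or.inr hp0) isClosed_Ici
    (by rw [Real.volume_Ioc]; simpa using hab) (by rw [Real.volume_Ioc]; exact ENNReal.ofReal_ne_top)
    (Filter.Eventually.of_forall hg0)
    ((hg.continuousOn.integrableOn_Icc (a := a) (b := b)).mono_set Ioc_subset_Icc_self)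
    ((hgp.continuousOn.integrableOn_Icc (a := a) (b := b)).mono_set Ioc_subset_Icc_self)
  rw [setAverage_eq, setAverage_eq, Real.volume_real_Ioc_of_le hab.le, smul_eq_mul, smul_eq_mul,
    ← intervalIntegral.integral_of_le hab.le, ← intervalIntegral.integral_of_le hab.le] at h1
  set I := ∫ x in a..b, g x with hI
  set J := ∫ x in a..b, g x ^ p with hJ
  have hI0 : 0 ≤ I := intervalIntegral.integral_nonneg hab.le fun x _ => hg0 x
  have h2 : ((b - a)⁻¹ * I) ^ p = ((b - a) ^ p)⁻¹ * I ^ p := by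
    rw [Real.mul_rpow (by positivity) hI0, Real.inv_rpow hba.le]
  have h3 : ((b - a) ^ p)⁻¹ * I ^ p ≤ (b - a)⁻¹ * J := by rw [← h2]; exact h1
  rw [inv_mul_le_iff₀ (by positivity)] at h3
  have h4 : (b - a) ^ p * ((b - a)⁻¹ * J) = (b - a) ^ (p - 1) * J := by
    rw [Real.rpow_sub_one hba.ne']
    field_simp
  linarith

private theorem swap_h52 {Φ : ℝ → ℝ → ℝ} (hΦ : Continuous (Function.uncurry Φ)) {a b c d : ℝ} (hab : a ≤ b) (hcd : c ≤ d) :
    ∫ x in a..b, ∫ y in c..d, Φ x y = ∫ y in c..d, ∫ x in a..b, Φ x y := by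
  simp only [intervalIntegral.integral_of_le hab, intervalIntegral.integral_of_le hcd]
  refine integral_integral_swap ?_
  rw [Measure.prod_restrict]
  exact (hΦ.continuousOn.integrableOn_compact (isCompact_Icc.prod isCompact_Icc)).mono_set
    (prod_mono Ioc_subset_Icc_self Ioc_subset_Icc_self)

private theorem add_pow_h52 {p : ℝ} (hp : 1 ≤ p) {x y : ℝ} (hx : 0 ≤ x) (hy : 0 ≤ y) :
    (x + y) ^ p ≤ 2 ^ (p - 1) * (x ^ p + y ^ p) := by
  have h := NNReal.rpow_add_le_mul_rpow_add_rpow ⟨x, hx⟩ ⟨y, hy⟩ hp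
  exact_mod_cast h

theorem poincare_annulus {p : ℝ} (hp : 1 ≤ p) : ∃ C : ℝ, 0 < C ∧ ∀ R : ℝ, 0 < R →
    ∀ f : ℂ → ℂ, ContDiff ℝ 1 f → ∃ c : ℂ,
      ∫ z in {z : ℂ | R < ‖z‖ ∧ ‖z‖ < 2 * R}, ‖f z - c‖ ^ p ≤
        C * R ^ p * ∫ z in {z : ℂ | R < ‖z‖ ∧ ‖z‖ < 2 * R}, ‖fderiv ℝ f z‖ ^ p := by
  have hpi := Real.pi_pos
  have hp0 : 0 ≤ p := by linarith
  refine ⟨2 ^ p * (1 + (4 * Real.pi) ^ p), by positivity, fun R hR f hf => ?_⟩
  have hR2 : R < 2 * R := by linarith
  set M : ℂ → ℝ := fun z => ‖fderiv ℝ f z‖ with hM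
  have hMc : Continuous M := (hf.continuous_fderiv (by norm_num)).norm
  have hM0 : ∀ z, 0 ≤ M z := fun z => norm_nonneg _
  have hMp : Continuous (fun z => M z ^ p) := hMc.rpow_const fun x => Or.inr hp0
  have hΦ : Continuous (Function.uncurry fun (t α : ℝ) => M (cz t α) ^ p) := hMp.comp cz_continuous
  have hΦ' : Continuous (Function.uncurry fun (α t : ℝ) => M (cz t α) ^ p) :=
    hMp.comp (cz_continuous.comp (continuous_snd.prodMk continuous_fst))
  -- the circle integrals
  set φ : ℝ → ℝ := fun t => ∫ α in (-Real.pi)..Real.pi, M (cz t α) ^ p with hφ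
  have hφc : Continuous φ := intervalIntegral.continuous_parametric_intervalIntegral_of_continuous' hΦ _ _
  have hφ0 : ∀ t, 0 ≤ φ t := fun t => intervalIntegral.integral_nonneg (by linarith) fun α _ => Real.rpow_nonneg (hM0 _) _
  obtain ⟨t0, ht0, hmin⟩ := (isCompact_Icc (a := R) (b := 2 * R)).exists_isMinOn ⟨R, left_mem_Icc.2 hR2.le⟩ hφc.continuousOn
  set J : ℝ := ∫ t in R..(2 * R), φ t with hJ
  have hJ0 : 0 ≤ J := intervalIntegral.integral_nonneg hR2.le fun t _ => hφ0 t
  have ht0J : R * φ t0 ≤ J := by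
    have h1 : ∫ _t in R..(2 * R), φ t0 ≤ ∫ t in R..(2 * R), φ t :=
      intervalIntegral.integral_mono_on hR2.le intervalIntegrable_const (hφc.intervalIntegrable _ _) fun t ht => hmin ht
    rw [intervalIntegral.integral_const, smul_eq_mul] at h1
    calc R * φ t0 = (2 * R - R) * φ t0 := by ring
      _ ≤ J := h1
  have ht0R : 0 < t0 := lt_of_lt_of_le hR ht0.1
  -- the radial integrals
  set ψ : ℝ → ℝ := fun θ => ∫ σ in R..(2 * R), M (cz σ θ) ^ p with hψ
  have hψc : Continuous ψ := intervalIntegral.continuous_parametric_intervalIntegral_of_continuous' hΦ' _ _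
  have hψJ : ∫ θ in (-Real.pi)..Real.pi, ψ θ = J := by
    rw [hJ, hφ, hψ]
    exact (swap_h52 hΦ hR2.le (by linarith)).symm
  -- the pointwise estimate
  set K : ℝ := (2 * R) ^ p * (2 * Real.pi) ^ (p - 1) * (J / R) with hK
  have hpt : ∀ r ∈ Icc R (2 * R), ∀ θ ∈ Icc (-Real.pi) Real.pi,
      ‖f (cz r θ) - f (cz t0 0)‖ ^ p ≤ 2 ^ (p - 1) * (R ^ (p - 1) * ψ θ + K) := by
    intro r hr θ hθ
    have hfd : ∀ z, HasFDerivAt f (fderiv ℝ f z) z := fun z => (hf.differentiable (by norm_num) z).hasFDerivAt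
    have h1 : ‖f (cz r θ) - f (cz t0 θ)‖ ≤ ∫ σ in R..(2 * R), M (cz σ θ) := by
      have hcd : ∀ σ : ℝ, HasDerivAt (fun σ : ℝ => cz σ θ) (exp (θ * I)) σ := by
        intro σ
        unfold cz
        have h2 := (hasDerivAt_id σ).ofReal_comp.mul_const (exp (θ * I))
        simpa using h2
      refine path_h52 (h := fun σ => f (cz σ θ)) (h' := fun σ => fderiv ℝ f (cz σ θ) (exp (θ * I)))
        (fun σ => (hfd (cz σ θ)).comp_hasDerivAt σ (hcd σ)) ?_ ?_ ?_ hr ht0
      · exact ((hf.continuous_fderiv (by norm_num)).comp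
          (cz_continuous.comp (continuous_id.prodMk continuous_const))).clm_apply continuous_const
      · exact hMc.comp (cz_continuous.comp (continuous_id.prodMk continuous_const))
      · intro σ
        refine ((fderiv ℝ f (cz σ θ)).le_opNorm _).trans (le_of_eq ?_)
        rw [norm_exp_ofReal_mul_I, mul_one]
    have h2 : ‖f (cz t0 θ) - f (cz t0 0)‖ ≤ 2 * R * ∫ α in (-Real.pi)..Real.pi, M (cz t0 α) := by
      rw [← intervalIntegral.integral_const_mul]
      have hcd : ∀ α : ℝ, HasDerivAt (fun α : ℝ => cz t0 α) (t0 * (exp (α * I) * I)) α := by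
        intro α
        unfold cz
        have h2 := (((hasDerivAt_id α).ofReal_comp.mul_const I).cexp).const_mul (t0 : ℂ)
        simpa using h2
      refine path_h52 (h := fun α => f (cz t0 α)) (h' := fun α => fderiv ℝ f (cz t0 α) (t0 * (exp (α * I) * I)))
        (m := fun α => 2 * R * M (cz t0 α))
        (fun α => (hfd (cz t0 α)).comp_hasDerivAt α (hcd α)) ?_ ?_ ?_ hθ ⟨by linarith, by linarith⟩
      · exact ((hf.continuous_fderiv (by norm_num)).comp
          (cz_continuous.comp (continuous_const.prodMk continuous_id))).clm_apply (by fun_prop)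
      · exact continuous_const.mul (hMc.comp (cz_continuous.comp (continuous_const.prodMk continuous_id)))
      · intro α
        refine ((fderiv ℝ f (cz t0 α)).le_opNorm _).trans ?_
        rw [norm_mul, norm_mul, norm_exp_ofReal_mul_I, norm_I, mul_one, mul_one, norm_real, Real.norm_eq_abs,
          abs_of_pos ht0R, mul_comm]
        exact mul_le_mul_of_nonneg_right ht0.2 (hM0 _)
    set a : ℝ := ∫ σ in R..(2 * R), M (cz σ θ) with ha
    set b : ℝ := ∫ α in (-Real.pi)..Real.pi, M (cz t0 α) with hb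
    have ha0 : 0 ≤ a := (norm_nonneg _).trans h1
    have hb0 : 0 ≤ b := intervalIntegral.integral_nonneg (by linarith) fun α _ => hM0 _
    have h3 : ‖f (cz r θ) - f (cz t0 0)‖ ≤ a + 2 * R * b := by
      have h4 : f (cz r θ) - f (cz t0 0) = (f (cz r θ) - f (cz t0 θ)) + (f (cz t0 θ) - f (cz t0 0)) := by ring
      rw [h4]
      exact (norm_add_le _ _).trans (add_le_add h1 h2)
    have h5 : a ^ p ≤ R ^ (p - 1) * ψ θ := by
      have h6 := jensen_h52 hp hR2 (g := fun σ => M (cz σ θ))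
        (hMc.comp (cz_continuous.comp (continuous_id.prodMk continuous_const))) (fun _ => hM0 _)
      have h7 : 2 * R - R = R := by ring
      rw [h7] at h6
      exact h6
    have h6 : (2 * R * b) ^ p ≤ K := by
      have h7 := jensen_h52 hp (a := -Real.pi) (b := Real.pi) (by linarith) (g := fun α => M (cz t0 α))
        (hMc.comp (cz_continuous.comp (continuous_const.prodMk continuous_id))) (fun _ => hM0 _)
      have h8 : Real.pi - -Real.pi = 2 * Real.pi := by ring
      rw [h8] at h7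
      rw [Real.mul_rpow (by positivity) hb0, hK, mul_assoc]
      refine mul_le_mul_of_nonneg_left (h7.trans (mul_le_mul_of_nonneg_left ?_ (by positivity))) (by positivity)
      rw [le_div_iff₀ hR, mul_comm]
      exact ht0J
    calc ‖f (cz r θ) - f (cz t0 0)‖ ^ p ≤ (a + 2 * R * b) ^ p := Real.rpow_le_rpow (norm_nonneg _) h3 hp0
      _ ≤ 2 ^ (p - 1) * (a ^ p + (2 * R * b) ^ p) := add_pow_h52 hp ha0 (by positivity)
      _ ≤ _ := mul_le_mul_of_nonneg_left (add_le_add h5 h6) (by positivity)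
  -- integration
  refine ⟨f (cz t0 0), ?_⟩
  have hgc : Continuous (fun z => ‖f z - f (cz t0 0)‖ ^ p) :=
    (hf.continuous.sub continuous_const).norm.rpow_const fun x => Or.inr hp0
  rw [ann_polar_h52 hR hgc, ann_polar_h52 hR hMp]
  have hL : ∀ r ∈ Icc R (2 * R), r * ∫ θ in (-Real.pi)..Real.pi, ‖f (cz r θ) - f (cz t0 0)‖ ^ p ≤
      2 * R * (2 ^ (p - 1) * (R ^ (p - 1) * J + 2 * Real.pi * K)) := by
    intro r hr
    have h1 : ∫ θ in (-Real.pi)..Real.pi, ‖f (cz r θ) - f (cz t0 0)‖ ^ p ≤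
        ∫ θ in (-Real.pi)..Real.pi, 2 ^ (p - 1) * (R ^ (p - 1) * ψ θ + K) := by
      refine intervalIntegral.integral_mono_on (by linarith) ?_ ?_ fun θ hθ => hpt r hr θ hθ
      · exact (hgc.comp (cz_continuous.comp (continuous_const.prodMk continuous_id))).intervalIntegrable _ _
      · exact (continuous_const.mul ((continuous_const.mul hψc).add continuous_const)).intervalIntegrable _ _
    have h2 : ∫ θ in (-Real.pi)..Real.pi, 2 ^ (p - 1) * (R ^ (p - 1) * ψ θ + K) =
        2 ^ (p - 1) * (R ^ (p - 1) * J + 2 * Real.pi * K) := by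
      have hψi : IntervalIntegrable (fun θ => R ^ (p - 1) * ψ θ) volume (-Real.pi) Real.pi :=
        (continuous_const.mul hψc).intervalIntegrable _ _
      rw [intervalIntegral.integral_const_mul, intervalIntegral.integral_add hψi intervalIntegrable_const,
        intervalIntegral.integral_const_mul, hψJ, intervalIntegral.integral_const, smul_eq_mul]
      ring
    rw [h2] at h1
    refine mul_le_mul hr.2 h1 ?_ (by positivity)
    exact intervalIntegral.integral_nonneg (by linarith) fun θ _ => by positivity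
  have hgu : Continuous (Function.uncurry fun (r θ : ℝ) => ‖f (cz r θ) - f (cz t0 0)‖ ^ p) := hgc.comp cz_continuous
  have hcont1 : Continuous (fun r : ℝ => r * ∫ θ in (-Real.pi)..Real.pi, ‖f (cz r θ) - f (cz t0 0)‖ ^ p) :=
    continuous_id.mul (intervalIntegral.continuous_parametric_intervalIntegral_of_continuous' hgu _ _)
  have hLint : ∫ r in R..(2 * R), r * ∫ θ in (-Real.pi)..Real.pi, ‖f (cz r θ) - f (cz t0 0)‖ ^ p ≤
      R * (2 * R * (2 ^ (p - 1) * (R ^ (p - 1) * J + 2 * Real.pi * K))) := by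
    have h1 := intervalIntegral.integral_mono_on (μ := volume) hR2.le (hcont1.intervalIntegrable _ _)
      (intervalIntegrable_const (c := 2 * R * (2 ^ (p - 1) * (R ^ (p - 1) * J + 2 * Real.pi * K)))) hL
    rw [intervalIntegral.integral_const, smul_eq_mul] at h1
    refine h1.trans (le_of_eq ?_)
    ring
  have hRint : R * J ≤ ∫ r in R..(2 * R), r * ∫ θ in (-Real.pi)..Real.pi, M (cz r θ) ^ p := by
    rw [hJ, ← intervalIntegral.integral_const_mul]
    refine intervalIntegral.integral_mono_on hR2.le ((continuous_const.mul hφc).intervalIntegrable _ _)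
      ((continuous_id.mul hφc).intervalIntegrable _ _) fun r hr => ?_
    exact mul_le_mul_of_nonneg_right hr.1 (hφ0 r)
  refine hLint.trans ?_
  have e1 : R * (2 * R * (2 ^ (p - 1) * (R ^ (p - 1) * J + 2 * Real.pi * K))) =
      2 ^ p * (1 + (4 * Real.pi) ^ p) * R ^ p * (R * J) := by
    have k1 : (2 : ℝ) ^ (p - 1) = 2 ^ p / 2 := Real.rpow_sub_one two_ne_zero p
    have k2 : R ^ (p - 1) = R ^ p / R := Real.rpow_sub_one hR.ne' p
    have k3 : (2 * Real.pi) ^ (p - 1) = (2 * Real.pi) ^ p / (2 * Real.pi) := Real.rpow_sub_one (by positivity) p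
    have k4 : (4 * Real.pi) ^ p = 2 ^ p * (2 * Real.pi) ^ p := by
      rw [← Real.mul_rpow (by norm_num) (by positivity)]
      congr 1
      ring
    have k5 : (2 * R) ^ p = 2 ^ p * R ^ p := Real.mul_rpow (by norm_num) hR.le
    rw [hK, k1, k2, k3, k4, k5]
    field_simp
  rw [e1]
  exact mul_le_mul_of_nonneg_left hRint (by positivity)

end Pool.Agent.Helper7.CT
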