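import Pool.Agent.Helper7.CT.W2
import Pool.Agent.Helper7.CT.F2
import Pool.Agent.Helper7.CT.Cut

/-!
# CT-W3: cutting off a gradient map with derivatives in `L^p`

PROOF. `φ` a potential of `f` (`exists_pot'`). `χ` a smooth function, `χ = 1` for `‖z‖ ≤ 1`, `0` for `‖z‖ ≥ 2`, `χ_R z = χ (z/R)`. By `poincare_annulus` there is `c` with
`∫_{A_R} ‖f - c‖^p ≤ C R^p ∫_{A_R} ‖fderiv f‖^p`, and (applied to the complex function `φ - dt · c`, with derivative of norm `‖f - c‖`) a constant `c'` (real part) with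
`∫_{A_R} |φ - dt · c - c'|^p ≤ C R^p ∫_{A_R} ‖f - c‖^p`. Put `φ' = χ_R (φ - dt · c - c')` and `f' = ∇ φ' = χ_R (f - c) + (φ - dt · c - c') ∇χ_R`: `C¹` with compact support, `dz f'` real
(its derivative is symmetric, a second derivative). `fderiv f' - fderiv f = (χ_R - 1) fderiv f + ∇χ_R ⊗ (f - c) + (f - c) ⊗ ∇χ_R + (φ - dt · c - c') D²χ_R`; the integral of the `p`-th power of
its norm is at most `K ∫_{‖z‖ > R} ‖fderiv f‖^p → 0`.
-/

set_option autoImplicit false

open MeasureTheory Metric Set Complex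

namespace Pool.Agent.Helper7.CT

open Pool.Agent.Helper7.BU

private lemma exists_bump : ∃ (χ : ℂ → ℝ) (g : ℂ → ℂ) (C : ℝ), IsPot χ g ∧ ContDiff ℝ 1 g ∧
    0 ≤ C ∧ (∀ z, |χ z - 1| ≤ 1) ∧ (∀ z, ‖z‖ ≤ 1 → χ z = 1 ∧ g z = 0 ∧ fderiv ℝ g z = 0) ∧
    (∀ z, 2 ≤ ‖z‖ → χ z = 0 ∧ g z = 0 ∧ fderiv ℝ g z = 0) ∧ (∀ z, ‖g z‖ ≤ C) ∧
    ∀ z, ‖fderiv ℝ g z‖ ≤ C := by
  let b : ContDiffBump (0 : ℂ) := ⟨5 / 4, 7 / 4, by norm_num, by norm_num⟩
  have h1 : ContDiff ℝ 2 b := b.contDiff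
  obtain ⟨g, hg, hg1⟩ := exists_grad h1
  have hb1 : ∀ z : ℂ, ‖z‖ < 5 / 4 → b z = 1 := by
    intro z hz
    apply b.one_of_mem_closedBall
    rw [mem_closedBall, dist_zero_right]
    exact hz.le
  have hb2 : ∀ z : ℂ, 7 / 4 < ‖z‖ → b z = 0 := by
    intro z hz
    apply b.zero_of_le_dist
    rw [dist_zero_right]
    exact hz.le
  have o1 : IsOpen {z : ℂ | ‖z‖ < 5 / 4} := isOpen_lt continuous_norm continuous_const
  have o2 : IsOpen {z : ℂ | 7 / 4 < ‖z‖} := isOpen_lt continuous_const continuous_norm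
  have hz1 : ∀ z : ℂ, ‖z‖ < 5 / 4 → g z = 0 := by
    intro z hz
    apply hg.zero_of_eventually (c := 1)
    filter_upwards [o1.mem_nhds hz] with w hw
    exact hb1 w hw
  have hz2 : ∀ z : ℂ, 7 / 4 < ‖z‖ → g z = 0 := by
    intro z hz
    apply hg.zero_of_eventually (c := 0)
    filter_upwards [o2.mem_nhds hz] with w hw
    exact hb2 w hw
  have hd1 : ∀ z : ℂ, ‖z‖ < 5 / 4 → fderiv ℝ g z = 0 := by
    intro z hz
    have h2 : g =ᶠ[nhds z] fun _ => 0 := by
      filter_upwards [o1.mem_nhds hz] with w hw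
      exact hz1 w hw
    rw [h2.fderiv_eq]
    simp
  have hd2 : ∀ z : ℂ, 7 / 4 < ‖z‖ → fderiv ℝ g z = 0 := by
    intro z hz
    have h2 : g =ᶠ[nhds z] fun _ => 0 := by
      filter_upwards [o2.mem_nhds hz] with w hw
      exact hz2 w hw
    rw [h2.fderiv_eq]
    simp
  have hgs : HasCompactSupport g := by
    refine HasCompactSupport.intro (isCompact_closedBall (0 : ℂ) 2) fun z hz => ?_
    rw [mem_closedBall, dist_zero_right, not_le] at hz
    exact hz2 z (by linarith)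
  obtain ⟨C1, hC1⟩ := hgs.exists_bound_of_continuous hg1.continuous
  obtain ⟨C2, hC2⟩ := (hgs.fderiv (𝕜 := ℝ)).exists_bound_of_continuous
    (hg1.continuous_fderiv one_ne_zero)
  refine ⟨b, g, max C1 C2, hg, hg1, ?_, ?_, ?_, ?_, ?_, ?_⟩
  · exact (norm_nonneg (g 0)).trans ((hC1 0).trans (le_max_left _ _))
  · intro z
    have h2 : 0 ≤ b z := b.nonneg
    have h3 : b z ≤ 1 := b.le_one
    rw [abs_le]
    constructor <;> linarith
  · exact fun z hz => ⟨hb1 z (by linarith), hz1 z (by linarith), hd1 z (by linarith)⟩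
  · exact fun z hz => ⟨hb2 z (by linarith), hz2 z (by linarith), hd2 z (by linarith)⟩
  · exact fun z => (hC1 z).trans (le_max_left _ _)
  · exact fun z => (hC2 z).trans (le_max_right _ _)

private lemma three_pow {p a b c : ℝ} (hp : 1 ≤ p) (ha : 0 ≤ a) (hb : 0 ≤ b) (hc : 0 ≤ c) :
    (a + b + c) ^ p ≤ 3 ^ p * (a ^ p + b ^ p + c ^ p) := by
  have hp0 : 0 ≤ p := by linarith
  have ha' := Real.rpow_nonneg ha p
  have hb' := Real.rpow_nonneg hb p
  have hc' := Real.rpow_nonneg hc p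
  have h3 : (0 : ℝ) ≤ 3 ^ p := by positivity
  have key : ∀ m : ℝ, 0 ≤ m → a ≤ m → b ≤ m → c ≤ m → (a + b + c) ^ p ≤ 3 ^ p * m ^ p := by
    intro m hm h1 h2 h3
    rw [← Real.mul_rpow (by norm_num) hm]
    exact Real.rpow_le_rpow (by positivity) (by linarith) hp0
  rcases le_total a b with h1 | h1
  · rcases le_total b c with h2 | h2
    · exact (key c hc (h1.trans h2) h2 le_rfl).trans (mul_le_mul_of_nonneg_left (by linarith) h3)
    · exact (key b hb h1 le_rfl h2).trans (mul_le_mul_of_nonneg_left (by linarith) h3)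
  · rcases le_total a c with h2 | h2
    · exact (key c hc h2 (h1.trans h2) le_rfl).trans (mul_le_mul_of_nonneg_left (by linarith) h3)
    · exact (key a ha le_rfl h1 h2).trans (mul_le_mul_of_nonneg_left (by linarith) h3)

private lemma pot_sub {φ : ℂ → ℝ} {f : ℂ → ℂ} (h : IsPot φ f) (c : ℂ) (c' : ℝ) :
    IsPot (fun z => φ z - dt z c - c') (fun z => f z - c) := by
  intro z
  have h1 : HasFDerivAt (fun z => dt z c) (innerSL ℝ c) z := by
    have e1 : (fun z => dt z c) = innerSL ℝ c := by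
      funext z
      simp [dt, innerSL_apply_apply]
    rw [e1]
    exact (innerSL ℝ c).hasFDerivAt
  have h2 := ((h z).sub h1).sub_const c'
  rwa [← map_sub] at h2

/-- the annulus -/
private def An (R : ℝ) : Set ℂ := {z : ℂ | R < ‖z‖ ∧ ‖z‖ < 2 * R}

private lemma An_meas (R : ℝ) : MeasurableSet (An R) := by
  have h1 : IsOpen {z : ℂ | R < ‖z‖} := isOpen_lt continuous_const continuous_norm
  have h2 : IsOpen {z : ℂ | ‖z‖ < 2 * R} := isOpen_lt continuous_norm continuous_const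
  exact (h1.inter h2).measurableSet

private lemma An_int {G : ℂ → ℝ} (hG : Continuous G) (R : ℝ) : IntegrableOn G (An R) := by
  refine (hG.continuousOn.integrableOn_compact (isCompact_closedBall (0 : ℂ) (2 * R))).mono_set ?_
  rintro z ⟨_, h2⟩
  rw [mem_closedBall, dist_zero_right]
  exact h2.le

private lemma double_poincare {p : ℝ} (hp : 1 ≤ p) : ∃ C : ℝ, 0 < C ∧ ∀ R : ℝ, 0 < R →
    ∀ (f : ℂ → ℂ) (φ : ℂ → ℝ), ContDiff ℝ 1 f → IsPot φ f → ∃ (c : ℂ) (c' : ℝ),
      ∫ z in An R, ‖f z - c‖ ^ p ≤ C * R ^ p * ∫ z in An R, ‖fderiv ℝ f z‖ ^ p ∧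
      ∫ z in An R, |φ z - dt z c - c'| ^ p ≤
        C * R ^ p * (C * R ^ p * ∫ z in An R, ‖fderiv ℝ f z‖ ^ p) := by
  obtain ⟨C, hC, hP⟩ := poincare_annulus hp
  refine ⟨C, hC, fun R hR f φ hf hφ => ?_⟩
  obtain ⟨c, hc⟩ := hP R hR f hf
  have hpot := pot_sub hφ c 0
  simp only [sub_zero] at hpot
  have hfc : Continuous fun z => f z - c := hf.continuous.sub continuous_const
  have hΦ1 : ContDiff ℝ 1 fun z => ((φ z - dt z c : ℝ) : ℂ) :=
    ofRealCLM.contDiff.comp (hpot.contDiff hfc)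
  have hΦ2 : ∀ z, ‖fderiv ℝ (fun z => ((φ z - dt z c : ℝ) : ℂ)) z‖ = ‖f z - c‖ := by
    intro z
    have h1 : HasFDerivAt (fun z => ((φ z - dt z c : ℝ) : ℂ))
        (ofRealCLM.comp (innerSL ℝ (f z - c))) z := ofRealCLM.hasFDerivAt.comp z (hpot z)
    rw [h1.fderiv]
    have h2 : ‖(ofRealCLM.comp (innerSL ℝ (f z - c)))‖ = ‖innerSL ℝ (f z - c)‖ := by
      apply le_antisymm
      · apply ContinuousLinearMap.opNorm_le_bound _ (norm_nonneg _)
        intro v
        rw [ContinuousLinearMap.comp_apply, ofRealCLM_apply, Complex.norm_real]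
        exact (innerSL ℝ (f z - c)).le_opNorm v
      · apply ContinuousLinearMap.opNorm_le_bound _ (norm_nonneg _)
        intro v
        have h3 := (ofRealCLM.comp (innerSL ℝ (f z - c))).le_opNorm v
        rwa [ContinuousLinearMap.comp_apply, ofRealCLM_apply, Complex.norm_real] at h3
    rw [h2, innerSL_apply_norm]
  obtain ⟨c₀, hc₀⟩ := hP R hR _ hΦ1
  simp only [hΦ2] at hc₀
  refine ⟨c, c₀.re, hc, ?_⟩
  have hCR : 0 ≤ C * R ^ p := by positivity
  calc ∫ z in An R, |φ z - dt z c - c₀.re| ^ p ≤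
      ∫ z in An R, ‖((φ z - dt z c : ℝ) : ℂ) - c₀‖ ^ p := by
        apply setIntegral_mono_on _ _ (An_meas R)
        · intro z _
          apply Real.rpow_le_rpow (abs_nonneg _) _ (by linarith)
          have h3 := Complex.abs_re_le_norm (((φ z - dt z c : ℝ) : ℂ) - c₀)
          rwa [sub_re, ofReal_re] at h3
        · apply An_int
          have h4 : Continuous fun z => |φ z - dt z c - c₀.re| :=
            ((hpot.contDiff hfc).continuous.sub continuous_const).abs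
          exact h4.rpow_const fun z => Or.inr (by linarith)
        · apply An_int
          have h4 : Continuous fun z => ‖((φ z - dt z c : ℝ) : ℂ) - c₀‖ :=
            (hΦ1.continuous.sub continuous_const).norm
          exact h4.rpow_const fun z => Or.inr (by linarith)
    _ ≤ C * R ^ p * ∫ z in An R, ‖f z - c‖ ^ p := hc₀
    _ ≤ _ := mul_le_mul_of_nonneg_left hc hCR

theorem cutoff {p : ℝ} (hp : 1 ≤ p) {f : ℂ → ℂ} (hf : ContDiff ℝ 1 f)
    (hsym : ∀ z, (dz f z).im = 0) (hL : MemLp (fun z => fderiv ℝ f z) (ENNReal.ofReal p))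
    {ε : ℝ} (hε : 0 < ε) :
    ∃ f' : ℂ → ℂ, ContDiff ℝ 1 f' ∧ HasCompactSupport f' ∧ (∀ z, (dz f' z).im = 0) ∧
      eLpNorm (fun z => fderiv ℝ f' z - fderiv ℝ f z) (ENNReal.ofReal p) ≤ ENNReal.ofReal ε := by
  have hp0 : 0 < p := by linarith
  obtain ⟨φ, hφ⟩ := exists_pot' hf hsym
  obtain ⟨χ, g, C₁, hχ, hg, hC0, hχ1, hin, hout, hgC, hdC⟩ := exists_bump
  obtain ⟨C, hC, hP⟩ := double_poincare hp
  have hfc : Continuous (fderiv ℝ f) := hf.continuous_fderiv one_ne_zero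
  -- the tail
  have hI : Integrable fun z => ‖fderiv ℝ f z‖ ^ p := by
    have h1 := hL.integrable_norm_rpow (by simpa using hp0) ENNReal.ofReal_ne_top
    rwa [ENNReal.toReal_ofReal hp0.le] at h1
  obtain ⟨K, hK⟩ : ∃ K : ℝ, K = 3 ^ p * (1 + (2 * C₁) ^ p * C + C₁ ^ p * C ^ 2) := ⟨_, rfl⟩
  have hK0 : 0 ≤ K := by rw [hK]; positivity
  have htail : Filter.Tendsto (fun n : ℕ => K * ∫ z in {z : ℂ | (n : ℝ) < ‖z‖}, ‖fderiv ℝ f z‖ ^ p)
      Filter.atTop (nhds 0) := by
    have h1 := tendsto_setIntegral_of_antitone (μ := volume)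
      (f := fun z => ‖fderiv ℝ f z‖ ^ p) (s := fun n : ℕ => {z : ℂ | (n : ℝ) < ‖z‖})
      (fun n => (isOpen_lt continuous_const continuous_norm).measurableSet)
      (fun m n hmn z hz => by
        have h2 : (m : ℝ) ≤ n := by exact_mod_cast hmn
        exact lt_of_le_of_lt h2 hz) ⟨0, hI.integrableOn⟩
    have h2 : ⋂ n : ℕ, {z : ℂ | (n : ℝ) < ‖z‖} = ∅ := by
      rw [eq_empty_iff_forall_notMem]
      intro z hz
      obtain ⟨n, hn⟩ := exists_nat_gt ‖z‖
      have h3 : (n : ℝ) < ‖z‖ := mem_iInter.1 hz n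
      linarith
    rw [h2, setIntegral_empty] at h1
    simpa using h1.const_mul K
  obtain ⟨N, hN⟩ := Filter.eventually_atTop.1 (htail.eventually (ge_mem_nhds
    (show (0 : ℝ) < ε ^ p by positivity)))
  have hN1 := hN (N + 1) (Nat.le_succ N)
  obtain ⟨R, hR⟩ : ∃ R : ℝ, R = ((N + 1 : ℕ) : ℝ) := ⟨_, rfl⟩
  have hR0 : 0 < R := by rw [hR]; positivity
  rw [← hR] at hN1
  obtain ⟨s, hs⟩ : ∃ s : ℝ, s = R⁻¹ := ⟨_, rfl⟩
  have hs0 : 0 < s := by rw [hs]; positivity
  have hsR : s * R = 1 := by rw [hs]; exact inv_mul_cancel₀ hR0.ne'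
  obtain ⟨c, c', hc1, hc2⟩ := hP R hR0 f φ hf hφ
  have hpot1 := pot_sub hφ c c'
  have hf1 : ContDiff ℝ 1 fun z => f z - c := hf.sub contDiff_const
  have hpotχ := hχ.scale s
  have hgs := scale_contDiff hg s
  have hdf : ∀ z, fderiv ℝ (fun z => f z - c) z = fderiv ℝ f z := fun z => fderiv_sub_const c
  have hnorm : ∀ z : ℂ, ‖s • z‖ = s * ‖z‖ := fun z => by
    rw [norm_smul, Real.norm_eq_abs, abs_of_pos hs0]
  have hsmall : ∀ z : ℂ, ‖z‖ ≤ R → ‖s • z‖ ≤ 1 := fun z hz => by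
    rw [hnorm, ← hsR]
    exact mul_le_mul_of_nonneg_left hz hs0.le
  have hlarge : ∀ z : ℂ, 2 * R ≤ ‖z‖ → 2 ≤ ‖s • z‖ := fun z hz => by
    rw [hnorm]
    have h1 := mul_le_mul_of_nonneg_left hz hs0.le
    have h2 : s * (2 * R) = 2 * (s * R) := by ring
    rw [h2, hsR] at h1
    linarith
  refine ⟨cut (fun z => χ (s • z)) (fun z => φ z - dt z c - c') (fun z => s • g (s • z))
    (fun z => f z - c), cut_contDiff hpot1 hpotχ hf1 hgs, ?_, cut_symm hpot1 hpotχ hf1 hgs, ?_⟩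
  · refine HasCompactSupport.intro (isCompact_closedBall (0 : ℂ) (2 * R)) fun z hz => ?_
    rw [mem_closedBall, dist_zero_right, not_le] at hz
    obtain ⟨h1, h2, -⟩ := hout _ (hlarge z hz.le)
    unfold cut
    simp only
    rw [h1, h2]
    simp
  · set h := cut (fun z => χ (s • z)) (fun z => φ z - dt z c - c') (fun z => s • g (s • z))
      (fun z => f z - c) with hh
    -- pointwise bounds
    have b0 := cut_fderiv hpot1 hpotχ hf1 hgs
    simp only [hdf] at b0
    rw [← hh] at b0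
    have d0 : ∀ z, fderiv ℝ g (s • z) = 0 → ‖fderiv ℝ (fun z => s • g (s • z)) z‖ = 0 := by
      intro z hz
      have h1 := scale_fderiv hg s z
      rw [hz, norm_zero, mul_zero] at h1
      exact le_antisymm h1 (norm_nonneg _)
    have b1 : ∀ z, ‖z‖ ≤ R → ‖fderiv ℝ h z - fderiv ℝ f z‖ = 0 := by
      intro z hz
      obtain ⟨h1, h2, h3⟩ := hin _ (hsmall z hz)
      have h4 := b0 z
      rw [d0 z h3, h1, h2] at h4
      simp only [sub_self, abs_zero, zero_mul, smul_zero, norm_zero, mul_zero, add_zero] at h4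
      exact le_antisymm h4 (norm_nonneg _)
    have b2 : ∀ z, 2 * R ≤ ‖z‖ → ‖fderiv ℝ h z - fderiv ℝ f z‖ ≤ ‖fderiv ℝ f z‖ := by
      intro z hz
      obtain ⟨h1, h2, h3⟩ := hout _ (hlarge z hz)
      have h4 := b0 z
      rw [d0 z h3, h1, h2] at h4
      simpa using h4
    have b3 : ∀ z, ‖fderiv ℝ h z - fderiv ℝ f z‖ ≤ ‖fderiv ℝ f z‖ +
        (2 * C₁ * s) * ‖f z - c‖ + (C₁ * s ^ 2) * |φ z - dt z c - c'| := by
      intro z
      have h1 := b0 z
      have h2 := scale_fderiv hg s z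
      have h3 : ‖s • g (s • z)‖ ≤ s * C₁ := by
        rw [norm_smul, Real.norm_eq_abs, abs_of_pos hs0]
        exact mul_le_mul_of_nonneg_left (hgC _) hs0.le
      have h4 : ‖fderiv ℝ (fun z => s • g (s • z)) z‖ ≤ s ^ 2 * C₁ :=
        h2.trans (mul_le_mul_of_nonneg_left (hdC _) (by positivity))
      have h5 : |χ (s • z) - 1| * ‖fderiv ℝ f z‖ ≤ 1 * ‖fderiv ℝ f z‖ :=
        mul_le_mul_of_nonneg_right (hχ1 _) (norm_nonneg _)
      have h6 : ‖f z - c‖ * ‖s • g (s • z)‖ ≤ ‖f z - c‖ * (s * C₁) :=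
        mul_le_mul_of_nonneg_left h3 (norm_nonneg _)
      have h7 : |φ z - dt z c - c'| * ‖fderiv ℝ (fun z => s • g (s • z)) z‖ ≤
          |φ z - dt z c - c'| * (s ^ 2 * C₁) := mul_le_mul_of_nonneg_left h4 (abs_nonneg _)
      nlinarith
    -- the majorant
    obtain ⟨α, hα⟩ : ∃ α : ℝ, α = (2 * C₁ * s) ^ p := ⟨_, rfl⟩
    obtain ⟨β, hβ⟩ : ∃ β : ℝ, β = (C₁ * s ^ 2) ^ p := ⟨_, rfl⟩
    have hα0 : 0 ≤ α := by rw [hα]; positivity
    have hβ0 : 0 ≤ β := by rw [hβ]; positivity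
    have h3p : (1 : ℝ) ≤ 3 ^ p := Real.one_le_rpow (by norm_num) hp0.le
    have hB : MeasurableSet {z : ℂ | R < ‖z‖} :=
      (isOpen_lt continuous_const continuous_norm).measurableSet
    have cf : Continuous fun z => ‖f z - c‖ ^ p :=
      (hf1.continuous.norm).rpow_const fun z => Or.inr hp0.le
    have cφ : Continuous fun z => |φ z - dt z c - c'| ^ p :=
      ((hpot1.contDiff hf1.continuous).continuous.abs).rpow_const fun z => Or.inr hp0.le
    have cG : Continuous fun z => α * ‖f z - c‖ ^ p + β * |φ z - dt z c - c'| ^ p :=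
      (continuous_const.mul cf).add (continuous_const.mul cφ)
    set G : ℂ → ℝ := fun z => 3 ^ p * ({z : ℂ | R < ‖z‖}.indicator (fun z => ‖fderiv ℝ f z‖ ^ p) z +
      (An R).indicator (fun z => α * ‖f z - c‖ ^ p + β * |φ z - dt z c - c'| ^ p) z) with hG
    have i1 : Integrable ({z : ℂ | R < ‖z‖}.indicator (fun z => ‖fderiv ℝ f z‖ ^ p)) :=
      hI.indicator hB
    have i2 : Integrable ((An R).indicator
        (fun z => α * ‖f z - c‖ ^ p + β * |φ z - dt z c - c'| ^ p)) :=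
      (integrable_indicator_iff (An_meas R)).2 (An_int cG R)
    have iG : Integrable G := (i1.add i2).const_mul (3 ^ p)
    have hG0 : ∀ z, 0 ≤ G z := by
      intro z
      rw [hG]
      apply mul_nonneg (by positivity)
      apply add_nonneg
      · exact indicator_nonneg (fun z _ => by positivity) z
      · exact indicator_nonneg (fun z _ => by positivity) z
    have hle : ∀ z, ‖fderiv ℝ h z - fderiv ℝ f z‖ ^ p ≤ G z := by
      intro z
      by_cases h1 : ‖z‖ ≤ R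
      · rw [b1 z h1, Real.zero_rpow hp0.ne']
        exact hG0 z
      · rw [not_le] at h1
        have m1 : z ∈ {z : ℂ | R < ‖z‖} := h1
        simp only [hG]
        rw [indicator_of_mem m1]
        by_cases h2 : ‖z‖ < 2 * R
        · have m2 : z ∈ An R := ⟨h1, h2⟩
          rw [indicator_of_mem m2]
          have h3 : ‖fderiv ℝ h z - fderiv ℝ f z‖ ^ p ≤ (‖fderiv ℝ f z‖ +
            (2 * C₁ * s) * ‖f z - c‖ + (C₁ * s ^ 2) * |φ z - dt z c - c'|) ^ p :=
            Real.rpow_le_rpow (norm_nonneg _) (b3 z) hp0.le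
          have h4 := three_pow hp (norm_nonneg (fderiv ℝ f z))
            (show 0 ≤ (2 * C₁ * s) * ‖f z - c‖ by positivity)
            (show 0 ≤ (C₁ * s ^ 2) * |φ z - dt z c - c'| by positivity)
          rw [Real.mul_rpow (by positivity) (norm_nonneg _),
            Real.mul_rpow (by positivity) (abs_nonneg _), ← hα, ← hβ] at h4
          calc _ ≤ _ := h3
            _ ≤ _ := h4
            _ = _ := by ring
        · rw [not_lt] at h2
          have m2 : z ∉ An R := fun h3 => absurd h3.2 (not_lt.2 h2)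
          rw [indicator_of_notMem m2, add_zero]
          have h3 : ‖fderiv ℝ h z - fderiv ℝ f z‖ ^ p ≤ ‖fderiv ℝ f z‖ ^ p :=
            Real.rpow_le_rpow (norm_nonneg _) (b2 z h2) hp0.le
          have h4 : 0 ≤ ‖fderiv ℝ f z‖ ^ p := by positivity
          nlinarith
    -- the integral of the majorant
    have hA_le : ∫ z in An R, ‖fderiv ℝ f z‖ ^ p ≤ ∫ z in {z : ℂ | R < ‖z‖}, ‖fderiv ℝ f z‖ ^ p := by
      apply setIntegral_mono_set hI.integrableOn
      · exact Filter.Eventually.of_forall fun z => by positivity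
      · exact Filter.Eventually.of_forall fun z hz => hz.1
    have hRp : 0 < R ^ p := by positivity
    have hsRp : s ^ p * R ^ p = 1 := by
      rw [← Real.mul_rpow hs0.le hR0.le, hsR, Real.one_rpow]
    have hα1 : α * (C * R ^ p) = (2 * C₁) ^ p * C := by
      rw [hα, Real.mul_rpow (by positivity) hs0.le]
      calc (2 * C₁) ^ p * s ^ p * (C * R ^ p) = (2 * C₁) ^ p * C * (s ^ p * R ^ p) := by ring
        _ = _ := by rw [hsRp, mul_one]
    have hβ1 : β * (C * R ^ p * (C * R ^ p)) = C₁ ^ p * C ^ 2 := by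
      rw [hβ, sq, Real.mul_rpow hC0 (by positivity), Real.mul_rpow hs0.le hs0.le]
      calc C₁ ^ p * (s ^ p * s ^ p) * (C * R ^ p * (C * R ^ p)) =
          C₁ ^ p * C ^ 2 * ((s ^ p * R ^ p) * (s ^ p * R ^ p)) := by ring
        _ = _ := by rw [hsRp, mul_one, mul_one]
    have hintG : ∫ z, G z ≤ K * ∫ z in {z : ℂ | R < ‖z‖}, ‖fderiv ℝ f z‖ ^ p := by
      have e1 : ∫ z, G z = 3 ^ p * ((∫ z in {z : ℂ | R < ‖z‖}, ‖fderiv ℝ f z‖ ^ p) +
          (α * (∫ z in An R, ‖f z - c‖ ^ p) + β * ∫ z in An R, |φ z - dt z c - c'| ^ p)) := by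
        rw [hG, integral_const_mul, integral_add i1 i2, integral_indicator hB,
          integral_indicator (An_meas R), integral_add ((An_int cf R).const_mul α)
            ((An_int cφ R).const_mul β), integral_const_mul, integral_const_mul]
      rw [e1, hK]
      have e2 := mul_le_mul_of_nonneg_left hc1 hα0
      have e3 := mul_le_mul_of_nonneg_left hc2 hβ0
      have e4 : α * (C * R ^ p * ∫ z in An R, ‖fderiv ℝ f z‖ ^ p) =
          (2 * C₁) ^ p * C * ∫ z in An R, ‖fderiv ℝ f z‖ ^ p := by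
        rw [← mul_assoc, hα1]
      have e5 : β * (C * R ^ p * (C * R ^ p * ∫ z in An R, ‖fderiv ℝ f z‖ ^ p)) =
          C₁ ^ p * C ^ 2 * ∫ z in An R, ‖fderiv ℝ f z‖ ^ p := by
        rw [← hβ1]
        ring
      rw [e4] at e2
      rw [e5] at e3
      have e6 : (2 * C₁) ^ p * C * (∫ z in An R, ‖fderiv ℝ f z‖ ^ p) ≤
          (2 * C₁) ^ p * C * ∫ z in {z : ℂ | R < ‖z‖}, ‖fderiv ℝ f z‖ ^ p :=
        mul_le_mul_of_nonneg_left hA_le (by positivity)
      have e7 : C₁ ^ p * C ^ 2 * (∫ z in An R, ‖fderiv ℝ f z‖ ^ p) ≤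
          C₁ ^ p * C ^ 2 * ∫ z in {z : ℂ | R < ‖z‖}, ‖fderiv ℝ f z‖ ^ p :=
        mul_le_mul_of_nonneg_left hA_le (by positivity)
      rw [mul_assoc]
      apply mul_le_mul_of_nonneg_left _ (by positivity)
      linarith
    have hfin : ∫ z, G z ≤ ε ^ p := hintG.trans hN1
    -- conclusion
    rw [eLpNorm_eq_lintegral_rpow_enorm_toReal (by simpa using hp0) ENNReal.ofReal_ne_top,
      ENNReal.toReal_ofReal hp0.le]
    have hl : ∫⁻ z, ‖fderiv ℝ h z - fderiv ℝ f z‖ₑ ^ p ≤ ENNReal.ofReal ε ^ p := by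
      calc ∫⁻ z, ‖fderiv ℝ h z - fderiv ℝ f z‖ₑ ^ p ≤ ∫⁻ z, ENNReal.ofReal (G z) := by
            apply lintegral_mono
            intro z
            simp only
            rw [← ofReal_norm, ENNReal.ofReal_rpow_of_nonneg (norm_nonneg _) hp0.le]
            exact ENNReal.ofReal_le_ofReal (hle z)
        _ = ENNReal.ofReal (∫ z, G z) :=
            (ofReal_integral_eq_lintegral_ofReal iG (Filter.Eventually.of_forall hG0)).symm
        _ ≤ ENNReal.ofReal (ε ^ p) := ENNReal.ofReal_le_ofReal hfin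
        _ = ENNReal.ofReal ε ^ p := (ENNReal.ofReal_rpow_of_nonneg hε.le hp0.le).symm
    calc (∫⁻ z, ‖fderiv ℝ h z - fderiv ℝ f z‖ₑ ^ p) ^ (1 / p) ≤
        (ENNReal.ofReal ε ^ p) ^ (1 / p) := ENNReal.rpow_le_rpow hl (by positivity)
      _ = ENNReal.ofReal ε := by
          rw [← ENNReal.rpow_mul, mul_one_div_cancel hp0.ne', ENNReal.rpow_one]

end Pool.Agent.Helper7.CT
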