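import Pool.Agent.Helper7.BU.Burk

/-!
# CT-W4: continuity of the Burkholder functional in `L^p`

PROOF. `|BF p z w| ≤ K (‖z‖ + ‖w‖)^p` and `BF p` is continuous. Enough: every subsequence has a further subsequence along which the integrals converge to the limit. Choose a subsequence with `Z_n → Z`, `W_n → W` almost everywhere
(`TendstoInMeasure.exists_seq_tendsto_ae`, `tendstoInMeasure_of_tendsto_eLpNorm`) and `∑ eLpNorm (Z_n - Z)`, `∑ eLpNorm (W_n - W)` finite; then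
`H = ‖Z‖ + ‖W‖ + ∑ (‖Z_n - Z‖ + ‖W_n - W‖)` is in `L^p` and dominates `‖Z_n‖ + ‖W_n‖`; dominated convergence with `K H^p`. (Alternative without subsequences: Vitali, or the pointwise inequality
`|BF p z w - BF p z' w'| ≤ K' (‖z-z'‖ + ‖w-w'‖) (‖z‖+‖w‖+‖z'‖+‖w'‖)^{p-1}` and Hölder.)
-/

set_option autoImplicit false

open MeasureTheory Metric Set Complex Filter Topology

namespace Pool.Agent.Helper7.CT

open Pool.Agent.Helper7.BU

lemma w4_pow {q s s' : ℝ} (hq : 0 < q) (h0 : 0 ≤ s') (h : s' ≤ s) :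
    s' * (s ^ q - s' ^ q) ≤ (1 + q) * (s - s') * s ^ q := by
  rcases (h0.trans h).eq_or_lt with hs | hs
  · have h1 : s' = 0 := le_antisymm (by rw [hs]; exact h) h0
    rw [h1, zero_mul, ← hs, sub_zero, mul_zero, zero_mul]
  set l := s' / s with hl
  have hl0 : 0 ≤ l := div_nonneg h0 hs.le
  have hl1 : l ≤ 1 := (div_le_one hs).2 h
  have e1 : s' = l * s := by rw [hl, div_mul_cancel₀ _ hs.ne']
  have e2 : s' ^ q = l ^ q * s ^ q := by rw [e1, Real.mul_rpow hl0 hs.le]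
  have hsq : 0 ≤ s ^ q := Real.rpow_nonneg hs.le q
  have hlq0 : 0 ≤ l ^ q := Real.rpow_nonneg hl0 q
  have hlq1 : l ^ q ≤ 1 := Real.rpow_le_one hl0 hl1 hq.le
  have key : 1 - l ^ q ≤ (1 + q) * (1 - l) := by
    rcases le_total q 1 with h1 | h1
    · have h2 : l ^ (1 : ℝ) ≤ l ^ q := Real.rpow_le_rpow_of_exponent_ge' hl0 hl1 hq.le h1
      rw [Real.rpow_one] at h2
      nlinarith
    · have h2 := one_add_mul_self_le_rpow_one_add (s := l - 1) (by linarith) h1
      have h3 : 1 + (l - 1) = l := by ring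
      rw [h3] at h2
      nlinarith
  have h4 : l * (1 - l ^ q) ≤ (1 + q) * (1 - l) := by nlinarith
  calc s' * (s ^ q - s' ^ q) = (l * (1 - l ^ q)) * (s * s ^ q) := by
        rw [e2, e1]
        ring
    _ ≤ ((1 + q) * (1 - l)) * (s * s ^ q) := mul_le_mul_of_nonneg_right h4 (by positivity)
    _ = (1 + q) * (s - s') * s ^ q := by
        rw [e1]
        ring

lemma w4_real' {a q x y x' y' : ℝ} (ha : 0 ≤ a) (hq : 0 < q) (hx : 0 ≤ x) (hy : 0 ≤ y)
    (hx' : 0 ≤ x') (hy' : 0 ≤ y') (h : x' + y' ≤ x + y) :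
    |(a * x - y) * (x + y) ^ q - (a * x' - y') * (x' + y') ^ q| ≤
      (a + 1) * (2 + q) * (|x - x'| + |y - y'|) * (x + y + (x' + y')) ^ q := by
  set s := x + y with hs
  set s' := x' + y' with hs'
  have hs0 : 0 ≤ s := by positivity
  have hs0' : 0 ≤ s' := by positivity
  have hsq : 0 ≤ s ^ q := Real.rpow_nonneg hs0 q
  have hmono : s' ^ q ≤ s ^ q := Real.rpow_le_rpow hs0' h hq.le
  have hmono2 : s ^ q ≤ (s + s') ^ q := Real.rpow_le_rpow hs0 (by linarith) hq.le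
  set d := |x - x'| + |y - y'| with hd
  have hd0 : 0 ≤ d := by positivity
  have h1 : |(a * x - y) - (a * x' - y')| ≤ (a + 1) * d := by
    have e : (a * x - y) - (a * x' - y') = a * (x - x') - (y - y') := by ring
    rw [e]
    calc |a * (x - x') - (y - y')| ≤ |a * (x - x')| + |y - y'| := abs_sub _ _
      _ = a * |x - x'| + |y - y'| := by rw [abs_mul, abs_of_nonneg ha]
      _ ≤ (a + 1) * d := by
        have := abs_nonneg (x - x')
        have := abs_nonneg (y - y')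
        rw [hd]
        nlinarith
  have h2 : |a * x' - y'| ≤ (a + 1) * s' := by
    rw [abs_le]
    constructor <;> nlinarith [mul_nonneg ha hx', mul_nonneg ha hy']
  have h3 : s - s' ≤ d := by
    have := le_abs_self (x - x')
    have := le_abs_self (y - y')
    rw [hd, hs, hs']
    linarith
  have h4 := w4_pow hq hs0' h
  have e1 : (a * x - y) * s ^ q - (a * x' - y') * s' ^ q =
      ((a * x - y) - (a * x' - y')) * s ^ q + (a * x' - y') * (s ^ q - s' ^ q) := by ring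
  rw [e1]
  calc |((a * x - y) - (a * x' - y')) * s ^ q + (a * x' - y') * (s ^ q - s' ^ q)| ≤
      |((a * x - y) - (a * x' - y')) * s ^ q| + |(a * x' - y') * (s ^ q - s' ^ q)| := abs_add_le _ _
    _ = |(a * x - y) - (a * x' - y')| * s ^ q + |a * x' - y'| * (s ^ q - s' ^ q) := by
        rw [abs_mul, abs_mul, abs_of_nonneg hsq, abs_of_nonneg (sub_nonneg.2 hmono)]
    _ ≤ (a + 1) * d * s ^ q + (a + 1) * s' * (s ^ q - s' ^ q) :=
        add_le_add (mul_le_mul_of_nonneg_right h1 hsq)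
          (mul_le_mul_of_nonneg_right h2 (sub_nonneg.2 hmono))
    _ = (a + 1) * d * s ^ q + (a + 1) * (s' * (s ^ q - s' ^ q)) := by ring
    _ ≤ (a + 1) * d * s ^ q + (a + 1) * ((1 + q) * (s - s') * s ^ q) :=
        add_le_add le_rfl (mul_le_mul_of_nonneg_left h4 (by linarith))
    _ ≤ (a + 1) * d * s ^ q + (a + 1) * ((1 + q) * d * s ^ q) := by
        refine add_le_add le_rfl (mul_le_mul_of_nonneg_left ?_ (by linarith))
        exact mul_le_mul_of_nonneg_right (mul_le_mul_of_nonneg_left h3 (by linarith)) hsq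
    _ = (a + 1) * (2 + q) * d * s ^ q := by ring
    _ ≤ (a + 1) * (2 + q) * d * (s + s') ^ q :=
        mul_le_mul_of_nonneg_left hmono2 (by positivity)

lemma w4_real {a q x y x' y' : ℝ} (ha : 0 ≤ a) (hq : 0 < q) (hx : 0 ≤ x) (hy : 0 ≤ y)
    (hx' : 0 ≤ x') (hy' : 0 ≤ y') :
    |(a * x - y) * (x + y) ^ q - (a * x' - y') * (x' + y') ^ q| ≤
      (a + 1) * (2 + q) * (|x - x'| + |y - y'|) * (x + y + (x' + y')) ^ q := by
  rcases le_total (x' + y') (x + y) with h | h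
  · exact w4_real' ha hq hx hy hx' hy' h
  · have h1 := w4_real' ha hq hx' hy' hx hy h
    rw [abs_sub_comm, abs_sub_comm x x', abs_sub_comm y y', add_comm (x + y)]
    exact h1

/-- the pointwise inequality for `BF` -/
lemma w4_BF {p : ℝ} (hp : 1 < p) : ∃ K : ℝ, 0 ≤ K ∧ ∀ z w z' w' : ℂ,
    |BF p z w - BF p z' w'| ≤ K * ((‖z - z'‖ + ‖w - w'‖) *
      (‖z‖ + ‖w‖ + (‖z'‖ + ‖w'‖)) ^ (p - 1)) := by
  set m := max p (p / (p - 1)) with hm
  set c := p * (1 - 1 / m) ^ (p - 1) with hc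
  have hm1 : 1 ≤ m := hp.le.trans (le_max_left _ _)
  refine ⟨|c| * ((m - 1 + 1) * (2 + (p - 1))), by
    have : 0 ≤ (m - 1 + 1) * (2 + (p - 1)) := mul_nonneg (by linarith) (by linarith)
    positivity, fun z w z' w' => ?_⟩
  have h1 := w4_real (a := m - 1) (q := p - 1) (by linarith) (by linarith) (norm_nonneg z)
    (norm_nonneg w) (norm_nonneg z') (norm_nonneg w')
  have e1 : BF p z w - BF p z' w' = c * (((m - 1) * ‖z‖ - ‖w‖) * (‖z‖ + ‖w‖) ^ (p - 1) -
      ((m - 1) * ‖z'‖ - ‖w'‖) * (‖z'‖ + ‖w'‖) ^ (p - 1)) := by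
    unfold BF
    rw [← hm]
    ring
  have h2 : |‖z‖ - ‖z'‖| ≤ ‖z - z'‖ := abs_norm_sub_norm_le _ _
  have h3 : |‖w‖ - ‖w'‖| ≤ ‖w - w'‖ := abs_norm_sub_norm_le _ _
  have h4 : 0 ≤ (‖z‖ + ‖w‖ + (‖z'‖ + ‖w'‖)) ^ (p - 1) := Real.rpow_nonneg (by positivity) _
  rw [e1, abs_mul]
  calc |c| * _ ≤ |c| * ((m - 1 + 1) * (2 + (p - 1)) * (|‖z‖ - ‖z'‖| + |‖w‖ - ‖w'‖|) *
        (‖z‖ + ‖w‖ + (‖z'‖ + ‖w'‖)) ^ (p - 1)) := mul_le_mul_of_nonneg_left h1 (abs_nonneg _)
    _ ≤ |c| * ((m - 1 + 1) * (2 + (p - 1)) * (‖z - z'‖ + ‖w - w'‖) *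
        (‖z‖ + ‖w‖ + (‖z'‖ + ‖w'‖)) ^ (p - 1)) := by
        refine mul_le_mul_of_nonneg_left ?_ (abs_nonneg _)
        refine mul_le_mul_of_nonneg_right ?_ h4
        exact mul_le_mul_of_nonneg_left (add_le_add h2 h3)
          (mul_nonneg (by linarith) (by linarith))
    _ = _ := by ring

lemma w4_BF_meas {p : ℝ} (hp : 1 < p) {Z W : ℂ → ℂ} (hZ : AEStronglyMeasurable Z)
    (hW : AEStronglyMeasurable W) : AEStronglyMeasurable (fun z => BF p (Z z) (W z)) := by
  have h1 : Continuous (fun x : ℂ × ℂ => BF p x.1 x.2) := by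
    unfold BF
    refine (continuous_const.mul ((continuous_const.mul continuous_fst.norm).sub
      continuous_snd.norm)).mul ?_
    exact (continuous_fst.norm.add continuous_snd.norm).rpow_const (fun _ => Or.inr (by linarith))
  exact h1.comp_aestronglyMeasurable (hZ.prodMk hW)

theorem BF_tendsto {p : ℝ} (hp : 1 < p) {Z W : ℂ → ℂ} {Zn Wn : ℕ → ℂ → ℂ}
    (hZ : MemLp Z (ENNReal.ofReal p)) (hW : MemLp W (ENNReal.ofReal p))
    (hZn : ∀ n, MemLp (Zn n) (ENNReal.ofReal p)) (hWn : ∀ n, MemLp (Wn n) (ENNReal.ofReal p))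
    (h1 : Tendsto (fun n => eLpNorm (fun z => Zn n z - Z z) (ENNReal.ofReal p)) atTop (𝓝 0))
    (h2 : Tendsto (fun n => eLpNorm (fun z => Wn n z - W z) (ENNReal.ofReal p)) atTop (𝓝 0)) :
    Tendsto (fun n => ∫ z, BF p (Zn n z) (Wn n z)) atTop (𝓝 (∫ z, BF p (Z z) (W z))) := by
  obtain ⟨K, hK0, hK⟩ := w4_BF hp
  set P := ENNReal.ofReal p with hP
  have hp0 : 0 < p := by linarith
  have hq0 : 0 < p - 1 := by linarith
  have hP1 : 1 ≤ P := by rw [hP, ← ENNReal.ofReal_one]; exact ENNReal.ofReal_le_ofReal hp.le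
  have hP0 : P ≠ 0 := (lt_of_lt_of_le one_pos hP1).ne'
  have hPt : P ≠ ⊤ := ENNReal.ofReal_ne_top
  have hPr : P.toReal = p := ENNReal.toReal_ofReal hp0.le
  -- integrability
  have hint : ∀ {Z W : ℂ → ℂ}, MemLp Z P → MemLp W P →
      Integrable (fun z => BF p (Z z) (W z)) := by
    intro Z W hZ hW
    have h3 : MemLp (fun z => ‖Z z‖ + ‖W z‖) P := hZ.norm.add hW.norm
    have h4 := h3.integrable_norm_rpow hP0 hPt
    rw [hPr] at h4
    refine (h4.const_mul K).mono (w4_BF_meas hp hZ.1 hW.1) (Eventually.of_forall fun z => ?_)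
    have h5 := hK (Z z) (W z) 0 0
    have h6 : BF p 0 0 = 0 := by
      unfold BF
      simp
    rw [h6, sub_zero, sub_zero, sub_zero, norm_zero, add_zero, add_zero] at h5
    have h7 : 0 ≤ ‖Z z‖ + ‖W z‖ := by positivity
    have h8 : (‖Z z‖ + ‖W z‖) * (‖Z z‖ + ‖W z‖) ^ (p - 1) = (‖Z z‖ + ‖W z‖) ^ p := by
      rcases h7.eq_or_lt with h9 | h9
      · rw [← h9, zero_mul, Real.zero_rpow hp0.ne']
      · rw [Real.rpow_sub_one h9.ne']
        field_simp
    rw [h8] at h5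
    rw [Real.norm_eq_abs, Real.norm_eq_abs, Real.norm_eq_abs, abs_of_nonneg h7,
      abs_of_nonneg (mul_nonneg hK0 (Real.rpow_nonneg h7 _))]
    exact h5
  refine tendsto_integral_of_L1' _ (hint hZ hW).1 (Eventually.of_forall fun n => hint (hZn n) (hWn n)) ?_
  -- the two factors
  let D : ℕ → ℂ → ℝ := fun n z => ‖Zn n z - Z z‖ + ‖Wn n z - W z‖
  let T : ℕ → ℂ → ℝ := fun n z => ‖Zn n z‖ + ‖Wn n z‖ + (‖Z z‖ + ‖W z‖)
  let S : ℂ → ℝ := fun z => (‖Z z‖ + ‖W z‖) + (‖Z z‖ + ‖W z‖)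
  have hDm : ∀ n, MemLp (D n) P := fun n => ((hZn n).sub hZ).norm.add ((hWn n).sub hW).norm
  have hTm : ∀ n, MemLp (T n) P := fun n =>
    ((hZn n).norm.add (hWn n).norm).add (hZ.norm.add hW.norm)
  have hSm : MemLp S P := (hZ.norm.add hW.norm).add (hZ.norm.add hW.norm)
  have hDlim : Tendsto (fun n => eLpNorm (D n) P) atTop (𝓝 0) := by
    have h3 : Tendsto (fun n => eLpNorm (fun z => Zn n z - Z z) P +
        eLpNorm (fun z => Wn n z - W z) P) atTop (𝓝 (0 + 0)) := h1.add h2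
    rw [add_zero] at h3
    refine tendsto_of_tendsto_of_tendsto_of_le_of_le tendsto_const_nhds h3 (fun n => zero_le)
      (fun n => ?_)
    have h4 := eLpNorm_add_le ((hZn n).sub hZ).norm.1 ((hWn n).sub hW).norm.1 hP1
    refine h4.trans (le_of_eq ?_)
    rw [eLpNorm_norm, eLpNorm_norm]
    rfl
  have hTle : ∀ n, eLpNorm (T n) P ≤ eLpNorm (D n) P + eLpNorm S P := by
    intro n
    refine le_trans ?_ (eLpNorm_add_le (hDm n).1 hSm.1 hP1)
    refine eLpNorm_mono (fun z => ?_)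
    have a1 : ‖Zn n z‖ ≤ ‖Zn n z - Z z‖ + ‖Z z‖ := by
      have := norm_add_le (Zn n z - Z z) (Z z)
      rwa [sub_add_cancel] at this
    have a2 : ‖Wn n z‖ ≤ ‖Wn n z - W z‖ + ‖W z‖ := by
      have := norm_add_le (Wn n z - W z) (W z)
      rwa [sub_add_cancel] at this
    show ‖T n z‖ ≤ ‖D n z + S z‖
    have b1 : 0 ≤ T n z := by positivity
    have b2 : 0 ≤ D n z + S z := by positivity
    rw [Real.norm_of_nonneg b1, Real.norm_of_nonneg b2]
    show ‖Zn n z‖ + ‖Wn n z‖ + (‖Z z‖ + ‖W z‖) ≤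
      ‖Zn n z - Z z‖ + ‖Wn n z - W z‖ + ((‖Z z‖ + ‖W z‖) + (‖Z z‖ + ‖W z‖))
    linarith
  -- Hölder
  set Q := ENNReal.ofReal (p / (p - 1)) with hQ
  have hhold : ENNReal.HolderTriple P Q 1 := by
    constructor
    rw [hP, hQ, ← ENNReal.ofReal_inv_of_pos hp0, ← ENNReal.ofReal_inv_of_pos (by positivity),
      ← ENNReal.ofReal_add (by positivity) (by positivity), inv_one, ← ENNReal.ofReal_one]
    congr 1
    field_simp
    ring
  have hQT : ∀ n, eLpNorm (fun z => ‖T n z‖ ^ (p - 1)) Q = eLpNorm (T n) P ^ (p - 1) := by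
    intro n
    rw [eLpNorm_norm_rpow _ hq0]
    congr 2
    rw [hQ, hP, ← ENNReal.ofReal_mul (by positivity)]
    congr 1
    field_simp
  have hbound : ∀ n, eLpNorm ((fun z => BF p (Zn n z) (Wn n z)) - fun z => BF p (Z z) (W z)) 1 ≤
      (K.toNNReal : ENNReal) * eLpNorm (D n) P * (eLpNorm (D n) P + eLpNorm S P) ^ (p - 1) := by
    intro n
    have hTq : AEStronglyMeasurable (fun z => ‖T n z‖ ^ (p - 1)) := by
      have : Continuous (fun x : ℝ => ‖x‖ ^ (p - 1)) :=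
        continuous_norm.rpow_const (fun _ => Or.inr hq0.le)
      exact this.comp_aestronglyMeasurable (hTm n).1
    have h3 := eLpNorm_le_eLpNorm_mul_eLpNorm'_of_norm (p := P) (q := Q) (r := 1) (hDm n).1 hTq
      (fun a b : ℝ => K * (a * b)) K.toNNReal (Eventually.of_forall fun z => by
        rw [norm_mul, norm_mul, Real.norm_of_nonneg hK0, Real.coe_toNNReal K hK0, mul_assoc])
    rw [hQT n] at h3
    refine le_trans (eLpNorm_mono (fun z => ?_)) (h3.trans ?_)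
    · show ‖BF p (Zn n z) (Wn n z) - BF p (Z z) (W z)‖ ≤ ‖K * (D n z * ‖T n z‖ ^ (p - 1))‖
      have b1 : 0 ≤ T n z := by positivity
      have b2 : 0 ≤ D n z := by positivity
      rw [Real.norm_of_nonneg b1, Real.norm_of_nonneg
        (mul_nonneg hK0 (mul_nonneg b2 (Real.rpow_nonneg b1 _)))]
      exact hK _ _ _ _
    · gcongr
      exact hTle n
  have hlim : Tendsto (fun n => (K.toNNReal : ENNReal) * eLpNorm (D n) P *
      (eLpNorm (D n) P + eLpNorm S P) ^ (p - 1)) atTop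
      (𝓝 ((K.toNNReal : ENNReal) * 0 * (0 + eLpNorm S P) ^ (p - 1))) := by
    have h3 : Tendsto (fun n => (K.toNNReal : ENNReal) * eLpNorm (D n) P) atTop
        (𝓝 ((K.toNNReal : ENNReal) * 0)) :=
      ENNReal.Tendsto.const_mul hDlim (Or.inr ENNReal.coe_ne_top)
    have h4 : Tendsto (fun n => (eLpNorm (D n) P + eLpNorm S P) ^ (p - 1)) atTop
        (𝓝 ((0 + eLpNorm S P) ^ (p - 1))) :=
      (ENNReal.continuous_rpow_const.tendsto _).comp (hDlim.add tendsto_const_nhds)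
    refine ENNReal.Tendsto.mul h3 (Or.inr ?_) h4 (Or.inr ?_)
    · rw [zero_add]
      exact (ENNReal.rpow_lt_top_of_nonneg hq0.le hSm.2.ne).ne
    · rw [mul_zero]
      exact ENNReal.zero_ne_top
  rw [mul_zero, zero_mul] at hlim
  exact tendsto_of_tendsto_of_tendsto_of_le_of_le tendsto_const_nhds hlim (fun n => zero_le) hbound

end Pool.Agent.Helper7.CT
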