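import Pool.Agent.Helper7.CT.P1
import Pool.Agent.Helper7.CT.W0
import Pool.Agent.Helper7.CT.W3
import Pool.Agent.Helper7.CT.W4

/-!
# CT-W5: the Burkholder functional, the homogeneous Sobolev space `W^{1,p}` of the plane

PROOF. `1 < p ≤ 2`: mollify (`exists_moll`, `moll_deriv`, `moll_Lp` for `fx`, `fy`): `F n` is `C¹`, `dz (F n)` is real, `fderiv (F n) · 1 → fx`, `fderiv (F n) · I → fy` in `L^p` and
`fderiv ℝ (F n)` is in `L^p` (`‖A‖ ≤ ‖A 1‖ + ‖A I‖`). `cutoff` with `ε = 1/(n+1)` gives `f'_n`, compactly supported, and `dz f'_n → (fx - I fy)/2`, `db f'_n → (fx + I fy)/2` in `L^p`. `plane_le_two` and `BF_tendsto`.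
`p ≥ 2`: apply the same to `conj f` with weak derivatives `conj fx`, `conj fy`: now `dz (conj f) = conj (db f)` is real. The approximations `g_n` of `conj f` are compactly supported `C¹` with `dz g_n` real; `conj g_n` has
`db (conj g_n) = conj (dz g_n)` real, `plane_ge_two` for `conj g_n` (`BU.dz_cj`, `BU.db_cj`), and `BF_tendsto`.
-/

set_option autoImplicit false

open MeasureTheory Metric Set Complex Filter Topology
open scoped ComplexConjugate

namespace Pool.Agent.Helper7.CT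

open Pool.Agent.Helper7.BU

private theorem opNorm37 (A : ℂ →L[ℝ] ℂ) : ‖A‖ ≤ ‖A 1‖ + ‖A I‖ := by
  refine A.opNorm_le_bound (by positivity) fun z => ?_
  have h1 : A z = z.re • A 1 + z.im • A I := by
    conv_lhs => rw [← Complex.re_add_im z]
    have h2 : ((z.re : ℂ) + (z.im : ℂ) * I) = z.re • (1 : ℂ) + z.im • I := by
      rw [Complex.real_smul, Complex.real_smul, mul_one]
    rw [h2, map_add, map_smul, map_smul]
  rw [h1]
  calc ‖z.re • A 1 + z.im • A I‖ ≤ ‖z.re • A 1‖ + ‖z.im • A I‖ := norm_add_le _ _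
    _ = |z.re| * ‖A 1‖ + |z.im| * ‖A I‖ := by rw [norm_smul, norm_smul]; rfl
    _ ≤ ‖z‖ * ‖A 1‖ + ‖z‖ * ‖A I‖ := by
        gcongr
        · exact Complex.abs_re_le_norm z
        · exact Complex.abs_im_le_norm z
    _ = (‖A 1‖ + ‖A I‖) * ‖z‖ := by ring

private theorem moll_int37 {ρ : ℕ → ℂ → ℝ} (hρ : IsMoll ρ) {g : ℂ → ℂ} (hg : LocallyIntegrable g)
    (n : ℕ) (z : ℂ) : Integrable (fun t => ((ρ n t : ℝ) : ℂ) * g (z - t)) := by
  have hc : Continuous (ρ n) := (hρ.smooth n).continuous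
  have hs : HasCompactSupport (ρ n) := by
    refine HasCompactSupport.intro (isCompact_closedBall (0 : ℂ) (1 / ((n : ℝ) + 1))) fun x hx => ?_
    rw [mem_closedBall, dist_zero_right, not_le] at hx
    exact hρ.supp n x hx.le
  have hs' : HasCompactSupport (fun s => ρ n (z - s)) :=
    hs.comp_homeomorph (Homeomorph.subLeft z)
  have h1 : Integrable (fun s => (ρ n (z - s)) • g s) :=
    hg.integrable_smul_left_of_hasCompactSupport (hc.comp (continuous_const.sub continuous_id)) hs'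
  have h2 := (integrable_comp_sub_left (fun s => (ρ n (z - s)) • g s) z).2 h1
  refine h2.congr (Eventually.of_forall fun t => ?_)
  change (ρ n (z - (z - t))) • g (z - t) = _
  rw [sub_sub_cancel, Complex.real_smul]

/-- Approximation of a gradient map with derivatives in `L^p` by compactly supported ones. -/
private theorem approx37 {p : ℝ} (hp : 1 ≤ p) {f fx fy : ℂ → ℂ}
    (hf : LocallyIntegrable f) (hfx : MemLp fx (ENNReal.ofReal p)) (hfy : MemLp fy (ENNReal.ofReal p))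
    (h1 : IsWD f fx 1) (h2 : IsWD f fy I) (hsym : ∀ᵐ z, ((fx z - I * fy z) / 2).im = 0) :
    ∃ G : ℕ → ℂ → ℂ, (∀ n, ContDiff ℝ 1 (G n)) ∧ (∀ n, HasCompactSupport (G n)) ∧
      (∀ n z, (dz (G n) z).im = 0) ∧ (∀ n, MemLp (dz (G n)) (ENNReal.ofReal p)) ∧
      (∀ n, MemLp (db (G n)) (ENNReal.ofReal p)) ∧
      Tendsto (fun n => eLpNorm (fun z => dz (G n) z - (fx z - I * fy z) / 2) (ENNReal.ofReal p))
        atTop (𝓝 0) ∧
      Tendsto (fun n => eLpNorm (fun z => db (G n) z - (fx z + I * fy z) / 2) (ENNReal.ofReal p))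
        atTop (𝓝 0) := by
  have hp1 : (1 : ENNReal) ≤ ENNReal.ofReal p := by
    rw [← ENNReal.ofReal_one]; exact ENNReal.ofReal_le_ofReal hp
  have hlx : LocallyIntegrable fx := hfx.locallyIntegrable hp1
  have hly : LocallyIntegrable fy := hfy.locallyIntegrable hp1
  obtain ⟨ρ, hρ⟩ := exists_moll
  obtain ⟨X, hX⟩ : ∃ X : ℕ → ℂ → ℂ, X = fun n z => ∫ t, ((ρ n t : ℝ) : ℂ) * fx (z - t) := ⟨_, rfl⟩
  obtain ⟨Y, hY⟩ : ∃ Y : ℕ → ℂ → ℂ, Y = fun n z => ∫ t, ((ρ n t : ℝ) : ℂ) * fy (z - t) := ⟨_, rfl⟩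
  obtain ⟨Fm, hFm⟩ : ∃ Fm : ℕ → ℂ → ℂ, Fm = fun n z => ∫ t, ((ρ n t : ℝ) : ℂ) * f (z - t) :=
    ⟨_, rfl⟩
  have hFC : ∀ n, ContDiff ℝ 1 (Fm n) := fun n => by
    rw [hFm]; exact (moll_deriv hρ hf hlx hly h1 h2 n).1
  have hFx : ∀ n z, fderiv ℝ (Fm n) z 1 = X n z := fun n z => by
    rw [hFm, hX]; exact (moll_deriv hρ hf hlx hly h1 h2 n).2.1 z
  have hFy : ∀ n z, fderiv ℝ (Fm n) z I = Y n z := fun n z => by
    rw [hFm, hY]; exact (moll_deriv hρ hf hlx hly h1 h2 n).2.2 z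
  have hXL : ∀ n, MemLp (X n) (ENNReal.ofReal p) := fun n => by
    rw [hX]; exact (moll_Lp hρ hp hfx).1 n
  have hYL : ∀ n, MemLp (Y n) (ENNReal.ofReal p) := fun n => by
    rw [hY]; exact (moll_Lp hρ hp hfy).1 n
  have hXt : Tendsto (fun n => eLpNorm (fun z => X n z - fx z) (ENNReal.ofReal p)) atTop (𝓝 0) := by
    rw [hX]; exact (moll_Lp hρ hp hfx).2
  have hYt : Tendsto (fun n => eLpNorm (fun z => Y n z - fy z) (ENNReal.ofReal p)) atTop (𝓝 0) := by
    rw [hY]; exact (moll_Lp hρ hp hfy).2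
  -- `dz (Fm n)` is real
  have hsymF : ∀ n z, (dz (Fm n) z).im = 0 := by
    intro n z
    unfold dz
    rw [hFx, hFy, hX, hY]
    have hi1 := moll_int37 hρ hlx n z
    have hi2 := moll_int37 hρ hly n z
    have e1 : ((∫ t, ((ρ n t : ℝ) : ℂ) * fx (z - t)) - I * ∫ t, ((ρ n t : ℝ) : ℂ) * fy (z - t)) / 2 =
        ∫ t, ((ρ n t : ℝ) : ℂ) * ((fx (z - t) - I * fy (z - t)) / 2) := by
      rw [← integral_const_mul, ← integral_sub hi1 (hi2.const_mul I), ← integral_div]
      refine integral_congr_ae (Eventually.of_forall fun t => ?_)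
      change (((ρ n t : ℝ) : ℂ) * fx (z - t) - I * (((ρ n t : ℝ) : ℂ) * fy (z - t))) / 2 =
        ((ρ n t : ℝ) : ℂ) * ((fx (z - t) - I * fy (z - t)) / 2)
      ring
    have hi3 : Integrable (fun t => ((ρ n t : ℝ) : ℂ) * ((fx (z - t) - I * fy (z - t)) / 2)) := by
      refine ((hi1.sub (hi2.const_mul I)).div_const 2).congr (Eventually.of_forall fun t => ?_)
      change (((ρ n t : ℝ) : ℂ) * fx (z - t) - I * (((ρ n t : ℝ) : ℂ) * fy (z - t))) / 2 =
        ((ρ n t : ℝ) : ℂ) * ((fx (z - t) - I * fy (z - t)) / 2)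
      ring
    change (((∫ t, ((ρ n t : ℝ) : ℂ) * fx (z - t)) -
      I * ∫ t, ((ρ n t : ℝ) : ℂ) * fy (z - t)) / 2).im = 0
    rw [e1]
    have h3 := integral_im hi3
    have h4 : ∀ᵐ t, RCLike.im (((ρ n t : ℝ) : ℂ) * ((fx (z - t) - I * fy (z - t)) / 2)) = 0 := by
      have h5 := (Measure.measurePreserving_sub_left (volume : Measure ℂ) z).quasiMeasurePreserving.ae hsym
      filter_upwards [h5] with t ht
      change (((ρ n t : ℝ) : ℂ) * ((fx (z - t) - I * fy (z - t)) / 2)).im = 0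
      rw [Complex.im_ofReal_mul, ht, mul_zero]
    rw [integral_congr_ae h4, integral_zero] at h3
    exact h3.symm
  -- the derivative is in `L^p`
  have hFL : ∀ n, MemLp (fun z => fderiv ℝ (Fm n) z) (ENNReal.ofReal p) := by
    intro n
    have hc : Continuous (fun z => fderiv ℝ (Fm n) z) := (hFC n).continuous_fderiv one_ne_zero
    refine MemLp.mono' (g := fun z => ‖X n z‖ + ‖Y n z‖) ((hXL n).norm.add (hYL n).norm)
      hc.aestronglyMeasurable (Eventually.of_forall fun z => ?_)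
    rw [← hFx, ← hFy]
    exact opNorm37 _
  have hcut : ∀ n : ℕ, ∃ f' : ℂ → ℂ, ContDiff ℝ 1 f' ∧ HasCompactSupport f' ∧
      (∀ z, (dz f' z).im = 0) ∧ eLpNorm (fun z => fderiv ℝ f' z - fderiv ℝ (Fm n) z)
        (ENNReal.ofReal p) ≤ ENNReal.ofReal (1 / ((n : ℝ) + 1)) := fun n =>
    cutoff hp (hFC n) (hsymF n) (hFL n) (by positivity)
  choose G hG1 hG2 hG3 hG4 using hcut
  have hGc : ∀ n, Continuous (fun z => fderiv ℝ (G n) z) := fun n =>
    (hG1 n).continuous_fderiv one_ne_zero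
  have hFc : ∀ n, Continuous (fun z => fderiv ℝ (Fm n) z) := fun n =>
    (hFC n).continuous_fderiv one_ne_zero
  have hGL : ∀ n, MemLp (fun z => fderiv ℝ (G n) z) (ENNReal.ofReal p) := by
    intro n
    have h3 : MemLp (fun z => fderiv ℝ (G n) z - fderiv ℝ (Fm n) z) (ENNReal.ofReal p) :=
      ⟨((hGc n).sub (hFc n)).aestronglyMeasurable, (hG4 n).trans_lt ENNReal.ofReal_lt_top⟩
    have h4 := h3.add (hFL n)
    refine h4.congr_norm (hGc n).aestronglyMeasurable (Eventually.of_forall fun z => ?_)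
    simp
  have hN1 : ∀ A : ℂ →L[ℝ] ℂ, ‖A 1‖ ≤ ‖A‖ := fun A => by
    have := A.le_opNorm 1
    rwa [norm_one, mul_one] at this
  have hNI : ∀ A : ℂ →L[ℝ] ℂ, ‖A I‖ ≤ ‖A‖ := fun A => by
    have := A.le_opNorm I
    rwa [Complex.norm_I, mul_one] at this
  have hhalf : ∀ a b : ℂ, ‖(a - I * b) / 2‖ ≤ (‖a‖ + ‖b‖) / 2 := fun a b => by
    rw [norm_div, Complex.norm_ofNat]
    have := norm_sub_le a (I * b)
    rw [norm_mul, Complex.norm_I, one_mul] at this
    linarith
  have hhalf' : ∀ a b : ℂ, ‖(a + I * b) / 2‖ ≤ (‖a‖ + ‖b‖) / 2 := fun a b => by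
    rw [norm_div, Complex.norm_ofNat]
    have := norm_add_le a (I * b)
    rw [norm_mul, Complex.norm_I, one_mul] at this
    linarith
  have hdzL : ∀ n, MemLp (dz (G n)) (ENNReal.ofReal p) := by
    intro n
    refine (hGL n).mono (dz_continuous (hG1 n)).aestronglyMeasurable
      (Eventually.of_forall fun z => ?_)
    unfold dz
    have := hhalf (fderiv ℝ (G n) z 1) (fderiv ℝ (G n) z I)
    have := hN1 (fderiv ℝ (G n) z)
    have := hNI (fderiv ℝ (G n) z)
    linarith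
  have hdbL : ∀ n, MemLp (db (G n)) (ENNReal.ofReal p) := by
    intro n
    refine (hGL n).mono (db_continuous (hG1 n)).aestronglyMeasurable
      (Eventually.of_forall fun z => ?_)
    unfold db
    have := hhalf' (fderiv ℝ (G n) z 1) (fderiv ℝ (G n) z I)
    have := hN1 (fderiv ℝ (G n) z)
    have := hNI (fderiv ℝ (G n) z)
    linarith
  -- the error
  obtain ⟨E, hE⟩ : ∃ E : ℕ → ENNReal, E = fun n : ℕ =>
      ENNReal.ofReal (1 / ((n : ℝ) + 1)) + (eLpNorm (fun z => X n z - fx z) (ENNReal.ofReal p) +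
        eLpNorm (fun z => Y n z - fy z) (ENNReal.ofReal p)) := ⟨_, rfl⟩
  have hE0 : Tendsto E atTop (𝓝 0) := by
    have h3 : Tendsto (fun n : ℕ => ENNReal.ofReal (1 / ((n : ℝ) + 1))) atTop (𝓝 0) := by
      have h4 := ENNReal.tendsto_ofReal (tendsto_one_div_add_atTop_nhds_zero_nat (𝕜 := ℝ))
      rwa [ENNReal.ofReal_zero] at h4
    have h5 := h3.add (hXt.add hYt)
    rw [add_zero, add_zero] at h5
    rw [hE]
    exact h5
  have hbound : ∀ (n : ℕ) (Q : ℂ → ℂ), (∀ z, ‖Q z‖ ≤ ‖fderiv ℝ (G n) z - fderiv ℝ (Fm n) z‖ +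
      (‖X n z - fx z‖ + ‖Y n z - fy z‖)) → eLpNorm Q (ENNReal.ofReal p) ≤ E n := by
    intro n Q hQ
    have m1 : AEStronglyMeasurable (fun z => ‖fderiv ℝ (G n) z - fderiv ℝ (Fm n) z‖) volume :=
      ((hGc n).sub (hFc n)).norm.aestronglyMeasurable
    have m2 : AEStronglyMeasurable (fun z => ‖X n z - fx z‖) volume :=
      ((hXL n).1.sub hfx.1).norm
    have m3 : AEStronglyMeasurable (fun z => ‖Y n z - fy z‖) volume :=
      ((hYL n).1.sub hfy.1).norm
    refine (eLpNorm_mono_real hQ).trans ?_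
    refine (eLpNorm_add_le m1 (m2.add m3) hp1).trans ?_
    rw [hE]
    refine add_le_add ?_ ((eLpNorm_add_le m2 m3 hp1).trans ?_)
    · rw [eLpNorm_norm]; exact hG4 n
    · rw [eLpNorm_norm, eLpNorm_norm]
  refine ⟨G, hG1, hG2, hG3, hdzL, hdbL, ?_, ?_⟩
  · refine tendsto_of_tendsto_of_tendsto_of_le_of_le tendsto_const_nhds hE0 (fun _ => zero_le)
      fun n => hbound n _ fun z => ?_
    have e1 : dz (G n) z - (fx z - I * fy z) / 2 =
        (((fderiv ℝ (G n) z - fderiv ℝ (Fm n) z) 1) - I * ((fderiv ℝ (G n) z -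
          fderiv ℝ (Fm n) z) I)) / 2 + ((X n z - fx z) - I * (Y n z - fy z)) / 2 := by
      unfold dz
      rw [← hFx, ← hFy, _root_.sub_apply, _root_.sub_apply]
      ring
    rw [e1]
    have b1 := norm_add_le ((((fderiv ℝ (G n) z - fderiv ℝ (Fm n) z) 1) - I * ((fderiv ℝ (G n) z -
          fderiv ℝ (Fm n) z) I)) / 2) (((X n z - fx z) - I * (Y n z - fy z)) / 2)
    have b2 := hhalf ((fderiv ℝ (G n) z - fderiv ℝ (Fm n) z) 1) ((fderiv ℝ (G n) z -
      fderiv ℝ (Fm n) z) I)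
    have b3 := hhalf (X n z - fx z) (Y n z - fy z)
    have b4 := hN1 (fderiv ℝ (G n) z - fderiv ℝ (Fm n) z)
    have b5 := hNI (fderiv ℝ (G n) z - fderiv ℝ (Fm n) z)
    have b6 := norm_nonneg (X n z - fx z)
    have b7 := norm_nonneg (Y n z - fy z)
    linarith
  · refine tendsto_of_tendsto_of_tendsto_of_le_of_le tendsto_const_nhds hE0 (fun _ => zero_le)
      fun n => hbound n _ fun z => ?_
    have e1 : db (G n) z - (fx z + I * fy z) / 2 =
        (((fderiv ℝ (G n) z - fderiv ℝ (Fm n) z) 1) + I * ((fderiv ℝ (G n) z -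
          fderiv ℝ (Fm n) z) I)) / 2 + ((X n z - fx z) + I * (Y n z - fy z)) / 2 := by
      unfold db
      rw [← hFx, ← hFy, _root_.sub_apply, _root_.sub_apply]
      ring
    rw [e1]
    have b1 := norm_add_le ((((fderiv ℝ (G n) z - fderiv ℝ (Fm n) z) 1) + I * ((fderiv ℝ (G n) z -
          fderiv ℝ (Fm n) z) I)) / 2) (((X n z - fx z) + I * (Y n z - fy z)) / 2)
    have b2 := hhalf' ((fderiv ℝ (G n) z - fderiv ℝ (Fm n) z) 1) ((fderiv ℝ (G n) z -
      fderiv ℝ (Fm n) z) I)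
    have b3 := hhalf' (X n z - fx z) (Y n z - fy z)
    have b4 := hN1 (fderiv ℝ (G n) z - fderiv ℝ (Fm n) z)
    have b5 := hNI (fderiv ℝ (G n) z - fderiv ℝ (Fm n) z)
    have b6 := norm_nonneg (X n z - fx z)
    have b7 := norm_nonneg (Y n z - fy z)
    linarith

private theorem memZ37 {p : ℝ} {fx fy : ℂ → ℂ} (hfx : MemLp fx (ENNReal.ofReal p))
    (hfy : MemLp fy (ENNReal.ofReal p)) :
    MemLp (fun z => (fx z - I * fy z) / 2) (ENNReal.ofReal p) ∧
      MemLp (fun z => (fx z + I * fy z) / 2) (ENNReal.ofReal p) := by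
  constructor
  · refine ((hfx.sub (hfy.const_mul I)).const_mul (1 / 2)).congr_norm ?_
      (Eventually.of_forall fun z => ?_)
    · exact (hfx.sub (hfy.const_mul I)).1.mul_const (1 / 2) |>.congr
        (Eventually.of_forall fun z => by simp only [Pi.sub_apply]; ring)
    · simp only [Pi.sub_apply]
      congr 1
      ring
  · refine ((hfx.add (hfy.const_mul I)).const_mul (1 / 2)).congr_norm ?_
      (Eventually.of_forall fun z => ?_)
    · exact (hfx.add (hfy.const_mul I)).1.mul_const (1 / 2) |>.congr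
        (Eventually.of_forall fun z => by simp only [Pi.add_apply]; ring)
    · simp only [Pi.add_apply]
      congr 1
      ring

theorem plane_W_le {p : ℝ} (hp : 1 < p) (hp2 : p ≤ 2) {f fx fy : ℂ → ℂ}
    (hf : LocallyIntegrable f) (hfx : MemLp fx (ENNReal.ofReal p)) (hfy : MemLp fy (ENNReal.ofReal p))
    (h1 : IsWD f fx 1) (h2 : IsWD f fy I) (hsym : ∀ᵐ z, ((fx z - I * fy z) / 2).im = 0) :
    0 ≤ ∫ z, BF p ((fx z - I * fy z) / 2) ((fx z + I * fy z) / 2) := by
  obtain ⟨G, hG1, hG2, hG3, hG4, hG5, hG6, hG7⟩ := approx37 hp.le hf hfx hfy h1 h2 hsym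
  have hZ := memZ37 hfx hfy
  have hlim := BF_tendsto hp hZ.1 hZ.2 hG4 hG5 hG6 hG7
  exact ge_of_tendsto' hlim fun n => plane_le_two hp hp2 (hG1 n) (hG2 n) (hG3 n)

private theorem BF_conj37 (p : ℝ) (a b : ℂ) : BF p (conj a) (conj b) = BF p a b := by
  unfold BF
  rw [RCLike.norm_conj, RCLike.norm_conj]

private theorem wd_conj37 {f g : ℂ → ℂ} {v : ℂ} (h : IsWD f g v) :
    IsWD (fun z => conj (f z)) (fun z => conj (g z)) v := by
  intro η h1 h2
  have h3 := congrArg conj (h η h1 h2)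
  rw [map_neg, ← integral_conj, ← integral_conj] at h3
  have e1 : ∀ (r : ℝ) (w : ℂ), conj ((r : ℂ) * w) = (r : ℂ) * conj w := fun r w => by
    rw [map_mul, Complex.conj_ofReal]
  simp only [e1] at h3
  exact h3

theorem plane_W_ge {p : ℝ} (hp : 2 ≤ p) {f fx fy : ℂ → ℂ}
    (hf : LocallyIntegrable f) (hfx : MemLp fx (ENNReal.ofReal p)) (hfy : MemLp fy (ENNReal.ofReal p))
    (h1 : IsWD f fx 1) (h2 : IsWD f fy I) (hsym : ∀ᵐ z, ((fx z + I * fy z) / 2).im = 0) :
    0 ≤ ∫ z, BF p ((fx z - I * fy z) / 2) ((fx z + I * fy z) / 2) := by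
  have hp1 : 1 < p := by linarith
  have c2 : conj (2 : ℂ) = 2 := map_ofNat (starRingEnd ℂ) 2
  have cI : ∀ a b : ℂ, (conj a - I * conj b) / 2 = conj ((a + I * b) / 2) := fun a b => by
    rw [map_div₀, map_add, map_mul, Complex.conj_I, c2]; ring
  have cI' : ∀ a b : ℂ, (conj a + I * conj b) / 2 = conj ((a - I * b) / 2) := fun a b => by
    rw [map_div₀, map_sub, map_mul, Complex.conj_I, c2]; ring
  have hcf : LocallyIntegrable (fun z => conj (f z)) := by
    intro x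
    obtain ⟨s, hs, hi⟩ := hf x
    refine ⟨s, hs, ?_⟩
    exact (Complex.conjCLE.toContinuousLinearMap.integrable_comp hi)
  have hcL : ∀ {g : ℂ → ℂ}, MemLp g (ENNReal.ofReal p) →
      MemLp (fun z => conj (g z)) (ENNReal.ofReal p) := fun {g} hg => by
    refine hg.congr_norm ?_ (Eventually.of_forall fun z => ?_)
    · exact Complex.continuous_conj.comp_aestronglyMeasurable hg.1
    · rw [RCLike.norm_conj]
  have hsym' : ∀ᵐ z, ((conj (fx z) - I * conj (fy z)) / 2).im = 0 := by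
    filter_upwards [hsym] with z hz
    rw [cI, Complex.conj_im, hz, neg_zero]
  obtain ⟨G, hG1, hG2, hG3, hG4, hG5, hG6, hG7⟩ := approx37 hp1.le hcf (hcL hfx) (hcL hfy)
    (wd_conj37 h1) (wd_conj37 h2) hsym'
  have hZ := memZ37 hfx hfy
  have hcG1 : ∀ n, ContDiff ℝ 1 (fun z => conj (G n z)) := fun n =>
    Complex.conjCLE.contDiff.comp (hG1 n)
  have hcG2 : ∀ n, HasCompactSupport (fun z => conj (G n z)) := fun n =>
    (hG2 n).comp_left (g := fun w : ℂ => conj w) (map_zero _)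
  have hdz : ∀ n z, dz (fun z => conj (G n z)) z = conj (db (G n) z) := fun n z => dz_cj (hG1 n) z
  have hdb : ∀ n z, db (fun z => conj (G n z)) z = conj (dz (G n) z) := fun n z => db_cj (hG1 n) z
  have hpos : ∀ n, 0 ≤ ∫ z, BF p (dz (fun z => conj (G n z)) z) (db (fun z => conj (G n z)) z) :=
    fun n => plane_ge_two hp (hcG1 n) (hcG2 n) fun z => by
      rw [hdb, Complex.conj_im, hG3, neg_zero]
  have hlim := BF_tendsto hp1 (Z := fun z => (fx z - I * fy z) / 2)
    (W := fun z => (fx z + I * fy z) / 2) (Zn := fun n z => conj (db (G n) z))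
    (Wn := fun n z => conj (dz (G n) z)) hZ.1 hZ.2 (fun n => hcL (hG5 n)) (fun n => hcL (hG4 n))
    (by
      refine hG7.congr fun n => eLpNorm_congr_norm_ae (Eventually.of_forall fun z => ?_)
      rw [cI', ← RCLike.norm_conj, map_sub, Complex.conj_conj])
    (by
      refine hG6.congr fun n => eLpNorm_congr_norm_ae (Eventually.of_forall fun z => ?_)
      rw [cI, ← RCLike.norm_conj, map_sub, Complex.conj_conj])
  refine ge_of_tendsto' hlim fun n => ?_
  have h3 := hpos n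
  simp only [hdz, hdb] at h3
  exact h3

end Pool.Agent.Helper7.CT
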